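import Pool.Agent.Lib.MP_356dfe_ag.R.PRk

-- part Pool.Agent.Lib.MP_356dfe_ag.R.PFam
section

/-! Part Fam of the resolution of surface singularities. -/

set_option autoImplicit false

open Set Filter Topology Metric
open scoped ContDiff

noncomputable section

namespace Pool.Agent.Lib.MP_356dfe_ag.R

open S (E2)

namespace PFam

open Polynomial

/-- vanishing to order `m` at the origin -/
def Ov (m : ℕ) (f : ℂ → ℂ) : Prop :=
  ∃ g, AnalyticAt ℂ g 0 ∧ ∀ᶠ z in 𝓝 (0 : ℂ), f z = z ^ m * g z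

/-- polynomial functions of degree at most `k` -/
def Pol (k : ℕ) (f : ℂ → ℂ) : Prop := ∃ p : ℂ[X], p.natDegree ≤ k ∧ ∀ t, f t = p.eval t

/-- analytic on the disc and zero at the centre -/
def Gd (ρ : ℝ) (f : ℂ → ℂ) : Prop := f 0 = 0 ∧ ∀ t : ℂ, ‖t‖ < ρ → AnalyticAt ℂ f t

variable {m k n : ℕ} {f g : ℂ → ℂ} {ρ : ℝ} {ζ : ℂ}

theorem Ov.le (h : Ov m f) : (m : ℕ∞) ≤ analyticOrderAt f 0 := by
  obtain ⟨g, h1, h2⟩ := h
  have h3 : AnalyticAt ℂ f 0 :=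
    ((analyticAt_id.pow m).mul h1).congr (h2.mono fun z a => a.symm)
  exact (natCast_le_analyticOrderAt h3).2 ⟨g, h1, h2.mono fun z a => by simpa using a⟩

theorem Ov.sub (h : Ov m f) (h' : Ov m g) : Ov m fun t => f t - g t := by
  obtain ⟨a, h1, h2⟩ := h
  obtain ⟨b, h3, h4⟩ := h'
  exact ⟨fun t => a t - b t, h1.sub h3, (h2.and h4).mono fun z c => by
    simp only [c.1, c.2]
    ring⟩

theorem Ov.mono (h : Ov m f) (hk : k ≤ m) : Ov k f := by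
  obtain ⟨a, h1, h2⟩ := h
  obtain ⟨j, rfl⟩ := Nat.exists_eq_add_of_le hk
  exact ⟨fun t => t ^ j * a t, (analyticAt_id.pow j).mul h1, h2.mono fun z c => by
    rw [c, pow_add, mul_assoc]⟩

theorem Ov.rot (h : Ov m f) (ζ : ℂ) : Ov m fun t => f (ζ * t) := by
  obtain ⟨a, h1, h2⟩ := h
  have h3 : AnalyticAt ℂ (fun t : ℂ => ζ * t) 0 := analyticAt_const.mul analyticAt_id
  have h4 : Tendsto (fun t : ℂ => ζ * t) (𝓝 0) (𝓝 0) := by
    simpa using h3.continuousAt.tendsto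
  refine ⟨fun t => ζ ^ m * a (ζ * t), analyticAt_const.mul (h1.comp_of_eq h3 (mul_zero ζ)),
    (h4.eventually h2).mono fun z c => ?_⟩
  simp only [c, mul_pow]
  ring

theorem Pol.an (h : Pol k f) (t : ℂ) : AnalyticAt ℂ f t := by
  obtain ⟨p, -, h⟩ := h
  rw [show f = fun t => p.eval t from funext h]
  exact p.differentiable.analyticAt t

theorem Pol.mono (h : Pol k f) (hk : k ≤ m) : Pol m f :=
  let ⟨p, h1, h2⟩ := h
  ⟨p, h1.trans hk, h2⟩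

theorem Pol.rot (h : Pol k f) (ζ : ℂ) : Pol k fun t => f (ζ * t) := by
  obtain ⟨p, h1, h2⟩ := h
  refine ⟨p.comp (C ζ * X), natDegree_comp_le.trans ?_, fun t => by simp [h2]⟩
  exact (Nat.mul_le_mul h1 ((natDegree_C_mul_le _ _).trans natDegree_X_le)).trans (by simp)

theorem Pol.sub (h : Pol k f) (h' : Pol k g) : Pol k fun t => f t - g t := by
  obtain ⟨p, h1, h2⟩ := h
  obtain ⟨q, h3, h4⟩ := h'
  exact ⟨p - q, (natDegree_sub_le _ _).trans (max_le h1 h3), fun t => by simp [h2, h4]⟩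

theorem Pol.zero (h : Pol k f) (h' : ((k + 1 : ℕ) : ℕ∞) ≤ analyticOrderAt f 0) (t : ℂ) :
    f t = 0 := by
  have ha := h.an 0
  obtain ⟨p, h1, h2⟩ := h
  by_cases hp : p = 0
  · simp [h2, hp]
  obtain ⟨q, h3, h4⟩ := exists_eq_pow_rootMultiplicity_mul_and_not_dvd p hp 0
  have h5 : p.rootMultiplicity 0 ≤ p.natDegree := by
    simpa using natDegree_le_of_dvd (pow_rootMultiplicity_dvd p 0) hp
  have h6 : analyticOrderAt f 0 = (p.rootMultiplicity 0 : ℕ) :=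
    ha.analyticOrderAt_eq_natCast.2 ⟨fun t => q.eval t, q.differentiable.analyticAt 0,
      fun e => h4 (dvd_iff_isRoot.2 e), .of_forall fun z => by
        rw [h2]
        conv_lhs => rw [h3]
        simp⟩
  rw [h6, Nat.cast_le] at h'
  omega

theorem Pol.red (h : Pol k f) : Red n k ρ f := fun ζ _ h' t _ =>
  sub_eq_zero.1 (((h.rot ζ).sub h).zero h' t)

/-- Taylor polynomials -/
theorem taylor (hf : AnalyticAt ℂ f 0) (k : ℕ) :
    ∃ g, Pol k g ∧ Ov (k + 1) fun t => f t - g t := by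
  obtain ⟨F, h1, h2⟩ := hf.exists_eventuallyEq_sum_add_pow_mul (k + 1)
  refine ⟨fun z => ∑ i ∈ .range (k + 1), (z ^ i / i.factorial) • iteratedDeriv i f 0,
    ⟨∑ i ∈ .range (k + 1), C (iteratedDeriv i f 0 / i.factorial) * X ^ i,
      natDegree_sum_le_of_forall_le _ _ fun i hi => (natDegree_C_mul_X_pow_le _ _).trans
        (Nat.lt_succ_iff.1 (Finset.mem_range.1 hi)), fun t => ?_⟩, F, h1, h2.mono fun z a => ?_⟩
  · rw [eval_finsetSum]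
    refine Finset.sum_congr rfl fun i _ => ?_
    simp only [smul_eq_mul, eval_mul, eval_C, eval_pow, eval_X]
    ring
  · exact sub_eq_iff_eq_add'.2 a

theorem Gd.rot (hn : 0 < n) (h : Gd ρ f) (hζ : ζ ^ n = 1) : Gd ρ fun t => f (ζ * t) := by
  have h1 : ‖ζ‖ = 1 := Complex.norm_eq_one_of_pow_eq_one hζ hn.ne'
  refine ⟨by simpa using h.1, fun t ht => ?_⟩
  exact (h.2 (ζ * t) (by rwa [norm_mul, h1, one_mul])).comp_of_eq
    (analyticAt_const.mul analyticAt_id) rfl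

/-- a bound for the finite orders of contact -/
theorem bound (hρ : 0 < ρ) (Φ : Finset (ℂ → ℂ)) (h : ∀ φ ∈ Φ, Gd ρ φ) : ∃ K : ℕ, ∀ φ ∈ Φ,
    ∀ ψ ∈ Φ, (∀ t : ℂ, ‖t‖ < ρ → φ t = ψ t) ∨
      analyticOrderAt (fun t => φ t - ψ t) 0 ≤ (K : ℕ∞) := by
  refine ⟨(Φ ×ˢ Φ).sup fun p => (analyticOrderAt (fun t => p.1 t - p.2 t) 0).toNat,
    fun φ h1 ψ h2 => ?_⟩
  by_cases h3 : analyticOrderAt (fun t => φ t - ψ t) 0 = ⊤
  · refine .inl fun t ht => sub_eq_zero.1 ?_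
    exact AnalyticOnNhd.eqOn_zero_of_preconnected_of_eventuallyEq_zero
      (f := fun t => φ t - ψ t) (U := ball 0 ρ)
      (fun s hs => ((h φ h1).2 s (mem_ball_zero_iff.1 hs)).sub ((h ψ h2).2 s
        (mem_ball_zero_iff.1 hs))) (convex_ball 0 ρ).isPreconnected (mem_ball_self hρ)
      (analyticOrderAt_eq_top.1 h3) (mem_ball_zero_iff.2 ht)
  · refine .inr ?_
    rw [← ENat.natCast_toNat h3, Nat.cast_le]
    exact Finset.le_sup (f := fun p : (ℂ → ℂ) × (ℂ → ℂ) =>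
      (analyticOrderAt (fun t => p.1 t - p.2 t) 0).toNat) (b := (φ, ψ))
      (Finset.mem_product.2 ⟨h1, h2⟩)

/-- closure under rotations -/
theorem rc (hn : 0 < n) (Ψ : Finset (ℂ → ℂ)) : ∃ Φ : Finset (ℂ → ℂ),
    ∀ φ, φ ∈ Φ ↔ ∃ ψ ∈ Ψ, ∃ ζ : ℂ, ζ ^ n = 1 ∧ φ = fun t => ψ (ζ * t) := by
  classical
  refine ⟨(Ψ ×ˢ nthRootsFinset n (1 : ℂ)).image fun p t => p.1 (p.2 * t), fun φ => ?_⟩
  simp only [Finset.mem_image, Finset.mem_product, mem_nthRootsFinset hn, Prod.exists]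
  exact ⟨fun ⟨a, b, c, d⟩ => ⟨a, c.1, b, c.2, d.symm⟩, fun ⟨a, b, c, d, e⟩ => ⟨a, c, ⟨b, d⟩, e.symm⟩⟩

theorem rc_rot {Ψ Φ : Finset (ℂ → ℂ)}
    (h : ∀ φ, φ ∈ Φ ↔ ∃ ψ ∈ Ψ, ∃ ζ : ℂ, ζ ^ n = 1 ∧ φ = fun t => ψ (ζ * t)) (hf : f ∈ Φ)
    (hζ : ζ ^ n = 1) : (fun t => f (ζ * t)) ∈ Φ := by
  obtain ⟨ψ, h1, η, h2, rfl⟩ := (h f).1 hf
  exact (h _).2 ⟨ψ, h1, η * ζ, by rw [mul_pow, h2, hζ, one_mul], by simp only [mul_assoc]⟩

theorem rc_sub {Ψ Φ : Finset (ℂ → ℂ)}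
    (h : ∀ φ, φ ∈ Φ ↔ ∃ ψ ∈ Ψ, ∃ ζ : ℂ, ζ ^ n = 1 ∧ φ = fun t => ψ (ζ * t)) (hf : f ∈ Ψ) :
    f ∈ Φ :=
  (h _).2 ⟨f, hf, 1, one_pow n, by simp only [one_mul]⟩

end PFam

open PFam in
theorem famEx : FamEx := by
  classical
  intro n ρ Φ₀ hn hρ h0
  obtain ⟨Φ₁, h1⟩ := rc hn (insert (fun _ => 0) Φ₀)
  have g1 : ∀ φ ∈ Φ₁, Gd ρ φ := fun φ hφ => by
    obtain ⟨ψ, a, ζ, b, rfl⟩ := (h1 φ).1 hφ
    refine Gd.rot hn ?_ b
    rcases Finset.mem_insert.1 a with rfl | a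
    · exact ⟨rfl, fun _ _ => analyticAt_const⟩
    · exact h0 ψ a
  obtain ⟨K₁, hK₁⟩ := bound hρ Φ₁ g1
  have hT : ∀ (φ : ℂ → ℂ) (k : ℕ), ∃ g, φ ∈ Φ₁ → Pol k g ∧ Ov (k + 1) fun t => φ t - g t :=
    fun φ k => by
      by_cases h : φ ∈ Φ₁
      · obtain ⟨g, hg⟩ := taylor ((g1 φ h).2 0 (by simpa using hρ)) k
        exact ⟨g, fun _ => hg⟩
      · exact ⟨0, fun a => absurd a h⟩
  choose T hT using hT
  obtain ⟨Φ₂, h2⟩ := rc hn ((Φ₁ ×ˢ Finset.range K₁).image fun p => T p.1 p.2)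
  have h3 : ∀ φ, φ ∈ Φ₂ ↔ ∃ ψ ∈ Φ₁, ∃ j < K₁, ∃ ζ : ℂ, ζ ^ n = 1 ∧ φ = fun t => T ψ j (ζ * t) :=
    fun φ => by
      rw [h2]
      simp only [Finset.mem_image, Finset.mem_product, Finset.mem_range, Prod.exists]
      exact ⟨fun ⟨_, ⟨a, b, c, rfl⟩, d⟩ => ⟨a, c.1, b, c.2, d⟩,
        fun ⟨a, b, c, d, e⟩ => ⟨_, ⟨a, c, ⟨b, d⟩, rfl⟩, e⟩⟩
  have g2 : ∀ φ ∈ Φ₁ ∪ Φ₂, Gd ρ φ := fun φ hφ => by
    rcases Finset.mem_union.1 hφ with a | a
    · exact g1 φ a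
    obtain ⟨ψ, b, j, -, ζ, c, rfl⟩ := (h3 φ).1 a
    obtain ⟨d, F, -, e⟩ := hT ψ j b
    refine Gd.rot hn ⟨?_, fun t _ => d.an t⟩ c
    simpa [(g1 ψ b).1] using e.self_of_nhds
  obtain ⟨K, hK⟩ := bound hρ _ g2
  have o0 : ∀ (φ : ℂ → ℂ) (k : ℕ), ((k + 1 : ℕ) : ℕ∞) ≤ analyticOrderAt (fun t => φ t - φ t) 0 :=
    fun φ k => Ov.le ⟨fun _ => 0, analyticAt_const, .of_forall fun z => by simp⟩
  refine ⟨K, Φ₁ ∪ Φ₂, fun φ hφ => Finset.mem_union_left _ (rc_sub h1 (Finset.mem_insert_of_mem hφ)),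
    hn, hρ, ⟨_, Finset.mem_union_left _ (rc_sub h1 (Finset.mem_insert_self _ _))⟩, g2,
    fun φ hφ ζ hζ => ?_, hK, fun φ hφ k _ => ?_⟩
  · exact Finset.mem_union.2 ((Finset.mem_union.1 hφ).imp (rc_rot h1 · hζ) (rc_rot h2 · hζ))
  rcases Finset.mem_union.1 hφ with a | a
  · rcases lt_or_ge k K₁ with hk | hk
    · exact ⟨T φ k, Finset.mem_union_right _ ((h3 _).2 ⟨φ, a, k, hk, 1, one_pow n,
        by simp only [one_mul]⟩), (hT φ k a).2.le, (hT φ k a).1.red⟩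
    · refine ⟨φ, hφ, o0 φ k, fun ζ hζ b => (hK₁ _ (rc_rot h1 a hζ) φ a).resolve_right fun c => ?_⟩
      have := b.trans c
      rw [Nat.cast_le] at this
      omega
  · obtain ⟨ψ, b, j, hj, ζ, c, rfl⟩ := (h3 φ).1 a
    rcases lt_or_ge k j with hk | hk
    · refine ⟨fun t => T ψ k (ζ * t), Finset.mem_union_right _ ((h3 _).2 ⟨ψ, b, k, hk.trans hj,
        ζ, c, rfl⟩), ?_, ((hT ψ k b).1.rot ζ).red⟩
      have := (((hT ψ k b).2.sub ((hT ψ j b).2.mono (by omega))).rot ζ).le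
      simpa only [sub_sub_sub_cancel_left] using this
    · exact ⟨_, hφ, o0 _ k, (((hT ψ j b).1.rot ζ).mono hk).red⟩

end Pool.Agent.Lib.MP_356dfe_ag.R
end
end

-- part Pool.Agent.Lib.MP_356dfe_ag.R.PBg
section

/-! Part Bg of the resolution of surface singularities. -/

set_option autoImplicit false

open Set Filter Topology Metric
open scoped ContDiff

noncomputable section

namespace Pool.Agent.Lib.MP_356dfe_ag.R

open S (E2)

theorem bgEx (hd : Desc) : BgEx := by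
  intro n K ρ₀ Φ fa
  classical
  have rad : ∀ t : ℂ, ‖t ^ n‖ < ρ₀ ^ n → ‖t‖ < ρ₀ := fun t h =>
    lt_of_pow_lt_pow_left₀ n fa.pos.le (norm_pow t n ▸ h)
  have r0 : ∀ u, ‖rr n u‖ < ρ₀ ^ n → ‖u 0‖ < ρ₀ := fun u h =>
    rad _ ((norm_le_pi_norm (rr n u) 0).trans_lt h)
  obtain ⟨g, h1, h2⟩ := hd n (ρ₀ ^ n) (fun u => u 0 ^ n * ∏ φ ∈ Φ, (u 1 - φ (u 0))) fa.npos
    (fun u hu => ((an_co 0 u).pow n).mul (Finset.analyticAt_fun_prod _ fun φ h =>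
      (an_co 1 u).sub (AnalyticAt.comp (f := fun u : E2 => u 0) ((fa.an φ h).2 _ (r0 u hu))
        (an_co 0 u)))) fun ζ hζ u _ => by
    have h0 : ζ ≠ 0 := fun h => by simp [h, fa.npos.ne'] at hζ
    have a : (rt ζ u 0) ^ n = u 0 ^ n := by simp [rt, mul_pow, hζ]
    rw [a]
    congr 1
    refine Finset.prod_nbij' (fun φ t => φ (ζ * t)) (fun φ t => φ (ζ⁻¹ * t))
      (fun φ h => fa.rot φ h ζ hζ) (fun φ h => fa.rot φ h _ (by rw [inv_pow, hζ, inv_one]))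
      (fun φ _ => funext fun t => by simp [h0]) (fun φ _ => funext fun t => by simp [h0])
      fun φ _ => rfl
  refine ⟨g, ρ₀ ^ n / 2, half_pos (pow_pos fa.pos n), fun ρ a b => ⟨a,
    fun t c => rad t (by linarith), fun b' c => h1 b' (by linarith), fun u c => ?_⟩⟩
  rw [h2 u (by linarith), mul_eq_zero, Finset.prod_eq_zero_iff, pow_eq_zero_iff fa.npos.ne']
  simp only [sub_eq_zero]

end Pool.Agent.Lib.MP_356dfe_ag.R
end
end

-- part Pool.Agent.Lib.MP_356dfe_ag.R.PHJ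
section

/-! Part HJ of the resolution of surface singularities. -/

set_option autoImplicit false

open Set Filter Topology Metric
open scoped ContDiff

noncomputable section

namespace Pool.Agent.Lib.MP_356dfe_ag.R

open S (E2)

namespace PHJ

variable {Λ : AddSubgroup (Fin 2 → ℤ)}

theorem trans {u v w : Fin 2 → ℤ} (hu : ∀ k, 0 ≤ u k) (hv : ∀ k, 0 ≤ v k) (hw : ∀ k, 0 ≤ w k)
    (h : 0 < dz u v) (h' : 0 < dz v w) : 0 < dz u w := by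
  refine lt_of_not_ge fun h0 => ?_
  have e : ∀ k, dz v w * u k + dz u v * w k = v k * dz u w :=
    Fin.forall_fin_two.2 ⟨by unfold dz; ring, by unfold dz; ring⟩
  have z : ∀ k, u k = 0 := fun k => le_antisymm (nonpos_of_mul_nonpos_right (a := dz v w) (by
    linarith [e k, mul_nonneg h.le (hw k), mul_nonpos_of_nonneg_of_nonpos (hv k) h0]) h') (hu k)
  simp [dz, z] at h

theorem chain {w : Fin 2 → ℤ} (w0 : w 0 = 0) (hw : ∀ k, 0 ≤ w k) (n : ℕ) :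
    ∀ (u u' : Fin 2 → ℤ) (a d : ℤ), d ≤ n → 0 < d → (∀ k, 0 ≤ u k) → 0 < dz u u' →
      (∀ m, m ∈ Λ ↔ ∃ a b : ℤ, m = a • u + b • u') → w = a • u + d • u' →
      ∃ (r : ℕ) (v : ℕ → Fin 2 → ℤ), 0 < r ∧ v 0 = u ∧ (∀ j < r, Bz Λ (v j) (v (j + 1))) ∧
        v r 0 = 0 := by
  induction n with
  | zero => intro _ _ _ d h h'; omega
  | succ n ih =>
    intro u u' a d h1 h2 hu h3 h4 h5
    obtain ⟨q, e, e0, e1, he⟩ : ∃ q e : ℤ, 0 ≤ e ∧ e < d ∧ a = -(d * q + e) :=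
      ⟨-a / d, -a % d, Int.emod_nonneg _ h2.ne', Int.emod_lt_of_pos _ h2, by
        rw [Int.mul_ediv_add_emod, neg_neg]⟩
    obtain ⟨v, rfl⟩ : ∃ v, u' = v + q • u := ⟨u' - q • u, (sub_add_cancel _ _).symm⟩
    have h6 : w = d • v + e • -u := by rw [h5, he]; module
    have h7 : ∀ k, d * v k = w k + e * u k := fun k => by rw [h6]; simp
    have h8 : 0 < dz u v := h3.trans_eq (by
      simp only [dz, Pi.add_apply, Pi.smul_apply, smul_eq_mul]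
      ring)
    have hv : ∀ k, 0 ≤ v k := fun k => nonneg_of_mul_nonneg_right (a := d)
      (h7 k ▸ add_nonneg (hw k) (mul_nonneg e0 (hu k))) h2
    have b : Bz Λ u v := ⟨fun k => ⟨hu k, hv k⟩, h8, fun m => (h4 m).trans
      ⟨fun ⟨x, y, h⟩ => ⟨x + y * q, y, by rw [h]; module⟩,
        fun ⟨x, y, h⟩ => ⟨x - y * q, y, by rw [h]; module⟩⟩⟩
    rcases e0.eq_or_lt with rfl | e2
    · refine ⟨1, fun j => j.casesOn u fun _ => v, one_pos, rfl, fun j hj => ?_, ?_⟩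
      · obtain rfl : j = 0 := by omega
        exact b
      · simpa [w0, h2.ne'] using h7 0
    · obtain ⟨r, s, -, s0, s1, s2⟩ := ih v (-u) d e (by omega) e2 hv
        (h8.trans_eq (by simp only [dz, Pi.neg_apply]; ring)) (fun m => (b.mem m).trans
          ⟨fun ⟨x, y, h⟩ => ⟨y, -x, by rw [h]; module⟩,
            fun ⟨x, y, h⟩ => ⟨-y, x, by rw [h]; module⟩⟩) h6
      refine ⟨r + 1, fun j => j.casesOn u s, r.succ_pos, rfl, fun j hj => ?_, s2⟩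
      cases j with
      | zero => exact (s0 ▸ b : Bz Λ u (s 0))
      | succ j => exact s1 j (by omega)

theorem cyc (H : AddSubgroup ℤ) {D : ℤ} (hD : 0 < D) (h : D ∈ H) :
    ∃ p, 0 < p ∧ ∀ x, x ∈ H ↔ p ∣ x := by
  obtain ⟨a, rfl⟩ := Int.subgroup_cyclic H
  simp only [← AddSubgroup.zmultiples_eq_closure, Int.mem_zmultiples_iff] at h ⊢
  exact ⟨|a|, abs_pos.2 fun e => hD.ne' (by simpa [e] using h), fun x => (abs_dvd a x).symm⟩

end PHJ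

theorem hj : HJ := by
  rintro Λ ⟨D, hD, h⟩
  obtain ⟨p, p0, hp⟩ := PHJ.cyc (Λ.comap (AddMonoidHom.single (fun _ => ℤ) 0)) hD
    (by simpa [← Pi.single_smul] using h (Pi.single 0 1))
  obtain ⟨q, q0, hq⟩ := PHJ.cyc (Λ.map (Pi.evalAddMonoidHom (fun _ => ℤ) 1)) hD
    ⟨_, h (Pi.single 1 1), by simp⟩
  obtain ⟨u', h1, h2⟩ := (hq q).2 dvd_rfl
  have h2 : u' 1 = q := h2
  have h3 : Pi.single 0 p ∈ Λ := (hp p).2 dvd_rfl
  have h4 : ∀ m, m ∈ Λ ↔ ∃ a b : ℤ, m = a • Pi.single 0 p + b • u' := fun m => by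
    refine ⟨fun hm => ?_, fun ⟨a, b, e⟩ => e ▸ add_mem (zsmul_mem h3 a) (zsmul_mem h1 b)⟩
    obtain ⟨b, hb⟩ := (hq _).1 ⟨m, hm, rfl⟩
    have hb : m 1 = q * b := hb
    have h5 : m - b • u' = Pi.single 0 ((m - b • u') 0) :=
      funext (Fin.forall_fin_two.2 ⟨by simp, by simp [hb, h2, mul_comm]⟩)
    obtain ⟨a, ha⟩ := (hp _).1 (show Pi.single 0 _ ∈ Λ from h5 ▸ sub_mem hm (zsmul_mem h1 b))
    exact ⟨a, b, by rw [← Pi.single_smul, smul_eq_mul, mul_comm, ← ha, ← h5, sub_add_cancel]⟩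
  obtain ⟨a, d, e⟩ := (h4 _).1 (h (Pi.single 1 1))
  have d0 : 0 < d := (pos_iff_pos_of_mul_pos (hD.trans_eq (by simpa [h2] using congrFun e 1))).2 q0
  obtain ⟨r, v, r0, v0, v1, v2⟩ := PHJ.chain (Λ := Λ) (by simp) (Fin.forall_fin_two.2
    ⟨by simp, by simp [hD.le]⟩) d.toNat _ u' a d (by omega) d0
    (Fin.forall_fin_two.2 ⟨by simp [p0.le], by simp⟩) (by simp [dz, h2, p0, q0]) h4 e
  refine ⟨r, v, r0, v1, by simp [v0], v2, fun i j hij hj => ?_⟩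
  induction j, hij using Nat.le_induction with
  | base => exact (v1 i hj).pos
  | succ j hij ih =>
    exact PHJ.trans (fun k => ((v1 i (by omega)).nn k).1) (fun k => ((v1 j hj).nn k).1)
      (fun k => ((v1 j hj).nn k).2) (ih (by omega)) (v1 j hj).pos

end Pool.Agent.Lib.MP_356dfe_ag.R
end
end

-- part Pool.Agent.Lib.MP_356dfe_ag.R.PUn
section

/-! Part Un of the resolution of surface singularities. -/

set_option autoImplicit false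

open Set Filter Topology Metric
open scoped ContDiff

noncomputable section

namespace Pool.Agent.Lib.MP_356dfe_ag.R

open S (E2)

namespace PUn

variable {K k ε m : ℕ} {φ ψ H : ℂ → ℂ} {c : ℂ}

/-- the germ of one branch is a unit times a monomial -/
def Gm (K : ℕ) (φ : ℂ → ℂ) (k ε : ℕ) (c : ℂ) (ψ : ℂ → ℂ) : Prop :=
  ∃ (a b : ℕ) (h : E2 → ℂ), AnalyticAt ℂ h 0 ∧ h 0 ≠ 0 ∧
    (∀ᶠ u in 𝓝 (0 : E2), chi φ k ε c u 1 - ψ (chi φ k ε c u 0) = mon ![a, b] u * h u) ∧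
    (c ≠ 0 → b = 0) ∧ ∀ j ≤ K + 1, (j ≤ a ∧ ε * j ≤ b) ∨ (a ≤ j ∧ b ≤ ε * j)

theorem anT (ε : ℕ) : AnalyticAt ℂ (fun u : E2 => u 0 * u 1 ^ ε) 0 :=
  (an_co 0 0).mul ((an_co 1 0).pow ε)

theorem tdT (ε : ℕ) : Tendsto (fun u : E2 => u 0 * u 1 ^ ε) (𝓝 0) (𝓝 0) := by
  simpa using (anT ε).continuousAt.tendsto

theorem anH (hH : AnalyticAt ℂ H 0) (ε : ℕ) :
    AnalyticAt ℂ (fun u : E2 => H (u 0 * u 1 ^ ε)) 0 :=
  hH.comp_of_eq (anT ε) (by simp)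

theorem low (hH : AnalyticAt ℂ H 0) (he : ∀ᶠ t in 𝓝 (0 : ℂ), φ t - ψ t = t ^ m * H t)
    (hm : m ≤ k) (h0 : H 0 + 0 ^ (k - m) * c ≠ 0) (hc : c ≠ 0 → ε = 0) : Gm K φ k ε c ψ := by
  obtain ⟨d, rfl⟩ := Nat.exists_eq_add_of_le hm
  rw [Nat.add_sub_cancel_left] at h0
  refine ⟨m, ε * m, fun u => H (u 0 * u 1 ^ ε) + (u 0 * u 1 ^ ε) ^ d * (c + u 1),
    (anH hH ε).add (((anT ε).pow d).mul (analyticAt_const.add (an_co 1 0))), by simpa using h0,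
    ((tdT ε).eventually he).mono fun u hu => ?_, fun h => by rw [hc h, zero_mul],
    fun j _ => (le_total j m).imp (fun h => ⟨h, Nat.mul_le_mul_left _ h⟩)
      fun h => ⟨h, Nat.mul_le_mul_left _ h⟩⟩
  simp only [chi, mon, Matrix.cons_val_zero, Matrix.cons_val_one]
  rw [pow_mul, ← mul_pow]
  linear_combination hu

theorem fac (hD : AnalyticAt ℂ (fun t => φ t - ψ t) 0)
    (h : (m : ℕ∞) ≤ analyticOrderAt (fun t => φ t - ψ t) 0) :
    ∃ H, AnalyticAt ℂ H 0 ∧ ∀ᶠ t in 𝓝 (0 : ℂ), φ t - ψ t = t ^ m * H t := by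
  simpa using (natCast_le_analyticOrderAt hD).1 h

theorem fac' (hD : AnalyticAt ℂ (fun t => φ t - ψ t) 0)
    (h : analyticOrderAt (fun t => φ t - ψ t) 0 < (k : ℕ∞)) :
    ∃ m < k, ∃ H, AnalyticAt ℂ H 0 ∧ H 0 ≠ 0 ∧ ∀ᶠ t in 𝓝 (0 : ℂ), φ t - ψ t = t ^ m * H t := by
  obtain ⟨m, hm⟩ := ENat.ne_top_iff_exists.1 h.ne_top
  refine ⟨m, by exact_mod_cast hm ▸ h, ?_⟩
  simpa using hD.analyticOrderAt_eq_natCast.1 hm.symm

theorem gm {n : ℕ} {ρ : ℝ} {Φ : Finset (ℂ → ℂ)} (hF : Fam n K ρ Φ) (hC : CT n K ρ Φ φ k ε c)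
    (hψ : ψ ∈ Φ) : Gm K φ k ε c ψ := by
  have h0 : ‖(0 : ℂ)‖ < ρ := by simpa using hF.pos
  have hD : AnalyticAt ℂ (fun t => φ t - ψ t) 0 :=
    ((hF.an φ hC.1).2 0 h0).sub ((hF.an ψ hψ).2 0 h0)
  obtain ⟨rfl, rfl, rfl⟩ | ⟨rfl, rfl, -⟩ | ⟨rfl, hc, -, -, -, hg⟩ := hC.2
  · rcases hF.sep φ hC.1 ψ hψ with h | h
    · refine ⟨K + 1, 1, fun _ => 1, analyticAt_const, one_ne_zero,
        ((tdT 0).eventually (ball_mem_nhds 0 hF.pos)).mono fun u hu => ?_, fun a => absurd rfl a,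
        fun j hj => .inl ⟨hj, by simp⟩⟩
      simp only [chi, mon, Matrix.cons_val_zero, Matrix.cons_val_one]
      rw [h _ (mem_ball_zero_iff.1 hu)]
      ring
    · obtain ⟨m, hm, H, h1, h2, h3⟩ := fac' (k := K + 1) hD
        (h.trans_lt (by exact_mod_cast K.lt_succ_self))
      exact low h1 h3 hm.le (by simpa using h2) fun _ => rfl
  · rcases lt_or_ge (analyticOrderAt (fun t => φ t - ψ t) 0) ((k + 1 : ℕ) : ℕ∞) with h | h
    · obtain ⟨m, hm, H, h1, h2, h3⟩ := fac' hD h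
      exact low h1 h3 (Nat.lt_succ_iff.1 hm) (by simpa using h2) fun a => absurd rfl a
    · obtain ⟨H, h1, h2⟩ := fac hD h
      refine ⟨k, k + 1, fun u => u 0 * H (u 0 * u 1 ^ 1) + 1,
        ((an_co 0 0).mul (anH h1 1)).add analyticAt_const, by simp,
        ((tdT 1).eventually h2).mono fun u hu => ?_, fun a => absurd rfl a,
        fun j _ => by omega⟩
      simp only [chi, mon, Matrix.cons_val_zero, Matrix.cons_val_one]
      linear_combination hu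
  · rcases lt_or_ge (analyticOrderAt (fun t => φ t - ψ t) 0) (k : ℕ∞) with h | h
    · obtain ⟨m, hm, H, h1, h2, h3⟩ := fac' hD h
      exact low h1 h3 hm.le (by rwa [zero_pow (Nat.sub_ne_zero_of_lt hm), zero_mul, add_zero])
        fun _ => rfl
    · obtain ⟨H, h1, h2⟩ := fac hD h
      refine low h1 h2 le_rfl (fun e => hg ψ hψ ?_) fun _ => rfl
      rw [Nat.sub_self, pow_zero, one_mul] at e
      rw [eq_neg_of_add_eq_zero_right e]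
      refine (h1.continuousAt.neg.tendsto.mono_left nhdsWithin_le_nhds).congr' ?_
      filter_upwards [mem_nhdsWithin_of_mem_nhds h2, self_mem_nhdsWithin] with t a b
      rw [eq_div_iff (pow_ne_zero k b), Pi.neg_apply]
      linear_combination a

end PUn

theorem unEx : UnEx := by
  intro n K ρ Φ φ k ε c hF hC
  choose! a b h h1 h2 h3 h4 h5 using fun ψ (hψ : ψ ∈ Φ) => PUn.gm hF hC hψ
  obtain ⟨δ, hδ, h6⟩ := Metric.eventually_nhds_iff_ball.1 ((Φ.eventually_all (l := 𝓝 (0 : E2))).2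
    fun ψ hψ => ((h1 ψ hψ).eventually_continuousAt.and
      ((h1 ψ hψ).continuousAt.eventually_ne (h2 ψ hψ))).and (h3 ψ hψ))
  exact ⟨δ, hδ, fun ψ hψ => ⟨a ψ, b ψ, h ψ, fun u hu => (h6 u hu ψ hψ).1.1.continuousWithinAt,
    fun u hu => ⟨(h6 u hu ψ hψ).1.2, (h6 u hu ψ hψ).2⟩, h4 ψ hψ, h5 ψ hψ⟩⟩

end Pool.Agent.Lib.MP_356dfe_ag.R
end
end

-- part Pool.Agent.Lib.MP_356dfe_ag.R.PFb
section

/-! Part Fb of the resolution of surface singularities. -/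

set_option autoImplicit false

open Set Filter Topology Metric
open scoped ContDiff

noncomputable section

namespace Pool.Agent.Lib.MP_356dfe_ag.R

open S (E2)

namespace PFb

variable {n K k ε : ℕ} {ρ₀ : ℝ} {Φ : Finset (ℂ → ℂ)} {φ : ℂ → ℂ} {c ζ : ℂ}

theorem ord (F : Fam n K ρ₀ Φ) (C : CT n K ρ₀ Φ φ k ε c) (hζ : ζ ^ n = 1)
    (h : ¬ ∀ t : ℂ, ‖t‖ < ρ₀ → φ (ζ * t) = φ t) : ∃ m : ℕ,
      analyticOrderAt (fun t => φ (ζ * t) - φ t) 0 = m ∧ m ≤ k ∧ (m < k ∨ c = 0) := by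
  have key : ∀ j : ℕ, ¬ ((j + 1 : ℕ) : ℕ∞) ≤ analyticOrderAt (fun t => φ (ζ * t) - φ t) 0 →
      ∃ m : ℕ, analyticOrderAt (fun t => φ (ζ * t) - φ t) 0 = m ∧ m ≤ j := fun j hj => by
    obtain ⟨m, hm⟩ := ENat.ne_top_iff_exists.1 (ne_top_of_lt (not_le.1 hj))
    rw [← hm, Nat.cast_le] at hj
    exact ⟨m, hm.symm, by omega⟩
  obtain ⟨hφ, ⟨-, h1, rfl⟩ | ⟨-, h1, -, h2⟩ | ⟨-, -, h1, -, h2, -⟩⟩ := C
  · obtain ⟨m, a, b⟩ := ENat.le_natCast_iff.1 ((F.sep _ (F.rot φ hφ ζ hζ) φ hφ).resolve_left h)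
    exact ⟨m, a, by omega, .inr h1⟩
  · obtain ⟨m, a, b⟩ := key k fun e => h (h2 ζ hζ e)
    exact ⟨m, a, b, .inr h1⟩
  · obtain ⟨m, a, b⟩ := key (k - 1) fun e => h (h2 ζ hζ e)
    exact ⟨m, a, by omega, .inl (by omega)⟩

theorem ev (F : Fam n K ρ₀ Φ) (C : CT n K ρ₀ Φ φ k ε c) (hζ : ζ ^ n = 1) :
    ∀ᶠ p : E2 × E2 in 𝓝 0, p.1 0 * p.1 1 ^ ε ≠ 0 →
      φ (ζ * (p.1 0 * p.1 1 ^ ε)) - φ (p.1 0 * p.1 1 ^ ε) =
        (p.1 0 * p.1 1 ^ ε) ^ k * (c + p.1 1 - ζ ^ k * (c + p.2 1)) →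
      (∀ t : ℂ, ‖t‖ < ρ₀ → φ (ζ * t) = φ t) ∧ c + p.1 1 = ζ ^ k * (c + p.2 1) ∧
        (c ≠ 0 → ζ ^ k = 1) := by
  have T : Tendsto (fun p : E2 × E2 => p.1 0 * p.1 1 ^ ε) (𝓝 0) (𝓝 0) :=
    Continuous.tendsto' (by fun_prop) _ _ (by simp)
  by_cases h : ∀ t : ℂ, ‖t‖ < ρ₀ → φ (ζ * t) = φ t
  · have h1 : ∀ᶠ p : E2 × E2 in 𝓝 0, c + p.1 1 = ζ ^ k * (c + p.2 1) → c ≠ 0 → ζ ^ k = 1 := by
      by_cases h2 : c ≠ 0 → ζ ^ k = 1
      · exact .of_forall fun _ _ => h2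
      · rw [Classical.not_imp] at h2
        refine (ContinuousAt.eventually_ne (y := 0) (x := 0)
          (g := fun p : E2 × E2 => c + p.1 1 - ζ ^ k * (c + p.2 1)) (by fun_prop) fun e => ?_).mono
          fun p a b => absurd (sub_eq_zero.2 b) a
        simp only [Prod.fst_zero, Prod.snd_zero, Pi.zero_apply, add_zero] at e
        exact h2.2 (mul_right_cancel₀ h2.1 (by linear_combination -e))
    filter_upwards [h1, T.eventually (ball_mem_nhds 0 F.pos)] with p a b h0 e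
    rw [h _ (mem_ball_zero_iff.1 b), sub_self] at e
    have e1 := sub_eq_zero.1 ((mul_eq_zero.1 e.symm).resolve_left (pow_ne_zero _ h0))
    exact ⟨h, e1, a e1⟩
  · obtain ⟨m, h1, h2, h3⟩ := ord F C hζ h
    have a0 : ∀ ψ ∈ Φ, AnalyticAt ℂ ψ 0 := fun ψ hψ => (F.an ψ hψ).2 0 (by simpa using F.pos)
    obtain ⟨g, g1, g2, g3⟩ := (AnalyticAt.analyticOrderAt_eq_natCast
      ((a0 _ (F.rot φ C.1 ζ hζ)).sub (a0 φ C.1))).1 h1
    obtain ⟨d, rfl⟩ := Nat.exists_eq_add_of_le h2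
    have h4 : Tendsto (fun p : E2 × E2 => g (p.1 0 * p.1 1 ^ ε) - (p.1 0 * p.1 1 ^ ε) ^ d *
        (c + p.1 1 - ζ ^ (m + d) * (c + p.2 1))) (𝓝 0) (𝓝 (g 0 - 0)) := by
      refine (g1.continuousAt.tendsto.comp T).sub (Continuous.tendsto' (by fun_prop) _ _ ?_)
      rcases h3 with h3 | rfl
      · simp [show d ≠ 0 by omega]
      · simp
    filter_upwards [T.eventually g3, h4.eventually_ne (by simpa using g2 : g 0 - 0 ≠ 0)]
      with p a b h0 e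
    refine absurd (mul_left_cancel₀ (pow_ne_zero m h0) ?_) b
    simp only [Pi.sub_apply, sub_zero, smul_eq_mul] at a
    linear_combination e - a

end PFb

open PFb in
theorem fbEx : FbEx := by
  intro n K ρ₀ Φ φ k ε c F C
  have h1 := ((Polynomial.nthRootsFinset n (1 : ℂ)).eventually_all (l := 𝓝 (0 : E2 × E2))).2
    fun ζ hζ => ev F C ((Polynomial.mem_nthRootsFinset F.npos 1).1 hζ)
  obtain ⟨δ, d1, d2⟩ := Metric.eventually_nhds_iff_ball.1 h1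
  have h2 : ∀ u : E2, u ∉ bad c → u 0 * u 1 ^ ε ≠ 0 := fun u hu => by
    refine mul_ne_zero (fun e => hu (.inl e)) ?_
    rcases C.2 with ⟨rfl, -⟩ | ⟨-, h, -⟩ | ⟨rfl, -⟩
    · simp
    · exact pow_ne_zero _ fun e => hu (.inr ⟨h, e⟩)
    · simp
  refine ⟨δ, d1, fun u u' a1 a2 b1 b2 e => ?_⟩
  have t1 := h2 u b1
  have t2 := h2 u' b2
  have e0 : (u 0 * u 1 ^ ε) ^ n = (u' 0 * u' 1 ^ ε) ^ n := congrFun e 0
  have e1 : φ (u 0 * u 1 ^ ε) + (u 0 * u 1 ^ ε) ^ k * (c + u 1) =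
    φ (u' 0 * u' 1 ^ ε) + (u' 0 * u' 1 ^ ε) ^ k * (c + u' 1) := congrFun e 1
  obtain ⟨ζ, hζ⟩ : ∃ ζ, u' 0 * u' 1 ^ ε = ζ * (u 0 * u 1 ^ ε) :=
    ⟨_, (div_mul_cancel₀ _ t1).symm⟩
  have z1 : ζ ^ n = 1 := by
    rw [hζ, mul_pow ζ] at e0
    exact (mul_eq_right₀ (pow_ne_zero n t1)).1 e0.symm
  rw [hζ] at e1
  obtain ⟨c1, c2, c3⟩ := d2 (u, u') (by
    rw [mem_ball_zero_iff, Prod.norm_def]
    exact max_lt a1 a2) ζ ((Polynomial.mem_nthRootsFinset F.npos 1).2 z1) t1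
    (by linear_combination -e1)
  have c4 : ζ ^ k * u' 1 = u 1 := by
    by_cases hc : c = 0
    · simpa [hc] using c2.symm
    · rw [c3 hc, one_mul] at c2 ⊢
      exact (add_left_cancel c2).symm
  refine ⟨ζ, z1, c1, mul_right_cancel₀ (right_ne_zero_of_mul t2) ?_, c4, c3⟩
  rw [hζ, ← c4]
  ring

end Pool.Agent.Lib.MP_356dfe_ag.R
end
end

-- part Pool.Agent.Lib.MP_356dfe_ag.R.PCh
section

/-! Part Ch of the resolution of surface singularities. -/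

set_option autoImplicit false

open Set Filter Topology Metric
open scoped ContDiff

noncomputable section

namespace Pool.Agent.Lib.MP_356dfe_ag.R

open S (E2)

namespace PCh

/-- inversion on the Riemann sphere -/
theorem inv_nh (x : ℂ) : ∃ a : Option ℂ, Tendsto (fun z : ℂ => z⁻¹) (𝓝[{0}ᶜ] x) (nh a) ∧
    Tendsto (fun z : ℂ => z⁻¹) (nh a) (𝓝 x) := by
  by_cases hx : x = 0
  · subst hx
    exact ⟨none, tendsto_inv₀_nhdsNE_zero, tendsto_inv₀_cobounded⟩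
  · refine ⟨some x⁻¹, (tendsto_inv₀ hx).mono_left nhdsWithin_le_nhds, ?_⟩
    have := tendsto_inv₀ (inv_ne_zero hx)
    rwa [inv_inv] at this

theorem nh_uniq {α : Type} {F : Filter α} [F.NeBot] {f : α → ℂ} {a b : Option ℂ}
    (ha : Tendsto f F (nh a)) (hb : Tendsto f F (nh b)) : a = b := by
  by_contra h
  exact NeBot.ne (inferInstance : (map f F).NeBot) (le_bot_iff.1 (nh_disj h ha hb))

theorem tm {α β : Type} {F : Filter α} {m : α → ℂ} {χ : α → β} {f : β → ℂ} {G : Filter ℂ}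
    (h : Tendsto m F G) (h' : ∀ᶠ v in F, m v = f (χ v)) : Tendsto f (map χ F) G :=
  tendsto_map'_iff.2 (h.congr' h')

theorem co (k : Fin 2) : Continuous fun u : E2 => u k := continuous_apply k

variable {n K : ℕ} {ρ₀ ρ δ : ℝ} {Φ : Finset (ℂ → ℂ)} {g : E2 → ℂ} {φ : ℂ → ℂ} {k ε : ℕ} {c : ℂ}

theorem chi0 (u : E2) : chi φ k ε c u 0 = u 0 * u 1 ^ ε := rfl

theorem chi1 (u : E2) :
    chi φ k ε c u 1 = φ (u 0 * u 1 ^ ε) + (u 0 * u 1 ^ ε) ^ k * (c + u 1) := rfl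

theorem nb0 {u : E2} (h : u ∉ bad c) : u 0 ≠ 0 := fun a => h (Or.inl a)

theorem nb1 {u : E2} (h : u ∉ bad c) {b : ℕ} (hb : c ≠ 0 → b = 0) : u 1 ^ b ≠ 0 := by
  by_cases hc : c = 0
  · exact pow_ne_zero _ fun a => h (Or.inr ⟨hc, a⟩)
  · rw [hb hc, pow_zero]
    exact one_ne_zero

theorem ct_eps (hC : CT n K ρ₀ Φ φ k ε c) : c ≠ 0 → ε = 0 := by
  rcases hC.2 with h | h | h
  · exact fun _ => h.1
  · exact fun a => absurd h.2.1 a
  · exact fun _ => h.1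

theorem small (hF : Fam n K ρ₀ Φ) (hC : CT n K ρ₀ Φ φ k ε c) (hρ : 0 < ρ) :
    ∃ δ, 0 < δ ∧ ∀ u : E2, ‖u‖ < δ → ‖rr n (chi φ k ε c u)‖ < ρ := by
  obtain ⟨h0, h1⟩ := hF.an φ hC.1
  have h2 : ContinuousAt φ 0 := (h1 0 (by simpa using hF.pos)).continuousAt
  have h3 : Continuous fun u : E2 => u 0 * u 1 ^ ε := (co 0).mul ((co 1).pow _)
  have h4 : ContinuousAt (fun u : E2 => φ (u 0 * u 1 ^ ε)) 0 :=
    h2.comp_of_eq h3.continuousAt (by simp)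
  have h5 : ContinuousAt (fun u : E2 => rr n (chi φ k ε c u)) 0 := by
    refine continuousAt_pi.2 (Fin.forall_fin_two.2 ⟨?_, ?_⟩)
    · exact (h3.pow n).continuousAt
    · exact h4.add ((h3.pow k).mul (continuous_const.add (co 1))).continuousAt
  have h6 : rr n (chi φ k ε c 0) = 0 := by
    have h7 : (0 : ℂ) ^ k * c = 0 := by
      rcases hC.2 with h | h | h
      · rw [h.2.1, mul_zero]
      · rw [h.2.1, mul_zero]
      · rw [zero_pow (Nat.ne_of_gt h.2.2.1), zero_mul]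
    refine funext (Fin.forall_fin_two.2 ⟨?_, ?_⟩)
    · show ((0 : E2) 0 * (0 : E2) 1 ^ ε) ^ n = 0
      simp [hF.npos.ne']
    · show φ ((0 : E2) 0 * (0 : E2) 1 ^ ε) + ((0 : E2) 0 * (0 : E2) 1 ^ ε) ^ k *
        (c + (0 : E2) 1) = 0
      simpa [h0] using h7
  have h8 : ∀ᶠ u in 𝓝 (0 : E2), ‖rr n (chi φ k ε c u)‖ < ρ :=
    h5.norm.eventually (gt_mem_nhds (by simpa [h6] using hρ))
  obtain ⟨δ, h9, h10⟩ := Metric.eventually_nhds_iff_ball.1 h8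
  exact ⟨δ, h9, fun u hu => h10 u (mem_ball_zero_iff.2 hu)⟩

theorem maps (hB : Bg n Φ ρ₀ ρ g) (hC : CT n K ρ₀ Φ φ k ε c) (hU : Un K Φ φ k ε c δ) {u : E2}
    (hu : ‖u‖ < δ) (hs : ‖rr n (chi φ k ε c u)‖ < ρ) (hb : u ∉ bad c) :
    g (rr n (chi φ k ε c u)) ≠ 0 := by
  intro h
  rcases (hB.zero _ (by linarith [hB.pos])).1 h with h1 | ⟨ψ, h1, h2⟩
  · exact mul_ne_zero (nb0 hb) (nb1 hb (ct_eps hC)) h1
  · obtain ⟨a, b, w, -, h3, h4, -⟩ := hU ψ h1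
    obtain ⟨h5, h6⟩ := h3 u (mem_ball_zero_iff.2 hu)
    rw [h2, sub_self] at h6
    exact mul_ne_zero (mul_ne_zero (pow_ne_zero _ (nb0 hb)) (nb1 hb h4)) h5 h6.symm

/-- the test functions have limits -/
theorem lim (hF : Fam n K ρ₀ Φ) (hC : CT n K ρ₀ Φ φ k ε c) (hU : Un K Φ φ k ε c δ) {u : E2}
    (hu : ‖u‖ < δ) {f : E2 → ℂ} (hf : f ∈ SS n K Φ) :
    ∃ a, Tendsto f (map (chi φ k ε c) (𝓝[(bad c)ᶜ] u)) (nh a) := by
  obtain ⟨η, hη, rfl | ⟨ψ, h1, j, h2, rfl⟩⟩ := hf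
  · exact ⟨some _, ((continuous_const.mul ((co 0).mul ((co 1).pow ε))).tendsto u).mono_left
      nhdsWithin_le_nhds⟩
  have hη0 : η ≠ 0 := by
    rintro rfl
    rw [zero_pow hF.npos.ne'] at hη
    exact zero_ne_one hη
  obtain ⟨a, b, w, h3, h4, h5, h6⟩ := hU ψ h1
  have h7 : ball (0 : E2) δ ∈ 𝓝 u := isOpen_ball.mem_nhds (mem_ball_zero_iff.2 hu)
  have h8 : ContinuousAt w u := h3.continuousAt h7
  have h9 : ∀ᶠ v in 𝓝[(bad c)ᶜ] u, v ∈ ball (0 : E2) δ ∧ v ∉ bad c :=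
    inter_mem (mem_nhdsWithin_of_mem_nhds h7) self_mem_nhdsWithin
  have h10 : ∀ v ∈ ball (0 : E2) δ, wf ψ j (chi φ k ε c v) =
      v 0 ^ a * v 1 ^ b * w v / (v 0 ^ j * v 1 ^ (ε * j)) := fun v hv => by
    rw [wf, (h4 v hv).2, chi0, mul_pow, pow_mul]
    rfl
  have h11 : c ≠ 0 → ε * j = 0 := fun hc => by rw [ct_eps hC hc, zero_mul]
  rcases h6 j h2 with ⟨h12, h13⟩ | ⟨h12, h13⟩
  · obtain ⟨p, rfl⟩ := Nat.exists_eq_add_of_le h12
    obtain ⟨q, rfl⟩ := Nat.exists_eq_add_of_le h13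
    have h14 : ContinuousAt (fun v : E2 => η * (v 0 ^ p * v 1 ^ q * w v)) u :=
      continuousAt_const.mul ((((co 0).pow p).mul ((co 1).pow q)).continuousAt.mul h8)
    refine ⟨some _, tm (h14.tendsto.mono_left nhdsWithin_le_nhds) (h9.mono fun v hv => ?_)⟩
    have e0 := nb0 hv.2
    have e1 := nb1 hv.2 h11
    show _ = η * wf ψ j (chi φ k ε c v)
    rw [h10 v hv.1, pow_add, pow_add]
    field_simp
  · obtain ⟨p, rfl⟩ := Nat.exists_eq_add_of_le h12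
    obtain ⟨q, hq⟩ := Nat.exists_eq_add_of_le h13
    have h14 : ContinuousAt (fun v : E2 => v 0 ^ p * v 1 ^ q / (η * w v)) u :=
      (((co 0).pow p).mul ((co 1).pow q)).continuousAt.div (continuousAt_const.mul h8)
        (mul_ne_zero hη0 (h4 u (mem_ball_zero_iff.2 hu)).1)
    have h15 : c ≠ 0 → q = 0 := fun hc => by
      have := h11 hc
      omega
    obtain ⟨x, h16, -⟩ := inv_nh (u 0 ^ p * u 1 ^ q / (η * w u))
    refine ⟨x, tm (h16.comp (tendsto_nhdsWithin_iff.2 ⟨h14.tendsto.mono_left nhdsWithin_le_nhds,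
      h9.mono fun v hv => ?_⟩)) (h9.mono fun v hv => ?_)⟩
    · exact div_ne_zero (mul_ne_zero (pow_ne_zero _ (nb0 hv.2)) (nb1 hv.2 h15))
        (mul_ne_zero hη0 (h4 v hv.1).1)
    · have e0 := nb0 hv.2
      have e1 := nb1 hv.2 h5
      have e2 := nb1 hv.2 h15
      have e3 := (h4 v hv.1).1
      show (v 0 ^ p * v 1 ^ q / (η * w v))⁻¹ = η * wf ψ (a + p) (chi φ k ε c v)
      rw [h10 v hv.1, hq, pow_add, pow_add]
      field_simp

theorem wf_chi (hC : CT n K ρ₀ Φ φ k ε c) {v : E2} (hv : v ∉ bad c) (j : ℕ) :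
    wf φ (k + j) (chi φ k ε c v) = (c + v 1) / (v 0 * v 1 ^ ε) ^ j := by
  have e0 : v 0 * v 1 ^ ε ≠ 0 := mul_ne_zero (nb0 hv) (nb1 hv (ct_eps hC))
  rw [wf, chi0, chi1, add_sub_cancel_left, pow_add, mul_div_mul_left _ _ (pow_ne_zero _ e0)]

/-- the filter of a point of the chart is the largest one with the given limits -/
theorem max (hB : Bg n Φ ρ₀ ρ g) (hC : CT n K ρ₀ Φ φ k ε c) {u : E2} {U : Filter E2}
    (hU : rr n ⁻¹' Bs ρ g ∈ U) (h : ∀ f ∈ SS n K Φ, ∀ a,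
      Tendsto f (map (chi φ k ε c) (𝓝[(bad c)ᶜ] u)) (nh a) → Tendsto f U (nh a)) :
    U ≤ map (chi φ k ε c) (𝓝[(bad c)ᶜ] u) := by
  have h1 : ∀ᶠ p in U, p 0 ≠ 0 ∧ p 1 - φ (p 0) ≠ 0 := by
    filter_upwards [hU] with p hp
    have h2 := (hB.zero p (by linarith [hB.pos, hp.1])).not.1 hp.2
    exact ⟨fun a => h2 (Or.inl a), fun a => h2 (Or.inr ⟨φ, hC.1, sub_eq_zero.1 a⟩)⟩
  have h2 : ∀ inv : E2 → E2, Tendsto inv U (𝓝 u) →
      (∀ p : E2, p 0 ≠ 0 → p 1 - φ (p 0) ≠ 0 → inv p ∉ bad c ∧ chi φ k ε c (inv p) = p) →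
      U ≤ map (chi φ k ε c) (𝓝[(bad c)ᶜ] u) := fun inv h3 h4 => by
    have h5 : Tendsto inv U (𝓝[(bad c)ᶜ] u) :=
      tendsto_nhdsWithin_iff.2 ⟨h3, h1.mono fun p hp => (h4 p hp.1 hp.2).1⟩
    exact (tendsto_map.comp h5).congr' (f₂ := id) (h1.mono fun p hp => (h4 p hp.1 hp.2).2)
  have h3 : ∀ j ≤ K + 1, wf φ j ∈ SS n K Φ := fun j hj =>
    ⟨1, one_pow _, Or.inr ⟨φ, hC.1, j, hj, funext fun p => (one_mul _).symm⟩⟩
  have hk : k ≤ K + 1 := by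
    rcases hC.2 with a | a | a
    · exact a.2.2.le
    · exact a.2.2.1.trans (Nat.le_succ K)
    · exact a.2.2.2.1
  have h0 : ∀ᶠ v in 𝓝[(bad c)ᶜ] u, v ∉ bad c := self_mem_nhdsWithin
  have h4 : Tendsto (wf φ k) U (𝓝 (c + u 1)) := by
    refine h _ (h3 k hk) (some _) (tm (m := fun v => c + v 1) (((continuous_const.add
      (co 1)).tendsto u).mono_left nhdsWithin_le_nhds) (h0.mono fun v hv => ?_))
    have := wf_chi hC hv 0
    rw [pow_zero, div_one] at this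
    exact this.symm
  by_cases he : ε = 0
  · subst he
    have h5 : Tendsto (fun p : E2 => p 0) U (𝓝 (u 0)) := by
      refine h _ ⟨1, one_pow _, Or.inl (funext fun p => (one_mul _).symm)⟩ (some _)
        (tm (((co 0).tendsto u).mono_left nhdsWithin_le_nhds) (.of_forall fun v => ?_))
      show v 0 = v 0 * v 1 ^ 0
      rw [pow_zero, mul_one]
    refine h2 (fun p => ![p 0, wf φ k p - c]) (tendsto_pi_nhds.2 (Fin.forall_fin_two.2
      ⟨h5, ?_⟩)) fun p a b => ⟨?_, funext (Fin.forall_fin_two.2 ⟨?_, ?_⟩)⟩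
    · simpa using h4.sub_const c
    · rintro (d | ⟨rfl, d⟩)
      · exact a d
      · exact div_ne_zero b (pow_ne_zero k a) ((sub_zero _).symm.trans d)
    · show p 0 * (wf φ k p - c) ^ 0 = p 0
      rw [pow_zero, mul_one]
    · show φ (p 0 * (wf φ k p - c) ^ 0) + (p 0 * (wf φ k p - c) ^ 0) ^ k *
        (c + (wf φ k p - c)) = p 1
      rw [pow_zero, mul_one, add_sub_cancel, wf, mul_div_cancel₀ _ (pow_ne_zero k a),
        add_sub_cancel]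
  · obtain ⟨rfl, rfl, hk', -⟩ : ε = 1 ∧ c = 0 ∧ k ≤ K ∧ Red n k ρ₀ φ := by
      rcases hC.2 with a | a | a
      · exact absurd a.1 he
      · exact a
      · exact absurd a.1 he
    obtain ⟨x, h5, h6⟩ := inv_nh (u 0)
    have h7 : Tendsto (wf φ (k + 1)) U (nh x) := by
      refine h _ (h3 _ (Nat.succ_le_succ hk')) x (tm (h5.comp (tendsto_nhdsWithin_iff.2
        ⟨((co 0).tendsto u).mono_left nhdsWithin_le_nhds, h0.mono fun v hv => nb0 hv⟩))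
        (h0.mono fun v hv => ?_))
      have e0 := nb0 hv
      have e1 : v 1 ≠ 0 := fun a => hv (Or.inr ⟨rfl, a⟩)
      show (v 0)⁻¹ = wf φ (k + 1) (chi φ k 1 0 v)
      rw [wf_chi hC hv 1]
      field_simp
      rw [zero_add]
    have h8 : ∀ p : E2, p 0 ≠ 0 → p 1 - φ (p 0) ≠ 0 →
        (wf φ (k + 1) p)⁻¹ * wf φ k p ^ 1 = p 0 := fun p a b => by
      rw [wf, wf, pow_succ (p 0)]
      field_simp
    refine h2 (fun p => ![(wf φ (k + 1) p)⁻¹, wf φ k p]) (tendsto_pi_nhds.2 (Fin.forall_fin_two.2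
      ⟨h6.comp h7, ?_⟩)) fun p a b => ⟨?_, funext (Fin.forall_fin_two.2 ⟨h8 p a b, ?_⟩)⟩
    · simpa using h4
    · rintro (d | ⟨-, d⟩)
      · exact inv_ne_zero (div_ne_zero b (pow_ne_zero _ a)) d
      · exact div_ne_zero b (pow_ne_zero k a) d
    · show φ ((wf φ (k + 1) p)⁻¹ * wf φ k p ^ 1) + ((wf φ (k + 1) p)⁻¹ * wf φ k p ^ 1) ^ k *
        (0 + wf φ k p) = p 1
      rw [h8 p a b, zero_add, wf, mul_div_cancel₀ _ (pow_ne_zero k a), add_sub_cancel]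

end PCh

theorem chEx (hu : UnEx) (hf : FbEx) : ChEx := by
  intro n K ρ₀ Φ ρ g φ k ε c hF hB hC
  obtain ⟨δ₁, a1, b1⟩ := hu n K ρ₀ Φ φ k ε c hF hC
  obtain ⟨δ₂, a2, b2⟩ := hf n K ρ₀ Φ φ k ε c hF hC
  obtain ⟨δ₃, a3, b3⟩ := PCh.small hF hC hB.pos
  have c1 : ∀ {u : E2}, ‖u‖ < min δ₁ (min δ₂ δ₃) → ‖u‖ < δ₁ := fun h => h.trans_le (min_le_left _ _)
  have c2 : ∀ {u : E2}, ‖u‖ < min δ₁ (min δ₂ δ₃) → ‖u‖ < δ₂ := fun h =>
    h.trans_le ((min_le_right _ _).trans (min_le_left _ _))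
  have c3 : ∀ {u : E2}, ‖u‖ < min δ₁ (min δ₂ δ₃) → ‖u‖ < δ₃ := fun h =>
    h.trans_le ((min_le_right _ _).trans (min_le_right _ _))
  refine ⟨min δ₁ (min δ₂ δ₃), lt_min a1 (lt_min a2 a3), fun u h => b3 u (c3 h),
    fun u h => PCh.maps hB hC b1 (c1 h) (b3 u (c3 h)), fun u h => ⟨?_, ?_⟩,
    fun u u' h h' => b2 u u' (c2 h) (c2 h')⟩
  · rw [mem_map]
    filter_upwards [mem_nhdsWithin_of_mem_nhds (isOpen_ball.mem_nhds (mem_ball_zero_iff.2 h)),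
      self_mem_nhdsWithin] with v a b
    have d := mem_ball_zero_iff.1 a
    exact ⟨b3 v (c3 d), PCh.maps hB hC b1 (c1 d) (b3 v (c3 d)) b⟩
  · have := (thin_bad c u).neBot
    have d : ∀ f : E2 → ℂ, ∃ a, f ∈ SS n K Φ →
        Tendsto f (map (chi φ k ε c) (𝓝[(bad c)ᶜ] u)) (nh a) := fun f => by
      by_cases e : f ∈ SS n K Φ
      · exact (PCh.lim hF hC b1 (c1 h) e).imp fun a b _ => b
      · exact ⟨none, fun b => absurd b e⟩
    choose l hl using d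
    exact ⟨l, hl, fun U e1 e2 => PCh.max hB hC e1 fun f e3 a e4 =>
      PCh.nh_uniq (hl f e3) e4 ▸ e2 f e3⟩

end Pool.Agent.Lib.MP_356dfe_ag.R
end
end
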