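import Pool.Agent.Lib.MP_356dfe_ag.R.PRk

-- part Pool.Agent.Lib.MP_356dfe_ag.R.PBBe
section

/-! Part BBe of the resolution of surface singularities. -/

set_option autoImplicit false

open Set Filter Topology Metric
open scoped ContDiff

noncomputable section

namespace Pool.Agent.Lib.MP_356dfe_ag.R

open S (E2)

theorem bbe : BBe := by
  rintro n K ρ₀ Φ ρ g fa - _ ⟨G, a, -, rfl⟩ _ ⟨G', a', -, rfl⟩
  classical
  have z0 : ∀ ζ : ℂ, ζ ^ n = 1 → ζ ≠ 0 := fun ζ h e => by simp [e, fa.npos.ne'] at h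
  have rr1 : ∀ ζ : ℂ, ζ ^ n = 1 → rr n ∘ rt ζ = rr n := fun ζ h => funext fun u => by
    simp [rr, rt, mul_pow, h]
  have cl : ∀ ζ : ℂ, ζ ^ n = 1 → ∀ f ∈ SS n K Φ, f ∘ rt ζ ∈ SS n K Φ := by
    rintro ζ h _ ⟨η, b, rfl | ⟨φ, c, k, d, rfl⟩⟩
    · exact ⟨η * ζ, by rw [mul_pow, b, h, one_mul], Or.inl (funext fun u => by
        simp [rt, mul_assoc])⟩
    · refine ⟨η * (ζ ^ k)⁻¹, by rw [mul_pow, b, inv_pow, pow_right_comm, h, one_pow, inv_one,
        one_mul], Or.inr ⟨_, fa.rot φ c ζ h, k, d, funext fun u => ?_⟩⟩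
      simp only [Function.comp_apply, wf, rt, Matrix.cons_val_zero, Matrix.cons_val_one, mul_pow,
        div_eq_mul_inv, mul_inv]
      ring
  have le : ∀ {G G' : Filter E2}, SP (SS n K Φ) (rr n ⁻¹' Bs ρ g) G →
      SP (SS n K Φ) (rr n ⁻¹' Bs ρ g) G' → ∀ ζ : ℂ, ζ ^ n = 1 → ∀ U : Filter E2, U.NeBot → U ≤ G →
      map (rt ζ) U ≤ G' → map (rr n) G ≤ map (rr n) G' := by
    rintro G G' ⟨b, l, c, -⟩ ⟨-, l', c', d⟩ ζ h U hU e f
    rw [← rr1 ζ h, ← map_map, rr1 ζ h]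
    refine map_mono (d _ (by rwa [mem_map, ← preimage_comp, rr1 ζ h]) fun i o => ?_)
    rw [show l' i = l (i ∘ rt ζ) from by_contra fun q => (hU.map (i ∘ rt ζ)).ne (le_bot_iff.1
      (nh_disj q ((c' i o).mono_left f) ((c _ (cl ζ h i o)).mono_left e)))]
    exact c _ (cl ζ h i o)
  refine or_iff_not_imp_right.2 fun h => ?_
  have nb : (G ⊓ comap (rr n) (map (rr n) G')).NeBot := by
    rw [← map_neBot_iff (rr n), Filter.push_pull]
    exact ⟨fun e => h (_root_.disjoint_iff.2 e)⟩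
  obtain ⟨𝒰, hU⟩ := Ultrafilter.exists_le (G ⊓ comap (rr n) (map (rr n) G'))
  obtain ⟨ζ, b, c⟩ : ∃ ζ : ℂ, ζ ^ n = 1 ∧ (map (rt ζ) 𝒰 ⊓ G').NeBot := by
    by_contra c
    push Not at c
    have d : ∀ ζ ∈ Polynomial.nthRootsFinset n (1 : ℂ), ∃ s ∈ G', ∀ᶠ u in 𝒰, rt ζ u ∉ s :=
      fun ζ h => by
      obtain ⟨s, d, t, e, f⟩ := Filter.disjoint_iff.1 (_root_.disjoint_iff.2
        (c ζ ((Polynomial.mem_nthRootsFinset fa.npos 1).1 h)))
      exact ⟨t, e, mem_of_superset d fun u i => disjoint_left.1 f i⟩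
    choose! s s1 s2 using d
    obtain ⟨u, ⟨u', e, f⟩, i⟩ := (Eventually.and ((hU.trans inf_le_right) (preimage_mem_comap
      (image_mem_map ((biInter_finset_mem _).2 s1)))) ((Finset.eventually_all _).2 s2)).exists
    have l : u' 0 ^ n = u 0 ^ n := congrFun f 0
    obtain ⟨ζ, m, o⟩ : ∃ ζ : ℂ, ζ ^ n = 1 ∧ ζ * u 0 = u' 0 := by
      by_cases m : u 0 = 0
      · rw [m, zero_pow fa.npos.ne', pow_eq_zero_iff fa.npos.ne'] at l
        exact ⟨1, one_pow n, by rw [m, l, mul_zero]⟩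
      · exact ⟨u' 0 / u 0, by rw [div_pow, l, div_self (pow_ne_zero _ m)], div_mul_cancel₀ _ m⟩
    have q := (Polynomial.mem_nthRootsFinset fa.npos 1).2 m
    refine i ζ q (mem_of_eq_of_mem (funext fun k => ?_) (mem_iInter₂.1 e ζ q))
    fin_cases k
    exacts [o, (congrFun f 1).symm]
  have d : map (rt ζ) 𝒰 ≤ G' := (𝒰.map (rt ζ)).le_of_inf_neBot c
  refine le_antisymm (le a a' ζ b 𝒰 inferInstance (hU.trans inf_le_left) d)
    (le a' a ζ⁻¹ (by rw [inv_pow, b, inv_one]) _ inferInstance d ?_)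
  rw [map_map, show rt ζ⁻¹ ∘ rt ζ = id from funext fun u => funext fun k => by
    fin_cases k <;> simp [rt, z0 ζ b], map_id]
  exact hU.trans inf_le_left

end Pool.Agent.Lib.MP_356dfe_ag.R
end
end

-- part Pool.Agent.Lib.MP_356dfe_ag.R.PCls
section

/-! Part Cls of the resolution of surface singularities. -/

set_option autoImplicit false

open Set Filter Topology Metric
open scoped ContDiff

noncomputable section

namespace Pool.Agent.Lib.MP_356dfe_ag.R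

open S (E2)

/-- inverse coordinates give the inequality of filters -/
theorem cls_inv {𝒱 : Filter E2} {χ : E2 → E2} {A : Set E2} (a b : E2 → ℂ)
    (ha : Tendsto a 𝒱 (𝓝 0)) (hb : Tendsto b 𝒱 (𝓝 0))
    (h : ∀ᶠ p in 𝒱, ![a p, b p] ∉ A ∧ χ ![a p, b p] = p) : 𝒱 ≤ map χ (𝓝[Aᶜ] 0) := by
  have h1 : Tendsto (fun p => (![a p, b p] : E2)) 𝒱 (𝓝[Aᶜ] 0) := by
    refine tendsto_nhdsWithin_iff.2 ⟨tendsto_pi_nhds.2 fun k => ?_, h.mono fun p hp => hp.1⟩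
    fin_cases k
    · exact ha
    · exact hb
  have h2 : map (χ ∘ fun p => (![a p, b p] : E2)) 𝒱 = 𝒱 :=
    (map_congr (h.mono fun p hp => hp.2)).trans map_id
  rw [← h2, ← map_map]
  exact map_mono h1

/-- ends and generic points -/
theorem cls_zero {𝒱 : Filter E2} {φ : ℂ → ℂ} {k : ℕ} {c : ℂ}
    (h0 : Tendsto (fun p : E2 => p 0) 𝒱 (𝓝 0)) (h1 : Tendsto (wf φ k) 𝒱 (𝓝 c))
    (h : ∀ᶠ p in 𝒱, p 0 ≠ 0 ∧ p 1 ≠ φ (p 0)) : 𝒱 ≤ map (chi φ k 0 c) (𝓝[(bad c)ᶜ] 0) := by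
  refine cls_inv (fun p => p 0) (fun p => wf φ k p - c) h0 (by simpa using h1.sub_const c)
    (h.mono fun p hp => ⟨?_, ?_⟩)
  · rintro (e | ⟨rfl, e⟩)
    · exact hp.1 e
    · have e' : wf φ k p - 0 = 0 := e
      rw [sub_zero, wf, div_eq_zero_iff, sub_eq_zero] at e'
      exact e'.elim hp.2 (pow_ne_zero _ hp.1)
  · have := pow_ne_zero k hp.1
    funext j
    fin_cases j
    · simp [chi]
    · simp only [chi, wf, Fin.mk_one, Matrix.cons_val_one, Matrix.cons_val_zero, pow_zero, mul_one]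
      field_simp
      ring

/-- nodes -/
theorem cls_one {𝒱 : Filter E2} {φ : ℂ → ℂ} {k : ℕ}
    (h0 : Tendsto (wf φ (k + 1)) 𝒱 (Bornology.cobounded ℂ)) (h1 : Tendsto (wf φ k) 𝒱 (𝓝 0))
    (h : ∀ᶠ p in 𝒱, p 0 ≠ 0 ∧ p 1 ≠ φ (p 0)) : 𝒱 ≤ map (chi φ k 1 0) (𝓝[(bad 0)ᶜ] 0) := by
  refine cls_inv (fun p => (wf φ (k + 1) p)⁻¹) (wf φ k) (tendsto_inv₀_cobounded.comp h0) h1
    (h.mono fun p hp => ⟨?_, ?_⟩)
  · have b : ∀ j, wf φ j p ≠ 0 := fun j => div_ne_zero (sub_ne_zero.2 hp.2) (pow_ne_zero _ hp.1)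
    rintro (e | ⟨-, e⟩)
    · exact inv_ne_zero (b _) e
    · exact b _ e
  · have b1 := hp.1
    have b2 := sub_ne_zero.2 hp.2
    have b3 : (wf φ (k + 1) p)⁻¹ * wf φ k p = p 0 := by
      simp only [wf]
      field_simp
      ring
    funext j
    fin_cases j
    · simpa [chi] using b3
    · simp only [chi, Fin.mk_one, Matrix.cons_val_one, Matrix.cons_val_zero, pow_one, b3, zero_add]
      simp only [wf]
      field_simp
      ring

/-- the classification upstairs -/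
theorem cls_up {n K : ℕ} {ρ₀ : ℝ} {Φ : Finset (ℂ → ℂ)} (hF : Fam n K ρ₀ Φ) (𝒱 : Ultrafilter E2)
    (h0 : Tendsto (fun p : E2 => p 0) 𝒱 (𝓝 0)) (h1 : Tendsto (fun p : E2 => p 1) 𝒱 (𝓝 0))
    (h : ∀ᶠ p in (𝒱 : Filter E2), p 0 ≠ 0 ∧ ∀ φ ∈ Φ, p 1 ≠ φ (p 0)) :
    ∃ φ k ε c, CT n K ρ₀ Φ φ k ε c ∧ ↑𝒱 ≤ map (chi φ k ε c) (𝓝[(bad c)ᶜ] 0) := by
  classical
  have han : ∀ φ ∈ Φ, AnalyticAt ℂ φ 0 := fun φ hφ => (hF.an φ hφ).2 0 (by simpa using hF.pos)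
  have hne : ∀ φ ∈ Φ, ∀ᶠ p in (𝒱 : Filter E2), p 0 ≠ 0 ∧ p 1 ≠ φ (p 0) := fun φ hφ =>
    h.mono fun p hp => ⟨hp.1, hp.2 φ hφ⟩
  let P : ℕ → Prop := fun k => ∃ φ ∈ Φ, Tendsto (wf φ k) 𝒱 (𝓝 0)
  have hP0 : P 0 := by
    obtain ⟨φ, hφ⟩ := hF.ne
    refine ⟨φ, hφ, ?_⟩
    have := h1.sub ((han φ hφ).continuousAt.tendsto.comp h0)
    rw [(hF.an φ hφ).1, sub_zero] at this
    exact this.congr fun p => by simp [wf]
  obtain ⟨k, hk, ⟨φ, hφ, hw⟩, hmax⟩ : ∃ k ≤ K + 1, P k ∧ (k + 1 ≤ K + 1 → ¬ P (k + 1)) :=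
    ⟨Nat.findGreatest P (K + 1), Nat.findGreatest_le _, Nat.findGreatest_spec (Nat.zero_le _) hP0,
      Nat.findGreatest_is_greatest (Nat.lt_succ_self _)⟩
  rcases hk.eq_or_lt with e | hk'
  · exact ⟨φ, k, 0, 0, ⟨hφ, Or.inl ⟨rfl, rfl, e⟩⟩, cls_zero h0 hw (hne φ hφ)⟩
  obtain ⟨ψ, hψ, ho, hR⟩ := hF.tr φ hφ k (by omega)
  obtain ⟨g, hg, he⟩ := (natCast_le_analyticOrderAt ((han φ hφ).sub (han ψ hψ))).1 ho
  have hw' : Tendsto (wf ψ k) 𝒱 (𝓝 0) := by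
    have := hw.add (h0.mul (hg.continuousAt.tendsto.comp h0))
    rw [zero_mul, add_zero] at this
    refine this.congr' ?_
    filter_upwards [h0.eventually he, h] with p a b
    have b1 := pow_ne_zero k b.1
    have a' : φ (p 0) = ψ (p 0) + p 0 ^ (k + 1) * g (p 0) := by
      rw [← sub_eq_iff_eq_add']
      simpa using a
    simp only [wf, Function.comp_apply, a']
    field_simp
    ring
  obtain ⟨_ | c, hc⟩ := nh_ult (𝒱.map (wf ψ (k + 1)))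
  · exact ⟨ψ, k, 1, 0, ⟨hψ, Or.inr (Or.inl ⟨rfl, rfl, by omega, hR⟩)⟩, cls_one hc hw' (hne ψ hψ)⟩
  · have hc' : Tendsto (wf ψ (k + 1)) 𝒱 (𝓝 c) := hc
    refine ⟨ψ, k + 1, 0, c, ⟨hψ, Or.inr (Or.inr ⟨rfl, ?_, by omega, hk', hR, fun θ hθ ht => ?_⟩)⟩,
      cls_zero h0 hc' (hne ψ hψ)⟩
    · rintro rfl
      exact hmax hk' ⟨ψ, hψ, hc'⟩
    · refine hmax hk' ⟨θ, hθ, ?_⟩
      have := hc'.sub (ht.comp (tendsto_nhdsWithin_iff.2 ⟨h0, h.mono fun p hp => hp.1⟩))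
      rw [sub_self] at this
      exact this.congr fun p => by
        simp only [wf, Function.comp_apply]
        ring

theorem cls : Cls := by
  intro n K ρ₀ Φ ρ g hF hB 𝒰 hm hl
  let σ : E2 → E2 := fun b => ![b 0 ^ (n⁻¹ : ℂ), b 1]
  have h1 : ∀ b : E2, σ b 0 ^ n = b 0 := fun b => Complex.cpow_nat_inv_pow _ hF.npos.ne'
  have h2 : ∀ b, rr n (σ b) = b := fun b => by
    funext j
    fin_cases j
    · exact h1 b
    · rfl
  have h3 : ∀ j, Tendsto (fun b : E2 => b j) 𝒰 (𝓝 0) := tendsto_pi_nhds.1 hl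
  obtain ⟨φ, k, ε, c, a, b⟩ := cls_up hF (𝒰.map σ) (by
      refine NormedAddGroup.tendsto_nhds_zero.2 fun r hr => ?_
      refine (NormedAddGroup.tendsto_nhds_zero.1 (h3 0) _ (pow_pos hr n)).mono fun b hb => ?_
      rw [← h1 b, norm_pow] at hb
      exact lt_of_pow_lt_pow_left₀ n hr.le hb) (h3 1) (by
      refine eventually_map.2 (mem_of_superset hm fun b hb => ?_)
      have := (hB.zero (σ b) (by rw [h2]; linarith [hb.1, hB.pos])).not.1 (by rw [h2]; exact hb.2)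
      exact ⟨fun e => this (Or.inl e), fun φ hφ e => this (Or.inr ⟨φ, hφ, e⟩)⟩)
  refine ⟨φ, k, ε, c, a, ?_⟩
  have h4 : map (rr n) (map σ 𝒰) = 𝒰 := by
    rw [map_map, show rr n ∘ σ = id from funext h2, map_id]
  rw [← h4, ← map_map]
  exact map_mono b

end Pool.Agent.Lib.MP_356dfe_ag.R
end
end

-- part Pool.Agent.Lib.MP_356dfe_ag.R.PTup
section

/-! Part Tup of the resolution of surface singularities. -/

set_option autoImplicit false

open Set Filter Topology Metric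
open scoped ContDiff

noncomputable section

namespace Pool.Agent.Lib.MP_356dfe_ag.R

open S (E2)

namespace PTup

open Polynomial (C X)

theorem pig {ι : Type} (A : Finset ι) (r : Fin (A.card + 1) → ι → Prop)
    (h : ∀ i, ∃ a ∈ A, r i a) : ∃ i j, i ≠ j ∧ ∃ a ∈ A, r i a ∧ r j a := by
  choose f hf hr using h
  obtain ⟨i, -, j, -, h1, h2⟩ := Finset.exists_ne_map_eq_of_card_lt_of_maps_to
    (s := Finset.univ) (t := A) (by simp) (f := f) fun i _ => hf i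
  exact ⟨i, j, h1, f i, hf i, hr i, h2 ▸ hr j⟩

/-- the nodes -/
def nd {D : ℕ} (i : Fin D) : ℂ := ((i : ℕ) : ℂ)

theorem nd_inj {D : ℕ} : Function.Injective (nd (D := D)) :=
  fun _ _ e => Fin.ext (Nat.cast_injective (R := ℂ) e)

/-- the limit polynomials -/
def mp (i : ℂ) : Option ℂ → Polynomial ℂ
  | some c => C (c - i)⁻¹ * (C c - X)
  | none => 1

theorem mp_deg (i : ℂ) (l : Option ℂ) : (mp i l).natDegree ≤ 1 := by
  rcases l with _ | c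
  · simp [mp]
  · simp only [mp]
    compute_degree

theorem mp_self {i : ℂ} {l : Option ℂ} (h : l ≠ some i) : (mp i l).eval i = 1 := by
  rcases l with _ | c
  · simp [mp]
  · have h1 : c - i ≠ 0 := sub_ne_zero.2 fun e => h (congrArg some e)
    simp [mp, inv_mul_cancel₀ h1]

theorem mp_lim {i : ℂ} {l : Option ℂ} (h : l ≠ some i) (j : ℂ) :
    Tendsto (fun z => (z - j) / (z - i)) (nh l) (𝓝 ((mp i l).eval j)) := by
  rcases l with _ | c
  · have h1 : Tendsto (fun z : ℂ => 1 + (i - j) * (z - i)⁻¹) (Bornology.cobounded ℂ)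
        (𝓝 (1 + (i - j) * 0)) :=
      ((tendsto_inv₀_cobounded.comp (tendsto_sub_const_cobounded i)).const_mul _).const_add _
    rw [mul_zero, add_zero] at h1
    have h2 : (mp i none).eval j = 1 := by simp [mp]
    rw [h2]
    refine h1.congr' ((Bornology.eventually_ne_cobounded i).mono fun z hz => ?_)
    have h3 : z - i ≠ 0 := sub_ne_zero.2 hz
    show 1 + (i - j) * (z - i)⁻¹ = (z - j) / (z - i)
    field_simp
    ring
  · have h1 : c - i ≠ 0 := sub_ne_zero.2 fun e => h (congrArg some e)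
    have h2 : (mp i (some c)).eval j = (c - j) / (c - i) := by
      simp [mp, div_eq_inv_mul]
    rw [h2]
    exact (tendsto_id.sub_const j).div (tendsto_id.sub_const i) h1

section Core

variable {ι α : Type} (A : Finset ι) (w : ι → α → ℂ) (P : α → Fin (A.card + 1) → ℂ)
  (G : Filter α) (l : ι → Option ℂ)

theorem lim (hP : ∀ᶠ u in G, ∀ i j, rat P i u j = ∏ a ∈ A, (w a u - nd j) / (w a u - nd i))
    (hl : ∀ a ∈ A, Tendsto (w a) G (nh (l a))) :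
    ∃ (i : Fin (A.card + 1)) (p : Polynomial ℂ), p.natDegree ≤ A.card ∧ p.eval (nd i) = 1 ∧
      (∀ a ∈ A, ∀ c, l a = some c → p.eval c = 0) ∧
      Tendsto (rat P i) G (𝓝 fun j => p.eval (nd j)) := by
  obtain ⟨i, hi⟩ : ∃ i : Fin (A.card + 1), ∀ a ∈ A, l a ≠ some (nd i) := by
    by_contra h
    push Not at h
    obtain ⟨i, j, h1, a, -, h2, h3⟩ := pig A _ h
    exact h1 (nd_inj (Option.some.inj (h2.symm.trans h3)))
  refine ⟨i, ∏ a ∈ A, mp (nd i) (l a), ?_, ?_, fun a ha c hc => ?_,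
    tendsto_pi_nhds.2 fun j => ?_⟩
  · refine (Polynomial.natDegree_prod_le _ _).trans ?_
    simpa using Finset.sum_le_card_nsmul A _ 1 fun a _ => mp_deg (nd i) (l a)
  · rw [Polynomial.eval_prod]
    exact Finset.prod_eq_one fun a ha => mp_self (hi a ha)
  · rw [Polynomial.eval_prod]
    refine Finset.prod_eq_zero ha ?_
    simp [hc, mp]
  · rw [Polynomial.eval_prod]
    exact (tendsto_finsetProd A fun a ha => (mp_lim (hi a ha) (nd j)).comp (hl a ha)).congr'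
      (hP.mono fun u hu => (hu i j).symm)

theorem root [G.NeBot]
    (hP : ∀ᶠ u in G, ∀ i j, rat P i u j = ∏ a ∈ A, (w a u - nd j) / (w a u - nd i))
    (hl : ∀ a ∈ A, Tendsto (w a) G (nh (l a))) {i : Fin (A.card + 1)} {s : Fin (A.card + 1) → ℂ}
    (hs : s i = 1) (ht : Tendsto (rat P i) G (𝓝 s)) :
    ∀ a ∈ A, ∀ c, l a = some c → (Lagrange.interpolate Finset.univ nd s).IsRoot c := by
  obtain ⟨i', p, h1, h2, h3, h4⟩ := lim A w P G l hP hl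
  have e1 : ∀ᶠ u in G, P u i ≠ 0 := by
    have := (tendsto_pi_nhds.1 ht i).eventually_ne (b₂ := 0) (hs ▸ one_ne_zero)
    refine this.mono fun u hu e => hu ?_
    simp [rat, e]
  have e2 : ∀ j, p.eval (nd j) = p.eval (nd i) * s j := fun j =>
    tendsto_nhds_unique (tendsto_pi_nhds.1 h4 j)
      (((tendsto_pi_nhds.1 h4 i).mul (tendsto_pi_nhds.1 ht j)).congr' (e1.mono fun u hu => by
        simp only [rat, Pi.smul_apply, smul_eq_mul]
        field_simp))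
  have e3 : p.eval (nd i) ≠ 0 := fun e => by
    have := e2 i'
    rw [h2, e, zero_mul] at this
    exact one_ne_zero this
  have e4 : C (p.eval (nd i))⁻¹ * p = Lagrange.interpolate Finset.univ nd s := by
    refine Lagrange.eq_interpolate_of_eval_eq s nd_inj.injOn ?_ fun j _ => ?_
    · refine (Polynomial.degree_le_natDegree.trans ?_).trans_lt
        (Nat.cast_lt.2 (Nat.lt_succ_self A.card) |>.trans_eq (by simp))
      exact Nat.cast_le.2 ((Polynomial.natDegree_C_mul_le _ _).trans h1)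
    · rw [Polynomial.eval_mul, Polynomial.eval_C, e2 j, inv_mul_cancel_left₀ e3]
  intro a ha c hc
  rw [← e4, Polynomial.IsRoot, Polynomial.eval_mul, h3 a ha c hc, mul_zero]

end Core

/-- the index set -/
def AA (n K : ℕ) (Φ : Finset (ℂ → ℂ)) : Finset (ℂ × (ℂ → ℂ) × ℕ) :=
  Polynomial.nthRootsFinset n (1 : ℂ) ×ˢ Φ ×ˢ Finset.range (K + 2)

theorem mem_AA {n K : ℕ} {Φ : Finset (ℂ → ℂ)} (hn : 0 < n) {a : ℂ × (ℂ → ℂ) × ℕ} :
    a ∈ AA n K Φ ↔ a.1 ^ n = 1 ∧ a.2.1 ∈ Φ ∧ a.2.2 ≤ K + 1 := by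
  simp [AA, Polynomial.mem_nthRootsFinset hn, Nat.lt_succ_iff]

/-- the factors -/
def fac (a : ℂ × (ℂ → ℂ) × ℕ) (i : ℂ) (u : E2) : ℂ :=
  u 1 - a.2.1 (u 0) - i * a.1⁻¹ * u 0 ^ a.2.2

/-- the test functions -/
def ww (a : ℂ × (ℂ → ℂ) × ℕ) : E2 → ℂ := fun u => a.1 * wf a.2.1 a.2.2 u

theorem ne0 {n : ℕ} (hn : 0 < n) {ζ : ℂ} (h : ζ ^ n = 1) : ζ ≠ 0 := by
  rintro rfl
  rw [zero_pow hn.ne'] at h
  exact zero_ne_one h

theorem fac_eq {a : ℂ × (ℂ → ℂ) × ℕ} (ha : a.1 ≠ 0) (i : ℂ) {u : E2} (hu : u 0 ≠ 0) :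
    fac a i u = a.1⁻¹ * u 0 ^ a.2.2 * (ww a u - i) := by
  simp only [fac, ww, wf]
  field_simp

theorem inv {n K : ℕ} {ρ₀ : ℝ} {Φ : Finset (ℂ → ℂ)} (hF : Fam n K ρ₀ Φ) (i : ℂ) {ζ : ℂ}
    (h : ζ ^ n = 1) (u : E2) :
    ∏ a ∈ AA n K Φ, fac a i (rt ζ u) = ∏ a ∈ AA n K Φ, fac a i u := by
  have h0 := ne0 hF.npos h
  have h1 : ζ⁻¹ ^ n = 1 := by rw [inv_pow, h, inv_one]
  have key : ∀ ξ : ℂ, ξ ^ n = 1 → ∀ a ∈ AA n K Φ,
      ((a.1 * ξ⁻¹ ^ a.2.2, fun t => a.2.1 (ξ * t), a.2.2) : ℂ × (ℂ → ℂ) × ℕ) ∈ AA n K Φ := by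
    intro ξ hξ a ha
    obtain ⟨a1, a2, a3⟩ := (mem_AA hF.npos).1 ha
    refine (mem_AA hF.npos).2 ⟨?_, hF.rot _ a2 ξ hξ, a3⟩
    show (a.1 * ξ⁻¹ ^ a.2.2) ^ n = 1
    rw [mul_pow, a1, ← pow_mul, mul_comm a.2.2, pow_mul, inv_pow, hξ, inv_one, one_pow, one_mul]
  refine Finset.prod_nbij' (fun a => (a.1 * ζ⁻¹ ^ a.2.2, fun t => a.2.1 (ζ * t), a.2.2))
    (fun a => (a.1 * ζ⁻¹⁻¹ ^ a.2.2, fun t => a.2.1 (ζ⁻¹ * t), a.2.2)) (key ζ h) (key ζ⁻¹ h1)
    ?_ ?_ ?_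
  · rintro ⟨η, φ, k⟩ -
    refine Prod.ext ?_ (Prod.ext (funext fun t => ?_) rfl)
    · show η * ζ⁻¹ ^ k * ζ⁻¹⁻¹ ^ k = η
      rw [inv_inv, mul_assoc, ← mul_pow, inv_mul_cancel₀ h0, one_pow, mul_one]
    · show φ (ζ * (ζ⁻¹ * t)) = φ t
      rw [mul_inv_cancel_left₀ h0]
  · rintro ⟨η, φ, k⟩ -
    refine Prod.ext ?_ (Prod.ext (funext fun t => ?_) rfl)
    · show η * ζ⁻¹⁻¹ ^ k * ζ⁻¹ ^ k = η
      rw [inv_inv, mul_assoc, ← mul_pow, mul_inv_cancel₀ h0, one_pow, mul_one]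
    · show φ (ζ⁻¹ * (ζ * t)) = φ t
      rw [inv_mul_cancel_left₀ h0]
  · rintro ⟨η, φ, k⟩ -
    show u 1 - φ (ζ * u 0) - i * η⁻¹ * (ζ * u 0) ^ k =
      u 1 - φ (ζ * u 0) - i * (η * ζ⁻¹ ^ k)⁻¹ * u 0 ^ k
    rw [mul_inv, inv_pow, inv_inv, mul_pow]
    ring

end PTup

open PTup in
theorem tupEx (hd : Desc) : TupEx := by
  intro n K ρ₀ Φ ρ g hF hB
  have hn := hF.npos
  have han : ∀ (i : ℂ) u, ‖rr n u‖ < ρ →
      AnalyticAt ℂ (fun u => ∏ a ∈ AA n K Φ, fac a i u) u := by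
    intro i u hu
    have h1 : ‖u 0‖ < ρ₀ := hB.rad _ ((norm_le_pi_norm (rr n u) 0).trans_lt
      (hu.trans (by linarith [hB.pos])))
    refine Finset.analyticAt_fun_prod _ fun a ha => ?_
    exact ((an_co 1 u).sub (AnalyticAt.comp (f := fun u : E2 => u 0)
      ((hF.an _ ((mem_AA hn).1 ha).2.1).2 _ h1) (an_co 0 u))).sub
      (analyticAt_const.mul ((an_co 0 u).pow _))
  choose q hq1 hq2 using fun i : Fin ((AA n K Φ).card + 1) =>
    hd n ρ (fun u => ∏ a ∈ AA n K Φ, fac a (nd i) u) hn (han _)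
      fun ζ hζ u _ => inv hF _ hζ u
  have hP : ∀ G' : Filter E2, rr n ⁻¹' Bs ρ g ∈ G' → ∀ᶠ u in G', ∀ i j,
      rat (fun u i => q i (rr n u)) i u j =
        ∏ a ∈ AA n K Φ, (ww a u - nd j) / (ww a u - nd i) := by
    intro G' hG'
    filter_upwards [hG'] with u hu i j
    have h1 : u 0 ≠ 0 := fun e =>
      hu.2 ((hB.zero u (hu.1.trans (by linarith [hB.pos]))).2 (Or.inl e))
    show (q i (rr n u))⁻¹ * q j (rr n u) = _
    rw [hq2 i u hu.1, hq2 j u hu.1, ← div_eq_inv_mul, ← Finset.prod_div_distrib]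
    refine Finset.prod_congr rfl fun a ha => ?_
    have h2 := ne0 hn ((mem_AA hn).1 ha).1
    rw [fac_eq h2 _ h1, fac_eq h2 _ h1,
      mul_div_mul_left _ _ (mul_ne_zero (inv_ne_zero h2) (pow_ne_zero _ h1))]
  have hw : ∀ a ∈ AA n K Φ, ww a ∈ SS n K Φ := fun a ha =>
    let ⟨a1, a2, a3⟩ := (mem_AA hn).1 ha
    ⟨a.1, a1, Or.inr ⟨_, a2, _, a3, rfl⟩⟩
  refine ⟨_, fun b i => q i b, fun b hb => ⟨analyticAt_pi_iff.2 fun i => hq1 i b hb,
    fun h0 h1 => h0 ?_⟩, ?_, fun i s hs => ?_⟩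
  · obtain ⟨t, ht⟩ := IsAlgClosed.exists_pow_nat_eq (b 0) hn
    have e : rr n ![t, b 1] = b := by
      funext k
      fin_cases k
      · exact ht
      · rfl
    obtain ⟨i, j, h2, a, ha, h3, h4⟩ := pig (AA n K Φ) (fun i a => fac a (nd i) ![t, b 1] = 0)
      fun i => Finset.prod_eq_zero_iff.1 (by
        rw [← hq2 i _ (e.symm ▸ hb), e]
        exact congrFun h1 i)
    obtain ⟨a1, a2, -⟩ := (mem_AA hn).1 ha
    change b 1 - a.2.1 t - nd i * a.1⁻¹ * t ^ a.2.2 = 0 at h3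
    change b 1 - a.2.1 t - nd j * a.1⁻¹ * t ^ a.2.2 = 0 at h4
    have h5 : t ^ a.2.2 = 0 := by
      have : (nd i - nd j) * a.1⁻¹ * t ^ a.2.2 = 0 := by linear_combination h4 - h3
      exact (mul_eq_zero.1 this).resolve_left
        (mul_ne_zero (sub_ne_zero.2 (nd_inj.ne h2)) (inv_ne_zero (ne0 hn a1)))
    have h6 : t = 0 := eq_zero_of_pow_eq_zero h5
    rw [h5, h6, (hF.an _ a2).1, mul_zero, sub_zero, sub_zero] at h3
    funext k
    fin_cases k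
    · show b 0 = 0
      rw [← ht, h6, zero_pow hn.ne']
    · exact h3
  · rintro _ ⟨G', ⟨h1, l, h2, -⟩, -, rfl⟩
    obtain ⟨i, p, -, h3, -, h4⟩ := lim (AA n K Φ) ww _ G' (fun a => l (ww a)) (hP G' h1)
      fun a ha => h2 _ (hw a ha)
    exact ⟨i, _, h3, h4⟩
  · have h0 : Lagrange.interpolate Finset.univ nd s ≠ 0 := fun e => by
      have := Lagrange.eval_interpolate_at_node (v := nd) s nd_inj.injOn (Finset.mem_univ i)
      rw [e, hs, Polynomial.eval_zero] at this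
      exact zero_ne_one this
    have hT := ((Polynomial.finite_setOfPred_isRoot h0).image some).insert none
    refine (((Set.Finite.pi' fun _ : AA n K Φ => hT).image fun lam => map (rr n)
      (𝓟 (rr n ⁻¹' Bs ρ g) ⊓ 𝓝 0 ⊓ ⨅ a : AA n K Φ, comap (ww a) (nh (lam a)))).insert ⊥).subset ?_
    rintro _ ⟨⟨G', ⟨h1, l, h2, h3⟩, h4, rfl⟩, h5⟩
    rcases G'.eq_or_neBot with rfl | hne
    · exact Or.inl map_bot
    refine Or.inr ⟨fun a => l (ww a), fun a => ?_, congrArg _ (le_antisymm (h3 _ ?_ ?_) ?_)⟩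
    · rcases e : l (ww a) with _ | c
      · exact Or.inl e
      · exact Or.inr ⟨c, root (AA n K Φ) ww _ G' (fun a => l (ww a)) (hP G' h1)
          (fun a ha => h2 _ (hw a ha)) hs h5 a a.2 c e, e.symm⟩
    · exact mem_inf_of_left (mem_inf_of_left (mem_principal_self _))
    · rintro f ⟨η, hη, rfl | ⟨φ, hφ, k, hk, rfl⟩⟩
      · have a1 : Tendsto (fun u : E2 => η * u 0) (𝓝 0) (nh (some 0)) := by
          have := ((continuous_apply (0 : Fin 2)).tendsto (0 : E2)).const_mul η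
          rw [Pi.zero_apply, mul_zero] at this
          exact this
        have a2 : l (fun u => η * u 0) = some 0 := by
          by_contra e
          exact (hne.map _).ne (le_bot_iff.1 (nh_disj e (h2 _ ⟨η, hη, Or.inl rfl⟩)
            (a1.mono_left h4)))
        rw [a2]
        exact a1.mono_left (inf_le_left.trans inf_le_right)
      · exact tendsto_iff_comap.2 (inf_le_right.trans
          (iInf_le _ (⟨(η, φ, k), (mem_AA hn).2 ⟨hη, hφ, hk⟩⟩ : AA n K Φ)))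
    · exact le_inf (le_inf (le_principal_iff.2 h1) h4)
        (le_iInf fun a => tendsto_iff_comap.1 (h2 _ (hw a a.2)))

end Pool.Agent.Lib.MP_356dfe_ag.R
end
end

-- part Pool.Agent.Lib.MP_356dfe_ag.R.PBase
section

/-! Part Base of the resolution of surface singularities. -/

set_option autoImplicit false

open Set Filter Topology Metric
open scoped ContDiff

noncomputable section

namespace Pool.Agent.Lib.MP_356dfe_ag.R

open S (E2)

theorem baseEx (he : ExpF) (h1 : ChEx) (h2 : BBe) (h3 : BTEx) (h4 : BGEx) (h5 : Cls)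
    (h6 : TupEx) : BaseEx := by
  intro n K ρ₀ Φ ρ g fa bg
  have e0 : ∀ φ k ε, map (rr n ∘ chi φ k ε 0 ∘ ex2) FT =
      map (rr n ∘ chi φ k ε 0) (𝓝[(bad 0)ᶜ] 0) := fun φ k ε => by
    rw [bad_zero, ← he.ft, map_map]
    rfl
  refine ⟨{G | ∃ φ k ε, CT n K ρ₀ Φ φ k ε 0 ∧ map (rr n ∘ chi φ k ε 0 ∘ ex2) FT = G}, ?_,
    h2 n K ρ₀ Φ ρ g fa bg, ?_, ?_, fun 𝒰 a b => ?_, h6 n K ρ₀ Φ ρ g fa bg⟩
  · rintro _ ⟨G, -, a, rfl⟩
    have b : Continuous (rr n) := by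
      unfold rr
      fun_prop
    refine (b.tendsto' 0 0 ?_).mono_left a
    ext k
    fin_cases k <;> simp [rr, fa.npos.ne']
  · refine (((Φ.finite_toSet.prod (finite_le_nat (K + 1))).prod (finite_le_nat 1)).image
      fun q => map (rr n ∘ chi q.1.1 q.1.2 q.2 0 ∘ ex2) FT).subset ?_
    rintro _ ⟨φ, k, ε, ⟨a, b⟩, rfl⟩
    refine ⟨((φ, k), ε), ⟨⟨a, ?_⟩, ?_⟩, rfl⟩ <;>
      rcases b with b | b | b <;> simp only [mem_ofPred_eq] <;> omega
  · rintro _ ⟨φ, k, ε, a, rfl⟩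
    obtain ⟨δ, b⟩ := h1 n K ρ₀ Φ ρ g φ k ε 0 fa bg a
    obtain ⟨R, act, c⟩ := h3 n K ρ₀ Φ ρ g φ k ε δ fa bg a b
    exact ⟨n, _, R, act, c, rfl⟩
  · obtain ⟨φ, k, ε, c, d, e⟩ := h5 n K ρ₀ Φ ρ g fa bg 𝒰 a b
    by_cases f : c = 0
    · subst f
      exact Or.inl ⟨_, ⟨φ, k, ε, d, rfl⟩, e0 φ k ε ▸ e⟩
    · obtain ⟨δ, i⟩ := h1 n K ρ₀ Φ ρ g φ k ε c fa bg d
      obtain ⟨R, l⟩ := h4 n K ρ₀ Φ ρ g φ k ε c δ fa bg f d i
      refine Or.inr ⟨n, _, R, l, e.trans_eq ?_⟩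
      rw [bad_ne f, show (0 : E2) = ![0, 0] from by ext k; fin_cases k <;> rfl, ← he.fg, map_map]
      rfl

end Pool.Agent.Lib.MP_356dfe_ag.R
end
end

-- part Pool.Agent.Lib.MP_356dfe_ag.R.PCov
section

/-! Part Cov of the resolution of surface singularities. -/

set_option autoImplicit false

open Set Filter Topology Metric
open scoped ContDiff

noncomputable section

namespace Pool.Agent.Lib.MP_356dfe_ag.R

open S (E2)

namespace PCov

theorem root {n : ℕ} (b : E2) {t : ℂ} (h : t ^ n = b 0) : rr n ![t, b 1] = b := by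
  funext k
  fin_cases k
  · exact h
  · rfl

theorem val_loc {X : Type} [TopologicalSpace X] (Y : Set X) :
    IsLocalHomeomorphOn (Subtype.val : Y → X) {y | Y ∈ 𝓝 y.1} := by
  refine (isLocalHomeomorphOn_iff_isOpenEmbedding_restrict _).2 fun y hy =>
    ⟨Subtype.val ⁻¹' interior Y, (isOpen_interior.preimage continuous_subtype_val).mem_nhds
      (mem_interior_iff_mem_nhds.2 hy), IsEmbedding.subtypeVal.comp IsEmbedding.subtypeVal, ?_⟩
  have : range ((Subtype.val ⁻¹' interior Y : Set Y).domRestrict Subtype.val) = interior Y :=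
    Set.ext fun z => ⟨fun ⟨a, ha⟩ => ha ▸ a.2, fun h => ⟨⟨⟨z, interior_subset h⟩, h⟩, rfl⟩⟩
  rw [this]
  exact isOpen_interior

end PCov

open PCov in
theorem covEx (h1 : Puis) (h2 : FamEx) (h3 : BgEx) (h4 : Rk) : CovEx := by
  intro X _ _ 𝒜 x Y pr ρ₁ δ hδ P
  obtain ⟨n, ρ₀, Φ₀, hn, h0, a1, a2⟩ := h1 δ hδ
  obtain ⟨K, Φ, b1, b2⟩ := h2 n ρ₀ Φ₀ hn h0 a1
  obtain ⟨g, ρ₂, c1, c2⟩ := h3 n K ρ₀ Φ b2
  obtain ⟨ρ, p0, p1, p2, p3⟩ : ∃ ρ : ℝ, 0 < ρ ∧ ρ ≤ ρ₁ ∧ ρ ≤ ρ₀ ∧ ρ ≤ ρ₂ :=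
    ⟨min ρ₁ (min ρ₀ ρ₂), lt_min P.pos (lt_min h0 c1), min_le_left _ _,
      (min_le_right _ _).trans (min_le_left _ _), (min_le_right _ _).trans (min_le_right _ _)⟩
  have B := c2 ρ p0 p3
  have zero : ∀ (b : E2) (t : ℂ), t ^ n = b 0 → ‖b‖ < 2 * ρ →
      (g b = 0 ↔ t = 0 ∨ ∃ φ ∈ Φ, b 1 = φ t) := fun b t ht hb => by
    have := B.zero ![t, b 1] (by rwa [root b ht])
    rwa [root b ht] at this
  have g0 : g 0 = 0 := (zero 0 0 (zero_pow hn.ne') (by rw [norm_zero]; linarith)).2 (.inl rfl)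
  have Q : Prj 𝒜 x Y pr ρ g := by
    refine ⟨P.cY, P.xY, p0, P.hol, P.zero, fun y hy h => P.int y hy (h.trans p1), P.fin, P.reg,
      fun y hy hx h hg => P.lb y hy hx (h.trans_le p1) fun e => hg ?_⟩
    obtain ⟨t, ht⟩ := IsAlgClosed.exists_pow_nat_eq (pr y 0) hn
    have k : ‖pr y‖ < 2 * ρ := by linarith
    refine (zero _ t ht k).2 (or_iff_not_imp_left.2 fun h0 => ?_)
    obtain ⟨φ, m, hφ⟩ := a2 t (pr y 1) h0 (B.rad t (ht ▸ (norm_le_pi_norm _ 0).trans_lt k))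
      ((norm_le_pi_norm _ 1).trans_lt (h.trans_le p2)) (by
        rw [← e, ← root (pr y) ht]
        rfl)
    exact ⟨φ, b1 m, hφ⟩
  refine ⟨n, K, ρ₀, Φ, ρ, g, b2, B, Q, fun b hb => B.an b (by linarith), g0,
    fun y hy h e he hs hz => ?_, ?_⟩
  · have an : AnalyticAt ℂ (pr ∘ e.symm) (e y) := (P.hol y hy).2 e he hs
    have fin : ∀ s T : Set E2, T.Finite → (∀ u ∈ s, u ∈ e.target ∧ e.symm u ∈ Y ∧
        pr (e.symm u) ∈ T) → s.Finite := fun s T hT h =>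
      ((hT.biUnion fun b _ => P.fin b).image e).subset fun u hu =>
        ⟨e.symm u, mem_biUnion (h u hu).2.2 ⟨(h u hu).2.1, rfl⟩, e.right_inv (h u hu).1⟩
    have ev : ∀ᶠ u in 𝓝 (e y), u ∈ e.target ∧ e.symm u ∈ Y ∧ ‖pr (e.symm u)‖ < 2 * ρ ∧
        g (pr (e.symm u)) = 0 := by
      filter_upwards [e.open_target.mem_nhds (e.map_source hs), symm_eventually e hs
        (Q.int y hy h), an.continuousAt.norm.eventually_lt_const (u := 2 * ρ) (by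
          simp only [Function.comp_apply, e.left_inv hs]
          linarith), hz] with u a b c d using ⟨a, b, c, d⟩
    by_cases k : ∀ᶠ u in 𝓝 (e y), pr (e.symm u) 0 = 0
    · obtain ⟨c, hc⟩ := h4 (fun u => pr (e.symm u) 1) _ (analyticAt_pi_iff.1 an 1) _ (ev.and k)
      refine hc (fin _ _ (finite_singleton ![0, c]) fun u hu => ⟨hu.1.1.1, hu.1.1.2.1, ?_⟩)
      funext j
      fin_cases j
      · exact hu.1.2
      · exact hu.2
    · obtain ⟨q, q1, q2, q3⟩ := ((not_eventually.1 k).and_eventually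
        (an.eventually_analyticAt.and ev.eventually_nhds)).exists
      have an' := analyticAt_pi_iff.1 q2 0
      obtain ⟨c, hc⟩ := h4 _ q an' _ (q3.and (an'.continuousAt.eventually_ne q1))
      obtain ⟨t, ht⟩ := IsAlgClosed.exists_pow_nat_eq c hn
      refine hc (fin _ _ (Φ.finite_toSet.image fun φ => ![c, φ t]) fun u hu =>
        ⟨hu.1.1.1, hu.1.1.2.1, ?_⟩)
      have k1 : t ^ n = pr (e.symm u) 0 := ht.trans hu.2.symm
      obtain ⟨φ, m, hφ⟩ := ((zero _ t k1 hu.1.1.2.2.1).1 hu.1.1.2.2.2).resolve_left fun k2 =>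
        hu.1.2 (by rw [k2, zero_pow hn.ne'] at k1; exact k1.symm)
      refine ⟨φ, m, funext fun j => ?_⟩
      fin_cases j
      · exact hu.2.symm
      · exact hφ.symm
  · have := isCompact_iff_compactSpace.1 P.cY
    have ct : Continuous (Y.domRestrict pr) :=
      ContinuousOn.domRestrict fun y hy => (P.hol y hy).1.continuousWithinAt
    refine ct.isClosedMap.isCoveringMapOn_of_isLocalHomeomorphOn (fun b _ =>
      ((P.fin b).preimage Subtype.val_injective.injOn).subset fun y hy => ⟨y.2, hy⟩) ?_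
    refine IsLocalHomeomorphOn.comp (t := Y ∩ pr ⁻¹' Bs ρ g) (.mk _ _ fun y hy => ?_)
      ((val_loc Y).mono fun y hy => Q.int y.1 y.2 hy.1.le) fun y hy => ⟨y.2, hy⟩
    obtain ⟨e, k1, k2⟩ := (Q.lb y hy.1 (fun k => hy.2.2 (by
      rw [(P.zero y hy.1).2 k, g0])) hy.2.1 hy.2.2).loc
    exact ⟨e, k1, k2.symm⟩

end Pool.Agent.Lib.MP_356dfe_ag.R
end
end

-- part Pool.Agent.Lib.MP_356dfe_ag.R.PFoxL
section

/-! Part FoxL of the resolution of surface singularities. -/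

set_option autoImplicit false

open Set Filter Topology Metric
open scoped ContDiff

noncomputable section

namespace Pool.Agent.Lib.MP_356dfe_ag.R

open S (E2)

/-- local sheets of a covering -/
theorem foxL_sheet {X : Type} [TopologicalSpace X] {pr : X → E2} {Y : Set X} {B : Set E2}
    (hc : IsCoveringMapOn (Y.domRestrict pr) B) {u : X} (hu : u ∈ Y) (hb : pr u ∈ B) :
    ∃ (I : Type) (τ : X → I) (U : Set E2), U ∈ 𝓝 (pr u) ∧
      (∀ y ∈ Y, ∀ y' ∈ Y, pr y ∈ U → pr y = pr y' → τ y = τ y' → y = y') ∧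
      ∀ y ∈ Y, pr y ∈ U → ∀ᶠ y' in 𝓝[Y] y, τ y' = τ y := by
  classical
  have h := hc _ hb
  have : Nonempty (Y.domRestrict pr ⁻¹' {pr u}) := ⟨⟨⟨u, hu⟩, rfl⟩⟩
  have := h.1
  let t := h.toTrivialization
  refine ⟨Y.domRestrict pr ⁻¹' {pr u},
    fun x => if hx : x ∈ Y then (t ⟨x, hx⟩).2 else Classical.arbitrary _, t.baseSet,
    t.open_baseSet.mem_nhds h.mem_toTrivialization_baseSet, fun y hy y' hy' a b c => ?_,
    fun y hy a => ?_⟩
  · simp only [dif_pos hy, dif_pos hy'] at c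
    have h1 : (⟨y, hy⟩ : Y) ∈ t.source := t.mem_source.2 a
    have h2 : (⟨y', hy'⟩ : Y) ∈ t.source := t.mem_source.2 (show pr y' ∈ _ from b ▸ a)
    have h3 : t ⟨y, hy⟩ = t ⟨y', hy'⟩ :=
      Prod.ext (by rw [t.coe_fst h1, t.coe_fst h2]; exact b) c
    exact congrArg Subtype.val (t.toOpenPartialHomeomorph.injOn h1 h2 h3)
  · have h1 : (⟨y, hy⟩ : Y) ∈ t.source := t.mem_source.2 a
    have h2 : ContinuousAt (fun z : Y => (t z).2) ⟨y, hy⟩ :=
      continuous_snd.continuousAt.comp (t.continuousAt h1)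
    rw [ContinuousAt, nhds_discrete (Y.domRestrict pr ⁻¹' {pr u}), tendsto_pure] at h2
    refine (eventually_nhds_subtype_iff Y ⟨y, hy⟩ _).1 (h2.mono fun z hz => ?_)
    simp only [dif_pos hy, dif_pos z.2]
    exact hz

/-- the image of a lift is open and closed over the image of the base map -/
theorem foxL_key {X : Type} [TopologicalSpace X] {pr : X → E2} {Y : Set X} {B : Set E2}
    (hc : IsCoveringMapOn (Y.domRestrict pr) B) {L : Set E2} {κ : E2 → E2} {lam : E2 → X}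
    (hL : IsOpen L) (hκ : ∀ ξ ∈ L, LB κ ξ ∧ κ ξ ∈ B) (hl : Lf pr Y L κ lam)
    (htr : ∀ ξ ∈ L, ∀ ξ' ∈ L, κ ξ = κ ξ' → ∀ η ∈ L, η + (ξ' - ξ) ∈ L ∧ κ (η + (ξ' - ξ)) = κ η)
    {u : X} (hu : u ∈ Y) {ξ₀ : E2} (h0 : ξ₀ ∈ L) (e : κ ξ₀ = pr u) :
    ∀ᶠ u' in 𝓝[Y] u, (u ∈ lam '' L ↔ u' ∈ lam '' L) := by
  have hb : pr u ∈ B := e ▸ (hκ _ h0).2
  obtain ⟨I, τ, U, hU, hi, hτ⟩ := foxL_sheet hc hu hb
  have h1 : ∀ᶠ η in 𝓝 ξ₀, η ∈ L ∧ κ η ∈ U :=
    (hL.eventually_mem h0).and ((hκ _ h0).1.1.continuousAt.eventually_mem (e ▸ hU))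
  obtain ⟨r, hr, hD⟩ := Metric.eventually_nhds_iff_ball.1 h1
  have h2 : κ '' ball ξ₀ r ∈ 𝓝 (pr u) := by
    rw [← e, ← (hκ _ h0).1.map_nhds]
    exact image_mem_map (ball_mem_nhds _ hr)
  have h3 : ContinuousWithinAt pr Y u :=
    (continuousWithinAt_iff_continuousAt_domRestrict pr hu).2 (hc.continuousAt hb)
  have h4 : ∀ ℓ : E2, (∀ η ∈ L, η + ℓ ∈ L ∧ κ (η + ℓ) = κ η) → ∀ η ∈ ball ξ₀ r,
      ∀ η' ∈ ball ξ₀ r, τ (lam (η + ℓ)) = τ (lam (η' + ℓ)) := by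
    intro ℓ hℓ η hη η' hη'
    refine (convex_ball ξ₀ r).isPreconnected.induction₂'
      (fun a b => τ (lam (a + ℓ)) = τ (lam (b + ℓ))) (fun a ha => ?_)
      (fun _ _ _ _ _ _ p q => p.trans q) hη hη'
    obtain ⟨b1, b2⟩ := hℓ a (hD a ha).1
    have b3 : Tendsto (fun c => c + ℓ) (𝓝 a) (𝓝 (a + ℓ)) :=
      (continuous_add_const ℓ).continuousAt
    have b4 : Tendsto (fun c => lam (c + ℓ)) (𝓝 a) (𝓝[Y] (lam (a + ℓ))) :=
      tendsto_nhdsWithin_iff.2 ⟨(hl.1.continuousAt (hL.mem_nhds b1)).tendsto.comp b3,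
        (b3.eventually (hL.eventually_mem b1)).mono fun c hc' => hl.2.1 hc'⟩
    have b5 := b4.eventually (hτ _ (hl.2.1 b1) (by rw [hl.2.2 _ b1, b2]; exact (hD a ha).2))
    exact (b5.filter_mono nhdsWithin_le_nhds).mono fun c hc' => ⟨hc'.symm, hc'⟩
  have h5 : ∀ y, ∀ y' ∈ Y, pr y ∈ κ '' ball ξ₀ r → pr y' ∈ κ '' ball ξ₀ r → τ y = τ y' →
      y ∈ lam '' L → y' ∈ lam '' L := by
    rintro _ y' hy' ⟨η, hη, e1⟩ ⟨η', hη', e2⟩ e3 ⟨ξ, hξ, rfl⟩
    have b1 := htr η (hD η hη).1 ξ hξ (e1.trans (hl.2.2 ξ hξ))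
    obtain ⟨b2, b3⟩ := b1 η' (hD η' hη').1
    have b4 := h4 _ b1 η hη η' hη'
    rw [add_sub_cancel] at b4
    refine ⟨_, b2, hi _ (hl.2.1 b2) _ hy' ?_ ?_ (b4.symm.trans e3)⟩
    · rw [hl.2.2 _ b2, b3]
      exact (hD η' hη').2
    · rw [hl.2.2 _ b2, b3, e2]
  have h6 := mem_of_mem_nhds h2
  filter_upwards [self_mem_nhdsWithin, h3.eventually_mem h2, hτ u hu (mem_of_mem_nhds hU)]
    with u' a b c
  exact ⟨h5 u u' a h6 b c.symm, h5 u' u hu b h6 c⟩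

theorem foxL : FoxL := by
  intro X _ pr Y B hc L κ lam hL hκ hl htr 𝓛 hne hm hb
  have h2 : map lam 𝓛 = comap pr (map κ 𝓛) ⊓ 𝓟 (lam '' L) := by
    refine le_antisymm (le_inf ?_ (le_principal_iff.2 (image_mem_map hm))) fun s hs => ?_
    · rw [← map_le_iff_le_comap, map_map]
      exact (map_congr (mem_of_superset hm fun ξ hξ => hl.2.2 ξ hξ)).le
    · obtain ⟨t, a, b, -, c⟩ := hb _ (inter_mem hs hm)
      refine mem_inf_principal.2 (mem_comap.2 ⟨κ '' t, image_mem_map a, ?_⟩)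
      rintro _ ⟨ξ, hξ, e⟩ ⟨ξ', hξ', rfl⟩
      exact (b (c ξ hξ ξ' hξ' (e.trans (hl.2.2 ξ' hξ')))).1
  refine ⟨⟨hne.map _, fun s hs => ?_, lam '' L, ?_, h2, κ '' L, image_mem_map hm,
    fun T hT hs ⟨y, hy, hy'⟩ z hz => ?_⟩, h2⟩
  · obtain ⟨t, a, b, c, -⟩ := hb _ (inter_mem hs hm)
    refine ⟨lam '' t, image_mem_map a, ?_, c.image _ (hl.1.mono fun ξ hξ => (b hξ).2)⟩
    rintro _ ⟨ξ, hξ, rfl⟩
    exact (b hξ).1
  · rintro _ ⟨ξ, hξ, rfl⟩
    exact ⟨hl.2.1 hξ, show pr _ ∈ B from hl.2.2 ξ hξ ▸ (hκ ξ hξ).2⟩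
  · refine (hT.induction₂' (fun a b => (a ∈ lam '' L ↔ b ∈ lam '' L)) (fun u hu => ?_)
      (fun _ _ _ _ _ _ p q => p.trans q) hy hz).1 hy'
    obtain ⟨⟨a, -⟩, ξ₀, h0, e⟩ := hs hu
    exact ((foxL_key hc hL hκ hl htr a h0 e).filter_mono
      (nhdsWithin_mono _ fun v hv => (hs hv).1.1)).mono fun v hv => ⟨hv, hv.symm⟩

end Pool.Agent.Lib.MP_356dfe_ag.R
end
end

-- part Pool.Agent.Lib.MP_356dfe_ag.R.PFoxR
section

/-! Part FoxR of the resolution of surface singularities. -/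

set_option autoImplicit false

open Set Filter Topology Metric
open scoped ContDiff

noncomputable section

namespace Pool.Agent.Lib.MP_356dfe_ag.R

open S (E2)

theorem foxR (hc : Conn) : FoxR := by
  intro X _ _ 𝒜 x Y pr ρ g cv z hz hx hρ
  have pj := cv.prj
  obtain ⟨e, he, h1⟩ := (pj.reg z hz).1 hx
  set W := Y ∩ pr ⁻¹' Bs ρ g
  have yz := pj.int z hz hρ.le
  have th : Thin (e.symm ⁻¹' W)ᶜ (e z) := ⟨fun u => g (pr (e.symm u)),
    ((pj.hol z hz).2.comp (cv.ang _ hρ.le)) e he h1, cv.thin z hz hρ.le e he h1,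
    (symm_eventually e h1 (inter_mem yz ((pj.hol z hz).1.norm.eventually_lt_const hρ))).mono
      fun u a b => by_contra fun c => b ⟨a.1, a.2, c⟩⟩
  have eq : 𝓝[W] z = map e.symm (𝓝[(e.symm ⁻¹' W)ᶜᶜ] (e z)) := by
    have := reg_F e W (e.map_source h1)
    rw [e.left_inv h1] at this
    exact this.symm
  have cp : ContinuousOn pr Y := fun y hy => (pj.hol y hy).1.continuousWithinAt
  have fo : IsOpen ((Y ∩ pr ⁻¹' {pr z}) \ {z})ᶜ := (pj.fin (pr z)).sdiff.isClosed.isOpen_compl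
  obtain ⟨O, o1, O', o2, o3, o4, o5⟩ : ∃ O, IsOpen O ∧ ∃ O', IsOpen O' ∧ z ∈ O ∧
      (Y ∩ pr ⁻¹' {pr z}) \ {z} ⊆ O' ∧ Disjoint O O' := by
    obtain ⟨O, O', a, b, c, d, f⟩ := SeparatedNhds.of_finite (finite_singleton z)
      ((pj.fin (pr z)).sdiff (t := {z})) (disjoint_left.2 fun y a b => b.2 a)
    exact ⟨O, a, O', b, c rfl, d, f⟩
  have cl : IsClosed (pr '' (Y \ (O ∪ O'))) :=
    ((pj.cY.diff (o1.union o2)).image_of_continuousOn (cp.mono sdiff_subset)).isClosed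
  have nm : (pr '' (Y \ (O ∪ O')))ᶜ ∈ 𝓝 (pr z) := cl.isOpen_compl.mem_nhds (by
    rintro ⟨y, a, b⟩
    by_cases c : y = z
    exacts [a.2 (Or.inl (c ▸ o3)), a.2 (Or.inr (o4 ⟨⟨a.1, b⟩, c⟩))])
  refine ⟨eq ▸ th.neBot.map _, fun s hs => ?_, W ∩ O, inter_subset_left, le_antisymm (le_inf
    (map_le_iff_le_comap.1 (tendsto_nhdsWithin_iff.2 ⟨(pj.hol z hz).1.tendsto.mono_left
      nhdsWithin_le_nhds, mem_of_superset self_mem_nhdsWithin inter_subset_right⟩))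
    (le_principal_iff.2 (inter_mem self_mem_nhdsWithin (mem_nhdsWithin_of_mem_nhds
      (o1.mem_nhds o3))))) (le_iff_ultrafilter.2 fun 𝒰 h => ?_), _,
    mem_nhdsWithin_of_mem_nhds nm, fun T a b ⟨y, c, d⟩ => ?_⟩
  · rw [eq] at hs ⊢
    obtain ⟨t, a, b, c⟩ := hc _ _ th _ (inter_mem hs (mem_nhdsWithin_of_mem_nhds
      (e.open_target.mem_nhds (e.map_source h1))))
    exact ⟨_, image_mem_map a, image_subset_iff.2 (b.trans inter_subset_left),
      c.image _ (e.continuousOn_symm.mono (b.trans inter_subset_right))⟩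
  · have a : W ∩ O ∈ 𝒰.1 := le_principal_iff.1 (h.trans inf_le_right)
    obtain ⟨y, b, c⟩ := pj.cY.ultrafilter_le_nhds 𝒰
      (le_principal_iff.2 (mem_of_superset a fun y a => a.1.1))
    have d : pr y = pr z := tendsto_nhds_unique ((pj.hol y b).1.tendsto.mono_left c)
      ((map_le_iff_le_comap.2 (h.trans inf_le_left)).trans nhdsWithin_le_nhds)
    have f : y = z := by_contra fun f => by
      obtain ⟨w, i, l⟩ := 𝒰.nonempty_of_mem (inter_mem a (c (o2.mem_nhds (o4 ⟨⟨b, d⟩, f⟩))))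
      exact disjoint_left.1 o5 i.2 l
    exact le_inf (f ▸ c) (le_principal_iff.2 (mem_of_superset a inter_subset_left))
  · exact subset_inter (b.trans inter_subset_left) (a.subset_left_of_subset_union o1 o2 o5
      (fun w f => by_contra fun i => (b f).2 ⟨w, ⟨(b f).1.1, i⟩, rfl⟩) ⟨y, c, d.2⟩)

end Pool.Agent.Lib.MP_356dfe_ag.R
end
end
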