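import Pool.Agent.Lib.MP_356dfe_ag.R.PRk

-- part Pool.Agent.Lib.MP_356dfe_ag.R.PLocP
section

/-! Part LocP of the resolution of surface singularities. -/

set_option autoImplicit false

open Set Filter Topology Metric
open scoped ContDiff

noncomputable section

namespace Pool.Agent.Lib.MP_356dfe_ag.R

open S (E2)

theorem locPrj (h1 : CovEx) (h2 : BaseEx) (h3 : ShEx) (h4 : LocEx) : LocPrj := by
  intro X _ _ 𝒜 x h O hO
  obtain ⟨Y, pr, ρ₁, δ, a1, a2, a3⟩ := h O hO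
  obtain ⟨n, K, ρ₀, Φ, ρ, g, fa, bg, cv⟩ := h1 X 𝒜 x Y pr ρ₁ δ a2 a3
  obtain ⟨𝔑, bs⟩ := h2 n K ρ₀ Φ ρ g fa bg
  obtain ⟨𝔉, 𝔑', sh⟩ := h3 X 𝒜 x Y pr ρ g cv _ _ bs
  obtain ⟨𝒟, lc⟩ := h4 X 𝒜 x _ _ 𝔉 𝔑' sh
  have pj := cv.prj
  have p0 : pr x = 0 := (pj.zero x pj.xY).2 rfl
  have cp : ContinuousOn pr Y := fun y hy => (pj.hol y hy).1.continuousWithinAt
  have cZ : IsClosed (Y ∩ pr ⁻¹' (closedBall 0 ρ ∩ g ⁻¹' {0})) :=
    cp.preimage_isClosed_of_isClosed pj.cY.isClosed (ContinuousOn.preimage_isClosed_of_isClosed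
      (fun b hb => (cv.ang b (mem_closedBall_zero_iff.1 hb)).continuousAt.continuousWithinAt)
      isClosed_closedBall isClosed_singleton)
  refine ⟨Y ∩ pr ⁻¹' ball 0 ρ, _, isOpen_iff_mem_nhds.2 fun y hy => inter_mem
    (pj.int y hy.1 (mem_ball_zero_iff.1 hy.2).le) ((pj.hol y hy.1).1 (isOpen_ball.mem_nhds hy.2)),
    ⟨pj.xY, by simpa [p0] using pj.pos⟩, inter_subset_left.trans a1, cZ,
    ⟨pj.xY, by simpa [p0, cv.g0] using pj.pos.le⟩, inter_subset_left.trans a1,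
    fun e he y hy => ?_, 𝒟, 𝔉, ?_⟩
  · by_cases b : y ∈ Y ∩ pr ⁻¹' (closedBall 0 ρ ∩ g ⁻¹' {0})
    · have c := mem_closedBall_zero_iff.1 b.2.1
      exact ⟨fun u => g (pr (e.symm u)), ((pj.hol y b.1).2.comp (cv.ang _ c)) e he hy,
        cv.thin y b.1 c e he hy, .of_forall fun u d => d.2.2⟩
    · exact thin_of_not (symm_eventually e hy (cZ.isOpen_compl.mem_nhds b))
  · convert lc using 1
    ext y
    exact ⟨fun ⟨b, c⟩ => ⟨b.1, mem_ball_zero_iff.1 b.2, fun d =>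
      c ⟨b.1, ball_subset_closedBall b.2, d⟩⟩, fun ⟨b, c⟩ => ⟨⟨b, mem_ball_zero_iff.2 c.1⟩,
        fun d => c.2 d.2.2⟩⟩

end Pool.Agent.Lib.MP_356dfe_ag.R
end
end

-- part Pool.Agent.Lib.MP_356dfe_ag.R.PGD
section

/-! Part GD of the resolution of surface singularities. -/

set_option autoImplicit false

open Set Filter Topology Metric
open scoped ContDiff

noncomputable section

namespace Pool.Agent.Lib.MP_356dfe_ag.R

open S (E2)

namespace PGD

theorem thin_bi {ι : Type} {s : Set ι} (hs : s.Finite) {A : ι → Set E2} {p : E2}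
    (h : ∀ i ∈ s, Thin (A i) p) : Thin (⋃ i ∈ s, A i) p := by
  induction s, hs using Finite.induction_on with
  | empty => simpa using thin_empty p
  | insert _ _ ih =>
    rw [biUnion_insert]
    exact (h _ (mem_insert _ _)).union (ih fun i hi => h i (mem_insert_of_mem _ hi))

theorem lim_eq {X : Type} [TopologicalSpace X] [T2Space X] {F : Filter X} (h : F.NeBot) {x y : X}
    (hx : F ≤ 𝓝 x) (hy : F ≤ 𝓝 y) : x = y :=
  eq_of_nhds_neBot (h.mono (le_inf hx hy))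

end PGD

open PGD in
theorem gdEx : GDEx := by
  intro X _ _ _ 𝒜 S hs hL
  obtain ⟨O, o1, o2⟩ := hs.fin.t2_separation
  choose! U Z u1 u2 u3 z1 z2 z3 z4 𝒟 𝔉 L using fun x hx =>
    hL x hx (O x) ((o1 x).2.mem_nhds (o1 x).1)
  have sep : ∀ x ∈ S, ∀ x' ∈ S, ∀ y ∈ O x, y ∈ O x' → x = x' := fun x hx x' hx' y a b =>
    not_not.1 fun e => disjoint_left.1 (o2 hx hx' e) a b
  obtain ⟨W, hW⟩ : ∃ W, W = (⋃ x ∈ S, Z x)ᶜ := ⟨_, rfl⟩
  have oW : IsOpen W := hW ▸ (hs.fin.isClosed_biUnion z1).isOpen_compl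
  have eW : ∀ x ∈ S, U x \ Z x = U x ∩ W := fun x hx => by
    ext y
    simp only [hW, Set.mem_sdiff, mem_inter_iff, mem_compl_iff, mem_iUnion₂, not_exists]
    exact and_congr_right fun a => ⟨fun b x' hx' c =>
      b (sep x hx x' hx' y (u3 x hx a) (z3 x' hx' c) ▸ c), fun b => b x hx⟩
  let 𝒟₀ : Set (Pc X) := {d | (∃ e, 𝒜 e ∧ Pc.reg e W = d) ∨ ∃ x ∈ S, d ∈ 𝒟 x}
  have ok : ∀ d ∈ 𝒟₀, d.Ok 𝒜 W := by
    rintro d (⟨e, he, rfl⟩ | ⟨x, hx, hd⟩)
    · refine ⟨e.open_target, ?_, fun u hu => ?_, fun u hu => not_not.1 hu.2,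
        e.symm.injOn.mono sdiff_subset, fun u hu => lbi_symm he hu.1⟩
      · simp only [Pc.reg, Set.sdiff_compl]
        exact e.symm.isOpen_inter_preimage oW
      · simp only [Pc.reg, hW, preimage_compl, compl_compl, preimage_iUnion₂]
        refine thin_bi hs.fin fun x hx => ?_
        have := z4 x hx e he _ (e.map_target hu)
        rwa [e.right_inv hu] at this
    · exact ((L x hx).ok d hd).mono (eW x hx ▸ inter_subset_right)
  have rg : ∀ e, 𝒜 e → ∀ u ∈ (Pc.reg e W).P, ∀ x ∈ S, ¬ (Pc.reg e W).F u ≤ 𝓝 x :=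
    fun e he u hu x hx h => (hs.ch x).2 ⟨e, he, lim_eq ((ok _ (.inl ⟨e, he, rfl⟩)).neBot hu)
      ((reg_F e W hu).trans_le nhdsWithin_le_nhds) h ▸ e.map_target hu⟩ hx
  have lc : ∀ x ∈ S, ∀ d ∈ 𝒟 x, ∀ u ∈ d.P, ∀ x' ∈ S, d.F u ≤ 𝓝 x' → x = x' :=
    fun x hx d hd u hu x' hx' h => by
      have hn := ((L x hx).ok d hd).neBot hu
      rcases (L x hx).lim d hd u hu with ⟨z, a, -, b⟩ | a
      · exact sep x hx x' hx' x' (lim_eq hn (b.trans_le nhdsWithin_le_nhds) h ▸ u3 x hx a)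
          (o1 x').1
      · exact lim_eq hn a h
  have own : ∀ x ∈ S, ∀ d ∈ 𝒟₀, ∀ u ∈ d.P, d.F u ≤ 𝓝 x → d ∈ 𝒟 x := by
    rintro x hx d (⟨e, he, rfl⟩ | ⟨x', hx', hd⟩) u hu h
    · exact absurd h (rg e he u hu x hx)
    · exact lc x' hx' d hd u hu x hx h ▸ hd
  have lim : ∀ d ∈ 𝒟₀, ∀ u ∈ d.P, (∃ z, z ∉ S ∧ d.F u = 𝓝[W] z) ∨ ∃ x ∈ S, d.F u ≤ 𝓝 x := by
    rintro d (⟨e, he, rfl⟩ | ⟨x, hx, hd⟩) u hu
    · exact .inl ⟨_, (hs.ch _).2 ⟨e, he, e.map_target hu⟩, reg_F e W hu⟩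
    · rcases (L x hx).lim d hd u hu with ⟨z, a, b, c⟩ | a
      · refine .inl ⟨z, fun hz => b (sep z hz x hx z (o1 z).1 (u3 x hx a)), ?_⟩
        rw [c, eW x hx, nhdsWithin_inter_of_mem
          (mem_nhdsWithin_of_mem_nhds ((u1 x hx).mem_nhds a))]
      · exact .inr ⟨x, hx, a⟩
  have dj : ∀ {F G : Filter X} {x y : X}, F ≤ 𝓝 x → G ≤ 𝓝 y → x ≠ y → EqD F G :=
    fun a b c => .inr ((disjoint_nhds_nhds.2 c).mono a b)
  refine ⟨W, 𝒟₀, ⟨hs, ⟨ok, fun d hd u hu d' hd' u' hu' => ?_, fun 𝒰 h => ?_⟩,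
    fun e he => .inl ⟨e, he, rfl⟩, lim, ?_⟩, fun x hx => ⟨U x, _, 𝒟 x, 𝔉 x, u1 x hx, u2 x hx,
      fun d hd => .inr ⟨x, hx, hd⟩, L x hx, own x hx⟩⟩
  · rcases lim d hd u hu with ⟨z, a, b⟩ | ⟨x, a, b⟩ <;>
      rcases lim d' hd' u' hu' with ⟨z', a', b'⟩ | ⟨x', a', b'⟩
    · by_cases e : z = z'
      · exact .inl (by rw [b, b', e])
      · exact dj (b.trans_le nhdsWithin_le_nhds) (b'.trans_le nhdsWithin_le_nhds) e
    · exact dj (b.trans_le nhdsWithin_le_nhds) b' fun e => a (e ▸ a')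
    · exact dj b (b'.trans_le nhdsWithin_le_nhds) fun e => a' (e ▸ a)
    · by_cases e : x = x'
      · subst e
        exact (L x a).eqd d (own x a d hd u hu b) u hu d' (own x a d' hd' u' hu' b') u' hu' b b'
      · exact dj b b' e
  · obtain ⟨z, -, hz⟩ := isCompact_univ.ultrafilter_le_nhds 𝒰 (by simp)
    by_cases a : z ∈ S
    · obtain ⟨d, b, c⟩ := (L z a).ult 𝒰
        (eW z a ▸ inter_mem (hz ((u1 z a).mem_nhds (u2 z a))) h) hz
      exact ⟨d, .inr ⟨z, a, b⟩, c⟩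
    · obtain ⟨e, he, b⟩ := (hs.ch z).1 a
      refine ⟨_, .inl ⟨e, he, rfl⟩, e z, e.map_source b, ?_⟩
      rw [reg_F e W (e.map_source b), e.left_inv b]
      exact le_inf hz (le_principal_iff.2 h)
  · rintro d (⟨e, he, rfl⟩ | ⟨x, hx, hd⟩)
    · exact ⟨∅, fun u hu => ⟨fun ⟨x, a, b⟩ => absurd b (rg e he u hu x a), by simp⟩⟩
    · obtain ⟨act, h⟩ := (L x hx).nc d hd
      exact ⟨act, fun u hu => ⟨fun ⟨x', a, b⟩ => (h u hu).1 (lc x hx d hd u hu x' a b ▸ b),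
        fun a => ⟨x, hx, (h u hu).2 a⟩⟩⟩

end Pool.Agent.Lib.MP_356dfe_ag.R
end
end

-- part Pool.Agent.Lib.MP_356dfe_ag.R.PCpl
section

/-! Part Cpl of the resolution of surface singularities. -/

set_option autoImplicit false

open Set Filter Topology Metric
open scoped ContDiff

noncomputable section

namespace Pool.Agent.Lib.MP_356dfe_ag.R

open S (E2)

namespace PCpl

variable {X : Type}

/-- the space of the filters of the punctured charts -/
abbrev M (𝒟 : Set (Pc X)) : Type := {F : Filter X // ∃ d ∈ 𝒟, ∃ u ∈ d.P, F = d.F u}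

theorem ev_mem (d : Pc X) {u : E2} {s : Set X} (hs : s ∈ d.F u) : ∀ᶠ v in 𝓝 u, s ∈ d.F v :=
  (eventually_nhdsWithin_iff.1 hs).eventually_nhds.mono fun _ h => eventually_nhdsWithin_iff.2 h

theorem cont (d : Pc X) : Continuous d.F :=
  continuous_iff_continuousAt.2 fun _ => Filter.tendsto_nhds.2 fun _ hs => ev_mem d hs

theorem img_mem (d : Pc X) {u : E2} {K : Set E2} (hK : K ∈ 𝓝 u) : d.c '' (K \ d.A) ∈ d.F u :=
  image_mem_map (inter_mem (mem_nhdsWithin_of_mem_nhds hK) self_mem_nhdsWithin)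

variable [TopologicalSpace X] {𝒜 : OC X → Prop} {W : Set X} {𝒟 : Set (Pc X)}

theorem ne (h : CD 𝒜 W 𝒟) (z : M 𝒟) : z.1.NeBot := by
  obtain ⟨d, hd, u, hu, e⟩ := z.2
  exact e ▸ (h.ok d hd).neBot hu

theorem key (h : CD 𝒜 W 𝒟) {d : Pc X} (hd : d ∈ 𝒟) {K : Set E2} (hK : IsCompact K)
    (hP : K ⊆ d.P) (z : M 𝒟) (hz : (d.c '' (K \ d.A))ᶜ ∉ z.1) : ∃ v ∈ K, z.1 = d.F v := by
  have h1 : (z.1 ⊓ 𝓟 (d.c '' (K \ d.A))).NeBot :=
    ⟨fun e => hz (inf_principal_eq_bot.1 e)⟩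
  have h2 := comap_inf_principal_neBot_of_image_mem h1 (m := d.c) (s := K \ d.A)
    (mem_inf_of_right (mem_principal_self _))
  obtain ⟨v, hv, h3⟩ := hK (f := comap d.c (z.1 ⊓ 𝓟 (d.c '' (K \ d.A))) ⊓ 𝓟 (K \ d.A))
    (inf_le_right.trans (principal_mono.2 fun _ a => a.1))
  refine ⟨v, hv, ?_⟩
  obtain ⟨d', hd', u', hu', e⟩ := z.2
  have h4 : EqD z.1 (d.F v) := e ▸ h.eqd d' hd' u' hu' d hd v (hP hv)
  have := h3.neBot.map d.c
  refine h4.eq (U := map d.c (𝓝 v ⊓ (comap d.c (z.1 ⊓ 𝓟 (d.c '' (K \ d.A))) ⊓ 𝓟 (K \ d.A)))) ?_ ?_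
  · exact (map_mono (inf_le_right.trans inf_le_left)).trans (map_comap_le.trans inf_le_left)
  · exact map_mono (inf_le_inf_left _ (inf_le_right.trans (principal_mono.2 fun _ a => a.2)))

theorem chart (h : CD 𝒜 W 𝒟) (z₀ : M 𝒟) {d : Pc X} (hd : d ∈ 𝒟) :
    ∃ e : OC (M 𝒟), e.target = d.P ∧ ∀ u ∈ d.P, (e.symm u).1 = d.F u := by
  classical
  let f : E2 → M 𝒟 := fun u => if hu : u ∈ d.P then ⟨d.F u, d, hd, u, hu, rfl⟩ else z₀
  have hf : ∀ u ∈ d.P, (f u).1 = d.F u := fun u hu => by simp only [f, dif_pos hu]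
  have hi : InjOn f d.P := fun u hu v hv e => by
    by_contra hne
    have h1 := (h.ok d hd).disj hu hv hne
    rw [← hf u hu, ← hf v hv, e, disjoint_self] at h1
    exact (ne h (f v)).ne h1
  have hc : ContinuousOn f d.P :=
    Topology.IsInducing.subtypeVal.continuousOn_iff.2 ((cont d).continuousOn.congr hf)
  have ho : IsOpenMap (d.P.domRestrict f) := by
    refine IsOpenMap.of_nhds_le fun a => ?_
    have h1 : map (d.P.domRestrict f) (𝓝 a) = map f (𝓝 a.1) := by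
      rw [show d.P.domRestrict f = f ∘ Subtype.val from rfl, ← map_map, map_nhds_subtype_val,
        (h.ok d hd).oP.nhdsWithin_eq a.2]
    rw [h1]
    intro s hs
    obtain ⟨K, k1, k2, k3⟩ := local_compact_nhds (inter_mem hs ((h.ok d hd).oP.mem_nhds a.2))
    have h2 : {z : M 𝒟 | d.c '' (K \ d.A) ∈ z.1} ∈ 𝓝 (f a.1) :=
      (isOpen_setOfPred_mem.preimage continuous_subtype_val).mem_nhds
        (show _ ∈ (f a.1).1 from (hf a.1 a.2).symm ▸ img_mem d k1)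
    refine mem_of_superset h2 fun z hz => ?_
    have := ne h z
    obtain ⟨v, hv, e⟩ := key h hd k3 (fun _ b => (k2 b).2) z (compl_notMem hz)
    have : z = f v := Subtype.ext (e.trans (hf v (k2 hv).2).symm)
    exact this ▸ (k2 hv).1
  exact ⟨(OpenPartialHomeomorph.ofContinuousOpenRestrict (hi.toPartialEquiv f d.P) hc ho
    (h.ok d hd).oP).symm, rfl, hf⟩

theorem t2 (h : CD 𝒜 W 𝒟) : T2Space (M 𝒟) := by
  refine ⟨fun z z' hne => ?_⟩
  obtain ⟨d, hd, u, hu, e⟩ := z.2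
  obtain ⟨d', hd', u', hu', e'⟩ := z'.2
  have h1 : EqD z.1 z'.1 := e ▸ e' ▸ h.eqd d hd u hu d' hd' u' hu'
  obtain ⟨s, hs, t, ht, hst⟩ := Filter.disjoint_iff.1 (h1.resolve_left fun a => hne (Subtype.ext a))
  refine ⟨{y | s ∈ y.1}, {y | t ∈ y.1}, isOpen_setOfPred_mem.preimage continuous_subtype_val,
    isOpen_setOfPred_mem.preimage continuous_subtype_val, hs, ht, disjoint_left.2 fun y a b => ?_⟩
  have := ne h y
  exact (Filter.nonempty_of_mem (inter_mem a b)).ne_empty hst.inter_eq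

theorem cpt (h : CD 𝒜 W 𝒟) : CompactSpace (M 𝒟) := by
  refine ⟨isCompact_iff_ultrafilter_le_nhds.2 fun 𝒱 _ => ?_⟩
  let B : Filter X := (𝒱 : Filter (M 𝒟)).bind Subtype.val
  have hB : B.NeBot := ⟨fun e => by
    have h1 : ∀ᶠ z in (𝒱 : Filter (M 𝒟)), ∅ ∈ z.1 := mem_bind'.1 (empty_mem_iff_bot.2 e)
    obtain ⟨z, hz⟩ := h1.exists
    exact (ne h z).ne (empty_mem_iff_bot.1 hz)⟩
  have hW : W ∈ B := mem_bind'.2 (univ_mem' fun z => by
    obtain ⟨d, hd, u, hu, e⟩ := z.2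
    exact show W ∈ z.1 from e ▸ (h.ok d hd).mem hu)
  obtain ⟨d, hd, u, hu, hU⟩ := h.ult (Ultrafilter.of B) (Ultrafilter.of_le B hW)
  refine ⟨⟨d.F u, d, hd, u, hu, rfl⟩, mem_univ _, ?_⟩
  rw [nhds_subtype, ← map_le_iff_le_comap]
  refine Filter.tendsto_nhds.2 fun s hs => ?_
  obtain ⟨K, k1, k2, k3⟩ := local_compact_nhds (inter_mem (ev_mem d hs) ((h.ok d hd).oP.mem_nhds hu))
  have h1 : (d.c '' (K \ d.A))ᶜ ∉ B := fun a =>
    compl_notMem (hU (img_mem d k1)) (Ultrafilter.of_le B a)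
  have h2 : {z : M 𝒟 | (d.c '' (K \ d.A))ᶜ ∈ z.1}ᶜ ∈ 𝒱 :=
    Ultrafilter.compl_mem_iff_notMem.2 fun a => h1 (mem_bind'.2 a)
  refine mem_of_superset h2 fun z hz => ?_
  obtain ⟨v, hv, e⟩ := key h hd k3 (fun _ b => (k2 b).2) z hz
  exact show s ∈ z.1 from e ▸ (k2 hv).1

end PCpl

theorem cplEx : CplEx := by
  rintro X _ 𝒜 W 𝒟 h ⟨d₀, hd₀, u₀, hu₀⟩
  let z₀ : PCpl.M 𝒟 := ⟨d₀.F u₀, d₀, hd₀, u₀, hu₀, rfl⟩
  have : Nonempty (OC (PCpl.M 𝒟)) := ⟨(PCpl.chart h z₀ hd₀).choose⟩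
  choose! ch h1 h2 using fun d (hd : d ∈ 𝒟) => PCpl.chart h z₀ hd
  refine ⟨PCpl.M 𝒟, inferInstance, PCpl.t2 h, PCpl.cpt h, Subtype.val, ch,
    Subtype.val_injective, PCpl.ne h, h1, h2, fun z => ?_,
    fun O => isOpen_setOfPred_mem.preimage continuous_subtype_val⟩
  obtain ⟨d, hd, u, hu, e⟩ := z.2
  have : z = (ch d).symm u := Subtype.ext (e.trans (h2 d hd u hu).symm)
  exact ⟨d, hd, this ▸ (ch d).map_target ((h1 d hd).symm ▸ hu)⟩

end Pool.Agent.Lib.MP_356dfe_ag.R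
end
end

-- part Pool.Agent.Lib.MP_356dfe_ag.R.PCplAn
section

/-! Part CplAn of the resolution of surface singularities. -/

set_option autoImplicit false

open Set Filter Topology Metric
open scoped ContDiff

noncomputable section

namespace Pool.Agent.Lib.MP_356dfe_ag.R

open S (E2)

namespace PCplAn

variable {X : Type} [TopologicalSpace X] {𝒜 : OC X → Prop} {S W : Set X} {𝒟 : Set (Pc X)}
  {M : Type} [TopologicalSpace M] {fl : M → Filter X} {ch : Pc X → OC M} {d d' : Pc X}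

theorem fl_eq (hc : CD 𝒜 W 𝒟) (h : Cpl 𝒟 fl ch) (hd : d ∈ 𝒟) {u : E2} (hu : u ∈ d.P \ d.A) :
    fl ((ch d).symm u) = 𝓝 (d.c u) :=
  (h.fl_symm d hd u hu.1).trans ((hc.ok d hd).F_eq hu)

theorem ext (hr : Riem) (hc : CD 𝒜 W 𝒟) (h : Cpl 𝒟 fl ch) : ExtP 𝒜 (Atl 𝒟 ch) fl := by
  intro f g N O hN hf hg z hz
  have h1 : ∀ y ∈ N, ContinuousAt g y := by
    intro y hy
    refine (closed_nhds_basis (g y)).tendsto_right_iff.2 fun C hC => ?_
    filter_upwards [hN.mem_nhds hy, (h.op (f ⁻¹' C)).mem_nhds ((hg y hy).2 hC.1)] with y' a b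
    have := h.ne y'
    exact hC.2.mem_of_tendsto (hg y' a).2 b
  rintro _ ⟨d, hd, rfl⟩ hs
  have ok := hc.ok d hd
  have h2 : ∀ᶠ u in 𝓝 (ch d z), u ∈ (ch d).target ∧ (ch d).symm u ∈ N :=
    inter_mem ((ch d).open_target.mem_nhds ((ch d).map_source hs))
      (symm_eventually (ch d) hs (hN.mem_nhds hz))
  have h3 : ∀ v ∈ d.P \ d.A, (ch d).symm v ∈ N → d.c v ∈ O ∧ g ((ch d).symm v) = f (d.c v) := by
    intro v hv hn
    obtain ⟨a, b⟩ := hg _ hn
    rw [fl_eq hc h hd hv] at a b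
    exact ⟨mem_of_mem_nhds a,
      tendsto_nhds_unique (b.mono_left (pure_le_nhds _)) (tendsto_pure_nhds f _)⟩
  refine hr _ d.A _ (ok.thin _ (h.tgt d hd ▸ (ch d).map_source hs)) ?_
  filter_upwards [h2, h2.eventually_nhds] with u a b
  refine ⟨(h1 _ a.2).comp ((ch d).continuousAt_symm a.1), fun hu => ?_⟩
  have h4 : u ∈ d.P \ d.A := ⟨h.tgt d hd ▸ a.1, hu⟩
  refine (((ok.loc u h4).an (hf _ (h3 u h4 a.2).1)).congr ?_).differentiableAt
  filter_upwards [b, ok.oA.mem_nhds h4] with v c e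
  exact (h3 v e c.2).2.symm

theorem hit (hc : CD 𝒜 W 𝒟) (h : Cpl 𝒟 fl ch) (hd : d ∈ 𝒟) (hd' : d' ∈ 𝒟) {u : E2}
    (hu : u ∈ d.P \ d.A) (hs : (ch d).symm u ∈ (ch d').source) :
    ch d' ((ch d).symm u) ∈ d'.P \ d'.A ∧ d'.c (ch d' ((ch d).symm u)) = d.c u := by
  have h1 : ch d' ((ch d).symm u) ∈ d'.P := h.tgt d' hd' ▸ (ch d').map_source hs
  have h2 := h.fl_symm d' hd' _ h1
  rw [(ch d').left_inv hs, fl_eq hc h hd hu] at h2
  have h3 : d'.c '' (d'.P \ d'.A) ∈ 𝓝 (d.c u) := h2 ▸ image_mem_map ((hc.ok d' hd').ev h1)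
  obtain ⟨u', h4, h5⟩ := mem_of_mem_nhds h3
  have h6 : (ch d').symm u' = (ch d).symm u :=
    h.inj (by rw [fl_eq hc h hd' h4, fl_eq hc h hd hu, h5])
  rw [← h6, (ch d').right_inv (h.tgt d' hd' ▸ h4.1)]
  exact ⟨h4, h5⟩

theorem sp (hr : Riem) (hs : Sp 𝒜 S) (hc : CD 𝒜 W 𝒟) (h : Cpl 𝒟 fl ch) : Sp (Atl 𝒟 ch) ∅ := by
  refine ⟨?_, fun x => ⟨fun _ => ?_, fun _ => notMem_empty x⟩, finite_empty⟩
  · rintro _ _ ⟨d, hd, rfl⟩ ⟨d', hd', rfl⟩ z hz hz'
    have ok := hc.ok d hd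
    have h2 : ∀ᶠ u in 𝓝 (ch d z), u ∈ (ch d).target ∧ (ch d).symm u ∈ (ch d').source :=
      inter_mem ((ch d).open_target.mem_nhds ((ch d).map_source hz))
        (symm_eventually (ch d) hz ((ch d').open_source.mem_nhds hz'))
    refine analyticAt_pi_iff.2 fun k =>
      hr _ d.A _ (ok.thin _ (h.tgt d hd ▸ (ch d).map_source hz)) ?_
    filter_upwards [h2, h2.eventually_nhds] with u a b
    have h3 : ContinuousAt (ch d' ∘ (ch d).symm) u :=
      ((ch d').continuousAt a.2).comp ((ch d).continuousAt_symm a.1)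
    refine ⟨continuousAt_pi.1 h3 k, fun hu => ?_⟩
    have h4 : u ∈ d.P \ d.A := ⟨h.tgt d hd ▸ a.1, hu⟩
    refine (analyticAt_pi_iff.1 (LBI.tr hs (ok.loc u h4)
      ((hc.ok d' hd').loc _ (hit hc h hd hd' h4 a.2).1) h3 ?_).1 k).differentiableAt
    filter_upwards [b, ok.oA.mem_nhds h4] with v c e
    exact (hit hc h hd hd' e c.2).2
  · obtain ⟨d, hd, hx⟩ := h.cov x
    exact ⟨_, ⟨d, hd, rfl⟩, hx⟩

end PCplAn

theorem cplAn (hr : Riem) : CplAn := by
  intro X _ _ 𝒜 S W 𝒟 hs hc M _ fl ch h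
  exact ⟨PCplAn.sp hr hs hc h, PCplAn.ext hr hc h⟩

end Pool.Agent.Lib.MP_356dfe_ag.R
end
end

-- part Pool.Agent.Lib.MP_356dfe_ag.R.PResEx
section

/-! Part ResEx of the resolution of surface singularities. -/

set_option autoImplicit false

open Set Filter Topology Metric
open scoped ContDiff

noncomputable section

namespace Pool.Agent.Lib.MP_356dfe_ag.R

open S (E2)

theorem resEx : ResEx := by
  intro X _ _ _ 𝒜 S W 𝒟 hG M _ fl ch hC hS hE
  have h1 : ∀ d ∈ 𝒟, ∀ z ∈ (ch d).source, ch d z ∈ d.P ∧ fl z = d.F (ch d z) := fun d hd z hz => by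
    have a : ch d z ∈ d.P := hC.tgt d hd ▸ (ch d).map_source hz
    exact ⟨a, by rw [← hC.fl_symm d hd _ a, (ch d).left_inv hz]⟩
  have h2 : ∀ z, ∃ x, fl z ≤ 𝓝 x ∧ (x ∉ S → fl z = 𝓝[W] x) := fun z => by
    obtain ⟨d, hd, hz⟩ := hC.cov z
    obtain ⟨a, b⟩ := h1 d hd z hz
    rcases hG.lim d hd _ a with ⟨x, -, c⟩ | ⟨x, c, e⟩
    · exact ⟨x, (b.trans c).trans_le nhdsWithin_le_nhds, fun _ => b.trans c⟩
    · exact ⟨x, b.trans_le e, fun k => absurd c k⟩
  choose π h2 h3 using h2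
  have un : ∀ z x, fl z ≤ 𝓝 x → π z = x := fun z x h =>
    have := hC.ne z
    tendsto_nhds_unique (f := id) (h2 z) h
  have cont : Continuous π := continuous_iff_continuousAt.2 fun z =>
    (closed_nhds_basis (π z)).tendsto_right_iff.2 fun C hc =>
      mem_of_superset ((hC.op C).mem_nhds (h2 z hc.1)) fun y hy =>
        have := hC.ne y
        show π y ∈ C from hc.2.mem_of_tendsto (f := id) (h2 y) hy
  have r1 : ∀ e, 𝒜 e → ∀ u ∈ e.target, u ∈ (ch (Pc.reg e W)).target ∧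
      fl ((ch (Pc.reg e W)).symm u) = 𝓝[W] (e.symm u) := fun e he u hu =>
    ⟨hC.tgt _ (hG.reg e he) ▸ hu, (hC.fl_symm _ (hG.reg e he) u hu).trans (reg_F e W hu)⟩
  have r2 : ∀ e, 𝒜 e → ∀ y ∈ (ch (Pc.reg e W)).source, ch (Pc.reg e W) y ∈ e.target ∧
      π y = e.symm (ch (Pc.reg e W) y) := fun e he y hy => by
    obtain ⟨a, b⟩ := h1 _ (hG.reg e he) y hy
    exact ⟨a, un _ _ ((b.trans (reg_F e W a)).trans_le nhdsWithin_le_nhds)⟩
  have r3 : ∀ z, π z ∉ S → ∃ e, 𝒜 e ∧ π z ∈ e.source ∧ z ∈ (ch (Pc.reg e W)).source :=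
    fun z hz => by
      obtain ⟨e, he, a⟩ := (hG.sp.ch _).1 hz
      obtain ⟨b, c⟩ := r1 e he _ (e.map_source a)
      rw [e.left_inv a, ← h3 z hz] at c
      exact ⟨e, he, a, hC.inj c ▸ (ch _).map_target b⟩
  refine ⟨π, ⟨hS, cont, ?_, fun x hx => ?_, fun f z h => ?_, fun z hz => ?_, ?_⟩, h2⟩
  · refine .of_continuous_injective_isOpenMap (cont.comp continuous_subtype_val)
      (fun a b h => Subtype.ext (hC.inj ?_)) (isOpenMap_iff_nhds_le.2 fun z => ?_)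
    · rw [h3 _ a.2, h3 _ b.2, show π a.1 = π b.1 from h]
    · obtain ⟨e, he, -, b⟩ := r3 _ z.2
      have c : π =ᶠ[𝓝 z.1] e.symm ∘ ch (Pc.reg e W) :=
        mem_of_superset ((ch _).open_source.mem_nhds b) fun y hy => (r2 e he y hy).2
      rw [show (fun z : ((π ⁻¹' S)ᶜ : Set M) => π z.1) = π ∘ Subtype.val from rfl, ← map_map,
        (hG.sp.fin.isClosed.preimage cont).isOpen_compl.isOpenEmbedding_subtypeVal.map_nhds_eq,
        map_congr c, ← map_map, (ch _).map_nhds_eq b, e.symm.map_nhds_eq (r2 e he _ b).1,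
        ← (r2 e he _ b).2]
  · obtain ⟨e, he, a⟩ := (hG.sp.ch _).1 hx
    exact ⟨_, un _ _ (((r1 e he _ (e.map_source a)).2.trans_le nhdsWithin_le_nhds).trans_eq
      (by rw [e.left_inv a]))⟩
  · obtain ⟨O, a, b, c⟩ := eventually_nhds_iff.1 h
    exact hE f (f ∘ π) (π ⁻¹' O) O (b.preimage cont) (fun y hy => (a y hy).2)
      (fun y hy => ⟨h2 y (b.mem_nhds hy), (a _ hy).1.tendsto.mono_left (h2 y)⟩) z c
  · obtain ⟨e, he, a, b⟩ := r3 z hz
    refine ⟨e, _, he, ⟨_, hG.reg e he, rfl⟩, a, b,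
      mem_of_superset ((ch _).open_source.mem_nhds b) fun y hy => ?_⟩
    obtain ⟨c, d⟩ := r2 e he y hy
    rw [mem_ofPred_eq, d, e.right_inv c]
  · rintro _ ⟨d, hd, rfl⟩
    obtain ⟨act, h⟩ := hG.nc d hd
    refine ⟨act, fun y hy => ?_⟩
    obtain ⟨a, b⟩ := h1 d hd y hy
    rw [← h _ a, ← b]
    exact ⟨fun c => ⟨_, c, h2 y⟩, fun ⟨x, c, e⟩ => (un y x e).symm ▸ c⟩

end Pool.Agent.Lib.MP_356dfe_ag.R
end
end

-- part Pool.Agent.Lib.MP_356dfe_ag.R.PFSL
section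

/-! Part FSL of the resolution of surface singularities. -/

set_option autoImplicit false

open Set Filter Topology Metric
open scoped ContDiff

noncomputable section

namespace Pool.Agent.Lib.MP_356dfe_ag.R

open S (E2)

namespace PFSL

open ComplexConjugate

theorem D2_log {E : Type} [NormedAddCommGroup E] [NormedSpace ℝ E] {F : E → ℝ} {w : E}
    (hF : ContDiffAt ℝ 2 F w) (h0 : F w ≠ 0) (a : E) :
    D2 (fun u => Real.log (F u)) w a a = D2 F w a a / F w - (fderiv ℝ F w a) ^ 2 / F w ^ 2 := by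
  have h1 := ((hF.fderiv_right (m := 1) (by norm_num)).differentiableAt one_ne_zero).hasFDerivAt
  have h2 := (hF.differentiableAt two_ne_zero).hasFDerivAt
  have h3 := ((hF.log h0).fderiv_right (m := 1) (by norm_num)).differentiableAt one_ne_zero
  have e1 : (fun u => fderiv ℝ (fun u => Real.log (F u)) u a) =ᶠ[𝓝 w]
      fun u => (F u)⁻¹ * fderiv ℝ F u a := by
    filter_upwards [hF.eventually (by simp), hF.continuousAt.eventually_ne h0] with u a1 a2
    rw [((a1.differentiableAt two_ne_zero).hasFDerivAt.log a2).fderiv]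
    rfl
  have d1 := (h3.hasFDerivAt.clm_apply (hasFDerivAt_const a w)).congr_of_eventuallyEq e1.symm
  have d2 := ((hasDerivAt_inv h0).comp_hasFDerivAt w h2).mul
    (h1.clm_apply (hasFDerivAt_const a w))
  have d3 := DFunLike.congr_fun (d1.unique d2) a
  simp at d3
  rw [D2, d3]
  field_simp
  ring

variable {ι : Type} [Fintype ι]

/-- the Hermitian product -/
def hm (b a : ι → ℂ) : ℂ := ∑ i, conj (b i) * a i

theorem fderiv_sq (b a : ι → ℂ) : fderiv ℝ sq b a = 2 * (hm b a).re := by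
  have h : HasFDerivAt (sq : (ι → ℂ) → ℝ) (∑ i, 2 • (innerSL ℝ (b i)).comp
      (ContinuousLinearMap.proj (R := ℝ) (φ := fun _ : ι => ℂ) i)) b :=
    HasFDerivAt.fun_sum fun i _ => (hasFDerivAt_apply (𝕜 := ℝ) i b).norm_sq
  rw [h.fderiv]
  simp [hm, Finset.mul_sum, Complex.inner, mul_comm]
  simp only [add_mul]

theorem hm_smul (b a : ι → ℂ) (c : ℂ) : hm b (c • a) = c * hm b a := by
  simp only [hm, Pi.smul_apply, smul_eq_mul, Finset.mul_sum, mul_left_comm]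

theorem hm_self (b : ι → ℂ) : hm b b = sq b := by
  simp only [hm, sq, Complex.conj_mul']
  push_cast
  rfl

theorem sq_sub (b v : ι → ℂ) (c : ℂ) :
    sq (v - c • b) = sq v - 2 * (conj c * hm b v).re + ‖c‖ ^ 2 * sq b := by
  simp only [sq, hm, Finset.mul_sum, Complex.re_sum, ← Finset.sum_sub_distrib,
    ← Finset.sum_add_distrib]
  refine Finset.sum_congr rfl fun i _ => ?_
  simp only [Pi.sub_apply, Pi.smul_apply, smul_eq_mul, Complex.sq_norm, Complex.normSq_apply,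
    Complex.sub_re, Complex.sub_im, Complex.mul_re, Complex.mul_im, Complex.conj_re,
    Complex.conj_im]
  ring

theorem sq_smul (b : ι → ℂ) (c : ℂ) : sq (c • b) = ‖c‖ ^ 2 * sq b := by
  simp only [sq, Pi.smul_apply, norm_smul, mul_pow, Finset.mul_sum]

theorem lv_log {b : ι → ℂ} (hb : b ≠ 0) (v : ι → ℂ) :
    lv (D2 (fun u => Real.log (sq u)) b) v = 4 * sq (v - (hm b v / sq b) • b) / sq b := by
  have h0 := (sq_pos hb).ne'
  have h1 := lv_sq b v
  rw [lv] at h1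
  rw [lv, D2_log contDiff_sq.contDiffAt h0, D2_log contDiff_sq.contDiffAt h0, fderiv_sq,
    fderiv_sq, hm_smul, sq_sub, norm_div, div_pow, Complex.norm_real, Real.norm_eq_abs, sq_abs,
    map_div₀, Complex.conj_ofReal, div_mul_eq_mul_div, Complex.div_ofReal_re, Complex.sq_norm]
  simp only [Complex.normSq_apply, Complex.mul_re, Complex.conj_re, Complex.conj_im, Complex.I_re,
    Complex.I_im]
  field_simp
  linear_combination sq b * h1

theorem sm_log {b : ι → ℂ} (hb : b ≠ 0) : ContDiffAt ℝ ∞ (fun u => Real.log (sq u)) b :=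
  ContDiffAt.log (ContDiff.sum fun i _ => (contDiff_apply ℝ ℂ i).norm_sq ℝ).contDiffAt
    (sq_pos hb).ne'

theorem sm {s : E2 → ι → ℂ} {x : E2} (h : AnalyticAt ℂ s x) (h0 : s x ≠ 0) :
    ContDiffAt ℝ ∞ (fun y => Real.log (sq (s y))) x :=
  (sm_log h0).comp x (h.contDiffAt.restrict_scalars ℝ)

theorem two_le : (2 : WithTop ℕ∞) ≤ ∞ := ENat.LEInfty.out

theorem lv_eq {s : E2 → ι → ℂ} {x : E2} (h : AnalyticAt ℂ s x) (h0 : s x ≠ 0) (v : E2) :
    lv (D2 (fun y => Real.log (sq (s y))) x) v = 4 * sq (fderiv ℂ s x v -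
      (hm (s x) (fderiv ℂ s x v) / sq (s x)) • s x) / sq (s x) :=
  (lv_comp (h := fun u => Real.log (sq u)) ((sm_log h0).of_le two_le) h v).trans (lv_log h0 _)

theorem lv_one {s : E2 → Fin 1 → ℂ} {x : E2} (h : AnalyticAt ℂ s x) (h0 : s x ≠ 0) (v : E2) :
    lv (D2 (fun y => Real.log (sq (s y))) x) v = 0 := by
  have h1 : s x 0 ≠ 0 := fun e => h0 (funext fun i => by rw [Fin.fin_one_eq_zero i, e]; rfl)
  obtain ⟨c, hc⟩ : ∃ c : ℂ, fderiv ℂ s x v = c • s x :=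
    ⟨fderiv ℂ s x v 0 / s x 0, funext fun i => by
      rw [Fin.fin_one_eq_zero i, Pi.smul_apply, smul_eq_mul, div_mul_cancel₀ _ h1]⟩
  rw [lv_eq h h0, hc, hm_smul, hm_self,
    mul_div_cancel_right₀ _ (Complex.ofReal_ne_zero.2 (sq_pos h0).ne'), sub_self]
  simp [sq]

end PFSL

open PFSL in
theorem fsl : FSL := by
  refine ⟨fun k s x h h0 => sm h h0, fun k s x h h0 v => ?_, fun k s s' x h h0 h' h0' he v => ?_⟩
  · rw [lv_eq h h0]
    refine ⟨div_nonneg (mul_nonneg (by norm_num) (sq_nonneg' _)) (sq_nonneg' _), fun e => ⟨_,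
      sub_eq_zero.1 (by_contra fun h1 =>
        (div_pos (mul_pos (by norm_num) (sq_pos h1)) (sq_pos h0)).ne' e)⟩⟩
  · obtain ⟨i, hi⟩ := Function.ne_iff.1 h0'
    have hi' : s' x i ≠ 0 := hi
    have a1 := analyticAt_pi_iff.1 h i
    have a2 := analyticAt_pi_iff.1 h' i
    let l : E2 → Fin 1 → ℂ := fun y _ => s y i / s' y i
    have a3 : AnalyticAt ℂ l x := analyticAt_pi_iff.2 fun _ => a1.fun_div a2 hi'
    have e1 : ∀ᶠ y in 𝓝 x, s y = l y 0 • s' y := by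
      filter_upwards [he, a2.continuousAt.eventually_ne hi'] with y ⟨c, hc⟩ b
      simp only [l, hc, Pi.smul_apply, smul_eq_mul, mul_div_cancel_right₀ _ b]
    have a4 : l x ≠ 0 := fun e => h0 (by rw [e1.self_of_nhds, e]; exact zero_smul _ _)
    have e2 : (fun y => Real.log (sq (s y))) =ᶠ[𝓝 x]
        fun y => Real.log (sq (l y)) + Real.log (sq (s' y)) := by
      filter_upwards [e1, a3.continuousAt.eventually_ne a4, h'.continuousAt.eventually_ne h0']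
        with y b1 b2 b3
      rw [← Real.log_mul (sq_pos b2).ne' (sq_pos b3).ne', b1, sq_smul]
      simp [sq]
    rw [D2_congr e2, D2_add ((sm a3 a4).of_le two_le) ((sm h' h0').of_le two_le), lv_add,
      lv_one a3 a4, zero_add]

end Pool.Agent.Lib.MP_356dfe_ag.R
end
end

-- part Pool.Agent.Lib.MP_356dfe_ag.R.PPos1
section

/-! Part Pos1 of the resolution of surface singularities. -/

set_option autoImplicit false

open Set Filter Topology Metric
open scoped ContDiff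

noncomputable section

namespace Pool.Agent.Lib.MP_356dfe_ag.R

open S (E2)

theorem pos1 : Pos1 := by
  intro M _ ℬ hs z
  obtain ⟨e, he, hz⟩ := (hs.ch z).1 (notMem_empty z)
  have sm : ∀ y ∈ e.source, SmA ℬ (fun w => sq (e w)) y := fun y hy e' he' hy' =>
    ContDiffAt.sum (s := Finset.univ) fun i _ => (contDiffAt_pi.1
      ((hs.tr e' e he' he y hy' hy).contDiffAt.restrict_scalars ℝ) i).norm_sq ℂ
  refine ⟨e.source, e.open_source, singleton_subset_iff.2 hz, fun _ w => sq (e w),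
    fun w => sq (e w), fun y hy => mem_of_superset (e.open_source.mem_nhds hy) fun w hw =>
      ⟨sm w hw, fun _ _ _ _ => rfl⟩, fun y hy => ⟨sm y hy.1, fun _ _ _ _ => rfl⟩, ?_⟩
  rintro _ rfl e' he' hz' v hv
  have a := ((hs.cmp he).lb he' hz hz').1
  exact (mul_pos four_pos (sq_pos fun b => hv (a.2 (b.trans (map_zero _).symm)))).trans_eq
    ((lv_comp contDiff_sq.contDiffAt a.1 v).trans (lv_sq _ _)).symm

end Pool.Agent.Lib.MP_356dfe_ag.R
end
end

-- part Pool.Agent.Lib.MP_356dfe_ag.R.PKL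
section

/-! Part KL of the resolution of surface singularities. -/

set_option autoImplicit false

open Set Filter Topology Metric
open scoped ContDiff

noncomputable section

namespace Pool.Agent.Lib.MP_356dfe_ag.R

open S (E2)

namespace PKL

variable {M : Type} [TopologicalSpace M] {ℬ : OC M → Prop} {u u' w w' : M → ℝ} {y z : M}
  {e : OC M} {p p' : M → M → ℝ} {N : Set M}

theorem two_le : (2 : WithTop ℕ∞) ≤ ∞ := WithTop.coe_le_coe.2 (le_top (a := (2 : ℕ∞)))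

theorem c2 (h : SmA ℬ u y) (he : ℬ e) (hy : y ∈ e.source) : ContDiffAt ℝ 2 (u ∘ e.symm) (e y) :=
  (h e he hy).of_le two_le

theorem lv_congr (h : u =ᶠ[𝓝 y] u') (hy : y ∈ e.source) (v : E2) : LV u e y v = LV u' e y v :=
  congrArg (lv · v) (D2_congr (symm_eventually e hy h))

theorem sm_congr (h : SmA ℬ u y) (h' : u' =ᶠ[𝓝 y] u) : SmA ℬ u' y := fun e he hy =>
  (h e he hy).congr_of_eventuallyEq (symm_eventually e hy h')

theorem sm_add (h : SmA ℬ u y) (h' : SmA ℬ u' y) (c : ℝ) : SmA ℬ (fun x => c * u x + u' x) y :=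
  fun e he hy => (contDiffAt_const.mul (h e he hy)).add (h' e he hy)

theorem lv_lin (h : SmA ℬ u y) (h' : SmA ℬ u' y) (c : ℝ) (he : ℬ e) (hy : y ∈ e.source) (v : E2) :
    LV (fun x => c * u x + u' x) e y v = c * LV u e y v + LV u' e y v := by
  rw [← lv_smul, ← D2_mul, ← lv_add, ← D2_add (contDiffAt_const.mul (c2 h he hy)) (c2 h' he hy)]
  rfl

theorem eql_add (h : SmA ℬ u y ∧ EqL ℬ u w y) (h' : SmA ℬ u' y ∧ EqL ℬ u' w' y) (k : SmA ℬ w y)
    (k' : SmA ℬ w' y) (c : ℝ) : SmA ℬ (fun x => c * u x + u' x) y ∧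
      EqL ℬ (fun x => c * u x + u' x) (fun x => c * w x + w' x) y :=
  ⟨sm_add h.1 h'.1 c, fun e he hy v => by
    rw [lv_lin h.1 h'.1 c he hy, lv_lin k k' c he hy, h.2 e he hy, h'.2 e he hy]⟩

theorem fm_sm (h : Fm ℬ p N) (hy : y ∈ N) : SmA ℬ (p y) y := (h y hy).self_of_nhds.1

theorem fm_add (hN : IsOpen N) (h : Fm ℬ p N) (h' : Fm ℬ p' N) (c : ℝ) :
    Fm ℬ (fun z x => c * p z x + p' z x) N := fun z hz => by
  filter_upwards [h z hz, h' z hz, hN.mem_nhds hz] with y a b k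
  exact eql_add a b (fm_sm h k) (fm_sm h' k) c

/-- positivity in one chart spreads to a neighbourhood and to all charts -/
theorem pos_ev (hs : Sp ℬ ∅) (h : ∀ᶠ y in 𝓝 z, SmA ℬ (p z) y ∧ EqL ℬ (p z) (p y) y) (he : ℬ e)
    (hz : z ∈ e.source) (h' : Lev (D2 (p z ∘ e.symm) (e z))) : ∀ᶠ y in 𝓝 z, PosL ℬ (p y) y := by
  filter_upwards [h, e.open_source.mem_nhds hz, lev_eventually hz (c2 h.self_of_nhds.1 he hz) h']
    with y a b c e' he' hy v hv
  have k := ((hs.cmp he).lb he' b hy).1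
  have t : (e ∘ e'.symm) (e' y) = e y := congrArg e (e'.left_inv hy)
  rw [← a.2 e' he' hy, LV, ← D2_congr (chart_ev (p z) hy b),
    lv_comp (by rw [t]; exact c2 a.1 he b) k.1, t]
  exact c _ fun x => hv (k.2 (x.trans (map_zero _).symm))

/-- the product rule on null vectors -/
theorem lv_prod {J : Type} [Fintype J] {θ : (J → ℂ) → ℝ} (hθ : ContDiff ℝ 2 θ) {F : E2 → J → ℂ}
    {t : E2 → ℝ} {b : E2} (hF : AnalyticAt ℂ F b) (ht : ContDiffAt ℝ 2 t b) {v : E2}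
    (hv : fderiv ℂ F b v = 0) :
    lv (D2 (fun x => θ (F x) * t x) b) v = θ (F b) * lv (D2 t b) v := by
  let h : (J → ℂ) × E2 → ℝ := fun q => θ q.1 * t q.2
  have hh : ContDiffAt ℝ 2 h (F b, b) :=
    (hθ.comp contDiff_fst).contDiffAt.mul (ht.comp (F b, b) contDiffAt_snd)
  have e1 := lv_comp (h := h) (Φ := fun x => (F x, x)) hh (hF.prod analyticAt_id) v
  have e2 := lv_comp (h := h) (Φ := fun x => (F b, x)) (w := b) hh
    (analyticAt_const.prod analyticAt_id) v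
  rw [(hF.differentiableAt.hasFDerivAt.prodMk (f₂ := fun x => x) (hasFDerivAt_id b)).fderiv] at e1
  rw [(hasFDerivAt_prodMk_right (F b) b).fderiv] at e2
  simp only [ContinuousLinearMap.prod_apply, hv] at e1
  rw [← lv_smul, ← D2_mul]
  exact e1.trans e2.symm

/-- a global form that is semipositive on the null vectors of `a` and positive on them over `T` -/
def G (ℬ : OC M → Prop) (K : Set M) (a : M → M → ℝ) (T : Set M) : Prop :=
  ∃ (q : M → M → ℝ) (σ : M → ℝ), Fm ℬ q univ ∧ (∀ y ∉ K, SmA ℬ σ y ∧ EqL ℬ σ (q y) y) ∧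
    ∀ y ∈ K, ∀ e, ℬ e → y ∈ e.source → ∀ v, v ≠ 0 → LV (a y) e y v = 0 →
      0 ≤ LV (q y) e y v ∧ (y ∈ T → 0 < LV (q y) e y v)

theorem loc [T2Space M] (hs : Sp ℬ ∅) {K N' : Set M} {a : M → M → ℝ} {J : Type} [Fintype J]
    {F : M → J → ℂ} (o : IsOpen N') (hz : z ∈ N') (h0 : F z = 0) (hF : ∀ y ∈ N', An ℬ F y)
    (hc : IsCompact (N' ∩ F ⁻¹' {0})) (hK : N' ∩ F ⁻¹' {0} ⊆ K) (hP : Pos ℬ (N' ∩ F ⁻¹' {0}))
    (hn : ∀ y ∈ N' ∩ K, ∀ e, ℬ e → y ∈ e.source → ∀ v, LV (a y) e y v = 0 →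
      fderiv ℂ (F ∘ e.symm) (e y) v = 0) : ∃ T ∈ 𝓝 z, G ℬ K a T := by
  classical
  have ch : ∀ y, ∃ e, ℬ e ∧ y ∈ e.source := fun y => (hs.ch y).1 (notMem_empty y)
  have : LocallyCompactSpace M := by
    choose c _ h2 using ch
    let _ : ChartedSpace E2 M := ⟨range c, c, h2, mem_range_self⟩
    exact ChartedSpace.locallyCompactSpace E2 M
  obtain ⟨N, oN, hN, p, τ, h1, h2, h3⟩ := hP
  obtain ⟨C, cC, hO, hC⟩ := exists_compact_between hc
    (U := interior {y | PosL ℬ (p y) y} ∩ N ∩ N') ((isOpen_interior.inter oN).inter o)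
    fun y hy => ⟨⟨mem_interior_iff_mem_nhds.2 (by
      obtain ⟨e, he, k⟩ := ch y
      exact pos_ev hs (h1 y (hN hy)) he k (h3 y hy e he k)), hN hy⟩, hy.1⟩
  generalize hZ : N' ∩ F ⁻¹' {0} = Z at hc hK hN h2 h3 hO
  have cF : ∀ y ∈ C, ContinuousAt (fun x => sq (F x)) y := fun y hy =>
    contDiff_sq.continuous.continuousAt.comp ((hF y (hC hy).2).cont (ch y))
  obtain ⟨m, m0, hm⟩ := (cC.diff isOpen_interior).exists_forall_le' (a := 0)
    (f := fun x => sq (F x)) (fun y hy => (cF y hy.1).continuousWithinAt)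
    fun y hy => sq_pos fun k => hy.2 (hO (hZ ▸ ⟨(hC hy.1).2, k⟩))
  let θ : (J → ℂ) → ℝ := fun b => Real.smoothTransition (2 - 4 / m * sq b)
  have hθ : ContDiff ℝ ∞ θ := Real.smoothTransition.contDiff.comp (contDiff_const.sub
    (contDiff_const.mul (ContDiff.sum fun i _ => (contDiff_apply ℝ ℂ i).norm_sq ℝ)))
  let σ : M → ℝ := (interior C).indicator fun x => θ (F x) * τ x
  let T := interior C ∩ {x | sq (F x) < m / 4}
  have s1 : ∀ y ∈ interior C, σ =ᶠ[𝓝 y] fun x => θ (F x) * τ x := fun y hy => by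
    filter_upwards [isOpen_interior.mem_nhds hy] with x hx using indicator_of_mem hx _
  have s2 : ∀ y ∉ interior C, σ =ᶠ[𝓝 y] fun _ => 0 := fun y hy => by
    by_cases k : y ∈ C
    · filter_upwards [(cF y k).eventually_const_lt ((half_lt_self m0).trans_le (hm y ⟨k, hy⟩))]
        with x hx
      refine indicator_apply_eq_zero.2 fun _ => mul_eq_zero_of_left
        (Real.smoothTransition.zero_of_nonpos ?_) _
      rw [sub_nonpos, div_mul_eq_mul_div, le_div_iff₀ m0]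
      linarith
    · filter_upwards [cC.isClosed.isOpen_compl.mem_nhds k] with x hx
      exact indicator_of_notMem (fun h => hx (interior_subset h)) _
  have t1 : ∀ x ∈ T, θ (F x) = 1 := fun x hx => Real.smoothTransition.one_of_one_le (by
    have : 4 / m * sq (F x) ≤ 1 := by
      rw [div_mul_eq_mul_div, div_le_iff₀ m0]
      linarith [show sq (F x) < m / 4 from hx.2]
    linarith)
  have t2 : ∀ y ∈ T, T ∈ 𝓝 y := fun y hy => inter_mem (isOpen_interior.mem_nhds hy.1)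
    ((cF y (interior_subset hy.1)).eventually_lt_const hy.2)
  have t3 : Z ⊆ T := fun y hy => ⟨hO hy, by
    rw [← hZ] at hy
    simpa [show F y = 0 from hy.2, sq] using m0⟩
  have s3 : ∀ y ∉ Z, SmA ℬ σ y := fun y hy => by
    by_cases k : y ∈ interior C
    · have k' := hC (interior_subset k)
      exact sm_congr (u := fun x => θ (F x) * τ x) (fun e he hy' => (hθ.contDiffAt.comp (e y)
        ((hF y k'.2 e he hy').contDiffAt.restrict_scalars ℝ)).mul
          ((h2 y ⟨k'.1.2, hy⟩).1 e he hy')) (s1 y k)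
    · exact sm_congr (fun _ _ _ => contDiffAt_const) (s2 y k)
  refine ⟨T, t2 z (t3 (hZ ▸ ⟨hz, h0⟩)), fun y => if y ∈ Z then p y else σ, σ, fun x _ => ?_,
    fun y hy => ?_, fun y hy e he k v hv hl => ?_⟩
  · by_cases hx : x ∈ Z
    · filter_upwards [h1 x (hN hx), t2 x (t3 hx)] with y b c
      simp only [if_pos hx]
      split_ifs with hy
      · exact b
      refine ⟨b.1, fun e he k v => (b.2 e he k v).trans (Eq.symm ?_)⟩
      rw [← (h2 y ⟨(hC (interior_subset c.1)).1.2, hy⟩).2 e he k]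
      refine lv_congr ?_ k v
      filter_upwards [s1 y c.1, t2 y c] with x b c
      rw [b, t1 x c, one_mul]
    · filter_upwards [hc.isClosed.isOpen_compl.mem_nhds hx] with y hy
      simp only [if_neg hx, if_neg hy]
      exact ⟨s3 y hy, fun _ _ _ _ => rfl⟩
  · simp only [if_neg (mt (@hK y) hy)]
    exact ⟨s3 y (mt (@hK y) hy), fun _ _ _ _ => rfl⟩
  · beta_reduce
    split_ifs with hy'
    · exact ⟨(h3 y hy' e he k v hv).le, fun _ => h3 y hy' e he k v hv⟩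
    by_cases b : y ∈ interior C
    · have k' := hC (interior_subset b)
      have c := h2 y ⟨k'.1.2, hy'⟩
      have d := lv_prod (hθ.of_le two_le) (hF y k'.2 e he k) (c2 c.1 he k)
        (hn y ⟨k'.2, hy⟩ e he k v hl)
      have f := interior_subset k'.1.1 e he k v hv
      rw [← c.2 e he k] at f
      rw [Function.comp_apply, e.left_inv k] at d
      rw [lv_congr (s1 y b) k, show LV (fun x => θ (F x) * τ x) e y v = _ from d]
      exact ⟨mul_nonneg (Real.smoothTransition.nonneg _) f.le, fun g => by rwa [t1 y g, one_mul]⟩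
    · rw [lv_congr (s2 y b) k, LV_zero]
      exact ⟨le_rfl, fun g => absurd g.1 b⟩

end PKL

open PKL in
theorem kl : KL := by
  intro M _ _ ℬ hs K N a τ cK oN hN ha hτ h0 h
  obtain ⟨q, σ, h1, h2, h3⟩ : G ℬ K a K := by
    refine cK.induction_on (p := G ℬ K a) ⟨fun _ _ => 0, fun _ => 0, fun _ _ => .of_forall fun _ =>
      ⟨fun _ _ _ => contDiffAt_const, fun _ _ _ _ => rfl⟩, fun _ _ =>
      ⟨fun _ _ _ => contDiffAt_const, fun _ _ _ _ => rfl⟩, fun y _ e _ _ v _ _ =>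
      ⟨(LV_zero e y v).ge, fun k => k.elim⟩⟩ ?_ ?_ fun z hz => ?_
    · rintro s t hst ⟨q, σ, h1, h2, h3⟩
      exact ⟨q, σ, h1, h2, fun y hy e he k v hv hl => (h3 y hy e he k v hv hl).imp_right
        fun b c => b (hst c)⟩
    · rintro s t ⟨q, σ, h1, h2, h3⟩ ⟨q', σ', h4, h5, h6⟩
      refine ⟨_, _, fm_add isOpen_univ h1 h4 1, fun y hy => eql_add (h2 y hy) (h5 y hy)
        (fm_sm h1 trivial) (fm_sm h4 trivial) 1, fun y hy e he k v hv hl => ?_⟩
      obtain ⟨b, c⟩ := h3 y hy e he k v hv hl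
      obtain ⟨b', c'⟩ := h6 y hy e he k v hv hl
      rw [lv_lin (fm_sm h1 trivial) (fm_sm h4 trivial) 1 he k, one_mul]
      exact ⟨add_nonneg b b', fun g => g.elim (fun g => add_pos_of_pos_of_nonneg (c g) b')
        fun g => add_pos_of_nonneg_of_pos b (c' g)⟩
    · obtain ⟨N', J, _, F, b1, b2, b3, b4, b5, b6, b7, b8⟩ := h z hz
      obtain ⟨T, t1, t2⟩ := loc hs b1 b2 b3 b4 b5 b6 b7 b8
      exact ⟨T, mem_nhdsWithin_of_mem_nhds t1, t2⟩
  have h4 : Fm ℬ q N := fun z _ => h1 z trivial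
  obtain ⟨C, hC⟩ : ∃ C : ℝ, ∀ y ∈ K, PosL ℬ (fun x => C * a y x + q y x) y := by
    refine (cK.induction_on
      (p := fun T => ∀ᶠ C : ℝ in atTop, ∀ y ∈ T, PosL ℬ (fun x => C * a y x + q y x) y) (by simp)
      (fun _ _ hst h => h.mono fun C h y hy => h y (hst hy))
      (fun _ _ h h' => (h.and h').mono fun C h y hy => hy.elim (h.1 y) (h.2 y))
      fun z hz => ?_).exists
    obtain ⟨e, he, k⟩ := (hs.ch z).1 (notMem_empty z)
    obtain ⟨C, hC⟩ := exists_lev (h0 z hz e he k) fun v hv hl => (h3 z hz e he k v hv hl).2 hz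
    have := pos_ev (p := fun z x => C * a z x + q z x) hs (fm_add oN ha h4 C z (hN hz)) he k
      fun v hv => by
      have := hC v hv
      rw [lv_add, lv_smul] at this
      exact this.trans_eq (lv_lin (fm_sm ha (hN hz)) (fm_sm h4 (hN hz)) C he k v).symm
    refine ⟨_, inter_mem_nhdsWithin K this, (eventually_ge_atTop C).mono
      fun C' b y hy e he k v hv => ?_⟩
    have c := hy.2 e he k v hv
    rw [lv_lin (fm_sm ha (hN hy.1)) (fm_sm h4 (hN hy.1)) _ he k] at c ⊢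
    exact c.trans_le (add_le_add_left (mul_le_mul_of_nonneg_right b (h0 y hy.1 e he k v)) _)
  exact ⟨N, oN, hN, _, _, fm_add oN ha h4 C, fun y hy => eql_add (hτ y hy) (h2 y hy.2)
    (fm_sm ha hy.1) (fm_sm h4 hy.1) C, hC⟩

end Pool.Agent.Lib.MP_356dfe_ag.R
end
end
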