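import Pool.Agent.Lib.MP_356dfe_ag.S.PLiftK

-- part Pool.Agent.Lib.MP_356dfe_ag.R.Defs
section

/-! Definitions for the resolution of surface singularities by filters. -/

set_option autoImplicit false

open Set Filter Topology Metric
open scoped ContDiff

noncomputable section

namespace Pool.Agent.Lib.MP_356dfe_ag.R

open S (E2)

/-- charts with values in the plane -/
abbrev OC (X : Type) [TopologicalSpace X] : Type := OpenPartialHomeomorph X E2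

/-- near `p` the set `A` lies in the zero set of a nonzero analytic germ -/
def Thin (A : Set E2) (p : E2) : Prop :=
  ∃ g : E2 → ℂ, AnalyticAt ℂ g p ∧ (¬ ∀ᶠ u in 𝓝 p, g u = 0) ∧ ∀ᶠ u in 𝓝 p, u ∈ A → g u = 0

/-- local biholomorphisms of the plane -/
def LB (κ : E2 → E2) (u : E2) : Prop := AnalyticAt ℂ κ u ∧ Function.Injective (fderiv ℂ κ u)

/-- equal or disjoint -/
def EqD {α : Type} (F G : Filter α) : Prop := F = G ∨ Disjoint F G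

/-- the coordinate axes -/
def axes : Set E2 := {u | u 0 * u 1 = 0}

/-- monomials -/
def mon (a : Fin 2 → ℕ) (u : E2) : ℂ := u 0 ^ a 0 * u 1 ^ a 1

/-- the determinant of two integer vectors -/
def dz (v w : Fin 2 → ℤ) : ℤ := v 0 * w 1 - v 1 * w 0

/-- a vector divided by one of its coordinates -/
def rat {α : Type} {D : ℕ} (P : α → Fin D → ℂ) (i : Fin D) (y : α) : Fin D → ℂ :=
  (P y i)⁻¹ • P y

/-- a product of half planes -/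
def LT (R : ℝ) : Set E2 := {ξ | ∀ k, (ξ k).re < -R}

/-- a half plane times a disc -/
def LG (R : ℝ) : Set E2 := {ξ | (ξ 0).re < -R ∧ ‖ξ 1‖ < Real.exp (-R)}

/-- both real parts tend to minus infinity -/
def FT : Filter E2 := ⨅ k, comap (fun ξ => (ξ k).re) atBot

/-- the real part of coordinate `k` tends to minus infinity, the other coordinate tends to `w` -/
def FA (k : Fin 2) (w : ℂ) : Filter E2 :=
  comap (fun ξ => (ξ k).re) atBot ⊓ comap (fun ξ => ξ k.rev) (𝓝 w)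

/-- imaginary translation vectors -/
def tv (n : ℕ) (m : Fin 2 → ℤ) : E2 := fun k => 2 * Real.pi * Complex.I * m k / n

/-- the exponential map in both coordinates -/
def ex2 (ξ : E2) : E2 := fun k => Complex.exp (ξ k)

/-- the exponential map in the first coordinate -/
def ex1 (ξ : E2) : E2 := ![Complex.exp (ξ 0), ξ 1]

/-- the part of a polydisc where `g` does not vanish -/
def Bs (ρ : ℝ) (g : E2 → ℂ) : Set E2 := {b | ‖b‖ < ρ ∧ g b ≠ 0}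

/-- punctured charts -/
structure Pc (X : Type) where
  /-- the domain -/
  P : Set E2
  /-- the removed set -/
  A : Set E2
  /-- the map -/
  c : E2 → X

/-- the filter of a point of a punctured chart -/
def Pc.F {X : Type} (d : Pc X) (u : E2) : Filter X := map d.c (𝓝[d.Aᶜ] u)

/-- the toric chart of the cone spanned by `v` and `w` -/
def tc {X : Type} (n : ℕ) (lam : E2 → X) (R : ℝ) (v w : Fin 2 → ℤ) : Pc X where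
  P := {u | ∀ k, ‖mon ![(v k).toNat, (w k).toNat] u‖ < Real.exp (-(n * R))}
  A := axes
  c u := lam fun k => (v k * Complex.log (u 0) + w k * Complex.log (u 1)) / n

/-- the chart at a generic point of the exceptional curve -/
def gc {X : Type} (n : ℕ) (lam : E2 → X) (R : ℝ) (p : ℕ) : Pc X where
  P := {u | ‖u 0‖ ^ p < Real.exp (-(n * R)) ∧ ‖u 1‖ < Real.exp (-R)}
  A := {u | u 0 = 0}
  c u := lam ![p * Complex.log (u 0) / n, u 1]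

/-- `v`, `w` is a positive basis of the lattice `Λ` in the closed quadrant -/
structure Bz (Λ : AddSubgroup (Fin 2 → ℤ)) (v w : Fin 2 → ℤ) : Prop where
  nn : ∀ k, 0 ≤ v k ∧ 0 ≤ w k
  pos : 0 < dz v w
  mem : ∀ m, m ∈ Λ ↔ ∃ a b : ℤ, m = a • v + b • w

/-- a regular subdivision of the quadrant -/
structure Fan (Λ : AddSubgroup (Fin 2 → ℤ)) (r : ℕ) (v : ℕ → Fin 2 → ℤ) : Prop where
  pos : 0 < r
  bz : ∀ j < r, Bz Λ (v j) (v (j + 1))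
  fst : v 0 1 = 0
  lst : v r 0 = 0
  mono : ∀ i j, i < j → j ≤ r → 0 < dz (v i) (v j)

section Space

variable {X : Type} [TopologicalSpace X]

/-- an atlas of the complement of a finite set -/
structure Sp (𝒜 : OC X → Prop) (S : Set X) : Prop where
  tr : ∀ e e', 𝒜 e → 𝒜 e' → ∀ z ∈ e.source, z ∈ e'.source → AnalyticAt ℂ (e' ∘ e.symm) (e z)
  ch : ∀ x, x ∉ S ↔ ∃ e, 𝒜 e ∧ x ∈ e.source
  fin : S.Finite

/-- charts that are compatible with the atlas -/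
def Cmp (𝒜 : OC X → Prop) (e : OC X) : Prop := ∀ e', 𝒜 e' → ∀ z ∈ e.source, z ∈ e'.source →
  AnalyticAt ℂ (e ∘ e'.symm) (e' z) ∧ AnalyticAt ℂ (e' ∘ e.symm) (e z)

/-- analytic at `z` in every chart -/
def An (𝒜 : OC X → Prop) {F : Type} [NormedAddCommGroup F] [NormedSpace ℂ F] (f : X → F)
    (z : X) : Prop := ∀ e, 𝒜 e → z ∈ e.source → AnalyticAt ℂ (f ∘ e.symm) (e z)

/-- smooth at `z` in every chart -/
def SmA (𝒜 : OC X → Prop) (f : X → ℝ) (z : X) : Prop :=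
  ∀ e, 𝒜 e → z ∈ e.source → ContDiffAt ℝ ∞ (f ∘ e.symm) (e z)

/-- local biholomorphisms from the plane -/
def LBI (𝒜 : OC X → Prop) (c : E2 → X) (u : E2) : Prop :=
  ContinuousAt c u ∧ ∃ e, 𝒜 e ∧ c u ∈ e.source ∧ LB (e ∘ c) u

/-- local biholomorphisms to the plane -/
def LBO (𝒜 : OC X → Prop) (f : X → E2) (y : X) : Prop :=
  ∃ e, 𝒜 e ∧ y ∈ e.source ∧ LB (f ∘ e.symm) (e y)

/-- the punctured chart embeds into `W` -/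
structure Pc.Ok (𝒜 : OC X → Prop) (W : Set X) (d : Pc X) : Prop where
  oP : IsOpen d.P
  oA : IsOpen (d.P \ d.A)
  thin : ∀ u ∈ d.P, Thin d.A u
  maps : MapsTo d.c (d.P \ d.A) W
  inj : InjOn d.c (d.P \ d.A)
  loc : ∀ u ∈ d.P \ d.A, LBI 𝒜 d.c u

/-- the punctured chart of a chart of the atlas -/
def Pc.reg (e : OC X) (W : Set X) : Pc X := ⟨e.target, (e.symm ⁻¹' W)ᶜ, e.symm⟩

/-- data for the completion of `W` -/
structure CD (𝒜 : OC X → Prop) (W : Set X) (𝒟 : Set (Pc X)) : Prop where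
  ok : ∀ d ∈ 𝒟, d.Ok 𝒜 W
  eqd : ∀ d ∈ 𝒟, ∀ u ∈ d.P, ∀ d' ∈ 𝒟, ∀ u' ∈ d'.P, EqD (d.F u) (d'.F u')
  ult : ∀ 𝒰 : Ultrafilter X, W ∈ 𝒰 → ∃ d ∈ 𝒟, ∃ u ∈ d.P, ↑𝒰 ≤ d.F u

/-- global data for the resolution -/
structure GD (𝒜 : OC X → Prop) (S W : Set X) (𝒟 : Set (Pc X)) : Prop where
  sp : Sp 𝒜 S
  cd : CD 𝒜 W 𝒟
  reg : ∀ e, 𝒜 e → Pc.reg e W ∈ 𝒟
  lim : ∀ d ∈ 𝒟, ∀ u ∈ d.P, (∃ z, z ∉ S ∧ d.F u = 𝓝[W] z) ∨ ∃ x ∈ S, d.F u ≤ 𝓝 x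
  nc : ∀ d ∈ 𝒟, ∃ act : Finset (Fin 2), ∀ u ∈ d.P, (∃ x ∈ S, d.F u ≤ 𝓝 x) ↔ ∃ k ∈ act, u k = 0

/-- `M` is the space of the filters of the punctured charts -/
structure Cpl (𝒟 : Set (Pc X)) {M : Type} [TopologicalSpace M] (fl : M → Filter X)
    (ch : Pc X → OC M) : Prop where
  inj : Function.Injective fl
  ne : ∀ z, (fl z).NeBot
  tgt : ∀ d ∈ 𝒟, (ch d).target = d.P
  fl_symm : ∀ d ∈ 𝒟, ∀ u ∈ d.P, fl ((ch d).symm u) = d.F u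
  cov : ∀ z, ∃ d ∈ 𝒟, z ∈ (ch d).source
  op : ∀ O : Set X, IsOpen {z | O ∈ fl z}

/-- the atlas of the completion -/
def Atl (𝒟 : Set (Pc X)) {M : Type} [TopologicalSpace M] (ch : Pc X → OC M) (e : OC M) : Prop :=
  ∃ d ∈ 𝒟, ch d = e

/-- limits of analytic functions along the filters are analytic -/
def ExtP (𝒜 : OC X → Prop) {M : Type} [TopologicalSpace M] (ℬ : OC M → Prop)
    (fl : M → Filter X) : Prop :=
  ∀ (f : X → ℂ) (g : M → ℂ) (N : Set M) (O : Set X), IsOpen N → (∀ y ∈ O, An 𝒜 f y) →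
    (∀ z ∈ N, O ∈ fl z ∧ Tendsto f (fl z) (𝓝 (g z))) → ∀ z ∈ N, An ℬ g z

/-- abstract resolutions with normal crossings -/
structure Res (𝒜 : OC X → Prop) (S : Set X) {M : Type} [TopologicalSpace M] (ℬ : OC M → Prop)
    (π : M → X) : Prop where
  sp : Sp ℬ ∅
  cont : Continuous π
  emb : IsOpenEmbedding fun z : ((π ⁻¹' S)ᶜ : Set M) => π z.1
  surj : ∀ x ∉ S, ∃ z, π z = x
  an : ∀ (f : X → ℂ) z, (∀ᶠ y in 𝓝 (π z), ContinuousAt f y ∧ An 𝒜 f y) → An ℬ (f ∘ π) z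
  iso : ∀ z, π z ∉ S → ∃ e e', 𝒜 e ∧ ℬ e' ∧ π z ∈ e.source ∧ z ∈ e'.source ∧
    ∀ᶠ y in 𝓝 z, e' y = e (π y)
  nc : ∀ e, ℬ e → ∃ act : Finset (Fin 2), ∀ y ∈ e.source, π y ∈ S ↔ ∃ k ∈ act, e y k = 0

/-- equal Levi forms -/
def EqL (ℬ : OC X → Prop) (u u' : X → ℝ) (y : X) : Prop :=
  ∀ e, ℬ e → y ∈ e.source → ∀ v, LV u e y v = LV u' e y v

/-- positive Levi form -/
def PosL (ℬ : OC X → Prop) (u : X → ℝ) (y : X) : Prop :=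
  ∀ e, ℬ e → y ∈ e.source → ∀ v, v ≠ 0 → 0 < LV u e y v

/-- local potentials of a form of type (1,1) on `N` -/
def Fm (ℬ : OC X → Prop) (p : X → X → ℝ) (N : Set X) : Prop :=
  ∀ z ∈ N, ∀ᶠ y in 𝓝 z, SmA ℬ (p z) y ∧ EqL ℬ (p z) (p y) y

/-- a form near `K` that is positive on `K` and has a potential off `K` -/
def Pos (ℬ : OC X → Prop) (K : Set X) : Prop := ∃ N, IsOpen N ∧ K ⊆ N ∧
  ∃ (p : X → X → ℝ) (τ : X → ℝ), Fm ℬ p N ∧ (∀ y ∈ N \ K, SmA ℬ τ y ∧ EqL ℬ τ (p y) y) ∧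
    ∀ z ∈ K, PosL ℬ (p z) z

/-- a chain of toric charts over the filter `H` -/
structure Chain (𝒟 : Set (Pc X)) (H : Filter X) {r : ℕ} (d : Fin r → Pc X) (α β : X → ℂ)
    (a b : Fin r → Fin 2 → ℕ) : Prop where
  mem : ∀ j, d j ∈ 𝒟
  ax : ∀ j, (d j).A = axes
  val : ∀ j, ∀ u ∈ (d j).P \ axes, α ((d j).c u) = mon (a j) u ∧ β ((d j).c u) = mon (b j) u
  le : ∀ j, ∀ u ∈ (d j).P, (d j).F u ≤ H ↔ mon (a j) u = 0 ∧ mon (b j) u = 0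
  cov : ∀ d' ∈ 𝒟, ∀ u' ∈ d'.P, d'.F u' ≤ H → ∃ j, ∃ u ∈ (d j).P, d'.F u' = (d j).F u
  det : ∀ j, a j 0 * b j 1 ≠ a j 1 * b j 0
  fan : ∀ j j' k, (∀ m, a j m * b j' k ≤ b j m * a j' k) ∨ ∀ m, b j m * a j' k ≤ a j m * b j' k

/-- a map to projective space that has limits along the filters and separates them locally -/
def Tup (𝒜 : OC X → Prop) (x : X) (U : Set X) (𝔉 : Set (Filter X)) : Prop :=
  ∃ (D : ℕ) (P : X → Fin D → ℂ) (pr : X → E2), pr x = 0 ∧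
    (∀ y ∈ U, ContinuousAt P y ∧ An 𝒜 P y ∧ ContinuousAt pr y ∧ An 𝒜 pr y ∧
      (y ≠ x → P y ≠ 0 ∧ pr y ≠ 0)) ∧
    (∀ H ∈ 𝔉, ∃ i s, s i = 1 ∧ Tendsto (rat P i) H (𝓝 s)) ∧
    ∀ H ∈ 𝔉, ∃ O ∈ H, ∀ H' ∈ 𝔉, ¬ Disjoint H' (𝓟 O) → ∀ i s, s i = 1 →
      Tendsto (rat P i) H (𝓝 s) → Tendsto (rat P i) H' (𝓝 s) → H' = H

/-- a family of filters at `x` -/
structure Fs (𝒜 : OC X → Prop) (x : X) (U W : Set X) (𝔉 : Set (Filter X)) : Prop where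
  ne : ∀ H ∈ 𝔉, H.NeBot ∧ H ≤ 𝓝 x ∧ W ∈ H
  eqd : ∀ H ∈ 𝔉, ∀ H' ∈ 𝔉, EqD H H'
  tup : Tup 𝒜 x U 𝔉

/-- local data for the resolution at `x` -/
structure Loc (𝒜 : OC X → Prop) (x : X) (U W : Set X) (𝒟 : Set (Pc X))
    (𝔉 : Set (Filter X)) : Prop where
  fs : Fs 𝒜 x U W 𝔉
  ok : ∀ d ∈ 𝒟, d.Ok 𝒜 W
  lim : ∀ d ∈ 𝒟, ∀ u ∈ d.P, (∃ z ∈ U, z ≠ x ∧ d.F u = 𝓝[W] z) ∨ d.F u ≤ 𝓝 x
  eqd : ∀ d ∈ 𝒟, ∀ u ∈ d.P, ∀ d' ∈ 𝒟, ∀ u' ∈ d'.P, d.F u ≤ 𝓝 x → d'.F u' ≤ 𝓝 x →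
    EqD (d.F u) (d'.F u')
  ult : ∀ 𝒰 : Ultrafilter X, W ∈ 𝒰 → ↑𝒰 ≤ 𝓝 x → ∃ d ∈ 𝒟, ∃ u ∈ d.P, ↑𝒰 ≤ d.F u
  nc : ∀ d ∈ 𝒟, ∃ act : Finset (Fin 2), ∀ u ∈ d.P, d.F u ≤ 𝓝 x ↔ ∃ k ∈ act, u k = 0
  par : ∀ d ∈ 𝒟, ∀ u ∈ d.P, d.F u ≤ 𝓝 x → d.F u ∈ 𝔉 ∨ ∃ H ∈ 𝔉, d.F u ≤ H ∧
    ∃ (r : ℕ) (e : Fin r → Pc X) (α β : X → ℂ) (a b : Fin r → Fin 2 → ℕ), Chain 𝒟 H e α β a b

/-- local data exist inside every neighbourhood of `x` -/
def LocAt (𝒜 : OC X → Prop) (x : X) : Prop := ∀ O ∈ 𝓝 x, ∃ U Z : Set X, IsOpen U ∧ x ∈ U ∧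
  U ⊆ O ∧ IsClosed Z ∧ x ∈ Z ∧ Z ⊆ O ∧
  (∀ e, 𝒜 e → ∀ y ∈ e.source, Thin (e.symm ⁻¹' Z) (e y)) ∧ ∃ 𝒟 𝔉, Loc 𝒜 x U (U \ Z) 𝒟 𝔉

/-- toric germs -/
structure TG (𝒜 : OC X → Prop) (x : X) (U W : Set X) (𝔉 : Set (Filter X)) (n : ℕ) (lam : E2 → X)
    (R : ℝ) (Λ : AddSubgroup (Fin 2 → ℤ)) (act : Finset (Fin 2)) : Prop where
  pos : 0 < n
  maps : MapsTo lam (LT R) W
  lb : ∀ ξ ∈ LT R, LBI 𝒜 lam ξ
  fib : ∀ ξ ∈ LT R, ∀ ξ' ∈ LT R, lam ξ = lam ξ' ↔ ∃ m ∈ Λ, ξ' = ξ + tv n m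
  idx : ∃ D : ℤ, 0 < D ∧ ∀ m, D • m ∈ Λ
  node : map lam FT ∈ 𝔉
  ane : act.Nonempty
  axA : ∀ k ∈ act, ∀ w : ℂ, w.re < -R → map lam (FA k w) ∈ 𝔉
  axI : ∀ k ∉ act, ∀ w : ℂ, w.re < -R → ∃ z ∈ U, z ≠ x ∧ map lam (FA k w) = 𝓝[W] z

/-- generic germs -/
structure GG (𝒜 : OC X → Prop) (W : Set X) (𝔉 : Set (Filter X)) (n : ℕ) (lam : E2 → X)
    (R : ℝ) (p : ℕ) : Prop where
  pos : 0 < n ∧ 0 < p
  maps : MapsTo lam (LG R) W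
  lb : ∀ ξ ∈ LG R, LBI 𝒜 lam ξ
  fib : ∀ ξ ∈ LG R, ∀ ξ' ∈ LG R, lam ξ = lam ξ' ↔ ∃ m : ℤ, ξ' = ξ + tv n ![p * m, 0]
  axA : ∀ w : ℂ, ‖w‖ < Real.exp (-R) → map lam (FA 0 w) ∈ 𝔉

/-- a system of sheets at `x` -/
structure Sh (𝒜 : OC X → Prop) (x : X) (U W : Set X) (𝔉 𝔑 : Set (Filter X)) : Prop where
  oW : IsOpen W
  sub : W ⊆ U \ {x}
  fs : Fs 𝒜 x U W 𝔉
  fin : 𝔑.Finite
  tg : ∀ H ∈ 𝔑, ∃ n lam R Λ act, TG 𝒜 x U W 𝔉 n lam R Λ act ∧ map lam FT = H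
  ult : ∀ 𝒰 : Ultrafilter X, W ∈ 𝒰 → ↑𝒰 ≤ 𝓝 x → (∃ H ∈ 𝔑, ↑𝒰 ≤ H) ∨
    ∃ n lam R p, GG 𝒜 W 𝔉 n lam R p ∧ ↑𝒰 ≤ map lam (FA 0 0)

/-- a finite projection near `x` that is unramified off the zero set of `δ` -/
structure Prj (𝒜 : OC X → Prop) (x : X) (Y : Set X) (pr : X → E2) (ρ : ℝ) (δ : E2 → ℂ) :
    Prop where
  cY : IsCompact Y
  xY : x ∈ Y
  pos : 0 < ρ
  hol : ∀ y ∈ Y, ContinuousAt pr y ∧ An 𝒜 pr y
  zero : ∀ y ∈ Y, pr y = 0 ↔ y = x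
  int : ∀ y ∈ Y, ‖pr y‖ ≤ ρ → Y ∈ 𝓝 y
  fin : ∀ b, (Y ∩ pr ⁻¹' {b}).Finite
  reg : ∀ y ∈ Y, y ≠ x ↔ ∃ e, 𝒜 e ∧ y ∈ e.source
  lb : ∀ y ∈ Y, y ≠ x → ‖pr y‖ < ρ → δ (pr y) ≠ 0 → LBO 𝒜 pr y

/-- the same with an analytic function `g` whose zero set has a thin preimage -/
structure Cov (𝒜 : OC X → Prop) (x : X) (Y : Set X) (pr : X → E2) (ρ : ℝ) (g : E2 → ℂ) :
    Prop where
  prj : Prj 𝒜 x Y pr ρ g
  ang : ∀ b, ‖b‖ ≤ ρ → AnalyticAt ℂ g b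
  g0 : g 0 = 0
  thin : ∀ y ∈ Y, ‖pr y‖ ≤ ρ → ∀ e, 𝒜 e → y ∈ e.source →
    ¬ ∀ᶠ u in 𝓝 (e y), g (pr (e.symm u)) = 0
  cov : IsCoveringMapOn (Y.domRestrict pr) (Bs ρ g)

/-- `F` is a connected piece of the preimage of `G` -/
def Fox (pr : X → E2) (W : Set X) (G : Filter E2) (F : Filter X) : Prop :=
  F.NeBot ∧ (∀ s ∈ F, ∃ t ∈ F, t ⊆ s ∧ IsPreconnected t) ∧ ∃ C, C ⊆ W ∧
    F = comap pr G ⊓ 𝓟 C ∧ ∃ G₀ ∈ G, ∀ T, IsPreconnected T → T ⊆ W ∩ pr ⁻¹' G₀ →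
      (T ∩ C).Nonempty → T ⊆ C

/-- the connected pieces over a family of filters -/
def FF (pr : X → E2) (W : Set X) (𝔅 : Set (Filter E2)) : Set (Filter X) :=
  {F | ∃ G ∈ 𝔅, Fox pr W G F ∧ map pr F = G}

/-- lifts of `κ` on `L` -/
def Lf (pr : X → E2) (Y : Set X) (L : Set E2) (κ : E2 → E2) (lam : E2 → X) : Prop :=
  ContinuousOn lam L ∧ MapsTo lam L Y ∧ ∀ ξ ∈ L, pr (lam ξ) = κ ξ

end Space

/-- toric data in the base -/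
structure BT (ρ : ℝ) (g : E2 → ℂ) (𝔅 : Set (Filter E2)) (n : ℕ) (κ : E2 → E2) (R : ℝ)
    (act : Finset (Fin 2)) : Prop where
  pos : 0 < n
  maps : MapsTo κ (LT R) (Bs ρ g)
  lb : ∀ ξ ∈ LT R, LB κ ξ
  per : ∀ (m : Fin 2 → ℤ) ξ, κ (ξ + tv 1 m) = κ ξ
  fib : ∀ ξ ∈ LT R, ∀ ξ' ∈ LT R, κ ξ = κ ξ' → ∃ m, ξ' = ξ + tv n m ∧
    ∀ η ∈ LT R, κ (η + tv n m) = κ η
  node : map κ FT ∈ 𝔅
  ane : act.Nonempty
  axA : ∀ k ∈ act, ∀ w : ℂ, w.re < -R → map κ (FA k w) ∈ 𝔅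
  axI : ∀ k ∉ act, ∀ w : ℂ, w.re < -R → ∃ b, b ≠ 0 ∧ ‖b‖ < ρ ∧ map κ (FA k w) = 𝓝[Bs ρ g] b

/-- generic data in the base -/
structure BG (ρ : ℝ) (g : E2 → ℂ) (𝔅 : Set (Filter E2)) (n : ℕ) (κ : E2 → E2) (R : ℝ) :
    Prop where
  pos : 0 < n
  maps : MapsTo κ (LG R) (Bs ρ g)
  lb : ∀ ξ ∈ LG R, LB κ ξ
  per : ∀ (m : ℤ) ξ, κ (ξ + tv 1 ![m, 0]) = κ ξ
  fib : ∀ ξ ∈ LG R, ∀ ξ' ∈ LG R, κ ξ = κ ξ' → ∃ m : ℤ, ξ' = ξ + tv n ![m, 0] ∧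
    ∀ η ∈ LG R, κ (η + tv n ![m, 0]) = κ η
  axA : ∀ w : ℂ, ‖w‖ < Real.exp (-R) → map κ (FA 0 w) ∈ 𝔅

/-- a map to projective space with finite fibres on the base filters -/
def TupB (ρ : ℝ) (𝔅 : Set (Filter E2)) : Prop := ∃ (D : ℕ) (P : E2 → Fin D → ℂ),
  (∀ b, ‖b‖ < ρ → AnalyticAt ℂ P b ∧ (b ≠ 0 → P b ≠ 0)) ∧
  (∀ G ∈ 𝔅, ∃ i s, s i = 1 ∧ Tendsto (rat P i) G (𝓝 s)) ∧
  ∀ i s, s i = 1 → {G ∈ 𝔅 | Tendsto (rat P i) G (𝓝 s)}.Finite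

/-- the structure of the base -/
structure Base (ρ : ℝ) (g : E2 → ℂ) (𝔅 𝔑 : Set (Filter E2)) : Prop where
  le : ∀ G ∈ 𝔅, G ≤ 𝓝 0
  eqd : ∀ G ∈ 𝔅, ∀ G' ∈ 𝔅, EqD G G'
  fin : 𝔑.Finite
  bt : ∀ G ∈ 𝔑, ∃ n κ R act, BT ρ g 𝔅 n κ R act ∧ map κ FT = G
  ult : ∀ 𝒰 : Ultrafilter E2, Bs ρ g ∈ 𝒰 → ↑𝒰 ≤ 𝓝 (0 : E2) → (∃ G ∈ 𝔑, ↑𝒰 ≤ G) ∨
    ∃ n κ R, BG ρ g 𝔅 n κ R ∧ ↑𝒰 ≤ map κ (FA 0 0)
  tup : TupB ρ 𝔅

/-- rotations that fix the jet of order `k` fix the function -/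
def Red (n k : ℕ) (ρ : ℝ) (ψ : ℂ → ℂ) : Prop := ∀ ζ : ℂ, ζ ^ n = 1 →
  ((k + 1 : ℕ) : ℕ∞) ≤ analyticOrderAt (fun t => ψ (ζ * t) - ψ t) 0 →
    ∀ t : ℂ, ‖t‖ < ρ → ψ (ζ * t) = ψ t

/-- a family of smooth branches -/
structure Fam (n K : ℕ) (ρ : ℝ) (Φ : Finset (ℂ → ℂ)) : Prop where
  npos : 0 < n
  pos : 0 < ρ
  ne : Φ.Nonempty
  an : ∀ φ ∈ Φ, φ 0 = 0 ∧ ∀ t : ℂ, ‖t‖ < ρ → AnalyticAt ℂ φ t
  rot : ∀ φ ∈ Φ, ∀ ζ : ℂ, ζ ^ n = 1 → (fun t => φ (ζ * t)) ∈ Φ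
  sep : ∀ φ ∈ Φ, ∀ ψ ∈ Φ, (∀ t : ℂ, ‖t‖ < ρ → φ t = ψ t) ∨
    analyticOrderAt (fun t => φ t - ψ t) 0 ≤ (K : ℕ∞)
  tr : ∀ φ ∈ Φ, ∀ k ≤ K, ∃ ψ ∈ Φ,
    ((k + 1 : ℕ) : ℕ∞) ≤ analyticOrderAt (fun t => φ t - ψ t) 0 ∧ Red n k ρ ψ

/-- the base change -/
def rr (n : ℕ) (u : E2) : E2 := ![u 0 ^ n, u 1]

/-- rotations of the first coordinate -/
def rt (ζ : ℂ) (u : E2) : E2 := ![ζ * u 0, u 1]

/-- `g` cuts out the images of the branches and the line `x = 0` -/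
structure Bg (n : ℕ) (Φ : Finset (ℂ → ℂ)) (ρ₀ ρ : ℝ) (g : E2 → ℂ) : Prop where
  pos : 0 < ρ
  rad : ∀ t : ℂ, ‖t ^ n‖ < 2 * ρ → ‖t‖ < ρ₀
  an : ∀ b, ‖b‖ < 2 * ρ → AnalyticAt ℂ g b
  zero : ∀ u, ‖rr n u‖ < 2 * ρ → (g (rr n u) = 0 ↔ u 0 = 0 ∨ ∃ φ ∈ Φ, u 1 = φ (u 0))

/-- the filter of a point of the Riemann sphere -/
def nh : Option ℂ → Filter ℂ
  | some c => 𝓝 c
  | none => Bornology.cobounded ℂ

/-- the basic meromorphic functions -/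
def wf (φ : ℂ → ℂ) (k : ℕ) (u : E2) : ℂ := (u 1 - φ (u 0)) / u 0 ^ k

/-- the set of test functions -/
def SS (n K : ℕ) (Φ : Finset (ℂ → ℂ)) : Set (E2 → ℂ) :=
  {f | ∃ η : ℂ, η ^ n = 1 ∧ (f = (fun u => η * u 0) ∨
    ∃ φ ∈ Φ, ∃ k ≤ K + 1, f = fun u => η * wf φ k u)}

/-- `G` is the largest filter on `B` with given limits of the test functions -/
def SP (𝒮 : Set (E2 → ℂ)) (B : Set E2) (G : Filter E2) : Prop :=
  B ∈ G ∧ ∃ l : (E2 → ℂ) → Option ℂ, (∀ f ∈ 𝒮, Tendsto f G (nh (l f))) ∧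
    ∀ U : Filter E2, B ∈ U → (∀ f ∈ 𝒮, Tendsto f U (nh (l f))) → U ≤ G

/-- the base filters -/
def BB (n K : ℕ) (Φ : Finset (ℂ → ℂ)) (ρ : ℝ) (g : E2 → ℂ) : Set (Filter E2) :=
  {G | ∃ G', SP (SS n K Φ) (rr n ⁻¹' Bs ρ g) G' ∧ G' ≤ 𝓝 0 ∧ map (rr n) G' = G}

/-- the charts of the blown up base -/
def chi (φ : ℂ → ℂ) (k ε : ℕ) (c : ℂ) (u : E2) : E2 :=
  ![u 0 * u 1 ^ ε, φ (u 0 * u 1 ^ ε) + (u 0 * u 1 ^ ε) ^ k * (c + u 1)]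

/-- the removed axes -/
def bad (c : ℂ) : Set E2 := {u | u 0 = 0 ∨ c = 0 ∧ u 1 = 0}

/-- the three types of charts: ends, nodes and generic points -/
def CT (n K : ℕ) (ρ : ℝ) (Φ : Finset (ℂ → ℂ)) (φ : ℂ → ℂ) (k ε : ℕ) (c : ℂ) : Prop :=
  φ ∈ Φ ∧ ((ε = 0 ∧ c = 0 ∧ k = K + 1) ∨ (ε = 1 ∧ c = 0 ∧ k ≤ K ∧ Red n k ρ φ) ∨
    (ε = 0 ∧ c ≠ 0 ∧ 1 ≤ k ∧ k ≤ K + 1 ∧ Red n (k - 1) ρ φ ∧
      ∀ ψ ∈ Φ, ¬ Tendsto (fun t => (ψ t - φ t) / t ^ k) (𝓝[≠] 0) (𝓝 c)))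

/-- the properties of a chart of the blown up base on the polydisc of radius `δ` -/
structure Ch (n K : ℕ) (Φ : Finset (ℂ → ℂ)) (ρ₀ ρ : ℝ) (g : E2 → ℂ) (φ : ℂ → ℂ) (k ε : ℕ)
    (c : ℂ) (δ : ℝ) : Prop where
  pos : 0 < δ
  small : ∀ u : E2, ‖u‖ < δ → ‖rr n (chi φ k ε c u)‖ < ρ
  maps : ∀ u : E2, ‖u‖ < δ → u ∉ bad c → g (rr n (chi φ k ε c u)) ≠ 0
  sp : ∀ u : E2, ‖u‖ < δ →
    SP (SS n K Φ) (rr n ⁻¹' Bs ρ g) (map (chi φ k ε c) (𝓝[(bad c)ᶜ] u))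
  fib : ∀ u u' : E2, ‖u‖ < δ → ‖u'‖ < δ → u ∉ bad c → u' ∉ bad c →
    rr n (chi φ k ε c u) = rr n (chi φ k ε c u') → ∃ ζ : ℂ, ζ ^ n = 1 ∧
      (∀ t : ℂ, ‖t‖ < ρ₀ → φ (ζ * t) = φ t) ∧ u' 0 = ζ ^ (1 + ε * k) * u 0 ∧
      ζ ^ k * u' 1 = u 1 ∧ (c ≠ 0 → ζ ^ k = 1)

/-- the branches are units times monomials on the polydisc of radius `δ` -/
def Un (K : ℕ) (Φ : Finset (ℂ → ℂ)) (φ : ℂ → ℂ) (k ε : ℕ) (c : ℂ) (δ : ℝ) : Prop :=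
  ∀ ψ ∈ Φ, ∃ (a b : ℕ) (h : E2 → ℂ), ContinuousOn h (ball 0 δ) ∧
    (∀ u ∈ ball (0 : E2) δ, h u ≠ 0 ∧
      chi φ k ε c u 1 - ψ (chi φ k ε c u 0) = mon ![a, b] u * h u) ∧ (c ≠ 0 → b = 0) ∧
    ∀ j ≤ K + 1, (j ≤ a ∧ ε * j ≤ b) ∨ (a ≤ j ∧ b ≤ ε * j)

/-- basic facts on abstract resolutions of projective surfaces -/
structure Cb {N : ℕ} {X : Set (PN N)} {M : Type} [TopologicalSpace M] (𝒞 : OC M → Prop)
    (π : M → X) : Prop where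
  an : ∀ (φ : X → ℂ) z (e : OC M), HolAt φ (π z) → 𝒞 e →
    z ∈ e.source → AnalyticAt ℂ ((φ ∘ π) ∘ e.symm) (e z)
  sm : ∀ r : (Fin (N + 1) → ℂ) → ℝ, (∀ v ≠ 0, ContDiffAt ℝ ∞ r v) →
    (∀ (a : ℂ) v, a ≠ 0 → r (a • v) = r v) → ∀ z (e : OC M), 𝒞 e →
    z ∈ e.source → ContDiffAt ℝ ∞ ((fun y => r (π y).1.rep) ∘ e.symm) (e z)
  reg : ∀ (ρ : X → ℝ) ε, Rug (IsChart (n := 2)) (Sing X 2) ρ ε → ∀ z
    (e : OC M), 𝒞 e → z ∈ e.source → 0 < ρ (π z) → ρ (π z) < ε →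
    DifferentiableAt ℝ ((ρ ∘ π) ∘ e.symm) (e z) → fderiv ℝ ((ρ ∘ π) ∘ e.symm) (e z) ≠ 0
  ell : ∃ O : Set X, IsOpen O ∧ Sing X 2 ⊆ O ∧ ∃ h : M → ℂ, ∀ z, π z ∈ O →
    (∀ e : OC M, 𝒞 e → z ∈ e.source → AnalyticAt ℂ (h ∘ e.symm) (e z)) ∧
      (π z ∈ Sing X 2 → h z = 0) ∧ ¬ ∀ᶠ w in 𝓝 z, h w = 0

end Pool.Agent.Lib.MP_356dfe_ag.R
end
end

-- part Pool.Agent.Lib.MP_356dfe_ag.R.Stm
section

/-! Statements for the resolution of surface singularities. -/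

set_option autoImplicit false

open Set Filter Topology Metric
open scoped ContDiff

noncomputable section

namespace Pool.Agent.Lib.MP_356dfe_ag.R

open S (E2 KA Concl)

/-- the extension theorem of Riemann for continuous functions -/
def Riem : Prop := ∀ (f : E2 → ℂ) (A : Set E2) (p : E2), Thin A p →
  (∀ᶠ u in 𝓝 p, ContinuousAt f u ∧ (u ∉ A → DifferentiableAt ℂ f u)) → AnalyticAt ℂ f p

/-- thin sets do not separate -/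
def Conn : Prop := ∀ (A : Set E2) (p : E2), Thin A p → ∀ s ∈ 𝓝[Aᶜ] p, ∃ t ∈ 𝓝[Aᶜ] p,
  t ⊆ s ∧ IsPreconnected t

/-- analytic functions of two variables have infinite fibres -/
def Rk : Prop := ∀ (h : E2 → ℂ) (p : E2), AnalyticAt ℂ h p → ∀ O ∈ 𝓝 p,
  ∃ c, {u ∈ O | h u = c}.Infinite

/-- invariant functions descend -/
def Desc : Prop := ∀ (n : ℕ) (ρ : ℝ) (Q : E2 → ℂ), 0 < n →
  (∀ u, ‖rr n u‖ < ρ → AnalyticAt ℂ Q u) →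
  (∀ ζ : ℂ, ζ ^ n = 1 → ∀ u, ‖rr n u‖ < ρ → Q (rt ζ u) = Q u) →
  ∃ q : E2 → ℂ, (∀ b, ‖b‖ < ρ → AnalyticAt ℂ q b) ∧ ∀ u, ‖rr n u‖ < ρ → q (rr n u) = Q u

/-- filters under the exponential map -/
structure ExpF : Prop where
  ft : map ex2 FT = 𝓝[axesᶜ] 0
  fa : ∀ k w, map ex2 (FA k w) = 𝓝[axesᶜ] (Pi.single k.rev (Complex.exp w))
  fg : ∀ w, map ex1 (FA 0 w) = 𝓝[{u : E2 | u 0 = 0}ᶜ] ![0, w]
  lb2 : ∀ ξ, LB ex2 ξ
  lb1 : ∀ ξ, LB ex1 ξ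
  bt : FT.NeBot ∧ FT.HasBasis (fun _ : ℝ => True) LT
  ba : ∀ k w, (FA k w).NeBot ∧ (FA k w).HasBasis (fun q : ℝ × ℝ => 0 < q.2)
    fun q => {ξ | (ξ k).re < -q.1 ∧ ‖ξ k.rev - w‖ < q.2}

/-- separable polynomials with the same roots -/
def Sep : Prop := ∀ (σ : Type) [Finite σ] (P : Polynomial (MvPolynomial σ ℂ)), P.Monic →
  ∃ (Q a b : Polynomial (MvPolynomial σ ℂ)) (D : MvPolynomial σ ℂ), Q.Monic ∧ D ≠ 0 ∧
    a * Q + b * Polynomial.derivative Q = Polynomial.C D ∧ ∃ k : ℕ, Q ∣ P ∧ P ∣ Q ^ k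

/-- Noether normalization for affine sets of dimension at most two -/
def Noeth : Prop := ∀ (m : ℕ) (T : Set (MvPolynomial (Fin m) ℂ)) (F : Set (Fin m → ℂ))
  (s : ℕ → E2 → Fin m → ℂ) (O : ℕ → Set E2), F.Finite → (∀ j, ∀ u ∈ O j, AnalyticAt ℂ (s j) u) →
  (∀ v, (∀ P ∈ T, MvPolynomial.eval v P = 0) → v ∈ F ∪ ⋃ j, s j '' O j) →
  ∃ p : Fin 2 → MvPolynomial (Fin m) ℂ, ∀ i, ∃ Q : Polynomial (MvPolynomial (Fin 2) ℂ),
    Q.Monic ∧ ∀ v, (∀ P ∈ T, MvPolynomial.eval v P = 0) →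
      Q.eval₂ (MvPolynomial.eval fun k => MvPolynomial.eval v (p k)) (v i) = 0

/-- local projections -/
def PrjEx : Prop := ∀ (N : ℕ) (I : Finset (MvPolynomial (Fin (N + 1)) ℂ)),
  (Sing (Var I) 2).Finite → ∀ x ∈ Sing (Var I) 2, ∀ O ∈ 𝓝 x,
  ∃ (Y : Set (Var I)) (pr : Var I → E2) (ρ : ℝ) (δ : MvPolynomial (Fin 2) ℂ), Y ⊆ O ∧ δ ≠ 0 ∧
    Prj (IsChart (n := 2)) x Y pr ρ fun b => MvPolynomial.eval b δ

/-- existence and uniqueness of lifts -/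
def LiftS : Prop := ∀ (X E B : Type) [TopologicalSpace X] [NormedAddCommGroup E]
  [NormedSpace ℝ E] [TopologicalSpace B] (p : X → B) (Y : Set X) (B' : Set B),
  IsCoveringMapOn (Y.domRestrict p) B' → ∀ (L : Set E) (κ : E → B), ContinuousOn κ L →
  MapsTo κ L B' →
  (Convex ℝ L → ∀ ξ ∈ L, ∀ y ∈ Y, p y = κ ξ → ∃ lam : E → X, ContinuousOn lam L ∧ MapsTo lam L Y ∧
    (∀ η ∈ L, p (lam η) = κ η) ∧ lam ξ = y) ∧
  (IsPreconnected L → ∀ lam lam' : E → X, ContinuousOn lam L → ContinuousOn lam' L →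
    MapsTo lam L Y → MapsTo lam' L Y → (∀ η ∈ L, p (lam η) = κ η) → (∀ η ∈ L, p (lam' η) = κ η) →
    ∀ ξ ∈ L, lam ξ = lam' ξ → EqOn lam lam' L)

/-- the theorem of Puiseux for monic separable polynomials -/
def PuisM : Prop := ∀ (Q a b : Polynomial (MvPolynomial Unit ℂ)) (D : MvPolynomial Unit ℂ),
  Q.Monic → D ≠ 0 → a * Q + b * Polynomial.derivative Q = Polynomial.C D →
  ∃ (n : ℕ) (ρ : ℝ) (Φ : Finset (ℂ → ℂ)), 0 < n ∧ 0 < ρ ∧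
    (∀ φ ∈ Φ, ∀ t : ℂ, ‖t‖ < ρ → AnalyticAt ℂ φ t) ∧ ∀ t y : ℂ, t ≠ 0 → ‖t‖ < ρ →
      Q.eval₂ (MvPolynomial.eval fun _ => t ^ n) y = 0 → ∃ φ ∈ Φ, y = φ t

/-- the theorem of Puiseux -/
def Puis : Prop := ∀ δ : MvPolynomial (Fin 2) ℂ, δ ≠ 0 →
  ∃ (n : ℕ) (ρ : ℝ) (Φ : Finset (ℂ → ℂ)), 0 < n ∧ 0 < ρ ∧
    (∀ φ ∈ Φ, φ 0 = 0 ∧ ∀ t : ℂ, ‖t‖ < ρ → AnalyticAt ℂ φ t) ∧ ∀ t y : ℂ, t ≠ 0 → ‖t‖ < ρ →
      ‖y‖ < ρ → MvPolynomial.eval ![t ^ n, y] δ = 0 → ∃ φ ∈ Φ, y = φ t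

/-- finite sets of branches lie in families -/
def FamEx : Prop := ∀ (n : ℕ) (ρ : ℝ) (Φ₀ : Finset (ℂ → ℂ)), 0 < n → 0 < ρ →
  (∀ φ ∈ Φ₀, φ 0 = 0 ∧ ∀ t : ℂ, ‖t‖ < ρ → AnalyticAt ℂ φ t) → ∃ K Φ, Φ₀ ⊆ Φ ∧ Fam n K ρ Φ

/-- the equation of the branches -/
def BgEx : Prop := ∀ n K ρ₀ Φ, Fam n K ρ₀ Φ → ∃ (g : E2 → ℂ) (ρ₁ : ℝ), 0 < ρ₁ ∧
  ∀ ρ, 0 < ρ → ρ ≤ ρ₁ → Bg n Φ ρ₀ ρ g

/-- regular subdivisions exist -/
def HJ : Prop := ∀ Λ : AddSubgroup (Fin 2 → ℤ), (∃ D : ℤ, 0 < D ∧ ∀ m, D • m ∈ Λ) →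
  ∃ r v, Fan Λ r v

/-- units times monomials -/
def UnEx : Prop := ∀ n K ρ₀ Φ φ k ε c, Fam n K ρ₀ Φ → CT n K ρ₀ Φ φ k ε c →
  ∃ δ, 0 < δ ∧ Un K Φ φ k ε c δ

/-- the fibres of the charts -/
def FbEx : Prop := ∀ n K ρ₀ Φ φ k ε c, Fam n K ρ₀ Φ → CT n K ρ₀ Φ φ k ε c →
  ∃ δ : ℝ, 0 < δ ∧ ∀ u u' : E2, ‖u‖ < δ → ‖u'‖ < δ → u ∉ bad c → u' ∉ bad c →
    rr n (chi φ k ε c u) = rr n (chi φ k ε c u') → ∃ ζ : ℂ, ζ ^ n = 1 ∧
      (∀ t : ℂ, ‖t‖ < ρ₀ → φ (ζ * t) = φ t) ∧ u' 0 = ζ ^ (1 + ε * k) * u 0 ∧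
      ζ ^ k * u' 1 = u 1 ∧ (c ≠ 0 → ζ ^ k = 1)

/-- good charts of the blown up base -/
def ChEx : Prop := ∀ n K ρ₀ Φ ρ g φ k ε c, Fam n K ρ₀ Φ → Bg n Φ ρ₀ ρ g →
  CT n K ρ₀ Φ φ k ε c → ∃ δ, Ch n K Φ ρ₀ ρ g φ k ε c δ

/-- base filters are equal or disjoint -/
def BBe : Prop := ∀ n K ρ₀ Φ ρ g, Fam n K ρ₀ Φ → Bg n Φ ρ₀ ρ g →
  ∀ G ∈ BB n K Φ ρ g, ∀ G' ∈ BB n K Φ ρ g, EqD G G'

/-- toric data from charts -/
def BTEx : Prop := ∀ n K ρ₀ Φ ρ g φ k ε δ, Fam n K ρ₀ Φ → Bg n Φ ρ₀ ρ g →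
  CT n K ρ₀ Φ φ k ε 0 → Ch n K Φ ρ₀ ρ g φ k ε 0 δ →
  ∃ R act, BT ρ g (BB n K Φ ρ g) n (rr n ∘ chi φ k ε 0 ∘ ex2) R act

/-- generic data from charts -/
def BGEx : Prop := ∀ n K ρ₀ Φ ρ g φ k ε c δ, Fam n K ρ₀ Φ → Bg n Φ ρ₀ ρ g → c ≠ 0 →
  CT n K ρ₀ Φ φ k ε c → Ch n K Φ ρ₀ ρ g φ k ε c δ →
  ∃ R, BG ρ g (BB n K Φ ρ g) n (rr n ∘ chi φ k ε c ∘ ex1) R

/-- every ultrafilter lies over the centre of a chart -/
def Cls : Prop := ∀ n K ρ₀ Φ ρ g, Fam n K ρ₀ Φ → Bg n Φ ρ₀ ρ g → ∀ 𝒰 : Ultrafilter E2,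
  Bs ρ g ∈ 𝒰 → ↑𝒰 ≤ 𝓝 (0 : E2) → ∃ φ k ε c, CT n K ρ₀ Φ φ k ε c ∧
    ↑𝒰 ≤ map (rr n ∘ chi φ k ε c) (𝓝[(bad c)ᶜ] 0)

/-- the map to projective space on the base -/
def TupEx : Prop := ∀ n K ρ₀ Φ ρ g, Fam n K ρ₀ Φ → Bg n Φ ρ₀ ρ g → TupB ρ (BB n K Φ ρ g)

/-- the structure of the base exists -/
def BaseEx : Prop := ∀ n K ρ₀ Φ ρ g, Fam n K ρ₀ Φ → Bg n Φ ρ₀ ρ g →
  ∃ 𝔑, Base ρ g (BB n K Φ ρ g) 𝔑

/-- from projections to coverings -/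
def CovEx : Prop := ∀ (X : Type) [TopologicalSpace X] [T2Space X] (𝒜 : OC X → Prop) (x : X)
  (Y : Set X) (pr : X → E2) (ρ₁ : ℝ) (δ : MvPolynomial (Fin 2) ℂ), δ ≠ 0 →
  Prj 𝒜 x Y pr ρ₁ (fun b => MvPolynomial.eval b δ) →
  ∃ n K ρ₀ Φ ρ g, Fam n K ρ₀ Φ ∧ Bg n Φ ρ₀ ρ g ∧ Cov 𝒜 x Y pr ρ g

/-- images of filters under lifts are connected pieces -/
def FoxL : Prop := ∀ (X : Type) [TopologicalSpace X] (pr : X → E2) (Y : Set X) (B : Set E2),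
  IsCoveringMapOn (Y.domRestrict pr) B → ∀ (L : Set E2) (κ : E2 → E2) (lam : E2 → X), IsOpen L →
  (∀ ξ ∈ L, LB κ ξ ∧ κ ξ ∈ B) → Lf pr Y L κ lam →
  (∀ ξ ∈ L, ∀ ξ' ∈ L, κ ξ = κ ξ' → ∀ η ∈ L, η + (ξ' - ξ) ∈ L ∧ κ (η + (ξ' - ξ)) = κ η) →
  ∀ 𝓛 : Filter E2, 𝓛.NeBot → L ∈ 𝓛 → (∀ s ∈ 𝓛, ∃ t ∈ 𝓛, t ⊆ s ∧ IsPreconnected t ∧
    ∀ ξ ∈ t, ∀ ξ' ∈ L, κ ξ = κ ξ' → ξ' ∈ t) →
  Fox pr (Y ∩ pr ⁻¹' B) (map κ 𝓛) (map lam 𝓛) ∧
    map lam 𝓛 = comap pr (map κ 𝓛) ⊓ 𝓟 (lam '' L)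

/-- neighbourhood filters of regular points are connected pieces -/
def FoxR : Prop := ∀ (X : Type) [TopologicalSpace X] [T2Space X] (𝒜 : OC X → Prop) x Y pr ρ g,
  Cov 𝒜 x Y pr ρ g → ∀ z ∈ Y, z ≠ x → ‖pr z‖ < ρ →
  Fox pr (Y ∩ pr ⁻¹' Bs ρ g) (𝓝[Bs ρ g] (pr z)) (𝓝[Y ∩ pr ⁻¹' Bs ρ g] z)

/-- toric germs from lifts -/
def TGEx : Prop := ∀ (X : Type) [TopologicalSpace X] [T2Space X] (𝒜 : OC X → Prop) x Y pr ρ g,
  Cov 𝒜 x Y pr ρ g → ∀ 𝔅 n κ R act, BT ρ g 𝔅 n κ R act → ∀ lam, Lf pr Y (LT R) κ lam →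
  (∃ Λ, TG 𝒜 x (Y ∩ pr ⁻¹' ball 0 ρ) (Y ∩ pr ⁻¹' Bs ρ g) (FF pr (Y ∩ pr ⁻¹' Bs ρ g) 𝔅) n lam R
    Λ act) ∧ map lam FT = comap pr (map κ FT) ⊓ 𝓟 (lam '' LT R)

/-- generic germs from lifts -/
def GGEx : Prop := ∀ (X : Type) [TopologicalSpace X] [T2Space X] (𝒜 : OC X → Prop) x Y pr ρ g,
  Cov 𝒜 x Y pr ρ g → ∀ 𝔅 n κ R, BG ρ g 𝔅 n κ R → ∀ lam, Lf pr Y (LG R) κ lam →
  (∃ p, GG 𝒜 (Y ∩ pr ⁻¹' Bs ρ g) (FF pr (Y ∩ pr ⁻¹' Bs ρ g) 𝔅) n lam R p) ∧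
    map lam (FA 0 0) = comap pr (map κ (FA 0 0)) ⊓ 𝓟 (lam '' LG R)

/-- the connected pieces over the base filters -/
def FsEx : Prop := ∀ (X : Type) [TopologicalSpace X] [T2Space X] (𝒜 : OC X → Prop) x Y pr ρ g,
  Cov 𝒜 x Y pr ρ g → ∀ 𝔅 𝔑, Base ρ g 𝔅 𝔑 →
  Fs 𝒜 x (Y ∩ pr ⁻¹' ball 0 ρ) (Y ∩ pr ⁻¹' Bs ρ g) (FF pr (Y ∩ pr ⁻¹' Bs ρ g) 𝔅)

/-- systems of sheets exist -/
def ShEx : Prop := ∀ (X : Type) [TopologicalSpace X] [T2Space X] (𝒜 : OC X → Prop) x Y pr ρ g,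
  Cov 𝒜 x Y pr ρ g → ∀ 𝔅 𝔑, Base ρ g 𝔅 𝔑 →
  ∃ 𝔉 𝔑', Sh 𝒜 x (Y ∩ pr ⁻¹' ball 0 ρ) (Y ∩ pr ⁻¹' Bs ρ g) 𝔉 𝔑'

/-- toric charts are punctured charts -/
def TC1 : Prop := ∀ (X : Type) [TopologicalSpace X] (𝒜 : OC X → Prop) x U W 𝔉 n lam R Λ act,
  TG 𝒜 x U W 𝔉 n lam R Λ act → ∀ v w, Bz Λ v w → (tc n lam R v w).Ok 𝒜 W ∧
    (tc n lam R v w).c '' ((tc n lam R v w).P \ axes) ⊆ lam '' LT R ∧
    ∃ α β : X → ℂ, (∀ ξ ∈ LT R, α (lam ξ) = Complex.exp (n * ξ 0) ∧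
      β (lam ξ) = Complex.exp (n * ξ 1)) ∧ ∀ v w, Bz Λ v w → ∀ u ∈ (tc n lam R v w).P \ axes,
        α ((tc n lam R v w).c u) = mon ![(v 0).toNat, (w 0).toNat] u ∧
        β ((tc n lam R v w).c u) = mon ![(v 1).toNat, (w 1).toNat] u

/-- the filters of the points of toric charts -/
def TC2 : Prop := ∀ (X : Type) [TopologicalSpace X] (𝒜 : OC X → Prop) x U W 𝔉 n lam R Λ act,
  TG 𝒜 x U W 𝔉 n lam R Λ act → ∀ v w, Bz Λ v w → ∀ u ∈ (tc n lam R v w).P,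
    ((tc n lam R v w).F u ≤ map lam FT ↔ ∀ k, mon ![(v k).toNat, (w k).toNat] u = 0) ∧
    ((¬ ∀ k, mon ![(v k).toNat, (w k).toNat] u = 0) →
      Disjoint ((tc n lam R v w).F u) (map lam FT)) ∧
    ∀ m k : Fin 2, u m = 0 → u m.rev ≠ 0 → ![v, w] m k.rev = 0 →
      ∃ s : ℂ, s.re < -R ∧ (tc n lam R v w).F u = map lam (FA k s)

/-- toric varieties are separated -/
def TC3 : Prop := ∀ (X : Type) [TopologicalSpace X] (𝒜 : OC X → Prop) x U W 𝔉 n lam R Λ act,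
  TG 𝒜 x U W 𝔉 n lam R Λ act → ∀ r v, Fan Λ r v → ∀ i < r, ∀ j < r,
    ∀ u ∈ (tc n lam R (v i) (v (i + 1))).P, ∀ u' ∈ (tc n lam R (v j) (v (j + 1))).P,
      EqD ((tc n lam R (v i) (v (i + 1))).F u) ((tc n lam R (v j) (v (j + 1))).F u')

/-- toric modifications are proper -/
def TC4 : Prop := ∀ (X : Type) [TopologicalSpace X] (𝒜 : OC X → Prop) x U W 𝔉 n lam R Λ act,
  TG 𝒜 x U W 𝔉 n lam R Λ act → ∀ r v, Fan Λ r v → ∀ 𝒰 : Ultrafilter X, ↑𝒰 ≤ map lam FT →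
    ∃ j < r, ∃ u ∈ (tc n lam R (v j) (v (j + 1))).P, ↑𝒰 ≤ (tc n lam R (v j) (v (j + 1))).F u

/-- generic charts -/
def GC : Prop := ∀ (X : Type) [TopologicalSpace X] (𝒜 : OC X → Prop) W 𝔉 n lam R p,
  GG 𝒜 W 𝔉 n lam R p → (gc n lam R p).Ok 𝒜 W ∧
    (gc n lam R p).c '' ((gc n lam R p).P \ (gc n lam R p).A) ⊆ lam '' LG R ∧
    ∀ u ∈ (gc n lam R p).P, u 0 = 0 → (gc n lam R p).F u = map lam (FA 0 (u 1))

/-- local data from sheets -/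
def LocEx : Prop := ∀ (X : Type) [TopologicalSpace X] [T2Space X] (𝒜 : OC X → Prop) x U W 𝔉 𝔑,
  Sh 𝒜 x U W 𝔉 𝔑 → ∃ 𝒟, Loc 𝒜 x U W 𝒟 𝔉

/-- local data from projections -/
def LocPrj : Prop := ∀ (X : Type) [TopologicalSpace X] [T2Space X] (𝒜 : OC X → Prop) (x : X),
  (∀ O ∈ 𝓝 x, ∃ (Y : Set X) (pr : X → E2) (ρ : ℝ) (δ : MvPolynomial (Fin 2) ℂ), Y ⊆ O ∧ δ ≠ 0 ∧
    Prj 𝒜 x Y pr ρ fun b => MvPolynomial.eval b δ) → LocAt 𝒜 x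

/-- global data from local data -/
def GDEx : Prop := ∀ (X : Type) [TopologicalSpace X] [T2Space X] [CompactSpace X]
  (𝒜 : OC X → Prop) (S : Set X), Sp 𝒜 S → (∀ x ∈ S, LocAt 𝒜 x) → ∃ W 𝒟, GD 𝒜 S W 𝒟 ∧
    ∀ x ∈ S, ∃ U W' 𝒟' 𝔉, IsOpen U ∧ x ∈ U ∧ 𝒟' ⊆ 𝒟 ∧ Loc 𝒜 x U W' 𝒟' 𝔉 ∧
      ∀ d ∈ 𝒟, ∀ u ∈ d.P, d.F u ≤ 𝓝 x → d ∈ 𝒟'

/-- the completion exists -/
def CplEx : Prop := ∀ (X : Type) [TopologicalSpace X] (𝒜 : OC X → Prop) W 𝒟, CD 𝒜 W 𝒟 →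
  (∃ d ∈ 𝒟, d.P.Nonempty) → ∃ (M : Type) (_ : TopologicalSpace M) (_ : T2Space M) (_ : CompactSpace M)
    (fl : M → Filter X) (ch : Pc X → OC M), Cpl 𝒟 fl ch

/-- the completion is a complex manifold -/
def CplAn : Prop := ∀ (X : Type) [TopologicalSpace X] [T2Space X] (𝒜 : OC X → Prop)
  (S W : Set X) 𝒟, Sp 𝒜 S → CD 𝒜 W 𝒟 → ∀ (M : Type) [TopologicalSpace M] (fl : M → Filter X)
  (ch : Pc X → OC M), Cpl 𝒟 fl ch → Sp (Atl 𝒟 ch) ∅ ∧ ExtP 𝒜 (Atl 𝒟 ch) fl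

/-- the completion is a resolution -/
def ResEx : Prop := ∀ (X : Type) [TopologicalSpace X] [T2Space X] [CompactSpace X]
  (𝒜 : OC X → Prop) (S W : Set X) 𝒟, GD 𝒜 S W 𝒟 → ∀ (M : Type) [TopologicalSpace M]
  (fl : M → Filter X) (ch : Pc X → OC M), Cpl 𝒟 fl ch → Sp (Atl 𝒟 ch) ∅ →
  ExtP 𝒜 (Atl 𝒟 ch) fl → ∃ π : M → X, Res 𝒜 S (Atl 𝒟 ch) π ∧ ∀ z, fl z ≤ 𝓝 (π z)

/-- the form of Fubini and Study -/
structure FSL : Prop where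
  sm : ∀ (k : ℕ) (s : E2 → Fin k → ℂ) x, AnalyticAt ℂ s x → s x ≠ 0 →
    ContDiffAt ℝ ∞ (fun y => Real.log (sq (s y))) x
  nn : ∀ (k : ℕ) (s : E2 → Fin k → ℂ) x, AnalyticAt ℂ s x → s x ≠ 0 → ∀ v,
    0 ≤ lv (D2 (fun y => Real.log (sq (s y))) x) v ∧
    (lv (D2 (fun y => Real.log (sq (s y))) x) v = 0 → ∃ c : ℂ, fderiv ℂ s x v = c • s x)
  law : ∀ (k : ℕ) (s s' : E2 → Fin k → ℂ) x, AnalyticAt ℂ s x → s x ≠ 0 → AnalyticAt ℂ s' x →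
    s' x ≠ 0 → (∀ᶠ y in 𝓝 x, ∃ c : ℂ, s y = c • s' y) → ∀ v,
    lv (D2 (fun y => Real.log (sq (s y))) x) v = lv (D2 (fun y => Real.log (sq (s' y))) x) v

/-- points carry positive forms -/
def Pos1 : Prop := ∀ (M : Type) [TopologicalSpace M] (ℬ : OC M → Prop), Sp ℬ ∅ →
  ∀ z, Pos ℬ {z}

/-- positivity along the fibres and semipositivity give positivity -/
def KL : Prop := ∀ (M : Type) [TopologicalSpace M] [T2Space M] (ℬ : OC M → Prop), Sp ℬ ∅ →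
  ∀ (K N : Set M) (a : M → M → ℝ) (τ : M → ℝ), IsCompact K → IsOpen N → K ⊆ N → Fm ℬ a N →
  (∀ y ∈ N \ K, SmA ℬ τ y ∧ EqL ℬ τ (a y) y) →
  (∀ y ∈ K, ∀ e, ℬ e → y ∈ e.source → ∀ v, 0 ≤ LV (a y) e y v) →
  (∀ z ∈ K, ∃ (N' : Set M) (J : Type) (_ : Fintype J) (F : M → J → ℂ), IsOpen N' ∧ z ∈ N' ∧
    F z = 0 ∧ (∀ y ∈ N', An ℬ F y) ∧ IsCompact (N' ∩ F ⁻¹' {0}) ∧ N' ∩ F ⁻¹' {0} ⊆ K ∧
    Pos ℬ (N' ∩ F ⁻¹' {0}) ∧ ∀ y ∈ N' ∩ K, ∀ e, ℬ e → y ∈ e.source → ∀ v,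
      LV (a y) e y v = 0 → fderiv ℂ (F ∘ e.symm) (e y) v = 0) → Pos ℬ K

/-- the same for maps to products of projective spaces -/
def KP : Prop := ∀ (M : Type) [TopologicalSpace M] [T2Space M] (ℬ : OC M → Prop), Sp ℬ ∅ →
  ∀ (K N : Set M) (J : Type) [Fintype J] (k : J → ℕ) (f : ∀ j, M → Fin (k j) → ℂ),
  IsCompact K → IsOpen N → K ⊆ N →
  (∀ j, ∀ y ∈ N, An ℬ (f j) y ∧ (y ∉ K → f j y ≠ 0) ∧ ∃ᶠ w in 𝓝 y, f j w ≠ 0) →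
  (∀ z ∈ K, ∃ (N' : Set M) (t : ∀ j, M → Fin (k j) → ℂ) (i : ∀ j, Fin (k j)), IsOpen N' ∧
    z ∈ N' ∧ N' ⊆ N ∧
    (∀ j, ∀ y ∈ N', An ℬ (t j) y ∧ t j y (i j) = 1 ∧ f j y = f j y (i j) • t j y) ∧
    IsCompact {y ∈ N' | ∀ j, t j y = t j z} ∧ {y ∈ N' | ∀ j, t j y = t j z} ⊆ K ∧
    Pos ℬ {y ∈ N' | ∀ j, t j y = t j z}) → Pos ℬ K

/-- chains carry positive forms -/
def Lev1 : Prop := ∀ (X : Type) [TopologicalSpace X] (𝒟 𝒟' : Set (Pc X)) (M : Type)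
  [TopologicalSpace M] [T2Space M] (fl : M → Filter X) (ch : Pc X → OC M), Cpl 𝒟 fl ch →
  Sp (Atl 𝒟 ch) ∅ → 𝒟' ⊆ 𝒟 → ∀ H r (d : Fin r → Pc X) α β a b, Chain 𝒟' H d α β a b →
  (∀ z, fl z ≤ H → ∃ d' ∈ 𝒟', ∃ u ∈ d'.P, fl z = d'.F u) → IsCompact {z | fl z ≤ H} →
  Pos (Atl 𝒟 ch) {z | fl z ≤ H}

/-- exceptional fibres carry positive forms -/
def Lev2 : Prop := ∀ (X : Type) [TopologicalSpace X] [T2Space X] (𝒜 : OC X → Prop) (S : Set X)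
  (𝒟 𝒟' : Set (Pc X)) (M : Type) [TopologicalSpace M] [T2Space M] [CompactSpace M]
  (fl : M → Filter X) (ch : Pc X → OC M) (π : M → X), Cpl 𝒟 fl ch → ExtP 𝒜 (Atl 𝒟 ch) fl →
  Res 𝒜 S (Atl 𝒟 ch) π → (∀ z, fl z ≤ 𝓝 (π z)) → ∀ x ∈ S, ∀ U W 𝔉, IsOpen U → x ∈ U →
  𝒟' ⊆ 𝒟 → Loc 𝒜 x U W 𝒟' 𝔉 → (∀ d ∈ 𝒟, ∀ u ∈ d.P, d.F u ≤ 𝓝 x → d ∈ 𝒟') →
  Pos (Atl 𝒟 ch) (π ⁻¹' {x})

/-- the resolution of a projective surface is Kaehler -/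
def Lev3 : Prop := ∀ (N : ℕ) (X : Set (PN N)) (M : Type) [TopologicalSpace M] [T2Space M]
  [CompactSpace M] (ℬ : OC M → Prop) (π : M → X), Res (IsChart (n := 2)) (Sing X 2) ℬ π →
  (∀ x ∈ Sing X 2, Pos ℬ (π ⁻¹' {x})) → Pos ℬ univ

/-- the basic facts hold -/
def CbR : Prop := ∀ (N : ℕ) (X : Set (PN N)) (M : Type) [TopologicalSpace M] [CompactSpace M]
  (ℬ : OC M → Prop) (π : M → X), (Sing X 2).Finite → Res (IsChart (n := 2)) (Sing X 2) ℬ π →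
  Cb (Cmp ℬ) π

/-- the two descriptions of the Levi form agree -/
def Brg : Prop := ∀ (u u' : E2 → ℝ) (x : E2), ContDiffAt ℝ 2 u x →
  ((∀ v, v ≠ 0 → 0 < lv (D2 u x) v) → S.PD (S.lev u x)) ∧
  ∀ (T : E2 → E2), AnalyticAt ℂ T x → ContDiffAt ℝ 2 u' (T x) →
    (∀ v, lv (D2 u x) v = lv (D2 (u' ∘ T) x) v) → S.lev u x = S.pull (S.jac T x) (S.lev u' (T x))

/-- a fine Kaehler atlas -/
def KamR : Prop := ∀ (M : Type) [TopologicalSpace M] [T2Space M] [CompactSpace M]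
  (ℬ : OC M → Prop) (E : Set M), Sp ℬ ∅ → IsClosed E →
  (∀ e, ℬ e → ∃ act : Finset (Fin 2), ∀ y ∈ e.source, y ∈ E ↔ ∃ k ∈ act, e y k = 0) →
  Pos ℬ univ → ∀ U : M → Set M, (∀ x, U x ∈ 𝓝 x) →
  ∃ (m : ℕ) (A : KA M (Fin m)), A.E = E ∧ ∀ l, Cmp ℬ (A.e l) ∧
    ∃ x, A.src l ⊆ U x ∧ ((A.act (A.ty l)).Nonempty → x ∈ A.E)

/-- the theorem for surfaces with an abstract Kaehler resolution -/
def FinA : Prop := ∀ (N N'' : ℕ) (I : Finset (MvPolynomial (Fin (N + 1)) ℂ)) (M : Type)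
  [TopologicalSpace M] [T2Space M] [CompactSpace M] (ℬ : OC M → Prop) (π : M → Var I),
  (Sing (Var I) 2).Finite → Res (IsChart (n := 2)) (Sing (Var I) 2) ℬ π → Pos ℬ univ →
  ∀ (X : Set (PN N'')) (ν : Var I → X), (∀ x, HolMap ν x) →
  (∀ y, (ν ⁻¹' {y}).Finite) → ∀ (Y G : Type) [TopologicalSpace Y] [Group G] [MulAction G Y]
  (p : Y → X), IsQuotientCoveringMap p G →
  (∀ y, ∀ᶠ y' in 𝓝 y, y' ≠ y → ∃ f, Hol p f ∧ f y ≠ f y') → Concl (Var I) (Sing (Var I) 2) 0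

end Pool.Agent.Lib.MP_356dfe_ag.R
end
end

-- part Pool.Agent.Lib.MP_356dfe_ag.R.Bas
section

/-! Basic lemmas on local biholomorphisms, thin sets and filters. -/

set_option autoImplicit false

open Set Filter Topology Metric
open scoped ContDiff

noncomputable section

namespace Pool.Agent.Lib.MP_356dfe_ag.R

open S (E2)

namespace LB

variable {f g : E2 → E2} {u : E2}

theorem comp (hg : LB g (f u)) (hf : LB f u) : LB (g ∘ f) u := by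
  refine ⟨hg.1.comp hf.1, ?_⟩
  rw [fderiv_comp u hg.1.differentiableAt hf.1.differentiableAt]
  exact hg.2.comp hf.2

theorem congr (hf : LB f u) (h : f =ᶠ[𝓝 u] g) : LB g u :=
  ⟨hf.1.congr h, h.fderiv_eq (𝕜 := ℂ) ▸ hf.2⟩

theorem id' (h : f =ᶠ[𝓝 u] id) : LB f u :=
  LB.congr ⟨analyticAt_id, by rw [fderiv_id]; exact Function.injective_id⟩ h.symm

/-- a map with an analytic left inverse -/
theorem of_left (hf : AnalyticAt ℂ f u) (hg : AnalyticAt ℂ g (f u)) (h : ∀ᶠ v in 𝓝 u, g (f v) = v) :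
    LB f u := by
  refine ⟨hf, ?_⟩
  have := (id' (f := g ∘ f) h).2
  rw [fderiv_comp u hg.differentiableAt hf.differentiableAt] at this
  exact Function.Injective.of_comp this

/-- the inverse function theorem -/
theorem loc (hf : LB f u) : ∃ e : OpenPartialHomeomorph E2 E2, u ∈ e.source ∧ ⇑e = f ∧
    LB e.symm (f u) := by
  let L : E2 ≃L[ℂ] E2 := (LinearEquiv.ofInjectiveEndo (fderiv ℂ f u).toLinearMap
    hf.2).toContinuousLinearEquiv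
  have h1 : HasStrictFDerivAt f (L : E2 →L[ℂ] E2) u := hf.1.hasStrictFDerivAt
  let e := h1.toOpenPartialHomeomorph f
  have h2 : u ∈ e.source := h1.mem_toOpenPartialHomeomorph_source
  have h3 : AnalyticAt ℂ e.symm (e u) := e.analyticAt_symm' h2 hf.1 (i := L) rfl
  refine ⟨e, h2, rfl, of_left (g := f) h3 ?_ (e.eventually_right_inverse (e.map_source h2))⟩
  have : e.symm (f u) = u := e.left_inv h2
  rw [this]
  exact hf.1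

theorem map_nhds (hf : LB f u) : map f (𝓝 u) = 𝓝 (f u) := by
  obtain ⟨e, h, rfl, -⟩ := hf.loc
  exact e.map_nhds_eq h

theorem inv (hf : LB f u) : ∃ g, LB g (f u) ∧ (∀ᶠ v in 𝓝 u, g (f v) = v) ∧
    ∀ᶠ w in 𝓝 (f u), f (g w) = w := by
  obtain ⟨e, h, rfl, h'⟩ := hf.loc
  exact ⟨e.symm, h', e.eventually_left_inverse h, e.eventually_right_inverse (e.map_source h)⟩

theorem ev (hf : LB f u) : ∀ᶠ v in 𝓝 u, LB f v := by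
  obtain ⟨g, h1, h2, -⟩ := hf.inv
  filter_upwards [hf.1.eventually_analyticAt, hf.1.continuousAt.eventually
    h1.1.eventually_analyticAt, h2.eventually_nhds] with v a b c
  exact of_left a b c

/-- cancellation -/
theorem of_comp (hg : LB g (f u)) (hf : ContinuousAt f u) (h : LB (g ∘ f) u) : LB f u := by
  obtain ⟨k, h1, h2, -⟩ := hg.inv
  exact (LB.comp (f := g ∘ f) h1 h).congr (hf.eventually h2)

end LB

section Thin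

variable {A B : Set E2} {p : E2}

theorem ev_ne {g : E2 → ℂ} (hg : AnalyticAt ℂ g p) (h : ¬ ∀ᶠ u in 𝓝 p, g u = 0) :
    ∀ᶠ q in 𝓝 p, ¬ ∀ᶠ u in 𝓝 q, g u = 0 := by
  obtain ⟨r, hr, h1⟩ := Metric.eventually_nhds_iff_ball.1 hg.eventually_analyticAt
  filter_upwards [ball_mem_nhds p hr] with q hq h2
  exact h (mem_of_superset (ball_mem_nhds p hr)
    (AnalyticOnNhd.eqOn_zero_of_preconnected_of_eventuallyEq_zero (f := g) h1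
      (convex_ball p r).isPreconnected hq h2))

theorem Thin.ev (h : Thin A p) : ∀ᶠ q in 𝓝 p, Thin A q := by
  obtain ⟨g, h1, h2, h3⟩ := h
  filter_upwards [h1.eventually_analyticAt, ev_ne h1 h2, h3.eventually_nhds] with q a b c
  exact ⟨g, a, b, c⟩

theorem Thin.neBot (h : Thin A p) : (𝓝[Aᶜ] p).NeBot := by
  obtain ⟨g, -, h2, h3⟩ := h
  refine mem_closure_iff_nhdsWithin_neBot.1 (mem_closure_iff_frequently.2 fun h4 => h2 ?_)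
  filter_upwards [h3, h4] with u a b using a (not_not.1 b)

theorem Thin.mono (h : Thin A p) (h' : ∀ᶠ u in 𝓝 p, u ∈ B → u ∈ A) : Thin B p := by
  obtain ⟨g, h1, h2, h3⟩ := h
  exact ⟨g, h1, h2, (h3.and h').mono fun u a b => a.1 (a.2 b)⟩

theorem thin_empty (p : E2) : Thin ∅ p :=
  ⟨fun _ => 1, analyticAt_const, fun h => one_ne_zero h.self_of_nhds, .of_forall fun _ h => h.elim⟩

theorem thin_of_not (h : ∀ᶠ u in 𝓝 p, u ∉ A) : Thin A p :=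
  (thin_empty p).mono (h.mono fun _ a b => a b)

theorem Thin.union (h : Thin A p) (h' : Thin B p) : Thin (A ∪ B) p := by
  obtain ⟨g, h1, h2, h3⟩ := h
  obtain ⟨g', h4, h5, h6⟩ := h'
  refine ⟨g * g', h1.mul h4, fun h7 => ?_, (h3.and h6).mono fun u a b => ?_⟩
  · obtain ⟨q, ⟨a, b⟩, c, d⟩ := ((not_eventually.1 h2).and_eventually
      h1.eventually_analyticAt).and_eventually ((ev_ne h4 h5).and h7.eventually_nhds) |>.exists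
    refine c ?_
    filter_upwards [d, b.continuousAt.eventually_ne a] with u e f
    exact (mul_eq_zero.1 e).resolve_left f
  · exact b.elim (fun c => mul_eq_zero_of_left (a.1 c) _) fun c => mul_eq_zero_of_right _ (a.2 c)

theorem an_co (k : Fin 2) (p : E2) : AnalyticAt ℂ (fun u : E2 => u k) p :=
  analyticAt_pi_iff.1 analyticAt_id k

theorem thin_axis (k : Fin 2) (p : E2) : Thin {u | u k = 0} p := by
  refine ⟨fun u => u k, an_co k p, fun h => ?_, .of_forall fun _ h => h⟩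
  have h1 : fderiv ℂ (fun u : E2 => u k) p = 0 :=
    (EventuallyEq.fderiv_eq (f := fun _ => (0 : ℂ)) h).trans (fderiv_const_apply 0)
  rw [show (fun u : E2 => u k) = ContinuousLinearMap.proj (R := ℂ) (φ := fun _ : Fin 2 => ℂ) k
    from rfl, ContinuousLinearMap.fderiv] at h1
  simpa using congrArg (fun L : E2 →L[ℂ] ℂ => L (Pi.single k 1)) h1

theorem thin_axes (p : E2) : Thin axes p :=
  ((thin_axis 0 p).union (thin_axis 1 p)).mono (.of_forall fun _ h => mul_eq_zero.1 h)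

theorem bad_zero : bad 0 = axes := by
  ext u
  simp [bad, axes]

theorem bad_ne {c : ℂ} (h : c ≠ 0) : bad c = {u | u 0 = 0} := by
  ext u
  simp [bad, h]

theorem thin_bad (c : ℂ) (p : E2) : Thin (bad c) p :=
  (thin_axes p).mono (.of_forall fun _ h => mul_eq_zero.2 (h.imp_right And.right))

theorem an_mon (a : Fin 2 → ℕ) (p : E2) : AnalyticAt ℂ (mon a) p :=
  ((an_co 0 p).pow _).mul ((an_co 1 p).pow _)

end Thin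

theorem EqD.symm {α : Type} {F G : Filter α} (h : EqD F G) : EqD G F :=
  h.imp Eq.symm fun a => a.symm

/-- two such filters with a common refinement are equal -/
theorem EqD.eq {α : Type} {F G U : Filter α} (h : EqD F G) [U.NeBot] (h1 : U ≤ F) (h2 : U ≤ G) :
    F = G :=
  h.resolve_right fun h3 => NeBot.ne ‹_› (le_bot_iff.1 (h3 h1 h2))

theorem nh_disj {a b : Option ℂ} (h : a ≠ b) : Disjoint (nh a) (nh b) := by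
  rcases a with _ | a <;> rcases b with _ | b
  · exact absurd rfl h
  · exact disjoint_cobounded_nhds b
  · exact disjoint_nhds_cobounded a
  · exact disjoint_nhds_nhds.2 fun e => h (congrArg some e)

theorem nh_ult (𝒰 : Ultrafilter ℂ) : ∃ a, ↑𝒰 ≤ nh a := by
  by_cases h : ↑𝒰 ≤ nh none
  · exact ⟨none, h⟩
  · obtain ⟨s, h1, h2⟩ := Filter.not_le.1 h
    have h3 : Bornology.IsBounded sᶜ := Bornology.isBounded_compl_iff.2 h1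
    obtain ⟨c, -, h4⟩ := h3.isCompact_closure.ultrafilter_le_nhds 𝒰 (le_principal_iff.2
      (mem_of_superset (Ultrafilter.compl_mem_iff_notMem.2 h2) subset_closure))
    exact ⟨some c, h4⟩

variable {X : Type} [TopologicalSpace X] {𝒜 : OC X → Prop} {S : Set X}

theorem Sp.cmp (h : Sp 𝒜 S) {e : OC X} (he : 𝒜 e) : Cmp 𝒜 e :=
  fun e' he' z a b => ⟨h.tr e' e he' he z b a, h.tr e e' he he' z a b⟩

theorem Cmp.lb {e e' : OC X} (he : Cmp 𝒜 e) (he' : 𝒜 e') {z : X} (hz : z ∈ e.source)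
    (hz' : z ∈ e'.source) : LB (e ∘ e'.symm) (e' z) ∧ LB (e' ∘ e.symm) (e z) := by
  obtain ⟨a, b⟩ := he e' he' z hz hz'
  refine ⟨.of_left (g := e' ∘ e.symm) a ?_ ?_, .of_left (g := e ∘ e'.symm) b ?_ ?_⟩
  · rwa [Function.comp_apply, e'.left_inv hz']
  · filter_upwards [symm_eventually e' hz' (e.open_source.mem_nhds hz),
      e'.eventually_right_inverse (e'.map_source hz')] with v c d
    simp only [Function.comp_apply, e.left_inv c, d]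
  · rwa [Function.comp_apply, e.left_inv hz]
  · filter_upwards [symm_eventually e hz (e'.open_source.mem_nhds hz'),
      e.eventually_right_inverse (e.map_source hz)] with v c d
    simp only [Function.comp_apply, e'.left_inv c, d]

/-- change of chart -/
theorem chart_ev {β : Type} (f : X → β) {e e' : OC X} {z : X} (hz : z ∈ e.source)
    (hz' : z ∈ e'.source) : (f ∘ e'.symm) ∘ (e' ∘ e.symm) =ᶠ[𝓝 (e z)] f ∘ e.symm :=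
  (symm_eventually e hz (e'.open_source.mem_nhds hz')).mono fun v c => by
    simp only [Function.comp_apply, e'.left_inv c]

section An

variable {F : Type} [NormedAddCommGroup F] [NormedSpace ℂ F] {f g : X → F} {z : X} {e : OC X}

theorem An.of_cmp (he : Cmp 𝒜 e) (hz : z ∈ e.source) (h : AnalyticAt ℂ (f ∘ e.symm) (e z)) :
    An 𝒜 f z := fun e' he' hz' =>
  (h.comp_of_eq (he e' he' z hz hz').1 (by rw [Function.comp_apply, e'.left_inv hz'])).congr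
    (chart_ev f hz' hz)

theorem An.cmp (h : An 𝒜 f z) (h0 : ∃ e₀, 𝒜 e₀ ∧ z ∈ e₀.source) (he : Cmp 𝒜 e)
    (hz : z ∈ e.source) : AnalyticAt ℂ (f ∘ e.symm) (e z) := by
  obtain ⟨e', he', hz'⟩ := h0
  exact ((h e' he' hz').comp_of_eq (he e' he' z hz hz').2
    (by rw [Function.comp_apply, e.left_inv hz])).congr (chart_ev f hz hz')

theorem An.cont (h : An 𝒜 f z) (h0 : ∃ e₀, 𝒜 e₀ ∧ z ∈ e₀.source) : ContinuousAt f z := by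
  obtain ⟨e, he, hz⟩ := h0
  exact ((h e he hz).continuousAt.comp (e.continuousAt hz)).congr
    ((e.eventually_left_inverse hz).mono fun y a => congrArg f a)

theorem An.congr (h : An 𝒜 f z) (h' : f =ᶠ[𝓝 z] g) : An 𝒜 g z := fun e he hz =>
  (h e he hz).congr (symm_eventually e hz h')

theorem An.ev [CompleteSpace F] (hs : Sp 𝒜 S) (h : An 𝒜 f z) (hz : z ∉ S) : ∀ᶠ y in 𝓝 z, An 𝒜 f y := by
  obtain ⟨e, he, h1⟩ := (hs.ch z).1 hz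
  filter_upwards [e.open_source.mem_nhds h1, (e.continuousAt h1).eventually
    (h e he h1).eventually_analyticAt] with y a b using .of_cmp (hs.cmp he) a b

theorem An.comp {G : Type} [NormedAddCommGroup G] [NormedSpace ℂ G] {φ : F → G}
    (hφ : AnalyticAt ℂ φ (f z)) (h : An 𝒜 f z) : An 𝒜 (φ ∘ f) z := fun e he hz =>
  hφ.comp_of_eq (h e he hz) (congrArg f (e.left_inv hz))

theorem an_pi {ι : Type} [Fintype ι] {f : X → ι → ℂ} :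
    An 𝒜 f z ↔ ∀ i, An 𝒜 (fun y => f y i) z :=
  ⟨fun h i e he hz => analyticAt_pi_iff.1 (h e he hz) i,
    fun h e he hz => analyticAt_pi_iff.2 fun i => h i e he hz⟩

theorem Cmp.an (he : Cmp 𝒜 e) (hz : z ∈ e.source) : An 𝒜 e z :=
  fun e' he' hz' => (he e' he' z hz hz').1

theorem LBI.an {c : E2 → X} {u : E2} (hc : LBI 𝒜 c u) (h : An 𝒜 f (c u)) :
    AnalyticAt ℂ (f ∘ c) u := by
  obtain ⟨h1, e, he, h2, h3⟩ := hc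
  exact (AnalyticAt.comp (f := e ∘ c) (h e he h2) h3.1).congr
    ((h1.eventually (e.eventually_left_inverse h2)).mono fun v a => congrArg f a)

end An

section LBI

variable {c c' : E2 → X} {u : E2} {T : E2 → E2} {pr : X → E2} {y : X}

theorem LBI.any (h : LBI 𝒜 c u) {e : OC X} (he : Cmp 𝒜 e) (hz : c u ∈ e.source) :
    LB (e ∘ c) u := by
  obtain ⟨h1, e', he', h2, h3⟩ := h
  exact (LB.comp (f := e' ∘ c) (he.lb he' hz h2).1 h3).congr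
    ((h1.eventually (e'.eventually_left_inverse h2)).mono fun v a => congrArg e a)

theorem LBI.map_nhds (h : LBI 𝒜 c u) : map c (𝓝 u) = 𝓝 (c u) := by
  obtain ⟨h1, e, -, h2, h3⟩ := h
  have h4 : c =ᶠ[𝓝 u] e.symm ∘ (e ∘ c) :=
    (h1.eventually (e.eventually_left_inverse h2)).mono fun v a => a.symm
  rw [map_congr h4, ← map_map, h3.map_nhds]
  exact e.symm_map_nhds_eq h2

theorem LBI.comp (h : LBI 𝒜 c (T u)) (hT : LB T u) : LBI 𝒜 (c ∘ T) u :=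
  let ⟨h1, e, he, h2, h3⟩ := h
  ⟨h1.comp hT.1.continuousAt, e, he, h2, LB.comp (g := e ∘ c) h3 hT⟩

theorem LBI.congr (h : LBI 𝒜 c u) (h' : c =ᶠ[𝓝 u] c') : LBI 𝒜 c' u :=
  let ⟨h1, e, he, h2, h3⟩ := h
  ⟨h1.congr h', e, he, h'.self_of_nhds ▸ h2, h3.congr (h'.mono fun _ a => congrArg e a)⟩

theorem LBI.inj (h : LBI 𝒜 c u) : ∃ s ∈ 𝓝 u, InjOn c s := by
  obtain ⟨-, e, -, -, h3⟩ := h
  obtain ⟨g, -, h4, -⟩ := h3.inv
  exact ⟨_, h4, fun a ha b hb hab => by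
    rw [← ha, ← hb, Function.comp_apply, Function.comp_apply, hab]⟩

theorem lbi_symm {e : OC X} (he : 𝒜 e) (hu : u ∈ e.target) : LBI 𝒜 e.symm u :=
  ⟨e.continuousAt_symm hu, e, he, e.map_target hu, .id' (e.eventually_right_inverse hu)⟩

theorem LBO.lift (h : LBO 𝒜 pr (c u)) (hc : ContinuousAt c u) (h' : LB (pr ∘ c) u) :
    LBI 𝒜 c u := by
  obtain ⟨e, he, h1, h2⟩ := h
  exact ⟨hc, e, he, h1, LB.of_comp (f := e ∘ c) h2 ((e.continuousAt h1).comp hc) (h'.congr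
    ((hc.eventually (e.eventually_left_inverse h1)).mono fun v a => congrArg pr a.symm))⟩

theorem LBI.tr (hs : Sp 𝒜 S) (h : LBI 𝒜 c u) (h' : LBI 𝒜 c' (T u)) (hT : ContinuousAt T u)
    (he : ∀ᶠ v in 𝓝 u, c' (T v) = c v) : LB T u := by
  obtain ⟨-, e, h1, h2, h3⟩ := h'
  exact h3.of_comp hT ((h.any (hs.cmp h1) (he.self_of_nhds ▸ h2)).congr
    (he.mono fun v a => congrArg e a.symm))

theorem LBO.loc (h : LBO 𝒜 pr y) : ∃ e : OC X, y ∈ e.source ∧ EqOn e pr e.source := by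
  obtain ⟨e, -, h1, h2⟩ := h
  obtain ⟨T, h3, h4, -⟩ := h2.loc
  refine ⟨e.trans T, ⟨h1, h3⟩, fun z hz => ?_⟩
  rw [OpenPartialHomeomorph.trans_apply, h4, Function.comp_apply, e.left_inv hz.1]

end LBI

section Pc

variable {W : Set X} {d : Pc X} {u u' : E2}

theorem Pc.Ok.neBot (h : d.Ok 𝒜 W) (hu : u ∈ d.P) : (d.F u).NeBot :=
  (h.thin u hu).neBot.map _

theorem Pc.Ok.ev (h : d.Ok 𝒜 W) (hu : u ∈ d.P) : ∀ᶠ v in 𝓝[d.Aᶜ] u, v ∈ d.P \ d.A :=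
  inter_mem (mem_nhdsWithin_of_mem_nhds (h.oP.mem_nhds hu)) self_mem_nhdsWithin

theorem Pc.Ok.mem (h : d.Ok 𝒜 W) (hu : u ∈ d.P) : W ∈ d.F u :=
  (h.ev hu).mono fun _ a => h.maps a

theorem Pc.Ok.F_eq (h : d.Ok 𝒜 W) (hu : u ∈ d.P \ d.A) : d.F u = 𝓝 (d.c u) := by
  rw [Pc.F, (nhdsWithin_eq_nhds (s := d.Aᶜ)).2 (mem_of_superset (h.oA.mem_nhds hu) fun _ a => a.2)]
  exact (h.loc u hu).map_nhds

theorem Pc.Ok.disj (h : d.Ok 𝒜 W) (hu : u ∈ d.P) (hu' : u' ∈ d.P) (hne : u ≠ u') :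
    Disjoint (d.F u) (d.F u') := by
  obtain ⟨s, hs, t, ht, hst⟩ := Filter.disjoint_iff.1 (disjoint_nhds_nhds.2 hne)
  refine Filter.disjoint_iff.2 ⟨_, image_mem_map (inter_mem (mem_nhdsWithin_of_mem_nhds hs)
    (h.ev hu)), _, image_mem_map (inter_mem (mem_nhdsWithin_of_mem_nhds ht) (h.ev hu')), ?_⟩
  refine disjoint_left.2 ?_
  rintro _ ⟨a, ⟨a1, a2⟩, rfl⟩ ⟨b, ⟨b1, b2⟩, hb⟩
  exact disjoint_left.1 hst a1 (h.inj b2 a2 hb ▸ b1)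

theorem Pc.Ok.mono {W' : Set X} (h : d.Ok 𝒜 W) (h' : W ⊆ W') : d.Ok 𝒜 W' :=
  ⟨h.oP, h.oA, h.thin, h.maps.mono_right h', h.inj, h.loc⟩

theorem reg_F (e : OC X) (W : Set X) (hu : u ∈ e.target) :
    (Pc.reg e W).F u = 𝓝[W] (e.symm u) := by
  rw [Pc.F, Pc.reg, compl_compl, nhdsWithin, Filter.map_inf_principal_preimage,
    e.symm.map_nhds_eq hu]
  rfl

end Pc

/-- the lemma of Fox -/
theorem Fox.eqd {pr : X → E2} {W : Set X} {G : Filter E2} {F F' : Filter X} (h : Fox pr W G F)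
    (h' : Fox pr W G F') : EqD F F' := by
  have key : ∀ {F F' : Filter X}, Fox pr W G F → Fox pr W G F' → ¬ Disjoint F F' → F ≤ F' := by
    rintro F F' ⟨-, h1, C, h2, h3, -⟩ ⟨-, -, C', -, h4, G₀, h5, h6⟩ hd
    have a1 : F ≤ comap pr G := h3 ▸ inf_le_left
    have a2 : W ∈ F := mem_of_superset (le_principal_iff.1 (h3 ▸ inf_le_right)) h2
    obtain ⟨t, t1, t2, t3⟩ := h1 _ (inter_mem a2 (a1 (preimage_mem_comap h5)))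
    rw [h4]
    refine le_inf a1 (le_principal_iff.2 (mem_of_superset t1 (h6 t t3 t2 ?_)))
    exact not_disjoint_iff_nonempty_inter.1 fun h7 => hd (Filter.disjoint_iff.2
      ⟨t, t1, C', le_principal_iff.1 (h4 ▸ inf_le_right), h7⟩)
  exact or_iff_not_imp_right.2 fun hd => le_antisymm (key h h' hd) (key h' h fun a => hd a.symm)

end Pool.Agent.Lib.MP_356dfe_ag.R
end
end

-- part Pool.Agent.Lib.MP_356dfe_ag.R.PFinA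
section

/-! Part FinA of the resolution of surface singularities. -/

set_option autoImplicit false

open Set Filter Topology Metric Pool.Agent.Shared.SingHom
open scoped ContDiff Pointwise

noncomputable section

namespace Pool.Agent.Lib.MP_356dfe_ag.R

open S S.PFinal in
theorem finA (hr : S.RugS) (hc : CbR) (hk : KamR) (ht : S.Ret) (ho : S.Top) (hp : S.PrimS)
    (h1 : S.Cone) (h2 : S.UC) (h3 : S.USC) (h4 : S.ULift) (hl : S.Lift) (hu : S.UP)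
    (hg : ∀ (M : Type) [TopologicalSpace M] [T2Space M] [CompactSpace M]
      (m : ℕ) (A : S.KA M (Fin m)), A.Bas ∧ A.Bump ∧ A.GoodE) : FinA := by
  intro N N'' I M _ _ _ ℬ π hS hπ kae X ν hν hfin Y H _ _ _ p hq hY
  classical
  have := pn_t2 (N := N)
  have := pn_t2 (N := N'')
  have := var_compact (I := I)
  have cb := hc N _ M ℬ π hS hπ
  have cν : Continuous ν := continuous_iff_continuousAt.2 fun x => PCb.map_cont (hν x)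
  obtain ⟨r, r1, r2, ε, R₀⟩ := hr N I hS
  obtain ⟨δ, R, -, -, hZ⟩ := R₀.cones ctx_triv.cov
  clear R₀
  have sm : ∀ z (e : OpenPartialHomeomorph M E2), Cmp ℬ e → z ∈ e.source →
    ContDiffAt ℝ ∞ (((fun y : Var I => r y.1.rep) ∘ π) ∘ e.symm) (e z) := cb.sm r r1 r2
  obtain ⟨ρ, hρ⟩ : ∃ ρ : Var I → ℝ, (fun y : Var I => r y.1.rep) = ρ := ⟨_, rfl⟩
  replace hZ : ∀ m, Z {x | ρ x < δ} (m + 2) ≤ B {x | ρ x < δ} (m + 2) := hρ ▸ hZ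
  rw [hρ] at R sm
  have cρ : Continuous (ρ ∘ π) := R.cont.comp hπ.cont
  have fd : ∀ z (e : OpenPartialHomeomorph M E2), Cmp ℬ e → z ∈ e.source → 0 < ρ (π z) →
      ρ (π z) < δ → fderiv ℝ ((ρ ∘ π) ∘ e.symm) (e z) ≠ 0 := fun z e he hz a1 a2 =>
    cb.reg ρ δ R z e he hz a1 a2 ((sm z e he hz).differentiableAt (by simp))
  have rg : ∀ z, 0 < (ρ ∘ π) z → (ρ ∘ π) z < δ → Reg (ρ ∘ π) z := fun z a1 a2 => by
    obtain ⟨e, he, hz⟩ : ∃ e : OpenPartialHomeomorph M E2, Cmp ℬ e ∧ z ∈ e.source :=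
      ((hπ.sp.ch z).1 (notMem_empty z)).imp fun e he => ⟨hπ.sp.cmp he.1, he.2⟩
    exact ⟨_, _, _, inferInstance, e, hz, (sm z e he hz).of_le (by simp), fd z e he hz a1 a2⟩
  have sec : ∀ T : Set (Var I), T.Finite → ∃ O, IsOpen O ∧ T ⊆ O ∧ ∃ σ : M → Y,
      ContinuousOn σ (π ⁻¹' O) ∧ ∀ z ∈ π ⁻¹' O, p (σ z) = ν (π z) := fun T hT => by
    rcases isEmpty_or_nonempty (Var I) with h | ⟨⟨x⟩⟩
    · exact ⟨univ, isOpen_univ, subset_univ _, fun z => h.elim (π z), fun z => h.elim (π z),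
        fun z => h.elim (π z)⟩
    obtain ⟨O, a1, a2, σ, a3, a4⟩ := sec_fin hq.isCoveringMap.isLocalHomeomorph hq.surjective
      (hT.image ν) (hq.surjective (ν x)).choose
    exact ⟨ν ⁻¹' O, a1.preimage cν, image_subset_iff.1 a2, σ ∘ ν ∘ π,
      a3.comp (cν.comp hπ.cont).continuousOn fun _ h => h, fun z hz => a4 _ hz⟩
  obtain ⟨O₁, o1, o2, ℓ, hℓ⟩ := cb.ell
  obtain ⟨O₂, o3, o4, σ₀, o5, o6⟩ := sec _ hS
  obtain ⟨c, c0, c1⟩ := (o1.inter o3).isClosed_compl.isCompact.exists_forall_le' R.cont.continuousOn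
    fun x hx => R.lt fun h => hx ⟨o2 h, o4 h⟩
  obtain ⟨b, b0, b1⟩ := exists_between (lt_min c0 R.pos)
  obtain ⟨a, a0, ab⟩ := exists_between b0
  have bδ : b < δ := b1.trans_le (min_le_right _ _)
  have bO : ∀ x, ρ x < b → x ∈ O₁ ∩ O₂ := fun x hx => by_contra fun h =>
    (c1 x h).not_gt (hx.trans (b1.trans_le (min_le_left _ _)))
  have oB : IsOpen {z | (ρ ∘ π) z < b} := isOpen_lt cρ continuous_const
  have data : ∀ U : M → Set M, (∀ x, U x ∈ 𝓝 x) → ∃ (m : ℕ) (A : KA M (Fin m))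
      (n : ℕ) (V : Fin n → Set M), A.E = π ⁻¹' Sing (Var I) 2 ∧
      (∀ l, Cmp ℬ (A.e l) ∧ ∃ x, A.src l ⊆ U x) ∧ Nbh A (ρ ∘ π) a b {z | (ρ ∘ π) z < b} ∧
      Down A (ρ ∘ π) a b V ∧ ∀ i, ∃ x, V i ⊆ U x := fun U hU => by
    obtain ⟨m, A, e1, e2⟩ := hk M ℬ (π ⁻¹' Sing (Var I) 2) hπ.sp (hS.isClosed.preimage hπ.cont)
      hπ.nc kae
      (fun x => U x ∩ {z | π x ∈ Sing (Var I) 2 → ρ (π z) < a}) fun x => inter_mem (hU x) (by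
        by_cases hx : π x ∈ Sing (Var I) 2
        · exact mem_of_superset ((isOpen_lt cρ continuous_const).mem_nhds
            (((R.zero _).2 hx).trans_lt a0)) fun z hz _ => hz
        · exact univ_mem' fun z h => absurd h hx)
    have sA : A.SM (ρ ∘ π) := fun z l hz => sm z _ (e2 l).1 hz
    have rl : ∀ t, 0 < t → t < δ → A.RegL (ρ ∘ π) t := fun t t0 t1 z hz =>
      ⟨_, A.mem_i z, fd z _ (e2 _).1 (A.mem_i z) (t0.trans_eq hz.symm) (hz.trans_lt t1)⟩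
    obtain ⟨n, V, e3, e4⟩ := (hg _ m A).2.2 (ρ ∘ π) a b U sA (rl a a0 (ab.trans bδ)) (rl b b0 bδ) hU
    refine ⟨m, A, n, V, e1, fun l => ⟨(e2 l).1, (e2 l).2.imp fun x hx =>
      hx.1.trans inter_subset_left⟩, ⟨sA, fun z => R.nonneg _, fun z => e1 ▸ R.zero _, a0, ab, oB,
      fun z hz => hz, fun t ht => ?_, fun l hl z hz => ?_, fun a₁ a₂ t1 t2 t3 => ?_,
      ℓ, fun z hz => ?_⟩, e3, e4⟩
    · exact (isClosed_le cρ continuous_const).isCompact.of_isClosed_subset (by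
        rw [inter_eq_right.2 (show {z | (ρ ∘ π) z ≤ t} ⊆ {z | (ρ ∘ π) z < b} from
          fun z hz => lt_of_le_of_lt hz ht)]
        exact isClosed_le cρ continuous_const) inter_subset_right
    · obtain ⟨x, t1, t2⟩ := (e2 l).2
      exact (t1 hz).2 (e1 ▸ t2 hl : x ∈ π ⁻¹' Sing (Var I) 2)
    · obtain ⟨s, s1, s2, s3⟩ := ht.ret _ (ρ ∘ π) b cρ (fun z u1 u2 => rg z u1 (u2.trans bδ)) a₁ a₂
        (a0.trans_le t1) t2 t3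
      have hz : ∀ z ∈ {z | (ρ ∘ π) z < b} \ A.E, 0 < (ρ ∘ π) z := fun z hz =>
        R.lt fun h => hz.2 (e1 ▸ h : z ∈ A.E)
      refine ⟨s, s1.mono hz, fun z h => ⟨?_, s2 z (hz z h)⟩, fun z _ => s3 z⟩
      rcases lt_or_ge ((ρ ∘ π) z) a₂ with u | u
      · exact ((s2 z (hz z h)).2 u).trans t3
      · rw [s3 z u]; exact h.1
    · obtain ⟨u1, u2, u3⟩ := hℓ z (bO _ hz).1
      exact ⟨fun l hl => (u1 _ (e2 l).1 hl).differentiableAt, fun h => u2 (e1 ▸ h :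
        z ∈ π ⁻¹' Sing (Var I) 2), u3⟩
  have off : ∀ {m n : ℕ} {A : KA M (Fin m)} {V : Fin n → Set M},
      Down A (ρ ∘ π) a b V → ∀ i, V i ⊆ (π ⁻¹' Sing (Var I) 2)ᶜ := fun hD i z hz h =>
    (a0.trans (show a < ρ (π z) from (hD.cov ▸ mem_iUnion_of_mem i hz :
      z ∈ {z | a < (ρ ∘ π) z}))).ne' ((R.zero _).2 h)
  choose O₃ o7 o8 σ o9 using fun x : M => sec {π x} (finite_singleton _)
  obtain ⟨m₁, A₁, n₁, V₁, -, -, -, D₁, s₁⟩ := data (fun x => π ⁻¹' O₃ x) fun x =>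
    ((o7 x).preimage hπ.cont).mem_nhds (o8 x rfl)
  obtain ⟨G, Z, _, _, _, _, q, s, uc⟩ := h2 (Option (Fin n₁)) M
    (fun i => i.elim {z | (ρ ∘ π) z < b} V₁) (by rintro (_ | i); exacts [oB, D₁.op i]) fun x => by
      rcases lt_or_ge ((ρ ∘ π) x) b with h | h
      · exact ⟨none, h⟩
      · obtain ⟨i, hi⟩ := mem_iUnion.1 (D₁.cov ▸ ab.trans_le h : x ∈ ⋃ i, V₁ i)
        exact ⟨some i, hi⟩
  have pc : ∀ i j : Option (Fin n₁), i ≠ j → IsPreconnected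
      (i.elim {z | (ρ ∘ π) z < b} V₁ ∩ j.elim {z | (ρ ∘ π) z < b} V₁) := by
    have e : ∀ i, IsPreconnected (V₁ i ∩ {z | (ρ ∘ π) z < b}) := fun i => by
      simpa [VV] using PLift.good_conn (D₁.goodB {i} (Finset.singleton_nonempty i))
    rintro (_ | i) (_ | j) h
    · exact absurd rfl h
    · exact inter_comm _ _ ▸ e j
    · exact e i
    · simpa [VV] using PLift.good_conn (D₁.good {i, j} (Finset.insert_nonempty _ _))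
  have sc := h3 G _ _ Z _ q s (π ⁻¹' Sing (Var I) 2) uc pc (by
    rintro (_ | i)
    · rw [show π ⁻¹' Sing (Var I) 2 = {z | (ρ ∘ π) z = 0} from Set.ext fun z => (R.zero _).symm]
      exact h1 _ (ρ ∘ π) δ b cρ (fun z => R.nonneg _) rg b0 bδ
    · exact good_prim (A := A₁) hp (by simpa [VV] using D₁.good {i} (Finset.singleton_nonempty i))
        (disjoint_left.2 (off D₁ i)))
  obtain ⟨F, cF, pF⟩ := h4 G _ _ Z _ q s uc pc H X Y p (ν ∘ π) hq (by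
    rintro (_ | i)
    · exact ⟨σ₀, o5.mono fun z hz => (bO _ hz).2, fun z hz => o6 z (bO _ hz).2⟩
    · obtain ⟨x, hx⟩ := s₁ i
      exact ⟨σ x, (o9 x).1.mono hx, fun z hz => (o9 x).2 z (hx hz)⟩)
  choose U u1 u2 using small_nhds uc.cov
  obtain ⟨m, A, n, V, e1, e2, hN, hD, e3⟩ := data U u1
  have cq := uc.cov.continuous
  obtain ⟨Γ, hΓ⟩ := hl G Z _ q uc.cov m n A (ρ ∘ π) a b V hN hD
    (fun l => let ⟨x, hx⟩ := (e2 l).2; u2 x _ hx (A.e l).open_source)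
    (fun i => let ⟨x, hx⟩ := e3 i; u2 x _ hx (hD.op i)) (uc.small none) (fun z hz => by
      rw [e1] at hz
      obtain ⟨W, w1, w2⟩ := isLocallyInjective_iff_nhds.1
        uc.cov.isCoveringMap.isLocalHomeomorph.isLocallyInjective z
      filter_upwards [w1, (hπ.cont.comp cq).continuousAt.eventually
        (((hfin (ν (π (q z)))).sdiff (t := {π (q z)})).isClosed.isOpen_compl.mem_nhds
          fun h => h.2 rfl),
        (hπ.cont.comp cq).continuousAt.eventually (hS.isClosed.isOpen_compl.mem_nhds hz),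
        cF.continuousAt.eventually (hY (F z))] with z' t1 t2 t3 t4 ne
      obtain ⟨f, f1, f2⟩ := t4 fun e => ne (w2 t1 (mem_of_mem_nhds w1)
        (congrArg Subtype.val (@hπ.emb.injective ⟨q z', t3⟩ ⟨q z, hz⟩ (by_contra fun e' =>
          t2 ⟨(pF z').symm.trans (e.symm ▸ pF z), e'⟩))))
      refine ⟨f ∘ F, fun w => ?_, f2⟩
      obtain ⟨φ, g1, g2⟩ := f1 (F w)
      rw [pF w] at g1
      refine ⟨(φ ∘ ν) ∘ π, fun l hl => (cb.an _ _ _ (PCb.hol_comp g1 (hν _)) (e2 l).1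
        hl).differentiableAt, (cF.continuousAt.eventually g2).mono fun v hv => ?_⟩
      rw [Function.comp_apply, hv, pF v]
      rfl) (e1 ▸ sc)
  have := t2_of_cover uc.cov.isCoveringMap
  have pos := hu G Z m n Γ _ _ hΓ
  obtain ⟨p1, p2⟩ := push hπ.emb (off hD) ⟨hD.op, fun s hs h => good_acyc (hD.good s hs h)⟩
  obtain ⟨p3, p4⟩ := push hπ.emb (W := fun i => V i ∩ {z | (ρ ∘ π) z < b})
    (fun i => inter_subset_left.trans (off hD i)) ⟨fun i => (hD.op i).inter oB, fun s hs h => by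
      rw [VV_inter V _ hs] at h ⊢
      exact good_acyc (hD.goodB s hs h)⟩
  have e4 : (fun i => π '' (V i ∩ {z | (ρ ∘ π) z < b})) = fun i => π '' V i ∩ {x | ρ x < b} :=
    funext fun i => image_inter_preimage π (V i) {x | ρ x < b}
  rw [e4] at p3 p4
  have eS : (Sing (Var I) 2)ᶜ = {x | 0 < ρ x} :=
    Set.ext fun x => ⟨R.lt, fun h h' => (ne_of_gt h) ((R.zero x).2 h')⟩
  obtain ⟨ac1, ac2⟩ := ht.ac _ ρ δ R.cont (fun x t1 t2 => R.rg (eS ▸ t1 : x ∈ (Sing (Var I) 2)ᶜ) t2)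
    a b a0 ab bδ
  obtain ⟨c2, c3, c4⟩ := ho (Var I) (Sing (Var I) 2) {x | ρ x < δ} {x | a < ρ x}
    {x | a < ρ x ∧ ρ x < b} n (fun i => π '' V i) {x | ρ x < b} hS.isClosed
    (isOpen_lt R.cont continuous_const) (fun x hx => ((R.zero x).2 hx).trans_lt R.pos) hZ p1 p3
    (by rw [← image_iUnion, hD.cov]; exact image_preimage_eq_of_subset fun x hx => hπ.surj x
          (show x ∈ (Sing (Var I) 2)ᶜ from eS ▸ a0.trans hx)) rfl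
    (eS ▸ fun x hx => a0.trans hx) (eS ▸ fun x hx => ⟨hx.2.trans bδ, a0.trans hx.1⟩) (eS ▸ ac1)
    (by rw [eS, inter_comm]; exact ac2)
  exact ⟨c2, c3, pos.trans (p2 ▸ p4 ▸ c4)⟩

end Pool.Agent.Lib.MP_356dfe_ag.R
end
end

-- part Pool.Agent.Lib.MP_356dfe_ag.R.PRk
section

/-! Part Rk of the resolution of surface singularities. -/

set_option autoImplicit false

open Set Filter Topology Metric
open scoped ContDiff

noncomputable section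

namespace Pool.Agent.Lib.MP_356dfe_ag.R

open S (E2)

theorem rk : Rk := by
  intro h p ha O hO
  have rv : ∀ k : Fin 2, k.rev ≠ k := by decide
  have inf : ∀ (q : E2) (k : Fin 2) (s : Set E2), s ∈ 𝓝 q →
      {u ∈ s | u k.rev = q k.rev}.Infinite := fun q k s hs => by
    have a : Continuous fun t : ℂ => Function.update q k t := continuous_const.update k continuous_id
    have b : (fun t : ℂ => Function.update q k t) ⁻¹' s ∈ 𝓝 (q k) :=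
      a.continuousAt.preimage_mem_nhds (by rwa [Function.update_eq_self])
    refine ((infinite_of_mem_nhds _ b).image (Function.update_injective q k).injOn).mono ?_
    rintro _ ⟨t, c, rfl⟩
    exact ⟨c, Function.update_of_ne (rv k) _ _⟩
  by_cases a : ∀ᶠ q in 𝓝 p, fderiv ℂ h q = 0
  · obtain ⟨r, hr, b⟩ := Metric.eventually_nhds_iff_ball.1 ((a.and ha.eventually_analyticAt).and hO)
    refine ⟨h p, (inf p 0 _ (ball_mem_nhds p hr)).mono fun u c => ⟨(b u c.1).2, ?_⟩⟩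
    exact isOpen_ball.is_const_of_fderiv_eq_zero (𝕜 := ℂ) (convex_ball p r).isPreconnected
      (fun v d => (b v d).1.2.differentiableAt.differentiableWithinAt) (fun v d => (b v d).1.1)
      c.1 (mem_ball_self hr)
  obtain ⟨q, b, c, d⟩ := ((not_eventually.1 a).and_eventually (ha.eventually_analyticAt.and
    (eventually_mem_nhds_iff.2 hO))).exists
  obtain ⟨k, e⟩ : ∃ k, fderiv ℂ h q (Pi.single k 1) ≠ 0 := by_contra fun e => b (by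
    push Not at e
    ext v
    rw [show v = v 0 • (Pi.single 0 1 : E2) + v 1 • (Pi.single 1 1 : E2) from by
      ext j
      fin_cases j <;> simp]
    simp [e])
  let G : E2 → E2 := fun u => Function.update u k (h u)
  have f : HasFDerivAt G (ContinuousLinearMap.pi (Function.update
      (fun j => ContinuousLinearMap.proj j) k (fderiv ℂ h q))) q := hasFDerivAt_pi.2 fun j => by
    by_cases i : j = k
    · subst i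
      simpa [G] using c.differentiableAt.hasFDerivAt
    · simpa [G, i] using hasFDerivAt_apply (𝕜 := ℂ) j q
  have g : LB G q := ⟨AnalyticAt.pi fun j => by
      by_cases i : j = k
      · subst i
        simpa [G] using c
      · simpa [G, i] using an_co j q, by
    rw [f.fderiv]
    refine (injective_iff_map_eq_zero _).2 fun v i => ?_
    have l : v k.rev = 0 := by simpa [Function.update_of_ne (rv k)] using congrFun i k.rev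
    have o : v = v k • Pi.single k 1 := by
      ext j
      fin_cases k <;> fin_cases j <;> simp_all
    have m : fderiv ℂ h q v = 0 := by simpa using congrFun i k
    rw [o, map_smul, smul_eq_zero, or_iff_left e] at m
    rw [o, m, zero_smul]⟩
  refine ⟨h q, Infinite.of_image G ((inf (G q) k.rev _ (g.map_nhds ▸ image_mem_map d)).mono ?_)⟩
  rintro _ ⟨⟨u, i, rfl⟩, l⟩
  exact ⟨u, ⟨i, by simpa [G] using l⟩, rfl⟩

end Pool.Agent.Lib.MP_356dfe_ag.R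
end
end
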