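import Pool.Agent.Lib.MP_356dfe_ag.S.PAlg
import Pool.Agent.Lib.MP_356dfe_ag.S.PSard
import Pool.Agent.Lib.MP_356dfe_ag.S.PE3
import Pool.Agent.Lib.MP_356dfe_ag.S.PDegF
import Pool.Agent.Lib.MP_356dfe_ag.S.PLA0
import Pool.Agent.Lib.MP_356dfe_ag.S.PFpl
import Pool.Agent.Lib.MP_356dfe_ag.S.PGC
import Pool.Agent.Lib.MP_356dfe_ag.S.PFS
import Pool.Agent.Lib.MP_356dfe_ag.S.PRank
import Pool.Agent.Lib.MP_356dfe_ag.S.PEul
import Pool.Agent.Lib.MP_356dfe_ag.S.PL2E
import Pool.Agent.Lib.MP_356dfe_ag.S.PMeas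
import Pool.Agent.Lib.MP_356dfe_ag.S.PHI
import Pool.Agent.Lib.MP_356dfe_ag.S.PHZ
import Pool.Agent.Lib.MP_356dfe_ag.S.PCl3
import Pool.Agent.Lib.MP_356dfe_ag.S.PRes
import Pool.Agent.Lib.MP_356dfe_ag.S.PInv
import Pool.Agent.Lib.MP_356dfe_ag.S.PBnd
import Pool.Agent.Lib.MP_356dfe_ag.S.PZC
import Pool.Agent.Lib.MP_356dfe_ag.S.PCvx
import Pool.Agent.Lib.MP_356dfe_ag.S.PPreK
import Pool.Agent.Lib.MP_356dfe_ag.S.PTop
import Pool.Agent.Lib.MP_356dfe_ag.S.PLiftK
import Pool.Agent.Lib.MP_356dfe_ag.S.PLiftV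
import Pool.Agent.Lib.MP_356dfe_ag.R.PRk

-- part Pool.Agent.Lib.MP_356dfe_ag.S.Main
section

/-! Assembly of the surface case. -/

set_option autoImplicit false

open Set Filter Topology Metric MeasureTheory

noncomputable section

namespace Pool.Agent.Lib.MP_356dfe_ag.S

theorem bas {Z Λ : Type} [TopologicalSpace Z] [T2Space Z] (A : KA Z Λ) : A.Bas :=
  ⟨bas1 clc A, bas2 alg clc (bas1 clc A)⟩

theorem std {Z Λ : Type} [TopologicalSpace Z] [T2Space Z] [MeasurableSpace Z] [BorelSpace Z]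
    (A : KA Z Λ) : A.Std :=
  ⟨alg, clc, bas A, bump alg clc (bas A), meas (bas A) (bump alg clc (bas A))⟩

theorem up : UP := by
  intro G Z _ _ _ _ m n Γ NA NB hq
  borelize Z
  have s := std Γ.A
  have i := inv s
  have S : Γ.Std := ⟨s, i, invm s i, evl s⟩
  have g1 := gs1 s (st1 clc)
  have w := weyl clc mean
  have l := la s (pe3 alg clc (pe1 alg clc) (pe2 alg clc (st1 clc))) g1
  obtain ⟨c1, c2⟩ := noc s Γ.sep
  have f := fib s sard c1
  have m1 := mv s mean
  have v := van s (v1 s (hri s g1) (sqn s g1 l) (lim s w weak)) (hz s m1 (evv s (shell alg)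
    (rho s dvs) (conc s g1 (hi s g1 (la0 s w weak g1 l c2) m1)) i.ek) f Γ.sc)
  have su := gsum S
  have pr := pair S su (gext S su (loc s (nf primS) Γ.nbh
    (res s (nf primS) dvs (deg s degF) f Γ.nbh))) (bnd S su) v
  have cu := cube S (plz s (cvk s) (fpl clc st4 kos fibi))
  refine l2e (eul rn) G n _ _ NA NB i.cxA i.cxB (fun σ h => ⟨h.1, h.2.mono inter_subset_left⟩) hq
    (h1 S cu (part S) (zc S zz) (gbd S) pr) fun k h4 he => ?_
  rcases h4.eq_or_lt with rfl | h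
  · exact h3 S cu (part S) (zc S zz) (gbd S) pr su zz (gs4 s st4) (cl3 s)
  · exact h5 S cu (part S) (zc S zz) (gbd S) k (by obtain ⟨j, rfl⟩ := he; omega)

theorem main : Final :=
  final rugS cbS (kam clc (fs clc) preK) ret (top nn1 nn2) primS cone uc usc ulift
    (lift liftK liftV) up
    fun _ _ _ _ _ A =>
      let ⟨_, _, _, _, h⟩ := emb (bas A) (bump alg clc (bas A))
      ⟨bas A, bump alg clc (bas A), good (bas A) (cvx (bas A)) gc h⟩

end Pool.Agent.Lib.MP_356dfe_ag.S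
end
end

-- part Pool.Agent.Lib.MP_356dfe_ag.R.PPrj
section

/-! Part Prj of the resolution of surface singularities. -/

set_option autoImplicit false

open Set Filter Topology Metric
open scoped ContDiff

noncomputable section

namespace Pool.Agent.Lib.MP_356dfe_ag.R

open S (E2)

namespace PPrj

open Projectivization

variable {N : ℕ} {X : Set (PN N)} {i : Fin (N + 1)} {y y' : X}

/-- affine coordinates -/
def aff (i : Fin (N + 1)) (y : X) : Fin (N + 1) → ℂ := (y.1.rep i)⁻¹ • y.1.rep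

theorem aff_ne (h : y.1.rep i ≠ 0) : aff i y ≠ 0 := smul_ne_zero (inv_ne_zero h) y.1.rep_nonzero

theorem aff_mk (h : y.1.rep i ≠ 0) : mk ℂ (aff i y) (aff_ne h) = y.1 :=
  ((mk_eq_mk_iff' ℂ _ _ _ y.1.rep_nonzero).2 ⟨_, rfl⟩).trans y.1.mk_rep

theorem aff_one (h : y.1.rep i ≠ 0) : aff i y i = 1 := inv_mul_cancel₀ h

theorem aff_inj (h : y.1.rep i ≠ 0) (h' : y'.1.rep i ≠ 0) (e : aff i y = aff i y') : y = y' := by
  refine Subtype.ext ?_
  rw [← aff_mk h, ← aff_mk h']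
  simp only [e]

theorem aff_inv (a : ℂ) (v : Fin (N + 1) → ℂ) (ha : a ≠ 0) :
    ((a • v) i)⁻¹ • a • v = (v i)⁻¹ • v := by
  rw [Pi.smul_apply, smul_eq_mul, smul_smul, mul_inv, mul_right_comm, inv_mul_cancel₀ ha, one_mul]

theorem aff_hol (h : y.1.rep i ≠ 0) : HolAt (aff i) y := by
  have h1 : AnalyticAt ℂ (fun v : Fin (N + 1) → ℂ => v i) y.1.rep :=
    analyticAt_pi_iff.1 analyticAt_id i
  refine ⟨fun v => (v i)⁻¹ • v, (h1.inv h).smul analyticAt_id, .of_forall fun w hw z hz => ?_⟩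
  rw [aff, ← hz]
  exact rep_mk (f := fun v => (v i)⁻¹ • v) aff_inv w hw

theorem open_U : IsOpen {y : X | y.1.rep i ≠ 0} := by
  refine IsOpen.preimage continuous_subtype_val (t := {y : PN N | y.rep i ≠ 0})
    (isOpen_coinduced.2 ?_)
  rw [show mk' ℂ ⁻¹' {y : PN N | y.rep i ≠ 0} = {v | v.1 i ≠ 0} from Set.ext fun v =>
    iff_of_eq (rep_mk (f := fun w => w i ≠ 0) (fun a w ha => by simp [ha]) v.1 v.2)]
  exact isOpen_ne_fun ((continuous_apply i).comp continuous_subtype_val) continuous_const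

theorem cover (x : X) (i : Fin (N + 1)) : ∃ (s : ℕ → E2 → Fin (N + 1) → ℂ) (W : ℕ → Set E2),
    (∀ j, ∀ u ∈ W j, AnalyticAt ℂ (s j) u) ∧ ∀ y : X, y.1.rep i ≠ 0 → y ∉ Sing X 2 →
      aff i y ∈ ⋃ j, s j '' W j := by
  have := S.PCb.pn_sc (N := N)
  have h : ∀ y : X, ∃ (s : E2 → Fin (N + 1) → ℂ) (W : Set E2), (∀ u ∈ W, AnalyticAt ℂ s u) ∧
      (y ∈ {y : X | y.1.rep i ≠ 0 ∧ y ∉ Sing X 2} → {z | aff i z ∈ s '' W} ∈ 𝓝 y) := fun y => by
    by_cases hy : y.1.rep i ≠ 0 ∧ y ∉ Sing X 2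
    · obtain ⟨e, he, h1⟩ := not_not.1 hy.2
      refine ⟨aff i ∘ e.symm, {u | u ∈ e.target ∧ (e.symm u).1.rep i ≠ 0}, fun u hu => ?_,
        fun _ => ?_⟩
      · have := (aff_hol hu.2).an he (e.map_target hu.1)
        rwa [e.right_inv hu.1] at this
      · filter_upwards [e.open_source.mem_nhds h1, open_U.mem_nhds hy.1] with z a b
        exact ⟨e z, ⟨e.map_source a, by rwa [e.left_inv a]⟩, congrArg (aff i) (e.left_inv a)⟩
    · exact ⟨0, ∅, fun _ h => h.elim, fun h => absurd h hy⟩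
  choose s W h1 h2 using h
  obtain ⟨t, -, t1, t2⟩ := TopologicalSpace.countable_cover_nhdsWithin
    fun y hy => mem_nhdsWithin_of_mem_nhds (h2 y hy)
  refine ⟨fun j => s (enumerateCountable t1 x j), fun j => W (enumerateCountable t1 x j),
    fun j => h1 _, fun y a b => ?_⟩
  obtain ⟨z, z1, z2⟩ := mem_iUnion₂.1 (t2 ⟨a, b⟩)
  obtain ⟨j, rfl⟩ := subset_range_enumerate t1 x z1
  exact mem_iUnion.2 ⟨j, z2⟩

theorem an_ev {n : ℕ} (p : MvPolynomial (Fin n) ℂ) (v : Fin n → ℂ) :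
    AnalyticAt ℂ (fun w => MvPolynomial.eval w p) v :=
  AnalyticOnNhd.eval_mvPolynomial p v (mem_univ v)

theorem der {β : ℂ → E2} {z : ℂ → ℂ} {w : ℂ} (hβ : HasDerivAt β 0 0) (hz : HasDerivAt z w 0)
    (Q : Polynomial (MvPolynomial (Fin 2) ℂ)) :
    HasDerivAt (fun t => Q.eval₂ (MvPolynomial.eval (β t)) (z t))
      ((Polynomial.derivative Q).eval₂ (MvPolynomial.eval (β 0)) (z 0) * w) 0 := by
  induction Q using Polynomial.induction_on' with
  | add p q hp hq =>
    simp only [Polynomial.eval₂_add, map_add, add_mul]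
    exact hp.add hq
  | monomial n a =>
    have h1 := (an_ev a (β 0)).differentiableAt.hasFDerivAt.comp_hasDerivAt 0 hβ
    rw [map_zero] at h1
    have h2 := h1.mul (hz.pow n)
    simp only [Polynomial.eval₂_monomial, Polynomial.derivative_monomial, map_mul, map_natCast]
    refine HasDerivAt.congr_deriv h2 ?_
    simp only [Function.comp_apply]
    ring

theorem alg (hs : Sep) (hn : Noeth) {I : Finset (MvPolynomial (Fin (N + 1)) ℂ)}
    (hS : (Sing (Var I) 2).Finite) (x : Var I) (i : Fin (N + 1)) :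
    ∃ (p : Fin 2 → MvPolynomial (Fin (N + 1)) ℂ) (D : MvPolynomial (Fin 2) ℂ), D ≠ 0 ∧
      ∀ k, ∃ Q : Polynomial (MvPolynomial (Fin 2) ℂ), Q.Monic ∧
        (∀ y : Var I, y.1.rep i ≠ 0 → Q.eval₂ (MvPolynomial.eval fun l =>
          MvPolynomial.eval (aff i y) (p l)) (aff i y k) = 0) ∧
        ∀ (b : E2) (z : ℂ), Q.eval₂ (MvPolynomial.eval b) z = 0 →
          (Polynomial.derivative Q).eval₂ (MvPolynomial.eval b) z = 0 →
            MvPolynomial.eval b D = 0 := by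
  obtain ⟨s, W, h1, h2⟩ := cover x i
  let sc : ℂ → MvPolynomial (Fin (N + 1)) ℂ → MvPolynomial (Fin (N + 1)) ℂ := fun a P =>
    MvPolynomial.aeval (fun j => MvPolynomial.C a * MvPolynomial.X j) P
  have hsc : ∀ a P v, MvPolynomial.eval v (sc a P) = MvPolynomial.eval (a • v) P := fun a P v => by
    induction P using MvPolynomial.induction_on with
    | C c => simp [sc]
    | add p q hp hq => simp only [sc, map_add] at hp hq ⊢; rw [hp, hq]
    | mul_X p j hp => simp only [sc, map_mul] at hp ⊢; rw [hp]; simp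
  let T : Set (MvPolynomial (Fin (N + 1)) ℂ) :=
    {P | P = MvPolynomial.X i - 1 ∨ ∃ a, a ≠ 0 ∧ ∃ P' ∈ I, P = sc a P'}
  obtain ⟨p, hp⟩ := hn (N + 1) T (aff i '' Sing (Var I) 2) s W (hS.image _) h1 fun v hv => by
    have a1 : v i = 1 := by simpa [sub_eq_zero] using hv _ (.inl rfl)
    have a2 : v ≠ 0 := fun e => by simp [e] at a1
    let y : Var I := ⟨mk ℂ v a2, (mem_var a2).2 fun a P hP ha =>
      (hsc a P v).symm.trans (hv _ (.inr ⟨a, ha, P, hP, rfl⟩))⟩
    have a3 : aff i y = v := (rep_mk (f := fun v => (v i)⁻¹ • v) aff_inv v a2).trans (by simp [a1])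
    have a4 : y.1.rep i ≠ 0 := fun e => a2 (by rw [← a3, aff, e, inv_zero, zero_smul])
    by_cases a5 : y ∈ Sing (Var I) 2
    · exact .inl ⟨y, a5, a3⟩
    · exact .inr (a3 ▸ h2 y a4 a5)
  choose Q q1 q2 using hp
  choose Q' a b D d1 d2 d3 m d4 d5 using fun k => hs (Fin 2) (Q k) (q1 k)
  refine ⟨p, ∏ k, D k, Finset.prod_ne_zero_iff.2 fun k _ => d2 k, fun k => ⟨Q' k, d1 k,
    fun y hy => ?_, fun c z e1 e2 => ?_⟩⟩
  · have a1 := q2 k (aff i y) fun P hP => by
      rcases hP with rfl | ⟨a, ha, P, hP, rfl⟩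
      · simp [aff_one hy]
      · rw [hsc]
        exact (mem_var (aff_ne hy)).1 ((aff_mk hy).symm ▸ y.2) a P hP ha
    obtain ⟨R, hR⟩ := d5 k
    have a2 := congrArg (Polynomial.eval₂ (MvPolynomial.eval fun l =>
      MvPolynomial.eval (aff i y) (p l)) (aff i y k)) hR
    rw [Polynomial.eval₂_mul, a1, zero_mul, Polynomial.eval₂_pow] at a2
    exact eq_zero_of_pow_eq_zero a2
  · have a2 := congrArg (Polynomial.eval₂ (MvPolynomial.eval c) z) (d3 k)
    rw [Polynomial.eval₂_add, Polynomial.eval₂_mul, Polynomial.eval₂_mul, e1, e2, mul_zero,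
      mul_zero, add_zero, Polynomial.eval₂_C] at a2
    rw [map_prod]
    exact Finset.prod_eq_zero (Finset.mem_univ k) a2.symm

theorem shift (D : MvPolynomial (Fin 2) ℂ) (hD : D ≠ 0) (c : E2) :
    ∃ δ : MvPolynomial (Fin 2) ℂ, δ ≠ 0 ∧
      ∀ b, MvPolynomial.eval b δ = MvPolynomial.eval (b + c) D := by
  have h : ∀ (P : MvPolynomial (Fin 2) ℂ) b, MvPolynomial.eval b (MvPolynomial.aeval
      (fun k => MvPolynomial.X k + MvPolynomial.C (c k)) P : MvPolynomial (Fin 2) ℂ) =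
      MvPolynomial.eval (b + c) P := fun P b => by
    induction P using MvPolynomial.induction_on with
    | C c => simp
    | add p q hp hq => simp only [map_add, hp, hq]
    | mul_X p j hp => simp only [map_mul, hp]; simp
  refine ⟨_, fun e => hD (MvPolynomial.funext fun b => ?_), h D⟩
  have := h D (b - c)
  rw [e, sub_add_cancel] at this
  exact this.symm.trans (by simp)

end PPrj

open PPrj in
theorem prjEx (hs : Sep) (hn : Noeth) : PrjEx := by
  intro N I hS x hx O hO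
  have := pn_t2 (N := N)
  have := var_compact (I := I)
  obtain ⟨i, hi⟩ := Function.ne_iff.1 x.1.rep_nonzero
  replace hi : x.1.rep i ≠ 0 := hi
  obtain ⟨p, D, hD, hQ⟩ := alg hs hn hS x i
  choose Q q1 q2 q3 using hQ
  obtain ⟨π, hπ⟩ : ∃ π : (Fin (N + 1) → ℂ) → E2, π = fun v l => MvPolynomial.eval v (p l) :=
    ⟨_, rfl⟩
  have aπ : ∀ v, AnalyticAt ℂ π v := fun v => hπ ▸ analyticAt_pi_iff.2 fun l => an_ev _ _
  replace q2 : ∀ k (y : Var I), y.1.rep i ≠ 0 →
      (Q k).eval₂ (MvPolynomial.eval (π (aff i y))) (aff i y k) = 0 := hπ ▸ q2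
  obtain ⟨δ, d1, d2⟩ := shift D hD (π (aff i x))
  let pr : Var I → E2 := (fun v => π v - π (aff i x)) ∘ aff i
  have fib : ∀ b, {y : Var I | y.1.rep i ≠ 0 ∧ pr y = b}.Finite := fun b => by
    refine Finite.of_finite_image (f := aff i) ((Finite.pi fun k => (((Q k).map (MvPolynomial.eval
      (b + π (aff i x)))).roots.toFinset).finite_toSet).subset ?_)
      fun y h y' h' => aff_inj h.1 h'.1
    rintro _ ⟨y, ⟨h1, rfl⟩, rfl⟩ k -
    rw [Finset.mem_coe, Multiset.mem_toFinset, Polynomial.mem_roots ((q1 k).map _).ne_zero,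
      Polynomial.IsRoot, Polynomial.eval_map]
    simpa only [pr, Function.comp_apply, sub_add_cancel] using q2 k y h1
  obtain ⟨Y, y1, y2, y3⟩ := local_compact_nhds (inter_mem hO (inter_mem (open_U.mem_nhds hi)
    ((((fib 0).union hS).sdiff (t := {x})).isClosed.isOpen_compl.mem_nhds fun h => h.2 rfl)))
  have yU : ∀ y ∈ Y, y.1.rep i ≠ 0 := fun y h => (y2 h).2.1
  have ap : ∀ v, AnalyticAt ℂ (fun v => π v - π (aff i x)) v := fun v =>
    (aπ v).sub analyticAt_const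
  have cp : ∀ y ∈ Y, ContinuousAt pr y := fun y h =>
    (ap _).continuousAt.comp (aff_hol (yU y h)).loc.1
  have an : ∀ y ∈ Y, An (IsChart (n := 2)) pr y := fun y h =>
    An.comp (ap _) fun e he hz => (aff_hol (yU y h)).an he hz
  have z0 : ∀ y ∈ Y, pr y = 0 ↔ y = x := fun y h =>
    ⟨fun e => not_not.1 fun k => (y2 h).2.2 ⟨.inl ⟨yU y h, e⟩, k⟩, fun e => e ▸ sub_self _⟩
  have rg : ∀ y ∈ Y, y ≠ x ↔ ∃ e : OC (Var I), IsChart e ∧ y ∈ e.source := fun y h =>
    ⟨fun k => not_not.1 fun a => (y2 h).2.2 ⟨.inr a, k⟩, fun k a => hx (a ▸ k)⟩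
  obtain ⟨r, r1, r2⟩ := (y3.diff (isOpen_interior (s := Y))).exists_forall_le'
    (f := fun y => ‖pr y‖) (a := 0) (fun y h => (cp y h.1).norm.continuousWithinAt) fun y h =>
      norm_pos_iff.2 fun e => h.2 ((z0 y h.1).1 e ▸ mem_interior_iff_mem_nhds.2 y1)
  refine ⟨Y, pr, r / 2, δ, fun y h => (y2 h).1, d1, y3, mem_of_mem_nhds y1, half_pos r1,
    fun y h => ⟨cp y h, an y h⟩, z0, fun y h k => mem_interior_iff_mem_nhds.1 (not_not.1 fun a => ?_),
    fun b => (fib b).subset fun y h => ⟨yU y h.1, h.2⟩, rg, fun y h k _ hδ => ?_⟩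
  · have := r2 y ⟨h, a⟩
    linarith
  obtain ⟨e, he, hz⟩ := (rg y h).1 k
  have g1 := (aff_hol (yU y h)).an he hz
  have g2 := an y h e he hz
  have g3 := symm_eventually e hz (open_U.mem_nhds (yU y h))
  refine ⟨e, he, hz, g2, (injective_iff_map_eq_zero _).2 fun v hv =>
    S.PKam.imm he hz ⟨g1, g3.mono fun u a => ⟨aff_ne a, aff_mk a⟩⟩ v 0 ?_⟩
  have l1 : HasDerivAt (fun t : ℂ => e y + t • v) v 0 := by
    simpa using ((hasDerivAt_id (0 : ℂ)).smul_const v).const_add (e y)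
  have l2 : e y = e y + (0 : ℂ) • v := by simp
  have l3 := g1.differentiableAt.hasFDerivAt.comp_hasDerivAt_of_eq 0 l1 l2
  have l4 := (g2.differentiableAt.hasFDerivAt.comp_hasDerivAt_of_eq 0 l1 l2).add_const
    (π (aff i x))
  rw [hv] at l4
  rw [zero_smul]
  funext j
  have l5 := der l4 (hasDerivAt_pi.1 l3 j) (Q j)
  have l6 := l5.unique ((hasDerivAt_const (0 : ℂ) (0 : ℂ)).congr_of_eventuallyEq (by
    filter_upwards [l1.continuousAt.eventually (l2 ▸ g3)] with t ht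
    simpa only [pr, Function.comp_apply, sub_add_cancel] using q2 j _ ht))
  simp only [Function.comp_apply, ← l2, e.left_inv hz] at l6
  refine (mul_eq_zero.1 l6).resolve_left fun a => hδ ((d2 _).trans (q3 j _ _ ?_ a))
  simpa only [pr, Function.comp_apply, sub_add_cancel] using q2 j y (yU y h)

end Pool.Agent.Lib.MP_356dfe_ag.R
end
end

-- part Pool.Agent.Lib.MP_356dfe_ag.R.PLev3
section

/-! Part Lev3 of the resolution of surface singularities. -/

set_option autoImplicit false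

open Set Filter Topology Metric
open scoped ContDiff

noncomputable section

namespace Pool.Agent.Lib.MP_356dfe_ag.R

open S (E2)

namespace PLev3

variable {N : ℕ} {X : Set (PN N)}

/-- affine coordinates -/
def aff (i : Fin (N + 1)) (x : X) : Fin (N + 1) → ℂ := fun j => x.1.rep j / x.1.rep i

theorem hol_aff {i : Fin (N + 1)} {x : X} (h : x.1.rep i ≠ 0) : HolAt (aff i) x := by
  refine ⟨fun w j => w j / w i, AnalyticAt.pi fun j => AnalyticAt.div
    (analyticAt_pi_iff.1 analyticAt_id j) (analyticAt_pi_iff.1 analyticAt_id i) h,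
    .of_forall fun w hw y e => ?_⟩
  unfold aff
  rw [← e]
  exact rep_mk (f := fun v j => v j / v i)
    (fun a v ha => funext fun j => mul_div_mul_left _ _ ha) w hw

theorem isOpen_ne (i : Fin (N + 1)) : IsOpen {x : X | x.1.rep i ≠ 0} := by
  have c : Continuous fun y : X => mu0 y.1.rep (i, i) :=
    (continuous_apply (i, i)).comp (cont_mu.comp continuous_subtype_val)
  simpa only [mu0_ne] using isOpen_ne_fun c (continuous_const (y := (0 : ℂ)))

theorem aff_self {i : Fin (N + 1)} {x : X} (h : x.1.rep i ≠ 0) : aff i x i = 1 := div_self h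

theorem aff_ne {i : Fin (N + 1)} {x : X} (h : x.1.rep i ≠ 0) : aff i x ≠ 0 := fun e =>
  one_ne_zero ((aff_self h).symm.trans (congrFun e i))

theorem aff_smul (i : Fin (N + 1)) {i' : Fin (N + 1)} {x : X} (h : x.1.rep i' ≠ 0) :
    ∃ c : ℂ, aff i x = c • aff i' x :=
  ⟨x.1.rep i' / x.1.rep i, funext fun j => by
    simp only [aff, Pi.smul_apply, smul_eq_mul]
    rw [mul_comm, div_mul_div_cancel₀ h]⟩

theorem aff_inj {i : Fin (N + 1)} {x y : X} (hx : x.1.rep i ≠ 0) (hy : y.1.rep i ≠ 0)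
    (h : aff i x = aff i y) : x = y := by
  obtain ⟨_, h1⟩ := mk_div x.1.rep_nonzero hx one_ne_zero
  obtain ⟨_, h2⟩ := mk_div y.1.rep_nonzero hy one_ne_zero
  refine Subtype.ext ?_
  rw [← x.1.mk_rep, ← y.1.mk_rep, ← h1, ← h2]
  congr 1
  funext j
  exact congrArg (1 * ·) (congrFun h j)

variable {M : Type} [TopologicalSpace M] {ℬ : OC M → Prop} {π : M → X}

theorem an_aff (hR : Res (IsChart (n := 2)) (Sing X 2) ℬ π) {i : Fin (N + 1)} {y : M}
    (h : (π y).1.rep i ≠ 0) : An ℬ (fun w => aff i (π w)) y := by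
  refine an_pi.2 fun j => hR.an (fun x => aff i x j) y ?_
  filter_upwards [(isOpen_ne i).mem_nhds h] with x hx
  exact ⟨continuousAt_pi.1 (hol_aff hx).loc.1 j,
    fun e he hz => analyticAt_pi_iff.1 ((hol_aff hx).an he hz) j⟩

theorem ev_rep (hR : Res (IsChart (n := 2)) (Sing X 2) ℬ π) {i : Fin (N + 1)} {y : M}
    (h : (π y).1.rep i ≠ 0) : ∀ᶠ w in 𝓝 y, (π w).1.rep i ≠ 0 :=
  ((isOpen_ne i).preimage hR.cont).mem_nhds h

theorem ne_at {i : Fin (N + 1)} {y : M} (h : (π y).1.rep i ≠ 0) {e : OC M} (hy : y ∈ e.source) :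
    ((fun w => aff i (π w)) ∘ e.symm) (e y) ≠ 0 := by
  rw [Function.comp_apply, e.left_inv hy]
  exact aff_ne h

theorem eql (h2 : FSL) (hR : Res (IsChart (n := 2)) (Sing X 2) ℬ π) {i i' : Fin (N + 1)} {y : M}
    (h : (π y).1.rep i ≠ 0) (h' : (π y).1.rep i' ≠ 0) :
    EqL ℬ (fun w => Real.log (sq (aff i (π w)))) (fun w => Real.log (sq (aff i' (π w)))) y :=
  fun e he hy v => h2.law _ _ _ _ (an_aff hR h e he hy) (ne_at h hy) (an_aff hR h' e he hy)
    (ne_at h' hy) ((symm_eventually e hy (ev_rep hR h')).mono fun _ a => aff_smul i a) v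

end PLev3

open PLev3 in
theorem lev3 (h1 : KL) (h2 : FSL) (h3 : Pos1) : Lev3 := by
  intro N X M _ _ _ ℬ π hR hP
  have := pn_t2 (N := N)
  choose i hi using fun z : M => Function.ne_iff.1 (π z).1.rep_nonzero
  replace hi : ∀ z, (π z).1.rep (i z) ≠ 0 := hi
  refine h1 M ℬ hR.sp univ univ (fun z w => Real.log (sq (aff (i z) (π w)))) (fun _ => 0)
    isCompact_univ isOpen_univ subset_rfl (fun z _ => ?_) (fun y hy => (hy.2 trivial).elim)
    (fun y _ e he hy v => (h2.nn _ _ _ (an_aff hR (hi y) e he hy) (ne_at (hi y) hy) v).1)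
    fun z _ => ?_
  · filter_upwards [ev_rep hR (hi z)] with y hy
    exact ⟨fun e he hy' => h2.sm _ _ _ (an_aff hR hy e he hy') (ne_at hy hy'), eql h2 hR hy (hi y)⟩
  · have e1 : {y | (π y).1.rep (i z) ≠ 0} ∩
        (fun y => aff (i z) (π y) - aff (i z) (π z)) ⁻¹' {0} = π ⁻¹' {π z} := by
      ext y
      constructor
      · rintro ⟨a, b⟩
        exact aff_inj a (hi z) (sub_eq_zero.1 b)
      · intro a
        have a' : π y = π z := a
        exact ⟨by rw [mem_ofPred_eq, a']; exact hi z, by simp [a']⟩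
    refine ⟨{y | (π y).1.rep (i z) ≠ 0}, Fin (N + 1), inferInstance,
      fun y => aff (i z) (π y) - aff (i z) (π z), (isOpen_ne (i z)).preimage hR.cont, hi z,
      sub_self _, fun y hy e he hy' => (an_aff hR hy e he hy').sub analyticAt_const, ?_,
      subset_univ _, ?_, fun y hy e he hy' v hv => ?_⟩
    · rw [e1]
      exact (isClosed_singleton.preimage hR.cont).isCompact
    · rw [e1]
      by_cases hz : π z ∈ Sing X 2
      · exact hP _ hz
      · have e2 : π ⁻¹' {π z} = {z} := by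
          ext y
          refine ⟨fun a => ?_, fun a => congrArg π a⟩
          have a' : π y = π z := a
          exact congrArg Subtype.val (hR.emb.injective (a₁ := ⟨y, fun b => hz (a' ▸ b)⟩)
            (a₂ := ⟨z, hz⟩) a')
        rw [e2]
        exact h3 M ℬ hR.sp z
    · have a1 := an_aff hR hy.1 e he hy'
      obtain ⟨c, hc⟩ := (h2.nn _ _ _ a1 (ne_at hy.1 hy') v).2
        ((eql h2 hR hy.1 (hi y) e he hy' v).trans hv)
      have a2 : (fun u => ((fun w => aff (i z) (π w)) ∘ e.symm) u (i z)) =ᶠ[𝓝 (e y)]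
          fun _ => 1 := (symm_eventually e hy' (ev_rep hR hy.1)).mono fun _ a => aff_self a
      have a3 := congrArg (fun L : E2 →L[ℂ] ℂ => L v) (fderiv_apply a1.differentiableAt (i z))
      simp only [ContinuousLinearMap.comp_apply, ContinuousLinearMap.proj_apply] at a3
      have a5 : ((fun w => aff (i z) (π w)) ∘ e.symm) (e y) (i z) = 1 := a2.self_of_nhds
      rw [a2.fderiv_eq, hc, Pi.smul_apply, a5] at a3
      have a4 : c = 0 := by simpa using a3.symm
      rw [a4, zero_smul] at hc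
      rw [← hc]
      exact congrArg (fun L : E2 →L[ℂ] Fin (N + 1) → ℂ => L v) (fderiv_sub_const _)

end Pool.Agent.Lib.MP_356dfe_ag.R
end
end

-- part Pool.Agent.Lib.MP_356dfe_ag.R.PCbR
section

/-! Part CbR of the resolution of surface singularities. -/

set_option autoImplicit false

open Set Filter Topology Metric
open scoped ContDiff

noncomputable section

namespace Pool.Agent.Lib.MP_356dfe_ag.R

open S (E2)

namespace PCbR

open Projectivization S.PCb

variable {N : ℕ} {X : Set (PN N)} {M : Type} [TopologicalSpace M] {ℬ : OC M → Prop} {π : M → X}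

theorem op_form (l : Fin (N + 1) → ℂ) : IsOpen {y : X | l ⬝ᵥ y.1.rep ≠ 0} := by
  refine IsOpen.preimage continuous_subtype_val (t := {y : PN N | l ⬝ᵥ y.rep ≠ 0})
    (isOpen_coinduced.2 ?_)
  rw [show mk' ℂ ⁻¹' {y : PN N | l ⬝ᵥ y.rep ≠ 0} = {v | l ⬝ᵥ v.1 ≠ 0} from Set.ext fun v =>
    iff_of_eq (rep_mk (f := fun w => l ⬝ᵥ w ≠ 0) (fun a w ha => by simp [ha]) v.1 v.2)]
  exact isOpen_ne_fun (by fun_prop) continuous_const

theorem an_inv (R : Res (IsChart (n := 2)) (Sing X 2) ℬ π) (l : Fin (N + 1) → ℂ)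
    {F : (Fin (N + 1) → ℂ) → ℂ} (h1 : ∀ v, l ⬝ᵥ v ≠ 0 → AnalyticAt ℂ F v)
    (h2 : ∀ (a : ℂ) v, a ≠ 0 → F (a • v) = F v) {z : M} (hz : l ⬝ᵥ (π z).1.rep ≠ 0) :
    An ℬ (fun w => F (π w).1.rep) z :=
  R.an (fun y => F y.1.rep) z (mem_of_superset ((op_form l).mem_nhds hz) fun y hy =>
    have h : HolAt (fun y : X => F y.1.rep) y :=
      ⟨F, h1 _ hy, .of_forall fun w hw _ hy =>
        (congrArg (fun q : PN N => F q.rep) hy).symm.trans (rep_mk h2 w hw)⟩
    ⟨h.loc.1, fun _ a b => h.an a b⟩)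

theorem lift (R : Res (IsChart (n := 2)) (Sing X 2) ℬ π) (z : M) :
    ∃ ψ : M → Fin (N + 1) → ℂ, An ℬ ψ z ∧ ∀ᶠ w in 𝓝 z, ∃ h, mk ℂ (ψ w) h = (π w).1 := by
  obtain ⟨l, hl⟩ := exists_form (fun _ : Unit => (π z).1.rep) fun _ => (π z).1.rep_nonzero
  refine ⟨fun w => (l ⬝ᵥ (π w).1.rep)⁻¹ • (π w).1.rep, an_pi.2 fun i => an_inv R l
    (F := fun v => (l ⬝ᵥ v)⁻¹ * v i) (fun v hv => ((an_dot l v).inv hv).mul
      (analyticAt_pi_iff.1 analyticAt_id i)) (fun a v ha => ?_) (hl ()), ?_⟩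
  · simp only [dotProduct_smul, smul_eq_mul, Pi.smul_apply, mul_inv]
    field_simp
  · filter_upwards [R.cont.continuousAt.eventually ((op_form l).mem_nhds (hl ()))] with w a
    exact ⟨smul_ne_zero (inv_ne_zero a) (π w).1.rep_nonzero,
      ((mk_eq_mk_iff' ℂ _ _ _ (π w).1.rep_nonzero).2 ⟨_, rfl⟩).trans (π w).1.mk_rep⟩

theorem dense_off (R : Res (IsChart (n := 2)) (Sing X 2) ℬ π) : Dense (π ⁻¹' Sing X 2)ᶜ := by
  intro z
  obtain ⟨e, a, b⟩ := (R.sp.ch z).1 (notMem_empty z)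
  obtain ⟨act, c⟩ := R.nc e a
  have := (thin_axes (e z)).neBot
  refine mem_closure_of_tendsto ((e.tendsto_symm b).mono_left (nhdsWithin_le_nhds (s := axesᶜ))) ?_
  filter_upwards [self_mem_nhdsWithin, mem_nhdsWithin_of_mem_nhds
    (e.open_target.mem_nhds (e.map_source b))] with u d f g
  obtain ⟨k, -, i⟩ := (c _ (e.map_target f)).1 g
  rw [e.right_inv f] at i
  refine d (mul_eq_zero.2 ?_)
  fin_cases k
  exacts [Or.inl i, Or.inr i]

theorem sc [CompactSpace M] (h : Sp ℬ ∅) : SecondCountableTopology M := by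
  choose e he hz using fun z => (h.ch z).1 (notMem_empty z)
  obtain ⟨t, ht⟩ := isCompact_univ.elim_finite_subcover (fun z => (e z).source)
    (fun z => (e z).open_source) fun z _ => mem_iUnion.2 ⟨z, hz z⟩
  have : ∀ z : t, SecondCountableTopology (e z).source :=
    fun z => (e z).secondCountableTopology_source
  exact TopologicalSpace.secondCountableTopology_of_countable_cover
    (U := fun z : t => (e z).source) (fun z => (e z).open_source)
    (eq_univ_of_univ_subset (ht.trans_eq (biUnion_eq_iUnion (t : Set M) _)))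

theorem ell [CompactSpace M] (R : Res (IsChart (n := 2)) (Sing X 2) ℬ π) (hS : (Sing X 2).Finite) :
    ∃ O : Set X, IsOpen O ∧ Sing X 2 ⊆ O ∧ ∃ h : M → ℂ, ∀ z, π z ∈ O →
      An ℬ h z ∧ (π z ∈ Sing X 2 → h z = 0) ∧ ¬ ∀ᶠ w in 𝓝 z, h w = 0 := by
  have := sc R.sp
  have := hS.to_subtype
  obtain ⟨D, d1, d2, d3⟩ := (dense_off R).exists_countable_dense_subset
  have := d2.to_subtype
  obtain ⟨l, hl⟩ := exists_form (fun s : Sing X 2 => s.1.1.rep) fun s => s.1.1.rep_nonzero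
  obtain ⟨c, hc⟩ := exists_form (fun p : Sing X 2 × D => (l ⬝ᵥ p.1.1.1.rep) • (π p.2.1).1.rep -
      (l ⬝ᵥ (π p.2.1).1.rep) • p.1.1.1.rep) fun p h0 => d1 p.2.2 (by
    have h1 : π p.2.1 = p.1.1 := by
      refine Subtype.ext ?_
      rw [← (π p.2.1).1.mk_rep, ← p.1.1.1.mk_rep, mk_eq_mk_iff']
      refine ⟨(l ⬝ᵥ p.1.1.1.rep)⁻¹ * (l ⬝ᵥ (π p.2.1).1.rep), ?_⟩
      rw [mul_smul, ← sub_eq_zero.1 h0, smul_smul, inv_mul_cancel₀ (hl p.1), one_smul]
    rw [mem_preimage, h1]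
    exact p.1.2)
  let F : (Fin (N + 1) → ℂ) → ℂ := fun v => ∏ s ∈ hS.toFinset,
    ((l ⬝ᵥ s.1.rep) * (c ⬝ᵥ v / l ⬝ᵥ v) - c ⬝ᵥ s.1.rep)
  have F1 : ∀ (a : ℂ) v, a ≠ 0 → F (a • v) = F v := fun a v ha => by
    simp only [F, dotProduct_smul, smul_eq_mul, mul_div_mul_left _ _ ha]
  refine ⟨_, op_form l, fun s hs => hl ⟨s, hs⟩, fun w => F (π w).1.rep, fun z hz =>
    ⟨an_inv R l (fun v hv => ?_) F1 hz, fun hs => ?_, fun h0 => ?_⟩⟩
  · exact Finset.analyticAt_fun_prod _ fun s _ =>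
      (analyticAt_const.mul ((an_dot c _).div (an_dot l _) hv)).sub analyticAt_const
  · refine Finset.prod_eq_zero (hS.mem_toFinset.2 hs) ?_
    rw [mul_div_cancel₀ _ hz, sub_self]
  · obtain ⟨d, ⟨a1, a2⟩, a3⟩ := mem_closure_iff_nhds.1 (d3 z) _
      (h0.and (R.cont.continuousAt.eventually ((op_form l).mem_nhds hz)))
    obtain ⟨s, hs, a4⟩ := Finset.prod_eq_zero_iff.1 a1
    refine hc (⟨s, hS.mem_toFinset.1 hs⟩, ⟨d, a3⟩) ?_
    replace a2 : l ⬝ᵥ (π d).1.rep ≠ 0 := a2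
    simp only [dotProduct_sub, dotProduct_smul, smul_eq_mul]
    field_simp at a4
    linear_combination a4

end PCbR

open PCbR in
theorem cbR : CbR := by
  intro N X M _ _ ℬ π hS R
  have ch := fun z => (R.sp.ch z).1 (notMem_empty z)
  refine ⟨fun φ z e hφ he hz => ?_, fun r r1 r2 z e he hz => ?_, ?_, ?_⟩
  · obtain ⟨ψ, h1, h2⟩ := lift R z
    obtain ⟨-, F, h3, h4⟩ := hφ.loc
    obtain ⟨h5, h6⟩ := h2.self_of_nhds
    refine (((h1.comp (h3 _ h5 h6)).congr ?_).cmp (ch z) he hz)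
    filter_upwards [h2, R.cont.continuousAt.eventually h4] with w ⟨a, b⟩ c using (c _ a b).symm
  · obtain ⟨ψ, h1, h2⟩ := lift R z
    obtain ⟨h0, -⟩ := h2.self_of_nhds
    have h3 : ContDiffAt ℝ ∞ (ψ ∘ e.symm) (e z) :=
      (h1.cmp (ch z) he hz).contDiffAt.restrict_scalars ℝ
    refine ((r1 _ (by simpa only [Function.comp_apply, e.left_inv hz] using h0)).comp _
      h3).congr_of_eventuallyEq ?_
    filter_upwards [symm_eventually e hz h2] with u ⟨a1, a2⟩
    simp only [Function.comp_apply]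
    rw [← a2]
    exact rep_mk r2 _ a1
  · intro ρ ε Rg z e he hz p1 p2 hd h0
    have hx : π z ∉ Sing X 2 := fun h => p1.ne' ((Rg.zero _).2 h)
    obtain ⟨e', f, he', hf, hz', hz'', h1⟩ := R.iso z hx
    refine Rg.reg e' he' _ hz' p1 p2 ?_
    have h2 : AnalyticAt ℂ (e ∘ f.symm) (f z) := (he f hf z hz hz'').1
    have h3 := hd.hasFDerivAt
    rw [h0, ← show (e ∘ f.symm) (f z) = e z from congrArg e (f.left_inv hz'')] at h3
    have h4 := h3.comp _ (h2.differentiableAt.restrictScalars ℝ).hasFDerivAt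
    rw [ContinuousLinearMap.zero_comp, h1.self_of_nhds] at h4
    refine (h4.congr_of_eventuallyEq ?_).fderiv
    rw [← h1.self_of_nhds]
    filter_upwards [symm_eventually f hz'' ((h1.and (e.open_source.mem_nhds hz)).and
      (R.cont.continuousAt.eventually (e'.open_source.mem_nhds hz'))),
      f.eventually_right_inverse (f.map_source hz'')] with u ⟨⟨a1, a2⟩, a3⟩ a4
    simp only [Function.comp_apply, e.left_inv a2]
    conv_lhs => rw [← a4, a1, e'.left_inv a3]
  · obtain ⟨O, h1, h2, h, h3⟩ := ell R hS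
    exact ⟨O, h1, h2, h, fun z hz => ⟨fun e he a => (h3 z hz).1.cmp (ch z) he a, (h3 z hz).2⟩⟩

end Pool.Agent.Lib.MP_356dfe_ag.R
end
end

-- part Pool.Agent.Lib.MP_356dfe_ag.R.PBrg
section

/-! Part Brg of the resolution of surface singularities. -/

set_option autoImplicit false

open Set Filter Topology Metric
open scoped ContDiff

noncomputable section

namespace Pool.Agent.Lib.MP_356dfe_ag.R

open S (E2)

namespace PBrg

open Complex Matrix

variable {u : E2 → ℝ} {x : E2}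

/-- the Hermitian form of a bilinear form -/
def bf (β : E2 →L[ℝ] E2 →L[ℝ] ℝ) (v w : E2) : ℝ := β v w + β (I • v) (I • w)

theorem single_I (j : Fin 2) : (Pi.single j I : E2) = I • (Pi.single j 1 : E2) := by
  rw [← Pi.single_smul', smul_eq_mul, mul_one]

theorem du_fd (hu : ContDiffAt ℝ 2 u x) (j : Fin 2) :
    DifferentiableAt ℝ (fun y => S.du u y j) x ∧ ∀ w, fderiv ℝ (fun y => S.du u y j) x w =
      ((D2 u x w (Pi.single j 1) : ℝ) - I * (D2 u x w (Pi.single j I) : ℝ)) / 2 := by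
  have h1 := ((hu.fderiv_right (m := 1) (by norm_num)).differentiableAt one_ne_zero).hasFDerivAt
  have h2 := fun a : E2 => ofRealCLM.hasFDerivAt.comp x (h1.clm_apply (hasFDerivAt_const a x))
  have h3 := (((h2 (Pi.single j 1)).sub ((h2 (Pi.single j I)).const_mul I)).mul_const
    2⁻¹).congr_of_eventuallyEq (f₁ := fun y => S.du u y j) (by
      filter_upwards [hu.eventually (by simp)] with y hy
      have e : fderiv ℝ (fun y => (u y : ℂ)) y = _ := (ofRealCLM.hasFDerivAt.comp y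
        (hy.differentiableAt two_ne_zero).hasFDerivAt).fderiv
      simp only [S.du, S.dh, e]
      rfl)
  refine ⟨h3.differentiableAt, fun w => ?_⟩
  rw [h3.fderiv]
  simp [div_eq_inv_mul]

theorem lev_eq (hu : ContDiffAt ℝ 2 u x) (j k : Fin 2) : S.lev u x j k =
    ((bf (D2 u x) (Pi.single k 1) (Pi.single j 1) : ℝ) +
      I * (bf (D2 u x) (I • Pi.single k 1) (Pi.single j 1) : ℝ)) / 4 := by
  simp only [S.lev, S.dba, S.db, of_apply, (du_fd hu j).2, single_I, bf, smul_smul, I_mul_I,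
    neg_smul, one_smul, map_neg, _root_.neg_apply]
  push_cast
  linear_combination (-(D2 u x (I • Pi.single k 1) (I • Pi.single j 1) : ℝ) / 4 : ℂ) * I_mul_I

theorem bf_eq (hu : ContDiffAt ℝ 2 u x) (v w : E2) :
    bf (D2 u x) v w = (lv (D2 u x) (v + w) - lv (D2 u x) v - lv (D2 u x) w) / 2 := by
  have h := hu.isSymmSndFDerivAt (by simp)
  simp only [bf, lv, smul_add, map_add, _root_.add_apply, h w v, h (I • w) (I • v)]
  ring

theorem pd (hc : S.Calc) (hu : ContDiffAt ℝ 2 u x) (h : ∀ v, v ≠ 0 → 0 < lv (D2 u x) v) :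
    S.PD (S.lev u x) := by
  have hs : ∀ v w, D2 u x v w = D2 u x w v := hu.isSymmSndFDerivAt (by simp)
  have h0 := h (Pi.single 0 1) (by simp)
  refine ⟨(hc.c1_du u x hu).2, ?_, ?_⟩
  · rw [lev_eq hu]
    simpa [bf, lv] using h0
  · simp only [S.dt, S.md, lev_eq hu]
    generalize D2 u x = β at *
    have e : ∀ j : Fin 2, bf β (I • Pi.single j 1) (Pi.single j 1) = 0 := fun j => by
      simp only [bf, smul_smul, I_mul_I, neg_smul, one_smul, map_neg, _root_.neg_apply,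
        hs (I • Pi.single j 1) (Pi.single j 1), add_neg_cancel]
    have e1 : bf β (Pi.single 0 1) (Pi.single 1 1) = bf β (Pi.single 1 1) (Pi.single 0 1) := by
      simp only [bf, hs (Pi.single 0 1), hs (I • Pi.single 0 1)]
    have e2 : bf β (I • Pi.single 0 1) (Pi.single 1 1) =
        -bf β (I • Pi.single 1 1) (Pi.single 0 1) := by
      simp only [bf, smul_smul, I_mul_I, neg_smul, one_smul, map_neg, _root_.neg_apply,
        hs (Pi.single 0 1), hs (I • Pi.single 0 1)]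
      ring
    have h1 := h ((-bf β (Pi.single 1 1) (Pi.single 0 1)) • (Pi.single 0 1 : E2) +
      bf β (I • Pi.single 1 1) (Pi.single 0 1) • (I • Pi.single 0 1 : E2) +
      lv β (Pi.single 0 1) • (Pi.single 1 1 : E2)) fun h2 => h0.ne' (by simpa using congrFun h2 1)
    have h2 : ∀ p q a : ℝ, lv β (p • (Pi.single 0 1 : E2) + q • (I • Pi.single 0 1 : E2) +
        a • (Pi.single 1 1 : E2)) = (p ^ 2 + q ^ 2) * lv β (Pi.single 0 1) +
        a ^ 2 * lv β (Pi.single 1 1) + 2 * a * (p * bf β (Pi.single 1 1) (Pi.single 0 1) -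
          q * bf β (I • Pi.single 1 1) (Pi.single 0 1)) := fun p q a => by
      simp only [lv, bf, smul_add, smul_comm I (_ : ℝ), smul_smul, I_mul_I, neg_smul, one_smul,
        map_neg, map_add, map_smul, _root_.neg_apply, _root_.add_apply, _root_.smul_apply,
        smul_eq_mul, hs (I • Pi.single 0 1) (Pi.single 0 1), hs (Pi.single 0 1) (Pi.single 1 1),
        hs (I • Pi.single 0 1) (Pi.single 1 1), hs (Pi.single 0 1) (I • Pi.single 1 1),
        hs (I • Pi.single 0 1) (I • Pi.single 1 1)]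
      ring
    rw [h2] at h1
    rw [e, e, e1, e2, show bf β (Pi.single 0 1) (Pi.single 0 1) = lv β (Pi.single 0 1) from rfl,
      show bf β (Pi.single 1 1) (Pi.single 1 1) = lv β (Pi.single 1 1) from rfl]
    generalize bf β (Pi.single 1 1) (Pi.single 0 1) = p at *
    generalize bf β (I • Pi.single 1 1) (Pi.single 0 1) = q at *
    generalize lv β (Pi.single 0 1) = a at *
    generalize lv β (Pi.single 1 1) = d at *
    have h3 : 0 < a * d - p ^ 2 - q ^ 2 := pos_of_mul_pos_left (b := a) (by linarith) h0.le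
    simp
    linarith

end PBrg

theorem brg (hc : S.Calc) : Brg := fun u u' x hu => by
  refine ⟨PBrg.pd hc hu, fun T hT hu' h => ?_⟩
  have h1 : ContDiffAt ℝ 2 (u' ∘ T) x := hu'.comp x (hT.contDiffAt.restrict_scalars ℝ)
  have h2 : S.lev u x = S.lev (u' ∘ T) x := by
    ext j k
    simp only [PBrg.lev_eq hu, PBrg.lev_eq h1, PBrg.bf_eq hu, PBrg.bf_eq h1, h]
  have h3 : S.du (u' ∘ T) =ᶠ[𝓝 x] fun y => Matrix.vecMul (S.du u' (T y)) (S.jac T y) := by
    filter_upwards [hT.eventually_analyticAt,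
      hT.continuousAt.eventually (hu'.eventually (by simp))] with y a b
    exact hc.du_comp _ _ _ (b.differentiableAt two_ne_zero) a.differentiableAt
  rw [h2, S.lev, S.PKam.dba_congr h3,
    hc.dba_comp _ _ _ (differentiableAt_pi.2 fun j => (PBrg.du_fd hu' j).1) hT]
  rfl

end Pool.Agent.Lib.MP_356dfe_ag.R
end
end

-- part Pool.Agent.Lib.MP_356dfe_ag.R.PKamR
section

/-! Part KamR of the resolution of surface singularities. -/

set_option autoImplicit false

open Set Filter Topology Metric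
open scoped ContDiff

noncomputable section

namespace Pool.Agent.Lib.MP_356dfe_ag.R

open S (E2)

namespace PKamR

variable {X : Type} [TopologicalSpace X] {ℬ : OC X → Prop}

theorem norm {e : OC X} (he : Cmp ℬ e) {x : X} (hx : x ∈ e.source) {W : Set X} (hW : W ∈ 𝓝 x) :
    ∃ e' : OC X, Cmp ℬ e' ∧ e'.target = ball 0 4 ∧ x ∈ e'.source ∧ e' x = 0 ∧
      e'.source ⊆ W ∧ ∀ z k, e x k = 0 → (e' z k = 0 ↔ e z k = 0) := by
  obtain ⟨r, hr, h3⟩ := Metric.eventually_nhds_iff_ball.1 ((symm_eventually e hx hW).and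
      (e.open_target.mem_nhds (e.map_source hx)))
  have hc : ((r / 4 : ℝ) : ℂ) ≠ 0 := by exact_mod_cast (by positivity : r / 4 ≠ 0)
  let B : E2 ≃ₜ E2 := (Homeomorph.smulOfNeZero ((r / 4 : ℝ) : ℂ) hc).trans
    (Homeomorph.addLeft (e x))
  have B1 : ∀ u, B u = e x + ((r / 4 : ℝ) : ℂ) • u := fun u => rfl
  have B2 : ∀ u, B.symm u = ((r / 4 : ℝ) : ℂ)⁻¹ • (u - e x) := fun u => by
    rw [Homeomorph.symm_apply_eq, B1, smul_inv_smul₀ hc, add_sub_cancel]
  have B3 : ∀ u ∈ ball (0 : E2) 4, B u ∈ ball (e x) r := fun u hu => by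
    rw [B1, mem_ball_iff_norm, add_sub_cancel_left, norm_smul, Complex.norm_real,
      Real.norm_of_nonneg (by positivity)]
    have := mem_ball_zero_iff.1 hu
    nlinarith
  have B4 : ∀ u, AnalyticAt ℂ B u := fun u =>
    (funext B1 : ⇑B = _) ▸ analyticAt_const.add analyticAt_id.fun_const_smul
  have B5 : ∀ u, AnalyticAt ℂ B.symm u := fun u =>
    (funext B2 : ⇑B.symm = _) ▸ (analyticAt_id.fun_sub analyticAt_const).fun_const_smul
  let f := (B.toOpenPartialHomeomorph.restrOpen (ball 0 4) isOpen_ball).trans e.symm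
  have f1 : f.source = ball 0 4 := by
    ext u
    exact ⟨fun h => h.1.2, fun h => ⟨⟨trivial, h⟩, (h3 _ (B3 u h)).2⟩⟩
  have f2 : ∀ z, f.symm z = B.symm (e z) := fun _ => rfl
  have f3 : ∀ u, f u = e.symm (B u) := fun _ => rfl
  have f4 : f.target ⊆ e.source := fun z hz => hz.1
  have f6 : f.symm x = 0 := by rw [f2, B2, sub_self, smul_zero]
  refine ⟨f.symm, fun e' he' z hz hz' => ?_, f1, ?_, f6, fun z hz => ?_, fun z k hk => ?_⟩
  · obtain ⟨a, b⟩ := he e' he' z (f4 hz) hz'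
    exact ⟨(B5 _).comp a, b.comp_of_eq (B4 _) (B.apply_symm_apply _)⟩
  · have := f.map_source (f1 ▸ mem_ball_self (by norm_num) : (0 : E2) ∈ f.source)
    rwa [f3, B1, smul_zero, add_zero, e.left_inv hx] at this
  · have a1 := f.map_target hz
    have a2 := (h3 _ (B3 _ (f1 ▸ a1))).1
    rwa [← f3, f.right_inv hz] at a2
  · rw [f2, B2, Pi.smul_apply, Pi.sub_apply, hk, sub_zero, smul_eq_zero, or_iff_right
      (inv_ne_zero hc)]

/-- the set `E` is a coordinate axis near `x` -/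
def T1 (ℬ : OC X → Prop) (E : Set X) (x : X) : Prop := ∃ (e : OC X) (k : Fin 2), ℬ e ∧
  x ∈ e.source ∧ e x k = 0 ∧ ∀ᶠ y in 𝓝 x, y ∈ E ↔ e y k = 0

variable {E : Set X}

theorem loc {e : OC X} {act : Finset (Fin 2)} (h : ∀ y ∈ e.source, y ∈ E ↔ ∃ k ∈ act, e y k = 0)
    {x : X} (hx : x ∈ e.source) :
    ∀ᶠ y in 𝓝 x, y ∈ E ↔ ∃ k ∈ act.filter fun k => e x k = 0, e y k = 0 := by
  filter_upwards [e.open_source.mem_nhds hx, (eventually_all (ι := Fin 2)).2 fun k =>
    show ∀ᶠ y in 𝓝 x, e y k = 0 → e x k = 0 from by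
      by_cases a : e x k = 0
      · exact .of_forall fun _ _ => a
      · exact (((continuous_apply k).continuousAt.comp (e.continuousAt hx)).eventually_ne a).mono
          fun y b c => (b c).elim] with y a b
  rw [h y a]
  exact ⟨fun ⟨k, c, d⟩ => ⟨k, Finset.mem_filter.2 ⟨c, b k d⟩, d⟩,
    fun ⟨k, c, d⟩ => ⟨k, (Finset.mem_filter.1 c).1, d⟩⟩

theorem t1 {e : OC X} (he : ℬ e) {act : Finset (Fin 2)}
    (h : ∀ y ∈ e.source, y ∈ E ↔ ∃ k ∈ act, e y k = 0) {x : X} (hx : x ∈ e.source) (hE : x ∈ E)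
    (hT : ¬ T1 ℬ E x) : (act.filter fun k => e x k = 0) = Finset.univ := by
  obtain ⟨k, a, b⟩ := (h x hx).1 hE
  have c : k ∈ act.filter fun k => e x k = 0 := Finset.mem_filter.2 ⟨a, b⟩
  by_contra d
  have f := (by decide : ∀ (s : Finset (Fin 2)) k, k ∈ s → ¬ s = Finset.univ → s = {k}) _ k c d
  exact hT ⟨e, k, he, hx, b, by simpa [f] using loc h hx⟩

variable (hs : Sp ℬ ∅)
  (h : ∀ e, ℬ e → ∃ act : Finset (Fin 2), ∀ y ∈ e.source, y ∈ E ↔ ∃ k ∈ act, e y k = 0)
include hs h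

theorem node (y : X) : ∀ᶠ x in 𝓝 y, x ∈ E → ¬ T1 ℬ E x → x = y := by
  obtain ⟨e, he, hy⟩ := (hs.ch y).1 (notMem_empty y)
  obtain ⟨act, ha⟩ := h e he
  have z : ∀ x ∈ e.source, x ∈ E → ¬ T1 ℬ E x → e x = 0 := fun x a b c => funext fun k =>
    (Finset.mem_filter.1 ((t1 he ha a b c).ge (Finset.mem_univ k))).2
  by_cases b : e y = 0
  · filter_upwards [e.open_source.mem_nhds hy] with x a c d
    exact e.injOn a hy ((z x a c d).trans b.symm)
  · filter_upwards [e.open_source.mem_nhds hy, (e.continuousAt hy).eventually_ne b] with x a c d f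
    exact (c (z x a d f)).elim

theorem base (x : X) : ∃ (e : OC X) (a : Finset (Fin 2)), ℬ e ∧ x ∈ e.source ∧
      (∀ k ∈ a, e x k = 0) ∧ (∀ᶠ y in 𝓝 x, y ∈ E ↔ ∃ k ∈ a, e y k = 0) ∧
      (a.Nonempty → x ∈ E) ∧ (a = Finset.univ → ¬ T1 ℬ E x) := by
  by_cases hT : T1 ℬ E x
  · obtain ⟨e, k, h1, h2, h3, h4⟩ := hT
    refine ⟨e, {k}, h1, h2, by simpa using h3, by simpa using h4,
      fun _ => h4.self_of_nhds.2 h3, fun a => ?_⟩
    exact absurd (congrArg Finset.card a) (by simp)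
  · obtain ⟨e, he, hx⟩ := (hs.ch x).1 (notMem_empty x)
    obtain ⟨act, ha⟩ := h e he
    exact ⟨e, _, he, hx, fun k a => (Finset.mem_filter.1 a).2, loc ha hx, fun ⟨k, a⟩ =>
      (ha x hx).2 ⟨k, (Finset.mem_filter.1 a).1, (Finset.mem_filter.1 a).2⟩, fun _ => hT⟩

omit hs h in
theorem cmp {u : X → ℝ} {z : X} (hu : SmA ℬ u z) {e e' : OC X} (he : Cmp ℬ e) (he' : ℬ e')
    (hz : z ∈ e.source) (hz' : z ∈ e'.source) : ContDiffAt ℝ ∞ (u ∘ e.symm) (e z) ∧
      ∀ v, LV u e z v = LV u e' z (fderiv ℂ (e' ∘ e.symm) (e z) v) := by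
  have a := (he e' he' z hz hz').2
  have b : (e' ∘ e.symm) (e z) = e' z := congrArg e' (e.left_inv hz)
  have c : ContDiffAt ℝ ∞ (u ∘ e'.symm) ((e' ∘ e.symm) (e z)) := b ▸ hu e' he' hz'
  refine ⟨(c.comp _ (a.contDiffAt.restrict_scalars ℝ)).congr_of_eventuallyEq
    (chart_ev u hz hz').symm, fun v => ?_⟩
  rw [LV, ← D2_congr (chart_ev u hz hz'), lv_comp (c.of_le (by norm_cast)) a, b]

end PKamR

open PKamR in
theorem kamR (hb : Brg) (hp : S.PreK) : KamR := by
  intro M _ _ _ ℬ E hs _ hn ⟨N, _, hN, p, _, hf, _, hpos⟩ U hU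
  choose e₀ a h1 h2 h3 h4 h5 h6 using base hs hn
  choose e g1 g2 g3 g4 g5 g6 using fun x => norm (hs.cmp (h1 x)) (h2 x)
    (inter_mem (hU x) (((h4 x).and (node hs hn x)).and (hf x (hN trivial))))
  have sm : ∀ x, ∀ z ∈ (e x).source, SmA ℬ (p x) z := fun x z hz => (g5 x hz).2.2.1
  have c2 : ∀ x y, ∀ z ∈ (e x).source, z ∈ (e y).source →
      ContDiffAt ℝ 2 (p x ∘ (e y).symm) (e y z) := fun x y z a b =>
    (cmp (sm x z a) (g1 y) (h1 z) b (h2 z)).1.of_le (by norm_cast)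
  have eq : ∀ x y, ∀ z ∈ (e x).source, z ∈ (e y).source → ∀ v, LV (p x) (e y) z v =
      LV (p z) (e₀ z) z (fderiv ℂ (e₀ z ∘ (e y).symm) (e y z) v) := fun x y z a b v =>
    ((cmp (sm x z a) (g1 y) (h1 z) b (h2 z)).2 v).trans ((g5 x a).2.2.2 _ (h1 z) (h2 z) _)
  have tr : ∀ x y, ∀ z ∈ (e x).source, z ∈ (e y).source →
      AnalyticAt ℂ (e y ∘ (e x).symm) (e x z) := fun x y z a b =>
    ((g1 y).an b).cmp ⟨_, h1 z, h2 z⟩ (g1 x) a
  obtain ⟨m, A, c, a1, a2⟩ := hp M E e (fun x => p x ∘ (e x).symm) a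
    (fun x => ⟨g2 x, g3 x, g4 x, fun u hu => by
        have b1 : u ∈ (e x).target := g2 x ▸ hu
        have b2 := (e x).map_target b1
        have := (cmp (sm x _ b2) (g1 x) (h1 _) b2 (h2 _)).1
        rw [(e x).right_inv b1] at this
        exact this.contDiffWithinAt, fun u hu => by
        have b1 : u ∈ (e x).target := g2 x ▸ hu
        have b2 := (e x).map_target b1
        rw [← (e x).right_inv b1]
        exact (hb _ 0 _ (c2 x x _ b2 b2)).1 fun v hv => (hpos _ trivial _ (h1 _) (h2 _) _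
          fun b3 => hv (((g1 x).lb (h1 _) b2 (h2 _)).2.2
            (b3.trans (map_zero _).symm))).trans_eq (eq x x _ b2 b2 v).symm,
      fun z hz => (g5 x hz).2.1.1.trans
        (exists_congr fun k => and_congr_right fun hk => (g6 x z k (h3 x k hk)).symm)⟩)
    (fun x y z hx hy => ⟨tr x y z hx hy, by
      have b : (e y ∘ (e x).symm) (e x z) = e y z := congrArg (e y) ((e x).left_inv hx)
      rw [← b]
      refine (hb _ _ _ (c2 x x z hx hx)).2 _ (tr x y z hx hy) (b ▸ c2 y y z hy hy) fun v => ?_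
      rw [D2_congr (chart_ev (p y) hx hy)]
      exact (eq x x z hx hx v).trans (eq y x z hy hx v).symm⟩)
    fun x y hx hy => ((g5 y hy).2.1.2 (h5 x (hx ▸ Finset.univ_nonempty)) (h6 x hx)).symm
  refine ⟨m, A, a1, fun l => ⟨(a2 l).1 ▸ g1 _, c l, ?_, fun h => a1 ▸ h5 _ ((a2 l).2 ▸ h)⟩⟩
  rw [S.KA.src, (a2 l).1]
  exact fun z hz => (g5 _ hz).1

end Pool.Agent.Lib.MP_356dfe_ag.R
end
end
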