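import Pool.Agent.Lib.MP_356dfe_ag.R.PRk

-- part Pool.Agent.Lib.MP_356dfe_ag.R.PKP
section

/-! Part KP of the resolution of surface singularities. -/

set_option autoImplicit false

open Set Filter Topology Metric
open scoped ContDiff

noncomputable section

namespace Pool.Agent.Lib.MP_356dfe_ag.R

open S (E2)

namespace PKP

variable {M : Type} [TopologicalSpace M] {ℬ : OC M → Prop} {J : Type} [Fintype J] {k : J → ℕ}
  {f s s' : ∀ j, M → Fin (k j) → ℂ} {y : M} {e : OC M}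

theorem lv_sum {ι : Type} (T : Finset ι) {u : ι → E2 → ℝ} {x : E2}
    (h : ∀ j, ContDiffAt ℝ 2 (u j) x) (v : E2) :
    lv (D2 (fun w => ∑ j ∈ T, u j w) x) v = ∑ j ∈ T, lv (D2 (u j) x) v := by
  classical
  induction T using Finset.induction_on with
  | empty => simp [lv, D2]
  | insert j T hj ih =>
    simp only [Finset.sum_insert hj]
    rw [D2_add (h j) (ContDiffAt.sum fun i _ => h i), lv_add, ih]

/-- the potential of a family of sections -/
def A (s : ∀ j, M → Fin (k j) → ℂ) (y : M) : ℝ := ∑ j, Real.log (sq (s j y))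

/-- sections that do not vanish at `y` -/
def Gd (ℬ : OC M → Prop) (f s : ∀ j, M → Fin (k j) → ℂ) (y : M) : Prop :=
  ∀ j, An ℬ (s j) y ∧ s j y ≠ 0 ∧ ∀ᶠ w in 𝓝 y, ∃ c : ℂ, f j w = c • s j w

omit [Fintype J] in
theorem Gd.ne (h : Gd ℬ f s y) (hy : y ∈ e.source) (j : J) : (s j ∘ e.symm) (e y) ≠ 0 := by
  rw [Function.comp_apply, e.left_inv hy]
  exact (h j).2.1

theorem Gd.sm (h2 : FSL) (h : Gd ℬ f s y) : SmA ℬ (A s) y := fun e he hy =>
  ContDiffAt.sum (s := Finset.univ) fun j _ => h2.sm _ _ _ ((h j).1 e he hy) (h.ne hy j)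

theorem Gd.lv (h2 : FSL) (h : Gd ℬ f s y) (he : ℬ e) (hy : y ∈ e.source) (v : E2) :
    LV (A s) e y v = ∑ j, lv (D2 (fun x => Real.log (sq ((s j ∘ e.symm) x))) (e y)) v :=
  lv_sum Finset.univ (fun j => (h2.sm _ _ _ ((h j).1 e he hy) (h.ne hy j)).of_le
    (WithTop.coe_le_coe.2 (le_top (a := (2 : ℕ∞))))) v

omit [Fintype J] in
theorem Gd.par (hs : Sp ℬ ∅) (h : Gd ℬ f s y) (h' : Gd ℬ f s' y)
    (hf : ∀ j, ∀ᶠ w in 𝓝 y, ∃ᶠ x in 𝓝 w, f j x ≠ 0) (j : J) :
    ∀ᶠ w in 𝓝 y, ∃ c : ℂ, s j w = c • s' j w := by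
  have ch : ∀ y, ∃ e, ℬ e ∧ y ∈ e.source := fun y => (hs.ch y).1 (notMem_empty y)
  obtain ⟨i, hi⟩ := Function.ne_iff.1 (h' j).2.1
  filter_upwards [(h j).1.ev hs (notMem_empty y), (h' j).1.ev hs (notMem_empty y),
    (h j).2.2.eventually_nhds, (h' j).2.2.eventually_nhds, hf j,
    ((continuous_apply i).continuousAt.comp ((h' j).1.cont (ch y))).eventually_ne hi]
    with w a b c d p q
  have a' := a.cont (ch w)
  have b' := b.cont (ch w)
  have k : s' j w i • s j w = s j w i • s' j w := by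
    refine tendsto_nhds_unique_of_frequently_eq
      (((continuous_apply i).continuousAt.comp b').smul a')
      (((continuous_apply i).continuousAt.comp a').smul b') ?_
    refine (p.and_eventually (c.and d)).mono ?_
    rintro x ⟨x1, ⟨c1, x2⟩, c2, x3⟩
    have c0 : c1 ≠ 0 := fun z => x1 (by rw [x2, z, zero_smul])
    have x4 : s j x = (c1⁻¹ * c2) • s' j x := by rw [mul_smul, ← x3, x2, inv_smul_smul₀ c0]
    change s' j x i • s j x = s j x i • s' j x
    rw [x4, Pi.smul_apply, smul_smul, smul_eq_mul, mul_comm]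
  exact ⟨(s' j w i)⁻¹ * s j w i, by rw [mul_smul, ← k, inv_smul_smul₀ (show s' j w i ≠ 0 from q)]⟩

theorem Gd.eql (h2 : FSL) (hs : Sp ℬ ∅) (h : Gd ℬ f s y) (h' : Gd ℬ f s' y)
    (hf : ∀ j, ∀ᶠ w in 𝓝 y, ∃ᶠ x in 𝓝 w, f j x ≠ 0) : EqL ℬ (A s) (A s') y := fun e he hy v => by
  rw [h.lv h2 he hy, h'.lv h2 he hy]
  exact Finset.sum_congr rfl fun j _ => h2.law _ _ _ _ ((h j).1 e he hy) (h.ne hy j)
    ((h' j).1 e he hy) (h'.ne hy j) (symm_eventually e hy (h.par hs h' hf j)) v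

end PKP

open PKP in
theorem kp (h1 : KL) (h2 : FSL) : KP := by
  intro M _ _ ℬ hs K N J _ k f cK oN hN hf h
  classical
  choose N' t i o1 o2 o3 o4 o5 o6 o7 using h
  let s : M → ∀ j, M → Fin (k j) → ℂ := fun z => if hz : z ∈ K then t z hz else f
  have fr : ∀ y ∈ N, ∀ j, ∀ᶠ w in 𝓝 y, ∃ᶠ x in 𝓝 w, f j x ≠ 0 := fun y hy j =>
    mem_of_superset (oN.mem_nhds hy) fun w hw => (hf j w hw).2.2
  have g1 : ∀ z hz, ∀ y ∈ N' z hz, Gd ℬ f (t z hz) y := fun z hz y hy j =>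
    ⟨(o4 z hz j y hy).1, fun e => zero_ne_one ((congrFun e _).symm.trans (o4 z hz j y hy).2.1),
      mem_of_superset ((o1 z hz).mem_nhds hy) fun w hw => ⟨_, (o4 z hz j w hw).2.2⟩⟩
  have g2 : ∀ y ∈ N \ K, Gd ℬ f f y := fun y hy j =>
    ⟨(hf j y hy.1).1, (hf j y hy.1).2.1 hy.2, .of_forall fun w => ⟨1, (one_smul _ _).symm⟩⟩
  have g3 : ∀ z ∈ N, ∀ᶠ y in 𝓝 z, Gd ℬ f (s z) y := fun z hz => by
    by_cases hK : z ∈ K
    · simp only [s, dif_pos hK]
      exact mem_of_superset ((o1 z hK).mem_nhds (o2 z hK)) (g1 z hK)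
    · simp only [s, dif_neg hK]
      exact mem_of_superset ((oN.sdiff cK.isClosed).mem_nhds ⟨hz, hK⟩) g2
  have g4 : ∀ z ∈ N, Gd ℬ f (s z) z := fun z hz => (g3 z hz).self_of_nhds
  refine h1 M ℬ hs K N (fun z => A (s z)) (A f) cK oN hN (fun z hz => ?_)
    (fun y hy => ⟨(g2 y hy).sm h2, (g2 y hy).eql h2 hs (g4 y hy.1) (fr y hy.1)⟩)
    (fun y hy e he b v => ?_) fun z hz => ?_
  · filter_upwards [g3 z hz, oN.mem_nhds hz] with y a b
    exact ⟨a.sm h2, a.eql h2 hs (g4 y b) (fr y b)⟩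
  · have a := g4 y (hN hy)
    rw [a.lv h2 he b]
    exact Finset.sum_nonneg fun j _ => (h2.nn _ _ _ ((a j).1 e he b) (a.ne b j) v).1
  let F : M → (Σ j, Fin (k j)) → ℂ := fun y m => t z hz m.1 y m.2 - t z hz m.1 z m.2
  have hF : N' z hz ∩ F ⁻¹' {0} = {y ∈ N' z hz | ∀ j, t z hz j y = t z hz j z} := by
    ext y
    simp [F, funext_iff, sub_eq_zero, Sigma.forall]
  refine ⟨N' z hz, Σ j, Fin (k j), inferInstance, F, o1 z hz, o2 z hz, funext fun m => sub_self _,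
    fun y hy => an_pi.2 fun m e he b => ?_, hF ▸ o5 z hz, hF ▸ o6 z hz, hF ▸ o7 z hz,
    fun y hy e he b v hv => ?_⟩
  · exact (an_pi.1 (o4 z hz m.1 y hy).1 m.2 e he b).sub analyticAt_const
  have a := g1 z hz y hy.1
  have yN := o3 z hz hy.1
  rw [← a.eql h2 hs (g4 y yN) (fr y yN) e he b, a.lv h2 he b, Finset.sum_eq_zero_iff_of_nonneg
    fun j _ => (h2.nn _ _ _ ((a j).1 e he b) (a.ne b j) v).1] at hv
  have d : ∀ j m, fderiv ℂ (fun x => t z hz j (e.symm x) m) (e y) v =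
      fderiv ℂ (t z hz j ∘ e.symm) (e y) v m := fun j m =>
    DFunLike.congr_fun (fderiv_apply ((a j).1 e he b).differentiableAt m) v
  have d0 : ∀ j, fderiv ℂ (t z hz j ∘ e.symm) (e y) v = 0 := fun j => by
    obtain ⟨c, hc⟩ := (h2.nn _ _ _ ((a j).1 e he b) (a.ne b j) v).2 (hv j (Finset.mem_univ j))
    have c1 : (fun x => t z hz j (e.symm x) (i z hz j)) =ᶠ[𝓝 (e y)] fun _ => 1 :=
      symm_eventually e b (p := fun w => t z hz j w (i z hz j) = 1)
        (mem_of_superset ((o1 z hz).mem_nhds hy.1) fun w hw => (o4 z hz j w hw).2.1)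
    have c2 := d j (i z hz j)
    rw [c1.fderiv_eq, fderiv_fun_const, hc, Pi.smul_apply, Function.comp_apply, e.left_inv b,
      (o4 z hz j y hy.1).2.1, smul_eq_mul, mul_one] at c2
    rw [hc, ← c2]
    exact zero_smul _ _
  have d1 : ∀ m : Σ j, Fin (k j), DifferentiableAt ℂ (fun x => t z hz m.1 (e.symm x) m.2) (e y) :=
    fun m => (an_pi.1 (a m.1).1 m.2 e he b).differentiableAt
  funext m
  rw [show F ∘ e.symm = fun x m => t z hz m.1 (e.symm x) m.2 - t z hz m.1 z m.2 from rfl,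
    fderiv_pi fun m => (d1 m).sub_const _, ContinuousLinearMap.pi_apply, fderiv_sub_const, d, d0]
  rfl

end Pool.Agent.Lib.MP_356dfe_ag.R
end
end

-- part Pool.Agent.Lib.MP_356dfe_ag.R.PLev1
section

/-! Part Lev1 of the resolution of surface singularities. -/

set_option autoImplicit false

open Set Filter Topology Metric
open scoped ContDiff

noncomputable section

namespace Pool.Agent.Lib.MP_356dfe_ag.R

open S (E2)

namespace PLev1

theorem root_ev {n : ℕ} (hn : n ≠ 0) (c : ℂ) : ∀ᶠ w in 𝓝 c, w ^ n = c ^ n → w = c := by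
  have h : ({w | w ^ n = c ^ n} \ {c} : Set ℂ).Finite :=
    ((Polynomial.nthRoots n (c ^ n)).finite_toSet.subset fun w hw =>
      (Polynomial.mem_nthRoots (Nat.pos_of_ne_zero hn)).2 hw).subset sdiff_subset
  filter_upwards [h.isClosed.isOpen_compl.mem_nhds fun k => k.2 rfl] with w a b
  by_contra e
  exact a ⟨b, e⟩

theorem mon_dist {a b : Fin 2 → ℕ} {p q : ℕ} (h : ∀ m, a m * p ≤ b m * q) (u : E2) :
    mon b u ^ q = mon a u ^ p * mon (fun m => (a m * p).dist (b m * q)) u := by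
  simp only [mon, mul_pow, ← pow_mul, Nat.dist_eq_sub_of_le (h _)]
  rw [mul_mul_mul_comm, ← pow_add, ← pow_add, Nat.add_sub_cancel' (h 0), Nat.add_sub_cancel' (h 1)]

theorem an_pair {f g : E2 → ℂ} {u : E2} (hf : AnalyticAt ℂ f u) (hg : AnalyticAt ℂ g u) :
    AnalyticAt ℂ (fun v => ![f v, g v]) u :=
  analyticAt_pi_iff.2 (Fin.forall_fin_two.2 ⟨hf, hg⟩)

theorem core (h1 : KP) (h2 : Pos1) {M : Type} [TopologicalSpace M] [T2Space M] {ℬ : OC M → Prop}
    (hs : Sp ℬ ∅) {r : ℕ} {E : Fin r → OC M} (hE : ∀ j, ℬ (E j)) {A B : M → ℂ}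
    {a b : Fin r → Fin 2 → ℕ}
    (hA : ∀ j, ∀ y ∈ (E j).source, A y = mon (a j) (E j y) ∧ B y = mon (b j) (E j y)) {K : Set M}
    (hK : IsCompact K) (hc : ∀ z ∈ K, ∃ j, z ∈ (E j).source)
    (h0 : ∀ j, ∀ y ∈ (E j).source, A y = 0 → B y = 0 → y ∈ K)
    (det : ∀ j, a j 0 * b j 1 ≠ a j 1 * b j 0)
    (fan : ∀ j j' k, (∀ m, a j m * b j' k ≤ b j m * a j' k) ∨
      ∀ m, b j m * a j' k ≤ a j m * b j' k) : Pos ℬ K := by
  classical
  refine h1 M ℬ hs K (⋃ j, (E j).source) (Fin r × Fin 2) (fun _ => 2)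
    (fun s y => ![A y ^ b s.1 s.2, B y ^ a s.1 s.2]) hK (isOpen_iUnion fun j => (E j).open_source)
    (fun z hz => mem_iUnion.2 (hc z hz)) (fun s y hy => ?_) fun z hz => ?_
  · obtain ⟨j, hj⟩ := mem_iUnion.1 hy
    refine ⟨(An.comp (an_pair ((an_mon (a j) _).pow (b s.1 s.2)) ((an_mon (b j) _).pow (a s.1 s.2)))
      ((hs.cmp (hE j)).an hj)).congr ?_, fun k e => k (h0 j y hj ?_ ?_), ?_⟩
    · filter_upwards [(E j).open_source.mem_nhds hj] with w hw
      simp [hA j w hw]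
    · exact eq_zero_of_pow_eq_zero (congrFun e 0)
    · exact eq_zero_of_pow_eq_zero (congrFun e 1)
    · rw [← (E j).symm_map_nhds_eq hj, frequently_map]
      refine ((mem_closure_iff_frequently.1 (mem_closure_iff_nhdsWithin_neBot.2
        (thin_axes (E j y)).neBot)).and_eventually
        ((E j).open_target.mem_nhds ((E j).map_source hj))).mono fun u hu e => ?_
      have k : A ((E j).symm u) = 0 := eq_zero_of_pow_eq_zero (congrFun e 0)
      rw [(hA j _ ((E j).map_target hu.2)).1, (E j).right_inv hu.2] at k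
      exact mul_ne_zero (pow_ne_zero _ (left_ne_zero_of_mul hu.1))
        (pow_ne_zero _ (right_ne_zero_of_mul hu.1)) k
  obtain ⟨j, hj⟩ := hc z hz
  have hd : (a j 0 * b j 1).dist (b j 0 * a j 1) ≠ 0 := fun e =>
    det j ((Nat.eq_of_dist_eq_zero e).trans (mul_comm _ _))
  obtain ⟨N', n1, n2, n3⟩ := eventually_nhds_iff.1 (((E j).open_source.eventually_mem hj).and
    (eventually_all.2 fun m => ((continuous_apply m).continuousAt.comp
      ((E j).continuousAt hj)).eventually (root_ev hd (E j z m))))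
  let D : Fin r × Fin 2 → E2 → ℂ := fun s =>
    mon fun m => (a j m * b s.1 s.2).dist (b j m * a s.1 s.2)
  let t : Fin r × Fin 2 → M → Fin 2 → ℂ := fun s y =>
    if ∀ m, a j m * b s.1 s.2 ≤ b j m * a s.1 s.2 then ![1, D s (E j y)] else ![D s (E j y), 1]
  have e : {y ∈ N' | ∀ s, t s y = t s z} = {z} := by
    refine eq_singleton_iff_unique_mem.2 ⟨⟨n3, fun _ => rfl⟩, fun y hy => ?_⟩
    have k : ∀ s, D s (E j y) = D s (E j z) := fun s => by
      have := hy.2 s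
      simp only [t] at this
      split_ifs at this
      exacts [congrFun this 1, congrFun this 0]
    refine (E j).injOn (n1 y hy.1).1 hj (funext (Fin.forall_fin_two.2
      ⟨(n1 y hy.1).2 0 ?_, (n1 y hy.1).2 1 ?_⟩))
    · simpa [D, mon, mul_comm (b j 1)] using k (j, 1)
    · simpa [D, mon, mul_comm (b j 0), mul_comm (b j 1), Nat.dist_comm (a j 1 * _)] using k (j, 0)
  refine ⟨N', t, fun s => if ∀ m, a j m * b s.1 s.2 ≤ b j m * a s.1 s.2 then 0 else 1, n2, n3,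
    fun y hy => mem_iUnion.2 ⟨j, (n1 y hy).1⟩, fun s y hy => ?_, ?_⟩
  · have hy' := (n1 y hy).1
    simp only [t]
    split_ifs with k
    · refine ⟨An.comp (φ := fun v => ![1, D s v]) (f := E j) (an_pair analyticAt_const (an_mon _ _))
        ((hs.cmp (hE j)).an hy'), rfl, ?_⟩
      simp [hA j y hy', mon_dist k, D]
    · refine ⟨An.comp (φ := fun v => ![D s v, 1]) (f := E j) (an_pair (an_mon _ _) analyticAt_const)
        ((hs.cmp (hE j)).an hy'), rfl, ?_⟩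
      simp [hA j y hy', mon_dist ((fan j s.1 s.2).resolve_left k), D, Nat.dist_comm]
  · rw [e]
    exact ⟨isCompact_singleton, singleton_subset_iff.2 hz, h2 M ℬ hs z⟩

end PLev1

theorem lev1 (h1 : KP) (h2 : Pos1) : Lev1 := by
  intro X _ 𝒟 𝒟' M _ _ fl ch hc hs hD H r d α β a b C hH hK
  have m : ∀ j, d j ∈ 𝒟 := fun j => hD (C.mem j)
  have hP : ∀ j, ∀ y ∈ (ch (d j)).source, ch (d j) y ∈ (d j).P := fun j y hy =>
    hc.tgt _ (m j) ▸ (ch (d j)).map_source hy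
  have hF : ∀ j, ∀ y ∈ (ch (d j)).source, fl y = (d j).F (ch (d j) y) := fun j y hy => by
    rw [← hc.fl_symm _ (m j) _ (hP j y hy), (ch (d j)).left_inv hy]
  have hL : ∀ (γ : X → ℂ) (c : Fin 2 → ℕ) j, (∀ u ∈ (d j).P \ axes, γ ((d j).c u) = mon c u) →
      ∀ y ∈ (ch (d j)).source, limUnder (fl y) γ = mon c (ch (d j) y) := fun γ c j h y hy => by
    have := hc.ne y
    refine Tendsto.limUnder_eq ?_
    rw [hF j y hy, Pc.F, tendsto_map'_iff, C.ax j]
    refine ((an_mon c _).continuousAt.tendsto.mono_left nhdsWithin_le_nhds).congr' ?_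
    filter_upwards [mem_nhdsWithin_of_mem_nhds ((hc.tgt _ (m j) ▸ (ch (d j)).open_target :
      IsOpen (d j).P).mem_nhds (hP j y hy)), self_mem_nhdsWithin] with u p q
    exact (h u ⟨p, q⟩).symm
  have hA := fun j y hy => And.intro (hL α (a j) j (fun u hu => (C.val j u hu).1) y hy)
    (hL β (b j) j (fun u hu => (C.val j u hu).2) y hy)
  refine PLev1.core h1 h2 hs (E := fun j => ch (d j)) (fun j => ⟨_, m j, rfl⟩) hA hK
    (fun z hz => ?_) (fun j y hy p q => ?_) C.det C.fan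
  · obtain ⟨d', p, u', q, e⟩ := hH z hz
    obtain ⟨j, u, hu, e'⟩ := C.cov d' p u' q (e ▸ hz)
    refine ⟨j, ?_⟩
    rw [hc.inj (e.trans (e'.trans (hc.fl_symm _ (m j) u hu).symm))]
    exact (ch (d j)).map_target ((hc.tgt _ (m j)).symm ▸ hu)
  · show fl y ≤ H
    rw [hF j y hy]
    exact (C.le j _ (hP j y hy)).2 ⟨(hA j y hy).1.symm.trans p, (hA j y hy).2.symm.trans q⟩

end Pool.Agent.Lib.MP_356dfe_ag.R
end
end

-- part Pool.Agent.Lib.MP_356dfe_ag.R.PLev2
section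

/-! Part Lev2 of the resolution of surface singularities. -/

set_option autoImplicit false

open Set Filter Topology Metric
open scoped ContDiff

noncomputable section

namespace Pool.Agent.Lib.MP_356dfe_ag.R

open S (E2)

namespace PLev2

variable {α : Type} {D : ℕ} {P : α → Fin D → ℂ} {i i' : Fin D} {y : α}

theorem rat_self (h : P y i ≠ 0) : rat P i y i = 1 := inv_mul_cancel₀ h

theorem ne_ev {F : Filter α} {s : Fin D → ℂ} (h : Tendsto (rat P i) F (𝓝 s)) (h1 : s i = 1) :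
    ∀ᶠ y in F, P y i ≠ 0 :=
  ((tendsto_pi_nhds.1 h i).eventually_ne (h1 ▸ one_ne_zero)).mono fun y a b => a (by
    simp [rat, b])

theorem smul_rat (h : P y i ≠ 0) : P y = P y i • rat P i y := (smul_inv_smul₀ h _).symm

/-- change of the distinguished coordinate -/
theorem change {F G : Filter α} [G.NeBot] (hG : G ≤ F) {s : Fin D → ℂ} {C : ℝ}
    (h : Tendsto (rat P i') F (𝓝 s)) (h1 : s i' = 1)
    (h2 : ∀ᶠ y in G, P y i ≠ 0 ∧ ‖rat P i y‖ ≤ C) :
    s i ≠ 0 ∧ Tendsto (rat P i) F (𝓝 ((s i)⁻¹ • s)) := by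
  have a := tendsto_pi_nhds.1 h i
  have b : s i ≠ 0 := fun b => by
    have c : 1 ≤ ‖s i‖ * C := by
      refine ge_of_tendsto ((a.mono_left hG).norm.mul_const C) ?_
      filter_upwards [h2, hG (ne_ev h h1)] with y c d
      have e : rat P i' y i * rat P i y i' = 1 := by
        simp only [rat, Pi.smul_apply, smul_eq_mul]
        field_simp [c.1]
      calc (1 : ℝ) = ‖rat P i' y i‖ * ‖rat P i y i'‖ := by rw [← norm_mul, e, norm_one]
        _ ≤ _ := mul_le_mul_of_nonneg_left ((norm_le_pi_norm _ _).trans c.2) (norm_nonneg _)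
    rw [b, norm_zero, zero_mul] at c
    exact not_lt.2 c one_pos
  refine ⟨b, ((a.inv₀ b).smul h).congr' ?_⟩
  filter_upwards [ne_ev h h1] with y c
  simp only [rat, Pi.smul_apply, smul_eq_mul, smul_smul, mul_inv, inv_inv]
  rw [mul_right_comm, mul_inv_cancel₀ c, one_mul]

end PLev2

open PLev2 in
theorem lev2 (h1 : KP) (h2 : Pos1) (h3 : Lev1) : Lev2 := by
  intro X _ _ 𝒜 S 𝒟 𝒟' M _ _ _ fl ch π cp ex rs hπ x hx U W 𝔉 oU xU sub lc only
  classical
  obtain ⟨D, P, pr, p0, p1, p2, p3⟩ := lc.fs.tup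
  have ne := cp.ne
  have lim : ∀ z, fl z ≤ 𝓝 x ↔ π z = x := fun z =>
    ⟨fun h => eq_of_nhds_neBot ((ne z).mono (le_inf (hπ z) h)), fun h => h ▸ hπ z⟩
  have pt : ∀ z, fl z ≤ 𝓝 x → ∃ d ∈ 𝒟', ∃ u ∈ d.P, fl z = d.F u := fun z hz => by
    obtain ⟨d, a, b⟩ := cp.cov z
    have c := cp.tgt d a ▸ (ch d).map_source b
    have e := cp.fl_symm d a _ c
    rw [(ch d).left_inv b] at e
    exact ⟨d, only d a _ c (e ▸ hz), _, c, e⟩
  have par : ∀ z, π z = x → ∃ H ∈ 𝔉, fl z ≤ H ∧ (H = fl z ∨ ∃ (r : ℕ) (e : Fin r → Pc X)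
      (α β : X → ℂ) (a b : Fin r → Fin 2 → ℕ), Chain 𝒟' H e α β a b) := fun z hz => by
    obtain ⟨d, a, u, b, c⟩ := pt z ((lim z).2 hz)
    rcases lc.par d a u b (c ▸ (lim z).2 hz) with e | ⟨H, e, f, g⟩
    · exact ⟨_, e, c.le, Or.inl c.symm⟩
    · exact ⟨H, e, c ▸ f, Or.inr g⟩
  have cK : IsClosed (π ⁻¹' {x}) := isClosed_singleton.preimage rs.cont
  have cH : ∀ H ∈ 𝔉, IsCompact {z | fl z ≤ H} := fun H hH => by
    refine (isOpen_compl_iff.1 (isOpen_iff_mem_nhds.2 fun z hz => ?_)).isCompact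
    by_cases a : π z = x
    · obtain ⟨H', b, c, -⟩ := par z a
      obtain ⟨s, d, t, e, f⟩ := Filter.disjoint_iff.1 ((lc.fs.eqd H' b H hH).resolve_left
        fun d => hz (d ▸ c))
      filter_upwards [(cp.op s).mem_nhds (c d)] with w g i
      exact (ne w).ne (empty_mem_iff_bot.1 (f.inter_eq ▸ inter_mem g (i e)))
    · filter_upwards [cK.isOpen_compl.mem_nhds a] with w g i
      exact g ((lim w).1 (i.trans (lc.fs.ne H hH).2.1))
  have pH : ∀ z, π z = x → ∀ H ∈ 𝔉, (H = fl z ∨ ∃ (r : ℕ) (e : Fin r → Pc X)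
      (α β : X → ℂ) (a b : Fin r → Fin 2 → ℕ), Chain 𝒟' H e α β a b) →
      Pos (Atl 𝒟 ch) {z | fl z ≤ H} := by
    rintro z hz H hH (rfl | ⟨r, e, α, β, a, b, c⟩)
    · rw [show {w | fl w ≤ fl z} = {z} from Subset.antisymm (fun w hw => ?_)
        (singleton_subset_iff.2 (le_refl (fl z)))]
      · exact h2 M _ rs.sp z
      have a := (lim z).2 hz
      obtain ⟨d, b, u, c, e⟩ := pt z a
      obtain ⟨d', b', u', c', e'⟩ := pt w (hw.trans a)
      have := ne w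
      exact cp.inj (EqD.eq (U := fl w) (e ▸ e' ▸ lc.eqd d' b' u' c' d b u c (e' ▸ hw.trans a)
        (e ▸ a)) le_rfl hw)
    · exact h3 X 𝒟 𝒟' M fl ch cp rs.sp sub H r e α β a b c
        (fun w hw => pt w (hw.trans (lc.fs.ne H hH).2.1)) (cH H hH)
  have an : ∀ (f : X → ℂ), (∀ y ∈ U, ContinuousAt f y ∧ An 𝒜 f y) → ∀ z, π z ∈ U →
      An (Atl 𝒟 ch) (f ∘ π) z := fun f hf z hz => rs.an f z (mem_of_superset (oU.mem_nhds hz) hf)
  have anP : ∀ z, π z ∈ U → An (Atl 𝒟 ch) (P ∘ π) z := fun z hz => an_pi.2 fun i =>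
    an (fun y => P y i) (fun y hy => ⟨continuousAt_pi.1 (p1 y hy).1 i,
      an_pi.1 (p1 y hy).2.1 i⟩) z hz
  let Q : M → Fin 3 → ℂ := fun z => ![1, pr (π z) 0, pr (π z) 1]
  have anQ : ∀ z, π z ∈ U → An (Atl 𝒟 ch) Q z := fun z hz => an_pi.2 fun i => by
    have a := fun k => an (fun y => pr y k) (fun y hy => ⟨continuousAt_pi.1 (p1 y hy).2.2.1 k,
      an_pi.1 (p1 y hy).2.2.2.1 k⟩) z hz
    fin_cases i
    exacts [fun _ _ _ => analyticAt_const, a 0, a 1]
  have Q0 : ∀ z, Q z ≠ 0 := fun z h => one_ne_zero (congrFun h 0)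
  have dn : ∀ z, ∃ᶠ w in 𝓝 z, π w ∉ S := fun z => by
    obtain ⟨e, a, b⟩ := (rs.sp.ch z).1 (notMem_empty z)
    obtain ⟨act, c⟩ := rs.nc e a
    have := (thin_axes (e z)).neBot
    refine ((e.tendsto_symm b).mono_left (nhdsWithin_le_nhds (s := axesᶜ))).frequently
      (Eventually.frequently ?_)
    filter_upwards [self_mem_nhdsWithin, mem_nhdsWithin_of_mem_nhds
      (e.open_target.mem_nhds (e.map_source b))] with u d f g
    obtain ⟨k, -, i⟩ := (c _ (e.map_target f)).1 g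
    rw [e.right_inv f] at i
    refine d (mul_eq_zero.2 ?_)
    fin_cases k
    exacts [Or.inl i, Or.inr i]
  refine h1 M _ rs.sp (π ⁻¹' {x}) (π ⁻¹' U) Bool (fun j => cond j D 3)
    (fun j => Bool.rec Q (P ∘ π) j) cK.isCompact (oU.preimage rs.cont)
    (preimage_mono (singleton_subset_iff.2 xU)) ?_ fun z hz => ?_
  · rintro (_ | _) y hy
    · exact ⟨anQ y hy, fun _ => Q0 y, .of_forall Q0⟩
    · exact ⟨anP y hy, fun a => ((p1 _ hy).2.2.2.2 a).1, ((dn y).and_eventually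
        ((oU.preimage rs.cont).mem_nhds hy)).mono fun w a =>
          ((p1 _ a.2).2.2.2.2 fun b => a.1 (b ▸ hx)).1⟩
  obtain ⟨H, a1, a2, a3⟩ := par z hz
  obtain ⟨i, s, b1, b2⟩ := p2 H a1
  obtain ⟨O, b3, b4⟩ := p3 H a1
  let O' := (O ∩ U) ∩ {y | P y i ≠ 0 ∧ ‖rat P i y‖ ≤ ‖s‖ + 1}
  have b5 : O' ∈ H := inter_mem (inter_mem b3 ((lc.fs.ne H a1).2.1 (oU.mem_nhds xU)))
    ((ne_ev b2 b1).and (b2.norm.eventually (ge_mem_nhds (lt_add_one _))))
  let N' := {w | O' ∈ fl w} ∩ π ⁻¹' U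
  have oN : IsOpen N' := (cp.op O').inter (oU.preimage rs.cont)
  have tl : ∀ w ∈ N', ∃ t, Tendsto (rat P i) (fl w) (𝓝 t) ∧ (π w = x → ∀ H' ∈ 𝔉, fl w ≤ H' →
      Tendsto (rat P i) H' (𝓝 t)) := fun w hw => by
    have := ne w
    have c : ∀ᶠ y in fl w, P y i ≠ 0 ∧ ‖rat P i y‖ ≤ ‖s‖ + 1 := mem_of_superset hw.1 fun y a => a.2
    by_cases d : π w = x
    · obtain ⟨H', e, f, -⟩ := par w d
      obtain ⟨i', s', g1, g2⟩ := p2 H' e
      have g3 := (change f g2 g1 c).2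
      exact ⟨_, g3.mono_left f, fun _ H'' l o => (lc.fs.eqd H' e H'' l).eq f o ▸ g3⟩
    · have e : Tendsto P (fl w) (𝓝 (P (π w))) := (p1 _ hw.2).1.tendsto.mono_left (hπ w)
      have f : P (π w) i ≠ 0 := fun f => ((p1 _ hw.2).2.2.2.2 d).1 (norm_le_zero_iff.1 (by
        have g := le_of_tendsto_of_tendsto e.norm ((tendsto_pi_nhds.1 e i).norm.mul_const
          (‖s‖ + 1)) (c.mono fun y a => (congrArg norm (smul_rat a.1)).trans_le ((norm_smul _ _).trans_le
            (mul_le_mul_of_nonneg_left a.2 (norm_nonneg _))))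
        rwa [f, norm_zero, zero_mul] at g))
      exact ⟨_, ((tendsto_pi_nhds.1 e i).inv₀ f).smul e, fun a => (d a).elim⟩
  choose! t t1 t2 using tl
  have zN : ∀ w, fl w ≤ H → w ∈ N' := fun w hw =>
    ⟨hw b5, mem_preimage.2 ((lim w).1 (hw.trans (lc.fs.ne H a1).2.1) ▸ xU)⟩
  have ts : ∀ w, fl w ≤ H → t w = s := fun w hw =>
    have := ne w
    tendsto_nhds_unique (t1 w (zN w hw)) (b2.mono_left hw)
  have eK : {y ∈ N' | ∀ j : Bool, (Bool.rec Q t j : M → Fin (cond j D 3) → ℂ) y =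
      (Bool.rec Q t j : M → Fin (cond j D 3) → ℂ) z} = {w | fl w ≤ H} := by
    refine Subset.antisymm (fun w ⟨c, d⟩ => ?_) fun w hw => ⟨zN w hw, ?_⟩
    · have e : π w = x := by_contra fun e => ((p1 _ c.2).2.2.2.2 e).2 (funext fun k => by
        have f : Q w = Q z := d false
        have g : π z = x := hz
        fin_cases k
        · simpa [Q, g, p0] using congrFun f 1
        · simpa [Q, g, p0] using congrFun f 2)
      obtain ⟨H', f, g, -⟩ := par w e
      have l : t w = s := (d true).trans (ts z a2)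
      exact b4 H' f (fun o => (ne w).ne (le_bot_iff.1 (o g (le_principal_iff.2 (mem_of_superset
        c.1 fun y a => a.1.1))))) i s b1 b2 (l ▸ t2 w c e H' f g) ▸ g
    · rintro (_ | _)
      · have e : π w = π z := ((lim w).1 (hw.trans (lc.fs.ne H a1).2.1)).trans hz.symm
        exact (by simp only [Q, e] : Q w = Q z)
      · exact (ts w hw).trans (ts z a2).symm
  refine ⟨N', fun j => Bool.rec Q t j, fun j => Bool.rec (0 : Fin 3) i j, oN, zN z a2,
    inter_subset_right, ?_, eK ▸ cH H a1, eK ▸ fun w hw => (lim w).1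
      (hw.trans (lc.fs.ne H a1).2.1), eK ▸ pH z hz H a1 a3⟩
  rintro (_ | _) y hy
  · exact ⟨anQ y hy.2, rfl, (one_smul ℂ _).symm⟩
  have := ne y
  have c : ∀ᶠ w in fl y, P w i ≠ 0 := mem_of_superset hy.1 fun w a => a.2.1
  have e : Tendsto P (fl y) (𝓝 (P (π y))) := (p1 _ hy.2).1.tendsto.mono_left (hπ y)
  refine ⟨an_pi.2 fun k => ex (fun w => rat P i w k) (fun w => t w k) N' O' oN (fun w hw => ?_)
    (fun w hw => ⟨hw.1, tendsto_pi_nhds.1 (t1 w hw) k⟩) y hy,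
    tendsto_nhds_unique (tendsto_pi_nhds.1 (t1 y hy) i)
      (tendsto_const_nhds.congr' (c.mono fun w a => (rat_self a).symm)),
    tendsto_nhds_unique e (((tendsto_pi_nhds.1 e i).smul (t1 y hy)).congr'
      (c.mono fun w a => (smul_rat a).symm))⟩
  intro f a b
  have g := fun l => an_pi.1 (p1 w hw.1.2).2.1 l f a b
  exact ((g i).inv (by simpa [f.left_inv b] using hw.2.1)).mul (g k)

end Pool.Agent.Lib.MP_356dfe_ag.R
end
end
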