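import Pool.Agent.Lib.MP_356dfe_ag.R.PRk

-- part Pool.Agent.Lib.MP_356dfe_ag.R.PFs
section

/-! Part Fs of the resolution of surface singularities. -/

set_option autoImplicit false

open Set Filter Topology Metric
open scoped ContDiff

noncomputable section

namespace Pool.Agent.Lib.MP_356dfe_ag.R

open S (E2)

theorem fsEx : FsEx := by
  intro X _ _ 𝒜 x Y pr ρ g cv 𝔅 𝔑 bs
  classical
  have pj := cv.prj
  have eq : ∀ H ∈ FF pr (Y ∩ pr ⁻¹' Bs ρ g) 𝔅, ∀ H' ∈ FF pr (Y ∩ pr ⁻¹' Bs ρ g) 𝔅, EqD H H' := by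
    rintro H ⟨G, a, b, c⟩ H' ⟨G', a', b', c'⟩
    rcases bs.eqd G a G' a' with rfl | d
    · exact b.eqd b'
    · exact Or.inr ((disjoint_comap_iff_map.2 (by
        rw [c]
        exact d) : Disjoint H (comap pr G')).mono_right (map_le_iff_le_comap.1 c'.le))
  obtain ⟨D, P, p1, p2, p3⟩ := bs.tup
  refine ⟨?_, eq, D, P ∘ pr, pr, (pj.zero x pj.xY).2 rfl, fun y hy => ?_, ?_, ?_⟩
  · rintro H ⟨G, a, ⟨b, -, C, c, d, -⟩, e⟩
    have f : Y ∩ pr ⁻¹' Bs ρ g ∈ H := mem_of_superset (le_principal_iff.1 (d ▸ inf_le_right)) c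
    refine ⟨b, le_iff_ultrafilter.2 fun 𝒰 h => ?_, f⟩
    obtain ⟨y, i, l⟩ := pj.cY.ultrafilter_le_nhds 𝒰
      (le_principal_iff.2 (mem_of_superset (h f) inter_subset_left))
    rwa [← (pj.zero y i).1 (tendsto_nhds_unique ((pj.hol y i).1.tendsto.mono_left l)
      (((map_mono h).trans e.le).trans (bs.le G a)))]
  · obtain ⟨a, b⟩ := pj.hol y hy.1
    obtain ⟨c, d⟩ := p1 _ (mem_ball_zero_iff.1 hy.2)
    exact ⟨c.continuousAt.comp a, b.comp c, a, b, fun e =>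
      ⟨d fun f => e ((pj.zero y hy.1).1 f), fun f => e ((pj.zero y hy.1).1 f)⟩⟩
  · rintro H ⟨G, a, -, rfl⟩
    exact p2 _ a
  · rintro H hH
    obtain ⟨G, a, ⟨b, -, C, -, d, -⟩, e⟩ := id hH
    have : G.NeBot := e ▸ b.map pr
    have f : {G' ∈ 𝔅 | G' ≠ G ∧ ∃ i s, s i = 1 ∧ Tendsto (rat P i) G (𝓝 s) ∧
        Tendsto (rat P i) G' (𝓝 s)}.Finite := by
      refine (finite_iUnion fun i : Fin D => show {G' ∈ 𝔅 | ∃ s, s i = 1 ∧
        Tendsto (rat P i) G (𝓝 s) ∧ Tendsto (rat P i) G' (𝓝 s)}.Finite from ?_).subset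
        fun G' ⟨h, _, i, l⟩ => mem_iUnion.2 ⟨i, h, l⟩
      by_cases h : ∃ s, s i = 1 ∧ Tendsto (rat P i) G (𝓝 s)
      · obtain ⟨s, h, l⟩ := h
        exact (p3 i s h).subset fun G' ⟨o, s', _, q, r⟩ => ⟨o, tendsto_nhds_unique q l ▸ r⟩
      · exact finite_empty.subset fun G' ⟨_, s, o, q, _⟩ => h ⟨s, o, q⟩
    have h : ∀ G' ∈ 𝔅, G' ≠ G → ∃ t ∈ G, tᶜ ∈ G' := fun G' h l => by
      obtain ⟨s, o, t, q, r⟩ := Filter.disjoint_iff.1 ((bs.eqd G' h G a).resolve_left l)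
      exact ⟨t, q, mem_of_superset o r.subset_compl_right⟩
    choose! t t1 t2 using h
    refine ⟨C ∩ pr ⁻¹' ⋂ G' ∈ _, t G', inter_mem (le_principal_iff.1 (d ▸ inf_le_right))
      (e.le ((biInter_mem f).2 fun G' h => t1 G' h.1 h.2.1)), fun H' hH' nd i s l o q => ?_⟩
    obtain ⟨G', a', -, e'⟩ := id hH'
    have r : G' = G := by_contra fun r => nd (Filter.disjoint_iff.2 ⟨_, e'.le (t2 G' a' r), _,
      mem_principal_self _, disjoint_left.2 fun y u v => u (mem_iInter₂.1 v.2 G'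
        ⟨a', r, i, s, l, e ▸ o, e' ▸ q⟩)⟩)
    refine (eq H' hH' H hH).resolve_right fun u => nd ?_
    rw [disjoint_iff_inf_le] at u ⊢
    refine le_trans (le_inf inf_le_left (d ▸ le_inf (inf_le_left.trans
      (map_le_iff_le_comap.1 (e'.trans r).le)) (inf_le_right.trans
        (principal_mono.2 inter_subset_left)))) u

end Pool.Agent.Lib.MP_356dfe_ag.R
end
end

-- part Pool.Agent.Lib.MP_356dfe_ag.R.PSh
section

/-! Part Sh of the resolution of surface singularities. -/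

set_option autoImplicit false

open Set Filter Topology Metric
open scoped ContDiff

noncomputable section

namespace Pool.Agent.Lib.MP_356dfe_ag.R

open S (E2)

theorem shEx (he : ExpF) (hl : LiftS) (h1 : FsEx) (h2 : TGEx) (h3 : GGEx) : ShEx := by
  intro X _ _ 𝒜 x Y pr ρ g cv 𝔅 𝔑 bs
  classical
  have pj := cv.prj
  have cT : ∀ R, Convex ℝ (LT R) := fun R => by
    rw [show LT R = ⋂ k, {ξ : E2 | (ξ k).re < -R} from by ext; simp [LT]]
    exact convex_iInter fun k => convex_halfSpace_lt (f := fun ξ : E2 => (ξ k).re)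
      ⟨fun _ _ => rfl, fun _ _ => by simp⟩ _
  have cG : ∀ R, Convex ℝ (LG R) := fun R => by
    rw [show LG R = {ξ : E2 | (ξ 0).re < -R} ∩ (fun ξ : E2 => ξ 1) ⁻¹' ball 0 (Real.exp (-R))
      from by ext; simp [LG]]
    exact (convex_halfSpace_lt (f := fun ξ : E2 => (ξ 0).re)
      ⟨fun _ _ => rfl, fun _ _ => by simp⟩ _).inter
      ((convex_ball _ _).is_linear_preimage ⟨fun _ _ => rfl, fun _ _ => rfl⟩)
  have fin : ∀ (L : Set E2) (κ : E2 → E2), Convex ℝ L → ContinuousOn κ L → MapsTo κ L (Bs ρ g) →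
      ∀ {β : Type} (Ψ : (E2 → X) → β), (∀ a b, EqOn a b L → Ψ a = Ψ b) →
      (Ψ '' {lam | Lf pr Y L κ lam}).Finite := fun L κ a b c β Ψ d => by
    rcases L.eq_empty_or_nonempty with rfl | ⟨ξ, e⟩
    · exact (finite_singleton (Ψ fun _ => x)).subset (by
        rintro _ ⟨l, -, rfl⟩
        exact d _ _ (eqOn_empty _ _))
    have f : ∀ y : X, ∃ o, ∀ lam, Lf pr Y L κ lam → lam ξ = y → Ψ lam = o := fun y => by
      by_cases h : ∃ lam, Lf pr Y L κ lam ∧ lam ξ = y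
      · obtain ⟨l, h, i⟩ := h
        exact ⟨Ψ l, fun l' m o => d _ _ ((hl X E2 E2 pr Y _ cv.cov L κ b c).2 a.isPreconnected l' l
          m.1 h.1 m.2.1 h.2.1 m.2.2 h.2.2 ξ e (o.trans i.symm))⟩
      · exact ⟨Ψ fun _ => x, fun l m o => (h ⟨l, m, o⟩).elim⟩
    choose f h using f
    refine ((pj.fin (κ ξ)).image f).subset ?_
    rintro _ ⟨l, m, rfl⟩
    exact ⟨l ξ, ⟨m.2.1 e, m.2.2 ξ e⟩, (h _ l m rfl).symm⟩
  have ul : ∀ (L : Set E2) (κ : E2 → E2) (F : Filter E2) (𝒰 : Ultrafilter X), Convex ℝ L →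
      (∀ ξ ∈ L, LB κ ξ) → MapsTo κ L (Bs ρ g) → L ∈ F → Y ∈ 𝒰 → map pr 𝒰 ≤ map κ F →
      ∃ lam, Lf pr Y L κ lam ∧ ↑𝒰 ≤ comap pr (map κ F) ⊓ 𝓟 (lam '' L) :=
      fun L κ F 𝒰 a b c d e f => by
    have b' : ContinuousOn κ L := fun ξ h => (b ξ h).1.continuousAt.continuousWithinAt
    obtain ⟨_, ⟨l, m, rfl⟩, o⟩ := (Ultrafilter.finite_sUnion_mem_iff (f := 𝒰)
      (fin L κ a b' c (· '' L) fun _ _ h => h.image_eq)).1 (by
        filter_upwards [e, f (image_mem_map d)] with y h ⟨ξ, i, l⟩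
        obtain ⟨m, o1, o2, o3, o4⟩ := (hl X E2 E2 pr Y _ cv.cov L κ b' c).1 a ξ i y h l.symm
        exact ⟨_, ⟨m, ⟨o1, o2, o3⟩, rfl⟩, ξ, i, o4⟩)
    exact ⟨l, m, le_inf (map_le_iff_le_comap.1 f) (le_principal_iff.2 o)⟩
  choose! n κ R act bt nd using bs.bt
  refine ⟨_, ⋃ G ∈ 𝔑, (fun lam => map lam FT) '' {lam | Lf pr Y (LT (R G)) (κ G) lam},
    isOpen_iff_mem_nhds.2 fun y hy => inter_mem (pj.int y hy.1 hy.2.1.le) ((pj.hol y hy.1).1
      (inter_mem (continuous_norm.continuousAt.eventually_lt_const hy.2.1)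
        ((cv.ang _ hy.2.1.le).continuousAt.eventually_ne hy.2.2))),
    fun y hy => ⟨⟨hy.1, mem_ball_zero_iff.2 hy.2.1⟩, fun a => hy.2.2 ?_⟩,
    h1 X 𝒜 x Y pr ρ g cv 𝔅 𝔑 bs, bs.fin.biUnion fun G a => fin _ _ (cT _)
      (fun ξ h => ((bt G a).lb ξ h).1.continuousAt.continuousWithinAt) (bt G a).maps _
      fun _ _ h => map_congr (mem_of_superset (he.bt.2.mem_of_mem trivial) h),
    fun H a => ?_, fun 𝒰 a b => ?_⟩
  · rw [(pj.zero y hy.1).2 a, cv.g0]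
  · obtain ⟨G, c, l, m, rfl⟩ := mem_iUnion₂.1 a
    obtain ⟨Λ, b⟩ := (h2 X 𝒜 x Y pr ρ g cv 𝔅 _ _ _ _ (bt G c) l m).1
    exact ⟨_, l, _, Λ, _, b, rfl⟩
  have c : Y ∈ 𝒰 := 𝒰.1.sets_of_superset a inter_subset_left
  rcases bs.ult (𝒰.map pr) (𝒰.1.sets_of_superset a inter_subset_right)
    ((pj.zero x pj.xY).2 rfl ▸ (pj.hol x pj.xY).1.tendsto.mono_left b) with ⟨G, d, e⟩ | ⟨n, κ, R, d, e⟩
  · obtain ⟨l, m, o⟩ := ul _ _ FT 𝒰 (cT _) (bt G d).lb (bt G d).maps (he.bt.2.mem_of_mem trivial) c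
      (e.trans (nd G d).ge)
    exact Or.inl ⟨_, mem_iUnion₂.2 ⟨G, d, l, m, rfl⟩,
      o.trans (h2 X 𝒜 x Y pr ρ g cv 𝔅 _ _ _ _ (bt G d) l m).2.ge⟩
  · obtain ⟨l, m, o⟩ := ul _ _ (FA 0 0) 𝒰 (cG R) d.lb d.maps (mem_of_superset
      ((he.ba 0 0).2.mem_of_mem (i := (R, Real.exp (-R))) (Real.exp_pos _))
        fun ξ h => ⟨h.1, by simpa using h.2⟩) c e
    obtain ⟨⟨p, q⟩, r⟩ := h3 X 𝒜 x Y pr ρ g cv 𝔅 n κ R d l m
    exact Or.inr ⟨n, l, R, p, q, o.trans r.ge⟩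

end Pool.Agent.Lib.MP_356dfe_ag.R
end
end

-- part Pool.Agent.Lib.MP_356dfe_ag.R.PTC1
section

/-! Part TC1 of the resolution of surface singularities. -/

set_option autoImplicit false

open Set Filter Topology Metric
open scoped ContDiff

noncomputable section

namespace Pool.Agent.Lib.MP_356dfe_ag.R

open S (E2)

namespace PTC1

variable {n : ℕ} {v w : Fin 2 → ℤ} {Λ : AddSubgroup (Fin 2 → ℤ)} {R : ℝ} {η η' u : E2}

/-- the linear change of coordinates -/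
def lin (n : ℕ) (v w : Fin 2 → ℤ) (η : E2) : E2 := fun k => (v k * η 0 + w k * η 1) / n

/-- the logarithm in both coordinates -/
def lg (u : E2) : E2 := fun k => Complex.log (u k)

theorem ex_lg (hu : u ∉ axes) : ex2 (lg u) = u := funext fun k => Complex.exp_log (by
  have := mul_ne_zero_iff.1 hu
  fin_cases k
  exacts [this.1, this.2])

theorem exp_lin (hn : 0 < n) (h : Bz Λ v w) (η : E2) (k : Fin 2) :
    Complex.exp (n * lin n v w η k) = mon ![(v k).toNat, (w k).toNat] (ex2 η) := by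
  have n0 : (n : ℂ) ≠ 0 := by exact_mod_cast hn.ne'
  have c : ∀ a : ℤ, 0 ≤ a → (a : ℂ) = (a.toNat : ℕ) := fun a ha => by
    exact_mod_cast (Int.toNat_of_nonneg ha).symm
  rw [lin, mul_div_cancel₀ _ n0, Complex.exp_add, c _ (h.nn k).1, c _ (h.nn k).2,
    Complex.exp_nat_mul, Complex.exp_nat_mul]
  rfl

theorem lin_mem (hn : 0 < n) (h : Bz Λ v w)
    (hP : ∀ k, ‖mon ![(v k).toNat, (w k).toNat] (ex2 η)‖ < Real.exp (-(n * R))) :
    lin n v w η ∈ LT R := fun k => by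
  have h1 := hP k
  have n0 : (0 : ℝ) < n := by exact_mod_cast hn
  rw [← exp_lin hn h, Complex.norm_exp, Real.exp_lt_exp] at h1
  simp only [Complex.mul_re, Complex.natCast_re, Complex.natCast_im, zero_mul, sub_zero] at h1
  nlinarith

theorem lin_add (a b : ℤ) (h0 : η' 0 = η 0 + a * (2 * Real.pi * Complex.I))
    (h1 : η' 1 = η 1 + b * (2 * Real.pi * Complex.I)) :
    lin n v w η' = lin n v w η + tv n (a • v + b • w) := by
  funext k
  simp only [lin, tv, h0, h1, Pi.add_apply, Pi.smul_apply, smul_eq_mul]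
  push_cast
  ring

theorem lin_inj (hn : 0 < n) (h : Bz Λ v w) (e : lin n v w η = lin n v w η') : η = η' := by
  have n0 : (n : ℂ) ≠ 0 := by exact_mod_cast hn.ne'
  have d0 : (v 0 * w 1 - v 1 * w 0 : ℂ) ≠ 0 := by exact_mod_cast h.pos.ne'
  have e0 := (div_left_inj' n0).1 (congrFun e 0)
  have e1 := (div_left_inj' n0).1 (congrFun e 1)
  funext k
  fin_cases k
  · exact mul_left_cancel₀ d0 (by
      change _ * η 0 = _ * η' 0
      linear_combination w 1 * e0 - w 0 * e1)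
  · exact mul_left_cancel₀ d0 (by
      change _ * η 1 = _ * η' 1
      linear_combination v 0 * e1 - v 1 * e0)

theorem lb_lin (hn : 0 < n) (h : Bz Λ v w) (η : E2) : LB (lin n v w) η := by
  let L : E2 →ₗ[ℂ] E2 :=
    { toFun := lin n v w
      map_add' := fun a b => funext fun k => by simp only [lin, Pi.add_apply]; ring
      map_smul' := fun c a => funext fun k => by
        simp only [lin, Pi.smul_apply, smul_eq_mul, RingHom.id_apply]; ring }
  have e : lin n v w = LinearMap.toContinuousLinearMap L := rfl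
  refine ⟨e ▸ ContinuousLinearMap.analyticAt _ _, ?_⟩
  rw [e, ContinuousLinearMap.fderiv]
  exact fun a b k => lin_inj hn h k

end PTC1

open PTC1 in
theorem tc1 (he : ExpF) : TC1 := by
  intro X _ 𝒜 x U W 𝔉 n lam R Λ act T v w hB
  have hn := T.pos
  have mem : ∀ {v w}, Bz Λ v w → ∀ u ∈ (tc n lam R v w).P \ axes, lin n v w (lg u) ∈ LT R :=
    fun h u hu => lin_mem hn h (by rw [ex_lg hu.2]; exact hu.1)
  have oP : IsOpen (tc n lam R v w).P := by
    simp only [tc, ofPred_forall]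
    exact isOpen_iInter_of_finite fun k => isOpen_lt (continuous_iff_continuousAt.2 fun p =>
      (an_mon _ p).continuousAt).norm continuous_const
  have oA : IsOpen ((tc n lam R v w).P \ axes) :=
    oP.sdiff (isClosed_eq (f := fun u : E2 => u 0 * u 1) (by fun_prop) continuous_const)
  refine ⟨⟨oP, oA, fun u _ => thin_axes u, fun u hu => T.maps (mem hB u hu),
    fun u hu u' hu' e => ?_, fun u hu => ?_⟩, ?_, ?_⟩
  · obtain ⟨m, h1, h2⟩ := (T.fib _ (mem hB u hu) _ (mem hB u' hu')).1 e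
    obtain ⟨a, b, rfl⟩ := (hB.mem m).1 h1
    have h3 := lin_inj hn hB (h2.trans (lin_add (η' := fun k => lg u k + (![a, b] k : ℤ) *
      (2 * Real.pi * Complex.I)) a b rfl rfl).symm)
    rw [← ex_lg hu.2, ← ex_lg hu'.2, h3]
    funext k
    exact (Complex.exp_periodic.int_mul _ _).symm
  · obtain ⟨g, g1, g2, g3⟩ := (he.lb2 (lg u)).inv
    have g4 := g2.self_of_nhds
    rw [ex_lg hu.2] at g1 g3 g4
    have g5 : LB (lin n v w ∘ g) u := LB.comp (lb_lin hn hB _) g1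
    refine (LBI.comp (c := lam) (T.lb _ (by
      rw [Function.comp_apply, g4]; exact mem hB u hu)) g5).congr ?_
    filter_upwards [g3, oA.mem_nhds hu] with u' a1 a2
    have a3 : ∀ k, Complex.exp (lg u' k) = Complex.exp (g u' k) := fun k =>
      congrFun ((ex_lg a2.2).trans a1.symm) k
    obtain ⟨a, ha⟩ := Complex.exp_eq_exp_iff_exists_int.1 (a3 0)
    obtain ⟨b, hb⟩ := Complex.exp_eq_exp_iff_exists_int.1 (a3 1)
    exact (T.fib _ (lin_mem hn hB (by rw [a1]; exact a2.1)) _ (mem hB u' a2)).2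
      ⟨_, (hB.mem _).2 ⟨a, b, rfl⟩, lin_add a b ha hb⟩
  · rintro _ ⟨u, hu, rfl⟩
    exact ⟨_, mem hB u hu, rfl⟩
  have key : ∀ ξ ∈ LT R, ∀ k, Complex.exp (n * Function.invFunOn lam (LT R) (lam ξ) k) =
      Complex.exp (n * ξ k) := fun ξ hξ k => by
    have n0 : (n : ℂ) ≠ 0 := by exact_mod_cast hn.ne'
    obtain ⟨h1, h2⟩ := Function.invFunOn_pos (f := lam) ⟨ξ, hξ, rfl⟩
    obtain ⟨m, -, h3⟩ := (T.fib _ hξ _ h1).1 h2.symm
    rw [h3, Complex.exp_eq_exp_iff_exists_int]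
    refine ⟨m k, ?_⟩
    simp only [tv, Pi.add_apply]
    field_simp
  refine ⟨fun y => Complex.exp (n * Function.invFunOn lam (LT R) y 0),
    fun y => Complex.exp (n * Function.invFunOn lam (LT R) y 1),
    fun ξ hξ => ⟨key ξ hξ 0, key ξ hξ 1⟩, fun v w h u hu => ?_⟩
  have h1 := fun k => (key _ (mem h u hu) k).trans (exp_lin hn h _ k)
  rw [ex_lg hu.2] at h1
  exact ⟨h1 0, h1 1⟩

end Pool.Agent.Lib.MP_356dfe_ag.R
end
end

-- part Pool.Agent.Lib.MP_356dfe_ag.R.PTC3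
section

/-! Part TC3 of the resolution of surface singularities. -/

set_option autoImplicit false

open Set Filter Topology Metric
open scoped ContDiff

noncomputable section

namespace Pool.Agent.Lib.MP_356dfe_ag.R

open S (E2)

namespace PTC3

/-- monomial transition maps -/
def T (a b c d : ℤ) (y : E2) : E2 := ![y 0 ^ a * y 1 ^ c, y 0 ^ b * y 1 ^ d]

variable {X : Type} [TopologicalSpace X] {𝒜 : OC X → Prop} {x : X} {U W : Set X}
  {𝔉 : Set (Filter X)} {n : ℕ} {lam : E2 → X} {R : ℝ} {Λ : AddSubgroup (Fin 2 → ℤ)}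
  {act : Finset (Fin 2)} {v w v' w' : Fin 2 → ℤ} {a b c d : ℤ} {y u u' : E2}

theorem ne_iff : y ∉ axes ↔ y 0 ≠ 0 ∧ y 1 ≠ 0 := mul_ne_zero_iff

theorem T_ne (hy : y ∉ axes) : T a b c d y ∉ axes := by
  obtain ⟨h0, h1⟩ := ne_iff.1 hy
  exact ne_iff.2 ⟨mul_ne_zero (zpow_ne_zero _ h0) (zpow_ne_zero _ h1),
    mul_ne_zero (zpow_ne_zero _ h0) (zpow_ne_zero _ h1)⟩

theorem coef (h : Bz Λ v w) (h' : Bz Λ v' w') :
    ∃ a b c d : ℤ, v' = a • v + b • w ∧ w' = c • v + d • w := by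
  obtain ⟨a, b, h1⟩ := (h.mem v').1 ((h'.mem v').2 ⟨1, 0, by simp⟩)
  obtain ⟨c, d, h2⟩ := (h.mem w').1 ((h'.mem w').2 ⟨0, 1, by simp⟩)
  exact ⟨a, b, c, d, h1, h2⟩

theorem mon_eq {p q : ℤ} (hp : 0 ≤ p) (hq : 0 ≤ q) (y : E2) :
    mon ![p.toNat, q.toNat] y = y 0 ^ p * y 1 ^ q := by
  simp only [mon, Matrix.cons_val_zero, Matrix.cons_val_one, ← zpow_natCast,
    Int.toNat_of_nonneg hp, Int.toNat_of_nonneg hq]

theorem exp_lin (hy : y ∉ axes) (p q : ℤ) :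
    Complex.exp (p * Complex.log (y 0) + q * Complex.log (y 1)) = y 0 ^ p * y 1 ^ q := by
  obtain ⟨h0, h1⟩ := ne_iff.1 hy
  rw [Complex.exp_add, Complex.exp_int_mul, Complex.exp_int_mul, Complex.exp_log h0,
    Complex.exp_log h1]

theorem mem_LT (hn : 0 < n) (h : Bz Λ v w) (hy : y ∈ (tc n lam R v w).P \ axes) :
    (fun k => (v k * Complex.log (y 0) + w k * Complex.log (y 1)) / n) ∈ LT R := by
  intro k
  have h1 := hy.1 k
  rw [mon_eq (h.nn k).1 (h.nn k).2, ← exp_lin hy.2, Complex.norm_exp, Real.exp_lt_exp] at h1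
  have h2 : (0 : ℝ) < n := by exact_mod_cast hn
  simp only [Complex.div_natCast_re]
  rw [div_lt_iff₀ h2]
  linarith

theorem tr (hT : TG 𝒜 x U W 𝔉 n lam R Λ act) (h : Bz Λ v w) (h' : Bz Λ v' w')
    (e1 : v' = a • v + b • w) (e2 : w' = c • v + d • w) (hy : y ∈ (tc n lam R v' w').P \ axes) :
    T a b c d y ∈ (tc n lam R v w).P \ axes ∧
      (tc n lam R v w).c (T a b c d y) = (tc n lam R v' w').c y := by
  obtain ⟨h0, h1⟩ := ne_iff.1 hy.2
  have f1 : ∀ k, v' k = a * v k + b * w k := fun k => by simp [e1]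
  have f2 : ∀ k, w' k = c * v k + d * w k := fun k => by simp [e2]
  have k1 : T a b c d y ∈ (tc n lam R v w).P \ axes := by
    refine ⟨fun k => ?_, T_ne hy.2⟩
    have := hy.1 k
    rw [mon_eq (h'.nn k).1 (h'.nn k).2, f1, f2] at this
    rw [mon_eq (h.nn k).1 (h.nn k).2]
    convert this using 2
    simp only [T, Matrix.cons_val_zero, Matrix.cons_val_one, mul_zpow, ← zpow_mul, zpow_add₀ h0,
      zpow_add₀ h1]
    ring
  refine ⟨k1, ?_⟩
  obtain ⟨g0, g1⟩ := ne_iff.1 k1.2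
  obtain ⟨m0, p0⟩ := Complex.exp_eq_exp_iff_exists_int.1
    ((Complex.exp_log g0).trans (exp_lin hy.2 a c).symm)
  obtain ⟨m1, p1⟩ := Complex.exp_eq_exp_iff_exists_int.1
    ((Complex.exp_log g1).trans (exp_lin hy.2 b d).symm)
  refine ((hT.fib _ (mem_LT hT.pos h' hy) _ (mem_LT hT.pos h k1)).2
    ⟨m0 • v + m1 • w, (h.mem _).2 ⟨m0, m1, rfl⟩, funext fun k => ?_⟩).symm
  simp only [Pi.add_apply, tv, p0, p1, f1, f2, Pi.smul_apply, smul_eq_mul]
  push_cast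
  ring

theorem F_eq (hT : TG 𝒜 x U W 𝔉 n lam R Λ act) (h : Bz Λ v w) (h' : Bz Λ v' w')
    (e1 : v' = a • v + b • w) (e2 : w' = c • v + d • w) (ok' : (tc n lam R v' w').Ok 𝒜 W)
    (hu' : u' ∈ (tc n lam R v' w').P) : (tc n lam R v' w').F u' =
      map (tc n lam R v w).c (map (T a b c d) (𝓝[axesᶜ] u')) := by
  rw [map_map]
  exact map_congr ((ok'.ev hu').mono fun y hy => (tr hT h h' e1 e2 hy).2.symm)

theorem common (hT : TG 𝒜 x U W 𝔉 n lam R Λ act) (h : Bz Λ v w) (h' : Bz Λ v' w')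
    (e1 : v' = a • v + b • w) (e2 : w' = c • v + d • w) (ok : (tc n lam R v w).Ok 𝒜 W)
    (ok' : (tc n lam R v' w').Ok 𝒜 W) (hu : u ∈ (tc n lam R v w).P)
    (hu' : u' ∈ (tc n lam R v' w').P)
    (hd : ¬ Disjoint ((tc n lam R v w).F u) ((tc n lam R v' w').F u')) :
    ∃ L : Filter E2, L.NeBot ∧ L ≤ 𝓝 u' ∧ Tendsto (T a b c d) L (𝓝 u) ∧ ∀ᶠ y in L, y ∉ axes := by
  refine ⟨comap (T a b c d) (𝓝[axesᶜ] u) ⊓ 𝓝[axesᶜ] u', ⟨fun hb => hd ?_⟩,
    inf_le_right.trans nhdsWithin_le_nhds,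
    (tendsto_comap.mono_left inf_le_left).mono_right nhdsWithin_le_nhds,
    mem_inf_of_right self_mem_nhdsWithin⟩
  have h1 : (tc n lam R v w).P \ axes ∈ map (T a b c d) (𝓝[axesᶜ] u') :=
    (ok'.ev hu').mono fun y hy => (tr hT h h' e1 e2 hy).1
  rw [disjoint_iff, F_eq hT h h' e1 e2 ok' hu', Pc.F, ← map_inf' (ok.ev hu) h1 ok.inj]
  change map _ (𝓝[axesᶜ] u ⊓ _) = ⊥
  rw [← Filter.push_pull', hb, map_bot, map_bot]

theorem cont (h0 : u 0 ≠ 0 ∨ 0 ≤ a ∧ 0 ≤ b) (h1 : u 1 ≠ 0 ∨ 0 ≤ c ∧ 0 ≤ d) :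
    ContinuousAt (T a b c d) u := by
  have k : ∀ (i : Fin 2) (m : ℤ), u i ≠ 0 ∨ 0 ≤ m → ContinuousAt (fun y : E2 => y i ^ m) u :=
    fun i m h => (continuous_apply i).continuousAt.zpow₀ m h
  refine continuousAt_pi.2 fun i => ?_
  fin_cases i
  · exact (k 0 a (h0.imp_right And.left)).mul (k 1 c (h1.imp_right And.left))
  · exact (k 0 b (h0.imp_right And.right)).mul (k 1 d (h1.imp_right And.right))

theorem le (hT : TG 𝒜 x U W 𝔉 n lam R Λ act) (h : Bz Λ v w) (h' : Bz Λ v' w')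
    (e1 : v' = a • v + b • w) (e2 : w' = c • v + d • w) (ok : (tc n lam R v w).Ok 𝒜 W)
    (ok' : (tc n lam R v' w').Ok 𝒜 W) (hu : u ∈ (tc n lam R v w).P)
    (hu' : u' ∈ (tc n lam R v' w').P)
    (hd : ¬ Disjoint ((tc n lam R v w).F u) ((tc n lam R v' w').F u'))
    (hc : ContinuousAt (T a b c d) u') :
    T a b c d u' = u ∧ (tc n lam R v' w').F u' ≤ (tc n lam R v w).F u := by
  obtain ⟨L, l0, l1, l2, -⟩ := common hT h h' e1 e2 ok ok' hu hu' hd
  have k : T a b c d u' = u := tendsto_nhds_unique (hc.tendsto.mono_left l1) l2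
  refine ⟨k, ?_⟩
  rw [F_eq hT h h' e1 e2 ok' hu']
  exact map_mono (tendsto_nhdsWithin_iff.2 ⟨k ▸ hc.tendsto.mono_left nhdsWithin_le_nhds,
    eventually_mem_nhdsWithin.mono fun y hy => T_ne hy⟩)

theorem main (hT : TG 𝒜 x U W 𝔉 n lam R Λ act) (h : Bz Λ v w) (h' : Bz Λ v' w')
    (ok : (tc n lam R v w).Ok 𝒜 W) (ok' : (tc n lam R v' w').Ok 𝒜 W)
    (hu : u ∈ (tc n lam R v w).P) (hu' : u' ∈ (tc n lam R v' w').P)
    (d1 : 0 ≤ dz w v') (d2 : 0 < dz w w') (d3 : 0 < dz v v') :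
    EqD ((tc n lam R v w).F u) ((tc n lam R v' w').F u') := by
  refine or_iff_not_imp_right.2 fun hd => ?_
  obtain ⟨a, b, c, d, e1, e2⟩ := coef h h'
  obtain ⟨a', b', c', d', e3, e4⟩ := coef h' h
  have p := h.pos
  have p' := h'.pos
  have q1 : dz w v' = -a * dz v w := by simp only [e1, dz, Pi.add_apply, Pi.smul_apply, smul_eq_mul]; ring
  have q2 : dz w w' = -c * dz v w := by simp only [e2, dz, Pi.add_apply, Pi.smul_apply, smul_eq_mul]; ring
  have q3 : dz v v' = b * dz v w := by simp only [e1, dz, Pi.add_apply, Pi.smul_apply, smul_eq_mul]; ring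
  have q4 : dz w w' = c' * dz v' w' := by
    simp only [e4, dz, Pi.add_apply, Pi.smul_apply, smul_eq_mul]; ring
  have q5 : dz w v' = -d' * dz v' w' := by
    simp only [e4, dz, Pi.add_apply, Pi.smul_apply, smul_eq_mul]; ring
  have ha : 0 ≤ -a := le_of_mul_le_mul_right (by linarith) p
  have hc : 0 < -c := lt_of_mul_lt_mul_right (by linarith) p.le
  have hb : 0 < b := lt_of_mul_lt_mul_right (by linarith) p.le
  have hc' : 0 < c' := lt_of_mul_lt_mul_right (by linarith) p'.le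
  obtain ⟨L, l0, l1, l2, l3⟩ := common hT h h' e1 e2 ok ok' hu hu' hd
  have k : u 0 * (u' 0 ^ (-a) * u' 1 ^ (-c)) = 1 := by
    have t1 : Tendsto (fun y => T a b c d y 0 * T (-a) 0 (-c) 0 y 0) L
        (𝓝 (u 0 * (u' 0 ^ (-a) * u' 1 ^ (-c)))) :=
      (tendsto_pi_nhds.1 l2 0).mul (tendsto_pi_nhds.1 ((cont (u := u') (Or.inr ⟨ha, le_rfl⟩)
        (Or.inr ⟨hc.le, le_rfl⟩)).tendsto.mono_left l1) 0)
    refine tendsto_nhds_unique t1 (tendsto_const_nhds.congr' (l3.mono fun y hy => ?_))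
    obtain ⟨h0, h1⟩ := ne_iff.1 hy
    have := zpow_ne_zero a h0
    have := zpow_ne_zero c h1
    simp only [T, Matrix.cons_val_zero, zpow_neg]
    field_simp
  have n0 : u 0 ≠ 0 := left_ne_zero_of_mul_eq_one k
  have n1 := right_ne_zero_of_mul_eq_one k
  have n2 : u' 1 ≠ 0 := fun e => right_ne_zero_of_mul n1 (by rw [e, zero_zpow _ hc.ne'])
  have n3 : u' 0 ≠ 0 ∨ a = 0 := or_iff_not_imp_right.2 fun e e' =>
    left_ne_zero_of_mul n1 (by rw [e', zero_zpow _ (neg_ne_zero.2 e)])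
  obtain ⟨r1, r2⟩ := le hT h h' e1 e2 ok ok' hu hu' hd
    (cont (n3.imp_right fun e => ⟨e.ge, hb.le⟩) (Or.inl n2))
  refine le_antisymm (le hT h' h e3 e4 ok' ok hu' hu (fun e => hd e.symm)
    (cont (Or.inl n0) (n3.imp (fun e => ?_) fun e => ⟨hc'.le, ?_⟩))).2 r2
  · exact r1 ▸ (ne_iff.1 (T_ne (ne_iff.2 ⟨e, n2⟩))).2
  · rw [e, q5] at q1
    have : d' * dz v' w' = 0 := by linarith
    exact ((mul_eq_zero.1 this).resolve_right p'.ne').ge

end PTC3

theorem tc3 (h1 : TC1) : TC3 := by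
  intro X _ 𝒜 x U W 𝔉 n lam R Λ act hT r v hF i hi j hj u hu u' hu'
  have ok := fun k (hk : k < r) => (h1 X 𝒜 x U W 𝔉 n lam R Λ act hT _ _ (hF.bz k hk)).1
  have key : ∀ i < r, ∀ j < r, i < j → ∀ u ∈ (tc n lam R (v i) (v (i + 1))).P,
      ∀ u' ∈ (tc n lam R (v j) (v (j + 1))).P,
        EqD ((tc n lam R (v i) (v (i + 1))).F u) ((tc n lam R (v j) (v (j + 1))).F u') := by
    intro i hi j hj hij u hu u' hu'
    refine PTC3.main hT (hF.bz i hi) (hF.bz j hj) (ok i hi) (ok j hj) hu hu' ?_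
      (hF.mono _ _ (by omega) (by omega)) (hF.mono _ _ hij hj.le)
    rcases (Nat.succ_le_of_lt hij).eq_or_lt with e | e
    · rw [← e, dz, mul_comm, sub_self]
    · exact (hF.mono _ _ e hj.le).le
  rcases lt_trichotomy i j with h | rfl | h
  · exact key i hi j hj h u hu u' hu'
  · by_cases e : u = u'
    · exact Or.inl (by rw [e])
    · exact Or.inr ((ok i hi).disj hu hu' e)
  · exact (key j hj i hi h u' hu' u hu).symm

end Pool.Agent.Lib.MP_356dfe_ag.R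
end
end

-- part Pool.Agent.Lib.MP_356dfe_ag.R.PTC4
section

/-! Part TC4 of the resolution of surface singularities. -/

set_option autoImplicit false

open Set Filter Topology Metric
open scoped ContDiff

noncomputable section

namespace Pool.Agent.Lib.MP_356dfe_ag.R

open S (E2)

namespace PTC4

theorem ivt (D : ℕ → ℝ) (h0 : 0 ≤ D 0) (r : ℕ) (h : D (r + 1) ≤ 0) :
    ∃ j < r + 1, 0 ≤ D j ∧ D (j + 1) ≤ 0 := by
  induction r with
  | zero => exact ⟨0, one_pos, h0, h⟩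
  | succ r ih =>
    rcases le_total (D (r + 1)) 0 with k | k
    · exact (ih k).imp fun j hj => ⟨by omega, hj.2⟩
    · exact ⟨r + 1, by omega, k, h⟩

/-- the coordinates with respect to a basis -/
def co (n : ℕ) (v w : Fin 2 → ℤ) (ξ : E2) : E2 :=
  ![n * (ξ 0 * w 1 - ξ 1 * w 0) / dz v w, n * (v 0 * ξ 1 - v 1 * ξ 0) / dz v w]

variable {n : ℕ} {v w : Fin 2 → ℤ} {ξ : E2}

theorem lin (h : 0 < dz v w) (k : Fin 2) : v k * co n v w ξ 0 + w k * co n v w ξ 1 = n * ξ k := by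
  have h1 : (dz v w : ℂ) ≠ 0 := Int.cast_ne_zero.2 h.ne'
  have h2 : (dz v w : ℂ) = v 0 * w 1 - v 1 * w 0 := by simp [dz]
  simp only [co, Matrix.cons_val_zero, Matrix.cons_val_one]
  field_simp
  rw [h2]
  revert k
  exact Fin.forall_fin_two.2 ⟨by ring, by ring⟩

theorem ball (h : 0 < dz v w) (h1 : 0 ≤ v 1 * (ξ 0).re - v 0 * (ξ 1).re)
    (h2 : w 1 * (ξ 0).re - w 0 * (ξ 1).re ≤ 0) : ex2 (co n v w ξ) ∈ closedBall (0 : E2) 1 := by
  have h0 : (0 : ℝ) < dz v w := Int.cast_pos.2 h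
  rw [mem_closedBall_zero_iff, pi_norm_le_iff_of_nonneg zero_le_one]
  simp only [ex2, Complex.norm_exp, Real.exp_le_one_iff]
  refine Fin.forall_fin_two.2 ⟨?_, ?_⟩ <;>
    simp only [co, Matrix.cons_val_zero, Matrix.cons_val_one, Complex.div_intCast_re] <;>
    refine div_nonpos_of_nonpos_of_nonneg ?_ h0.le <;>
    rw [← Complex.ofReal_natCast, Complex.re_ofReal_mul] <;>
    refine mul_nonpos_of_nonneg_of_nonpos n.cast_nonneg ?_ <;>
    simp <;> linarith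

theorem mon_eq {Λ : AddSubgroup (Fin 2 → ℤ)} (h : Bz Λ v w) (k : Fin 2) :
    mon ![(v k).toNat, (w k).toNat] (ex2 (co n v w ξ)) = Complex.exp (n * ξ k) := by
  rw [← lin h.pos, Complex.exp_add, Complex.exp_int_mul, Complex.exp_int_mul, mon,
    Matrix.cons_val_zero, Matrix.cons_val_one, Matrix.cons_val_zero, ← zpow_natCast, ← zpow_natCast,
    Int.toNat_of_nonneg (h.nn k).1, Int.toNat_of_nonneg (h.nn k).2]
  rfl

theorem log_eq (hn : 0 < n) (h : 0 < dz v w) : ∃ a b : ℤ,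
    (fun k => (v k * Complex.log (ex2 (co n v w ξ) 0) + w k * Complex.log (ex2 (co n v w ξ) 1)) / n)
      = ξ + tv n (a • v + b • w) := by
  have e := fun z : ℂ => Complex.exp_eq_exp_iff_exists_int.1 (Complex.exp_log z.exp_ne_zero)
  obtain ⟨a, ha⟩ := e (co n v w ξ 0)
  obtain ⟨b, hb⟩ := e (co n v w ξ 1)
  have h1 : (n : ℂ) ≠ 0 := Nat.cast_ne_zero.2 hn.ne'
  refine ⟨a, b, funext fun k => ?_⟩
  simp only [ex2, ha, hb, tv, Pi.add_apply, Pi.smul_apply, smul_eq_mul]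
  push_cast
  field_simp
  linear_combination lin (n := n) (ξ := ξ) h k

theorem re_tv (m : Fin 2 → ℤ) (k : Fin 2) : ((ξ + tv n m) k).re = (ξ k).re := by
  simp [tv, Complex.div_natCast_re]

end PTC4

open PTC4 in
theorem tc4 (he : ExpF) : TC4 := by
  intro X _ 𝒜 x U W 𝔉 n lam R Λ act h r v hv 𝒰 h𝒰
  have : (comap lam 𝒰 ⊓ FT).NeBot := (map_neBot_iff lam).1 (by
    rw [Filter.push_pull', inf_eq_left.2 h𝒰]
    infer_instance)
  obtain ⟨𝒱, h1⟩ := Ultrafilter.exists_le (comap lam 𝒰 ⊓ FT)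
  have h2 : map lam 𝒱 = 𝒰 := 𝒰.unique (map_le_iff_le_comap.2 (h1.trans inf_le_left))
  have h3 : ∀ R, ∀ᶠ ξ in 𝒱, ξ ∈ LT R := fun R =>
    (h1.trans inf_le_right) (he.bt.2.mem_of_mem trivial)
  obtain ⟨r, rfl⟩ := Nat.exists_eq_succ_of_ne_zero hv.pos.ne'
  obtain ⟨j, hj, h4⟩ := (Ultrafilter.eventually_exists_mem_iff (f := 𝒱) (finite_Iio (r + 1))
    (P := fun j (ξ : E2) => 0 ≤ v j 1 * (ξ 0).re - v j 0 * (ξ 1).re ∧
      v (j + 1) 1 * (ξ 0).re - v (j + 1) 0 * (ξ 1).re ≤ 0)).1 ((h3 0).mono fun ξ hξ => by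
    have a : (0 : ℝ) ≤ v 0 0 := Int.cast_nonneg ((hv.bz 0 hv.pos).nn 0).1
    have b : (0 : ℝ) ≤ v (r + 1) 1 := Int.cast_nonneg ((hv.bz r r.lt_succ_self).nn 1).2
    refine ivt (fun j => v j 1 * (ξ 0).re - v j 0 * (ξ 1).re) ?_ r ?_
    · rw [hv.fst, Int.cast_zero]
      nlinarith [hξ 1]
    · rw [hv.lst, Int.cast_zero]
      nlinarith [hξ 0])
  have b := hv.bz j hj
  obtain ⟨u, -, h5⟩ := (isCompact_closedBall (0 : E2) 1).ultrafilter_le_nhds
    (𝒱.map fun ξ => ex2 (co n (v j) (v (j + 1)) ξ))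
    (le_principal_iff.2 (h4.mono fun ξ k => ball b.pos k.1 k.2))
  have n0 : (0 : ℝ) < n := Nat.cast_pos.2 h.pos
  refine ⟨j, hj, u, fun k => lt_of_le_of_lt (b := Real.exp (-(n * (R + 1)))) ?_
    (Real.exp_lt_exp.2 (by linarith)), ?_⟩
  · refine le_of_tendsto (((an_mon _ u).continuousAt.norm.tendsto).comp h5)
      ((h3 (R + 1)).mono fun ξ hξ => ?_)
    rw [Function.comp_apply, mon_eq b, Complex.norm_exp, ← Complex.ofReal_natCast,
      Complex.re_ofReal_mul, Real.exp_le_exp]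
    nlinarith [hξ k]
  · rw [← h2, map_congr (m₂ := (tc n lam R (v j) (v (j + 1))).c ∘
      fun ξ => ex2 (co n (v j) (v (j + 1)) ξ)) ((h3 R).mono fun ξ hξ => ?_), ← map_map]
    · exact map_mono (le_inf h5 (le_principal_iff.2 (mem_map.2 (univ_mem' fun ξ =>
        mul_ne_zero (Complex.exp_ne_zero _) (Complex.exp_ne_zero _)))))
    · obtain ⟨c, d, e⟩ := log_eq (ξ := ξ) h.pos b.pos
      refine ((h.fib ξ hξ _ (fun k => (re_tv _ k).trans_lt (hξ k))).2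
        ⟨_, (b.mem _).2 ⟨c, d, rfl⟩, rfl⟩).trans (congrArg lam e.symm)

end Pool.Agent.Lib.MP_356dfe_ag.R
end
end

-- part Pool.Agent.Lib.MP_356dfe_ag.R.PLoc
section

/-! Part Loc of the resolution of surface singularities. -/

set_option autoImplicit false

open Set Filter Topology Metric
open scoped ContDiff

noncomputable section

namespace Pool.Agent.Lib.MP_356dfe_ag.R

open S (E2)

namespace PLoc

theorem LT_mono {R R' : ℝ} (h : R ≤ R') : LT R' ⊆ LT R :=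
  fun _ a k => (a k).trans_le (neg_le_neg h)

theorem LG_mono {R R' : ℝ} (h : R ≤ R') : LG R' ⊆ LG R :=
  fun _ a => ⟨a.1.trans_le (neg_le_neg h), a.2.trans_le (Real.exp_le_exp.2 (neg_le_neg h))⟩

variable {X : Type} [TopologicalSpace X] {𝒜 : OC X → Prop} {x : X} {U W : Set X}
  {𝔉 : Set (Filter X)} {n : ℕ} {lam : E2 → X} {R R' : ℝ}

theorem tg_mono {Λ act} (h : TG 𝒜 x U W 𝔉 n lam R Λ act) (hR : R ≤ R') :
    TG 𝒜 x U W 𝔉 n lam R' Λ act :=
  ⟨h.pos, h.maps.mono_left (LT_mono hR), fun ξ a => h.lb ξ (LT_mono hR a),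
    fun ξ a ξ' b => h.fib ξ (LT_mono hR a) ξ' (LT_mono hR b), h.idx, h.node, h.ane,
    fun k a w b => h.axA k a w (b.trans_le (neg_le_neg hR)),
    fun k a w b => h.axI k a w (b.trans_le (neg_le_neg hR))⟩

theorem gg_mono {p} (h : GG 𝒜 W 𝔉 n lam R p) (hR : R ≤ R') : GG 𝒜 W 𝔉 n lam R' p :=
  ⟨h.pos, h.maps.mono_left (LG_mono hR), fun ξ a => h.lb ξ (LG_mono hR a),
    fun ξ a ξ' b => h.fib ξ (LG_mono hR a) ξ' (LG_mono hR b),
    fun w b => h.axA w (b.trans_le (Real.exp_le_exp.2 (neg_le_neg hR)))⟩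

omit [TopologicalSpace X] in
theorem shrink {F : Filter E2} {L : ℝ → Set E2} (h : ∀ s ∈ F, ∀ᶠ R in atTop, L R ⊆ s)
    {𝔑 : Set (Filter X)} (hf : 𝔑.Finite) (hd : ∀ H ∈ 𝔑, Disjoint H (map lam F)) (R : ℝ) :
    ∃ R', R ≤ R' ∧ ∀ H ∈ 𝔑, Disjoint H (𝓟 (lam '' L R')) := by
  refine ((eventually_ge_atTop R).and ((eventually_all_finite hf).2 fun H hH => ?_)).exists
  obtain ⟨s, h1, t, h2, h3⟩ := Filter.disjoint_iff.1 (hd H hH)
  filter_upwards [h _ h2] with R' a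
  exact Filter.disjoint_iff.2 ⟨s, h1, t, image_subset_iff.2 a, h3⟩

theorem mon_zero {a : Fin 2 → ℕ} {u : E2} : mon a u = 0 ↔ ∃ m, u m = 0 ∧ 0 < a m := by
  simp [mon, Fin.exists_fin_two, Nat.pos_iff_ne_zero]

theorem ray {v w : Fin 2 → ℤ} (k m : Fin 2) :
    0 < ![(v k).toNat, (w k).toNat] m ↔ 0 < ![v, w] m k := by
  fin_cases m <;> simp

end PLoc

open PLoc in
theorem locEx (he : ExpF) (hj : HJ) (h1 : TC1) (h2 : TC2) (h3 : TC3) (h4 : TC4) (h5 : GC) :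
    LocEx := by
  intro X _ _ 𝒜 x U W 𝔉 𝔑 sh
  classical
  have : Nonempty X := ⟨x⟩
  have nF : ∀ H ∈ 𝔑, H ∈ 𝔉 := fun H hH => by
    obtain ⟨_, _, _, _, _, a, rfl⟩ := sh.tg H hH
    exact a.node
  have key : ∀ H ∈ 𝔑, ∃ n lam R Λ act r v, TG 𝒜 x U W 𝔉 n lam R Λ act ∧ map lam FT = H ∧
      Fan Λ r v ∧ ∀ H' ∈ 𝔑 \ {H}, Disjoint H' (𝓟 (lam '' LT R)) := fun H hH => by
    obtain ⟨n, lam, R, Λ, act, a, b⟩ := sh.tg H hH
    obtain ⟨r, v, c⟩ := hj Λ a.idx
    obtain ⟨R', d, e⟩ := shrink (lam := lam) (F := FT) (L := LT) (fun s hs => by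
      obtain ⟨R₀, -, f⟩ := he.bt.2.mem_iff.1 hs
      exact (eventually_ge_atTop R₀).mono fun R' g => (LT_mono g).trans f) (sh.fin.sdiff (t := {H}))
      (fun H' hH' => b ▸ (sh.fs.eqd H' (nF _ hH'.1) H (nF _ hH)).resolve_left hH'.2) R
    exact ⟨n, lam, R', Λ, act, r, v, tg_mono a d, b, c, e⟩
  choose! n lam R Λ act r v tg nd fan far using key
  let T : Filter X → ℕ → Pc X := fun H j => tc (n H) (lam H) (R H) (v H j) (v H (j + 1))
  let 𝒟 : Set (Pc X) := {d | (∃ H ∈ 𝔑, ∃ j < r H, d = T H j) ∨ ∃ n lam R p,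
    GG 𝒜 W 𝔉 n lam R p ∧ (∀ H ∈ 𝔑, Disjoint H (𝓟 (lam '' LG R))) ∧ d = gc n lam R p}
  have ok : ∀ d ∈ 𝒟, d.Ok 𝒜 W := by
    rintro _ (⟨H, a, j, b, rfl⟩ | ⟨n, lam, R, p, a, -, rfl⟩)
    · exact (h1 X 𝒜 x U W 𝔉 _ _ _ _ _ (tg H a) _ _ ((fan H a).bz j b)).1
    · exact (h5 X 𝒜 W 𝔉 n lam R p a).1
  let A : Filter X → Prop := fun F => ∃ z ∈ U, z ≠ x ∧ F = 𝓝[W] z
  let B : Filter X → Prop := fun F => F ∈ 𝔉 ∧ ∀ H ∈ 𝔑, Disjoint F H
  let C : Pc X → E2 → Prop := fun d u => ∃ H ∈ 𝔑, ∃ j < r H, d = T H j ∧ d.F u ≤ H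
  have gen : ∀ d ∈ 𝒟, ∀ u ∈ d.P \ d.A, A (d.F u) := fun d hd u hu => by
    have a := (ok d hd).maps hu
    exact ⟨_, (sh.sub a).1, (sh.sub a).2, by rw [(ok d hd).F_eq hu, sh.oW.nhdsWithin_eq a]⟩
  have img : ∀ d ∈ 𝒟, ∀ u ∈ d.P, ∀ (H : Filter X) s, d.c '' (d.P \ d.A) ⊆ s →
      Disjoint H (𝓟 s) → Disjoint (d.F u) H := fun d hd u hu H s a b =>
    b.symm.mono_left (le_principal_iff.2 (mem_of_superset (image_mem_map ((ok d hd).ev hu)) a))
  have cl : ∀ d ∈ 𝒟, ∃ a : Finset (Fin 2), ∀ u ∈ d.P, ((∃ k ∈ a, u k = 0) → B (d.F u) ∨ C d u) ∧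
      ((¬ ∃ k ∈ a, u k = 0) → A (d.F u)) := by
    intro d hd
    rcases id hd with ⟨H, a, j, b, rfl⟩ | ⟨n, lam, R, p, a, b, rfl⟩
    · have bz := (fan H a).bz j b
      have nn : ∀ m k, 0 ≤ ![v H j, v H (j + 1)] m k := fun m k => by
        fin_cases m
        exacts [(bz.nn k).1, (bz.nn k).2]
      have nz : ∀ m k : Fin 2, ![v H j, v H (j + 1)] m k = 0 →
          0 < ![v H j, v H (j + 1)] m.rev k := fun m k c => (nn _ _).lt_of_ne fun d => by
        have := bz.pos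
        fin_cases m <;> fin_cases k <;> simp at c d <;> simp [dz, c, ← d] at this
      refine ⟨Finset.univ.filter fun m => (∀ k, 0 < ![v H j, v H (j + 1)] m k) ∨
        ∃ k ∈ act H, ![v H j, v H (j + 1)] m k.rev = 0, fun u hu => ?_⟩
      obtain ⟨c1, c2, c3⟩ := h2 X 𝒜 x U W 𝔉 _ _ _ _ _ (tg H a) _ _ bz u hu
      simp only [Finset.mem_filter, Finset.mem_univ, true_and]
      constructor
      · rintro ⟨m, d, e⟩
        by_cases f : ∀ k, mon ![(v H j k).toNat, (v H (j + 1) k).toNat] u = 0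
        · exact Or.inr ⟨H, a, j, b, rfl, (c1.2 f).trans (nd H a).le⟩
        obtain ⟨k, g, i⟩ := d.resolve_left fun g => f fun k => mon_zero.2 ⟨m, e, (ray k m).2 (g k)⟩
        obtain ⟨s, s1, s2⟩ := c3 m k e (fun g => f fun k => by
          rcases (nn m k).eq_or_lt with l | l
          · exact mon_zero.2 ⟨m.rev, g, (ray k _).2 (nz m k l.symm)⟩
          · exact mon_zero.2 ⟨m, e, (ray k _).2 l⟩) i
        refine Or.inl ⟨s2 ▸ (tg H a).axA k g s s1, fun H' hH' => ?_⟩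
        by_cases l : H' = H
        · exact (c2 f).mono_right (l.trans (nd H a).symm).le
        · exact img _ hd u hu _ _ (h1 X 𝒜 x U W 𝔉 _ _ _ _ _ (tg H a) _ _ bz).2.1
            (far H a H' ⟨hH', l⟩)
      · intro d
        by_cases e : u ∈ axes
        swap
        · exact gen _ hd u ⟨hu, e⟩
        have f : ∀ m, u m = 0 → ∃ k, k ∉ act H ∧ ![v H j, v H (j + 1)] m k.rev = 0 := fun m g => by
          obtain ⟨k, l⟩ := not_forall.1 fun i => d ⟨m, Or.inl i, g⟩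
          have l' : ![v H j, v H (j + 1)] m k.rev.rev = 0 := by
            rw [Fin.rev_rev]
            exact ((nn m k).eq_of_not_lt l).symm
          exact ⟨k.rev, fun i => d ⟨m, Or.inr ⟨_, i, l'⟩, g⟩, l'⟩
        obtain ⟨m, g⟩ : ∃ m, u m = 0 := (mul_eq_zero.1 e).elim (fun g => ⟨0, g⟩) fun g => ⟨1, g⟩
        obtain ⟨k, i, l⟩ := f m g
        obtain ⟨s, s1, s2⟩ := c3 m k g (fun g' => by
          obtain ⟨k', i', l'⟩ := f _ g'
          obtain ⟨q, hq⟩ := (tg H a).ane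
          have o : k ≠ k' := fun o => (nz m _ l).ne' (o ▸ l')
          have o1 : q ≠ k := fun o => i (o ▸ hq)
          have o2 : q ≠ k' := fun o => i' (o ▸ hq)
          revert o o1 o2
          generalize q = q
          generalize k = k
          generalize k' = k'
          revert q k k'
          decide) l
        exact s2 ▸ (tg H a).axI k i s s1
    · obtain ⟨-, c2, c3⟩ := h5 X 𝒜 W 𝔉 n lam R p a
      refine ⟨{0}, fun u hu => ⟨fun d => Or.inl ⟨?_, fun H hH => img _ hd u hu _ _ c2 (b H hH)⟩,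
        fun d => gen _ hd u ⟨hu, fun e => d ⟨0, Finset.mem_singleton_self _, e⟩⟩⟩⟩
      rw [c3 u hu (by simpa using d)]
      exact a.axA _ hu.2
  have nA : ∀ d ∈ 𝒟, ∀ u ∈ d.P, A (d.F u) → ¬ d.F u ≤ 𝓝 x := by
    rintro d hd u hu ⟨z, -, a, b⟩ c
    have := (ok d hd).neBot hu
    exact a (eq_of_nhds_neBot (this.mono (le_inf (b ▸ nhdsWithin_le_nhds) c)))
  have bc : ∀ (d : Pc X) u, B (d.F u) ∨ C d u → d.F u ≤ 𝓝 x := by
    rintro d u (a | ⟨H, a, -, -, -, b⟩)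
    exacts [(sh.fs.ne _ a.1).2.1, b.trans (sh.fs.ne _ (nF H a)).2.1]
  have cl' : ∀ d ∈ 𝒟, ∀ u ∈ d.P, d.F u ≤ 𝓝 x → B (d.F u) ∨ C d u := fun d hd u hu a => by
    obtain ⟨b, c⟩ := cl d hd
    exact (c u hu).1 (by_contra fun e => nA d hd u hu ((c u hu).2 e) a)
  refine ⟨𝒟, sh.fs, ok, fun d hd u hu => ?_, fun d hd u hu d' hd' u' hu' a a' => ?_,
    fun 𝒰 a b => ?_, fun d hd => ?_, fun d hd u hu a => ?_⟩
  · obtain ⟨b, c⟩ := cl d hd
    by_cases e : ∃ k ∈ b, u k = 0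
    exacts [Or.inr (bc d u ((c u hu).1 e)), Or.inl ((c u hu).2 e)]
  · rcases cl' d hd u hu a with b | ⟨H, b, j, c, rfl, e⟩ <;>
      rcases cl' d' hd' u' hu' a' with b' | ⟨H', b', j', c', rfl, e'⟩
    · exact sh.fs.eqd _ b.1 _ b'.1
    · exact Or.inr ((b.2 H' b').mono_right e')
    · exact Or.inr ((b'.2 H b).symm.mono_left e)
    · rcases sh.fs.eqd H (nF H b) H' (nF H' b') with rfl | f
      · exact h3 X 𝒜 x U W 𝔉 _ _ _ _ _ (tg H b) _ _ (fan H b) j c j' c' u hu u' hu'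
      · exact Or.inr (f.mono e e')
  · by_cases c : ∃ H ∈ 𝔑, ↑𝒰 ≤ H
    · obtain ⟨H, c, d⟩ := c
      obtain ⟨j, e, u, f⟩ := h4 X 𝒜 x U W 𝔉 _ _ _ _ _ (tg H c) _ _ (fan H c) 𝒰 (d.trans (nd H c).ge)
      exact ⟨_, Or.inl ⟨H, c, j, e, rfl⟩, u, f⟩
    obtain ⟨n, lam, R, p, d, e⟩ := (sh.ult 𝒰 a b).resolve_left c
    obtain ⟨R', f, g⟩ := shrink (lam := lam) (F := FA 0 0) (L := LG) (fun s hs => by
      obtain ⟨q, q1, q2⟩ := (he.ba 0 0).2.mem_iff.1 hs
      filter_upwards [eventually_ge_atTop q.1, Real.tendsto_exp_neg_atTop_nhds_zero.eventually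
        (gt_mem_nhds q1)] with R' i l ξ o
      exact q2 ⟨o.1.trans_le (neg_le_neg i), by simpa using o.2.trans l⟩) sh.fin
      (fun H hH => (sh.fs.eqd H (nF H hH) _ (d.axA 0 (by simpa using Real.exp_pos _))).resolve_left
        fun i => c ⟨H, hH, i ▸ e⟩) R
    have i : (0 : E2) ∈ (gc n lam R' p).P :=
      ⟨by simpa [d.pos.2.ne'] using Real.exp_pos _, by simpa using Real.exp_pos _⟩
    exact ⟨_, Or.inr ⟨n, lam, R', p, gg_mono d f, g, rfl⟩, 0, i,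
      (h5 X 𝒜 W 𝔉 n lam R' p (gg_mono d f)).2.2 0 i rfl ▸ e⟩
  · obtain ⟨b, c⟩ := cl d hd
    exact ⟨b, fun u hu => ⟨fun a => by_contra fun e => nA d hd u hu ((c u hu).2 e) a,
      fun e => bc d u ((c u hu).1 e)⟩⟩
  · rcases cl' d hd u hu a with b | ⟨H, b, j, c, rfl, e⟩
    · exact Or.inl b.1
    have fa := fan H b
    obtain ⟨-, -, α, β, -, f⟩ := h1 X 𝒜 x U W 𝔉 _ _ _ _ _ (tg H b) _ _ (fa.bz j c)
    have nn : ∀ i ≤ r H, ∀ k, 0 ≤ v H i k := fun i hi k => by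
      rcases hi.eq_or_lt with rfl | l
      · have := (fa.bz (r H - 1) (by have := fa.pos; omega)).nn k
        rw [Nat.sub_add_cancel fa.pos] at this
        exact this.2
      · exact ((fa.bz i l).nn k).1
    have ca : ∀ (i : Fin (r H)) (k m : Fin 2),
        ((![(v H i k).toNat, (v H (i + 1) k).toNat] m : ℕ) : ℤ) = v H (i + m) k := fun i k m => by
      fin_cases m
      · exact Int.toNat_of_nonneg (nn i i.2.le k)
      · exact Int.toNat_of_nonneg (nn (i + 1) i.2 k)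
    refine Or.inr ⟨H, nF H b, e, r H, fun i => T H i, α, β,
      fun i => ![(v H i 0).toNat, (v H (i + 1) 0).toNat],
      fun i => ![(v H i 1).toNat, (v H (i + 1) 1).toNat], fun i => Or.inl ⟨H, b, i, i.2, rfl⟩,
      fun _ => rfl, fun i => f _ _ (fa.bz i i.2), fun i w hw => ?_, fun d' hd' u' hu' g => ?_,
      fun i g => ?_, fun i i' k => ?_⟩
    · have l := (h2 X 𝒜 x U W 𝔉 _ _ _ _ _ (tg H b) _ _ (fa.bz i i.2) w hw).1
      rw [nd H b] at l
      exact l.trans Fin.forall_fin_two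
    · have := (ok d' hd').neBot hu'
      rcases cl' d' hd' u' hu' (g.trans (sh.fs.ne _ (nF H b)).2.1) with l | ⟨H', l, j', o, rfl, q⟩
      · exact (this.ne (le_bot_iff.1 (l.2 H b le_rfl g))).elim
      · obtain rfl := (sh.fs.eqd H (nF H b) H' (nF H' l)).eq g q
        exact ⟨⟨j', o⟩, u', hu', rfl⟩
    · have l := (fa.bz i i.2).pos
      have o := congrArg (Nat.cast : ℕ → ℤ) g
      rw [Nat.cast_mul, Nat.cast_mul, ca, ca, ca, ca] at o
      exact l.ne' (sub_eq_zero.2 (o.trans (mul_comm _ _)))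
    · have mo : ∀ s t, s ≤ t → t ≤ r H → 0 ≤ dz (v H s) (v H t) := fun s t l o => by
        rcases l.eq_or_lt with rfl | l
        · simp [dz, mul_comm]
        · exact (fa.mono s t l o).le
      have hk := k.2
      have hi := i.2
      have hi' := i'.2
      rcases le_or_gt ((i' : ℕ) + k) i with l | l
      · refine Or.inl fun m => ?_
        have hm := m.2
        have := mo (i' + k) (i + m) (by omega) (by omega)
        zify
        rw [ca, ca, ca, ca]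
        simp only [dz] at this
        linarith
      · refine Or.inr fun m => ?_
        have hm := m.2
        have := mo (i + m) (i' + k) (by omega) (by omega)
        zify
        rw [ca, ca, ca, ca]
        simp only [dz] at this
        linarith

end Pool.Agent.Lib.MP_356dfe_ag.R
end
end
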