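import Pool.Agent.Lib.MP_356dfe_ag.R.PRk

-- part Pool.Agent.Lib.MP_356dfe_ag.R.PConn
section

/-! Part Conn of the resolution of surface singularities. -/

set_option autoImplicit false

open Set Filter Topology Metric
open scoped ContDiff

noncomputable section

namespace Pool.Agent.Lib.MP_356dfe_ag.R

open S (E2)

namespace PConn

/-- two points of a convex subset of the plane are joined off a countable set -/
theorem plane {U Z : Set ℂ} (hU : Convex ℝ U) (h0 : U ∈ 𝓝 (0 : ℂ)) (h1 : (1 : ℂ) ∈ U)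
    (hZ : Z.Countable) (z0 : (0 : ℂ) ∉ Z) (z1 : (1 : ℂ) ∉ Z) :
    ∃ T, T ⊆ U \ Z ∧ (0 : ℂ) ∈ T ∧ (1 : ℂ) ∈ T ∧ IsPreconnected T := by
  have hc : Continuous fun t : ℝ => (t : ℂ) * Complex.I := by fun_prop
  have hn : {t : ℝ | (t : ℂ) * Complex.I ∈ U} ∈ 𝓝 (0 : ℝ) :=
    hc.continuousAt.preimage_mem_nhds (by simpa using h0)
  obtain ⟨t, ht, hb⟩ :=
    ((hZ.image fun z => z.im / (z.re * (1 - z.re))).dense_compl ℝ).inter_nhds_nonempty hn
  refine ⟨(fun s : ℝ => (s : ℂ) + (t * (s * (1 - s)) : ℝ) * Complex.I) '' Icc 0 1, ?_,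
    ⟨0, by simp, by simp⟩, ⟨1, by simp, by simp⟩, isPreconnected_Icc.image _ (by fun_prop)⟩
  rintro _ ⟨s, ⟨s0, s1⟩, rfl⟩
  refine ⟨?_, fun hz => ?_⟩
  · have a := hU (mem_of_mem_nhds h0) hb (sub_nonneg.2 s1) s0 (by ring)
    convert hU a h1 (sub_nonneg.2 s1) s0 (by ring) using 1
    simp only [Complex.real_smul]
    push_cast
    ring
  · rcases s0.eq_or_lt with rfl | s0
    · exact z0 (by simpa using hz)
    rcases s1.eq_or_lt with rfl | s1
    · exact z1 (by simpa using hz)
    refine ht ⟨_, hz, ?_⟩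
    simp only [Complex.add_re, Complex.add_im, Complex.ofReal_re, Complex.ofReal_im,
      Complex.mul_re, Complex.mul_im, Complex.I_re, Complex.I_im, mul_zero, mul_one, zero_add,
      add_zero, sub_zero]
    exact mul_div_cancel_right₀ _ (mul_pos s0 (sub_pos.2 s1)).ne'

/-- the complement of the zero set of an analytic function in a convex open set -/
theorem off {g : E2 → ℂ} {B : Set E2} (hB : Convex ℝ B) (ho : IsOpen B)
    (hg : AnalyticOnNhd ℂ g B) : IsPreconnected (B \ {u | g u = 0}) := by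
  refine isPreconnected_of_forall_pair fun a ha b hb => ?_
  obtain ⟨L, hL⟩ : ∃ L : ℂ → E2, L = fun s => a + s • (b - a) := ⟨_, rfl⟩
  have aL : ∀ s, AnalyticAt ℂ L s := fun s =>
    hL ▸ analyticAt_const.add (analyticAt_id.smul analyticAt_const)
  have L0 : L 0 = a := by simp [hL]
  have L1 : L 1 = b := by simp [hL]
  have hU : Convex ℝ (L ⁻¹' B) := fun x hx y hy c d hc hd h => by
    have e : L (c • x + d • y) = c • L x + d • L y := by
      obtain rfl : d = 1 - c := eq_sub_of_add_eq' h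
      ext k
      simp only [hL, Pi.add_apply, Pi.smul_apply, Complex.real_smul, smul_eq_mul]
      push_cast
      ring
    exact mem_preimage.2 (e ▸ hB hx hy hc hd h)
  have hG : AnalyticOnNhd ℂ (g ∘ L) (L ⁻¹' B) := fun s hs => (hg _ hs).comp (aL s)
  have m0 : (0 : ℂ) ∈ L ⁻¹' B := mem_preimage.2 (L0 ▸ ha.1)
  have hZ : ((g ∘ L) ⁻¹' {0} ∩ L ⁻¹' B).Countable :=
    (HereditarilyLindelofSpace.isLindelof _).countable_of_isDiscrete
      (isDiscrete_of_codiscreteWithin (hG.preimage_zero_mem_codiscreteWithin (x := 0)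
        (fun h => ha.2 (L0 ▸ h)) m0 (hU.isConnected ⟨0, m0⟩)))
  obtain ⟨T, t1, t2, t3, t4⟩ := plane hU
    ((aL 0).continuousAt.preimage_mem_nhds (ho.mem_nhds m0)) (mem_preimage.2 (L1 ▸ hb.1)) hZ
    (fun h => ha.2 (L0 ▸ h.1)) fun h => hb.2 (L1 ▸ h.1)
  refine ⟨L '' T, ?_, ⟨0, t2, L0⟩, ⟨1, t3, L1⟩,
    t4.image L fun s _ => (aL s).continuousAt.continuousWithinAt⟩
  rintro _ ⟨s, hs, rfl⟩
  exact ⟨(t1 hs).1, fun h => (t1 hs).2 ⟨h, (t1 hs).1⟩⟩

end PConn

theorem conn : Conn := by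
  rintro A p ⟨g, h1, h2, h3⟩ s hs
  obtain ⟨r, hr, h4⟩ := Metric.eventually_nhds_iff_ball.1 (h1.eventually_analyticAt.and
    ((ev_ne h1 h2).and (h3.and (eventually_nhdsWithin_iff.1 hs))))
  refine ⟨ball p r ∩ Aᶜ, inter_mem (mem_nhdsWithin_of_mem_nhds (ball_mem_nhds p hr))
    self_mem_nhdsWithin, fun u hu => (h4 u hu.1).2.2.2 hu.2, ?_⟩
  refine (PConn.off (convex_ball p r) isOpen_ball fun u hu => (h4 u hu).1).subset_closure
    (fun u hu => ⟨hu.1, fun a => hu.2 ((h4 u hu.1).2.2.1 a)⟩) fun u hu => ?_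
  exact mem_closure_iff_frequently.2 (((not_eventually.1 (h4 u hu.1).2.1).and_eventually
    (isOpen_ball.mem_nhds hu.1)).mono fun v a => ⟨a.2, a.1⟩)

end Pool.Agent.Lib.MP_356dfe_ag.R
end
end

-- part Pool.Agent.Lib.MP_356dfe_ag.R.PDesc
section

/-! Part Desc of the resolution of surface singularities. -/

set_option autoImplicit false

open Set Filter Topology Metric
open scoped ContDiff

noncomputable section

namespace Pool.Agent.Lib.MP_356dfe_ag.R

open S (E2)

theorem desc (hr : Riem) : Desc := by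
  intro n ρ Q hn h1 h2
  let s : E2 → E2 := fun b => ![b 0 ^ (n⁻¹ : ℂ), b 1]
  have rs : ∀ b, rr n (s b) = b := fun b => funext fun k => by
    fin_cases k
    · exact Complex.cpow_nat_inv_pow _ hn.ne'
    · rfl
  have key : ∀ u, ‖rr n u‖ < ρ → Q (s (rr n u)) = Q u := fun u hu => by
    have a : s (rr n u) 0 ^ n = u 0 ^ n := congrFun (rs (rr n u)) 0
    by_cases b : u 0 = 0
    · rw [b, zero_pow hn.ne', pow_eq_zero_iff hn.ne'] at a
      refine congrArg Q (funext fun k => ?_)
      fin_cases k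
      exacts [a.trans b.symm, rfl]
    · rw [← h2 (s (rr n u) 0 / u 0) (by rw [div_pow, a, div_self (pow_ne_zero _ b)]) u hu]
      refine congrArg Q (funext fun k => ?_)
      fin_cases k
      exacts [(div_mul_cancel₀ _ b).symm, rfl]
  have ar : ∀ u, AnalyticAt ℂ (rr n) u := fun u => AnalyticAt.pi fun k => by
    fin_cases k
    exacts [(an_co 0 u).pow n, an_co 1 u]
  have off : ∀ b, ‖b‖ < ρ → b 0 ≠ 0 → AnalyticAt ℂ (Q ∘ s) b := fun b hb h0 => by
    have a : s b 0 ≠ 0 := fun a => h0 (by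
      rw [← congrFun (rs b) 0]
      exact (congrArg (· ^ n) a).trans (zero_pow hn.ne'))
    have c : LB (rr n) (s b) := ⟨ar _, (injective_iff_map_eq_zero _).2 fun v d => by
      let L : Fin 2 → E2 →L[ℂ] ℂ := ![(n * s b 0 ^ (n - 1)) • ContinuousLinearMap.proj 0,
        ContinuousLinearMap.proj 1]
      have e : HasFDerivAt (rr n) (ContinuousLinearMap.pi L) (s b) :=
        (hasFDerivAt_pi (φ := fun k u => rr n u k)).2 fun k => by
          fin_cases k
          · simpa [rr, L] using (hasFDerivAt_apply (𝕜 := ℂ) 0 (s b)).pow n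
          · exact hasFDerivAt_apply (𝕜 := ℂ) 1 (s b)
      rw [e.fderiv] at d
      ext k
      fin_cases k
      · simpa [a, hn.ne', L] using congrFun d 0
      · simpa [L] using congrFun d 1⟩
    obtain ⟨g, d, e, f⟩ := c.inv
    rw [rs] at d f
    have i : g b = s b := by simpa only [rs] using e.self_of_nhds
    refine ((h1 _ (by rwa [rs])).comp_of_eq d.1 i).congr ?_
    filter_upwards [f, continuous_norm.continuousAt.eventually_lt_const hb] with w l m
    rw [Function.comp_apply, Function.comp_apply, ← key (g w) (by rwa [l]), l]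
  refine ⟨Q ∘ s, fun b hb => hr _ _ b (thin_axis 0 b) ?_, key⟩
  filter_upwards [continuous_norm.continuousAt.eventually_lt_const hb] with w a
  refine ⟨?_, fun c => (off w a c).differentiableAt⟩
  by_cases c : w 0 = 0
  swap
  · exact (off w a c).continuousAt
  refine (h1 _ (by rwa [rs])).continuousAt.comp (continuousAt_pi.2 fun k => ?_)
  fin_cases k
  · refine ContinuousAt.comp (f := fun b : E2 => b 0) (g := fun z : ℂ => z ^ (n⁻¹ : ℂ)) ?_
      (continuous_apply 0).continuousAt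
    rw [c]
    exact Complex.continuousAt_cpow_const_of_re_pos (Or.inl le_rfl) (by
      simpa using hn)
  · exact (continuous_apply 1).continuousAt

end Pool.Agent.Lib.MP_356dfe_ag.R
end
end

-- part Pool.Agent.Lib.MP_356dfe_ag.R.PExp
section

/-! Part Exp of the resolution of surface singularities. -/

set_option autoImplicit false

open Set Filter Topology Metric
open scoped ContDiff

noncomputable section

namespace Pool.Agent.Lib.MP_356dfe_ag.R

open S (E2)

namespace PExp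

theorem t1 : Tendsto Complex.exp (comap Complex.re atBot) (𝓝 0) :=
  Complex.tendsto_exp_comap_re_atBot

theorem t2 {α : Type} {F : Filter α} {f : α → ℂ} (h : Tendsto f F (𝓝 0)) (h' : ∀ᶠ a in F, f a ≠ 0) :
    Tendsto (fun a => (Complex.log (f a)).re) F atBot := by
  simp only [Complex.log_re]
  exact Real.tendsto_log_nhdsGT_zero.comp (tendsto_nhdsWithin_iff.2
    ⟨by simpa using h.norm, h'.mono fun a b => norm_pos_iff.2 b⟩)

end PExp

open PExp in
theorem expF : ExpF := by
  have rv : ∀ j k : Fin 2, j = k ∨ j = k.rev := by decide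
  have rn : ∀ k : Fin 2, k.rev ≠ k := by decide
  have ax : ∀ (u : E2), u ∉ axes → ∀ k, u k ≠ 0 := fun u h k => by
    fin_cases k
    exacts [left_ne_zero_of_mul h, right_ne_zero_of_mul h]
  have nx : ∀ ξ, ex2 ξ ∈ axesᶜ := fun ξ => mul_ne_zero (Complex.exp_ne_zero _) (Complex.exp_ne_zero _)
  have f1 : map ex2 FT = 𝓝[axesᶜ] 0 := by
    refine le_antisymm (tendsto_nhdsWithin_iff.2 ⟨tendsto_pi_nhds.2 fun k =>
      t1.comp (tendsto_comap_iff.2 (tendsto_iff_comap.2 (iInf_le _ k))), .of_forall nx⟩)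
      (le_map_of_right_inverse (mab := ex2) (mba := fun u k => Complex.log (u k))
        (mem_of_superset self_mem_nhdsWithin fun u h => funext fun k => Complex.exp_log (ax u h k))
        (tendsto_iInf.2 fun k => tendsto_comap_iff.2 (t2 (((continuous_apply k).tendsto 0).mono_left
          nhdsWithin_le_nhds) (mem_of_superset self_mem_nhdsWithin fun u h => ax u h k))))
  have f2 : ∀ k w, map ex2 (FA k w) = 𝓝[axesᶜ] (Pi.single k.rev (Complex.exp w)) := fun k w => by
    have c : ∀ j, Tendsto (fun u : E2 => u j) (𝓝[axesᶜ] (Pi.single k.rev (Complex.exp w)))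
        (𝓝 ((Pi.single k.rev (Complex.exp w) : E2) j)) := fun j =>
      ((continuous_apply j).tendsto _).mono_left nhdsWithin_le_nhds
    refine le_antisymm (tendsto_nhdsWithin_iff.2 ⟨tendsto_pi_nhds.2 fun j => ?_, .of_forall nx⟩)
      (le_map_of_right_inverse (mab := ex2) (mba := fun u j => if j = k then Complex.log (u k)
        else w + Complex.log (u k.rev / Complex.exp w))
        (mem_of_superset self_mem_nhdsWithin fun u h => funext fun j => ?_)
        (tendsto_inf.2 ⟨tendsto_comap_iff.2 ?_, tendsto_comap_iff.2 ?_⟩))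
    · rcases rv j k with rfl | rfl
      · rw [Pi.single_eq_of_ne (rn j).symm]
        exact t1.comp (tendsto_comap_iff.2 (tendsto_iff_comap.2 inf_le_left))
      · rw [Pi.single_eq_same]
        exact (Complex.continuous_exp.tendsto w).comp (tendsto_iff_comap.2 inf_le_right)
    · rcases rv j k with rfl | rfl
      · simp [ex2, Complex.exp_log (ax u h j)]
      · simp only [Function.comp_apply, ex2, if_neg (rn k), Complex.exp_add, id]
        rw [Complex.exp_log (div_ne_zero (ax u h _) (Complex.exp_ne_zero w)),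
          mul_div_cancel₀ _ (Complex.exp_ne_zero w)]
    · have a := c k
      rw [Pi.single_eq_of_ne (rn k).symm] at a
      simpa [Function.comp_def] using t2 a (mem_of_superset self_mem_nhdsWithin fun u h => ax u h k)
    · have a := (c k.rev).div_const (Complex.exp w)
      rw [Pi.single_eq_same, div_self (Complex.exp_ne_zero w)] at a
      simpa [Function.comp_def, rn k] using (a.clog Complex.one_mem_slitPlane).const_add w
  have f3 : ∀ w, map ex1 (FA 0 w) = 𝓝[{u : E2 | u 0 = 0}ᶜ] ![0, w] := fun w => by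
    have c : ∀ j, Tendsto (fun u : E2 => u j) (𝓝[{u : E2 | u 0 = 0}ᶜ] ![0, w])
        (𝓝 ((![0, w] : E2) j)) := fun j =>
      ((continuous_apply j).tendsto _).mono_left nhdsWithin_le_nhds
    refine le_antisymm (tendsto_nhdsWithin_iff.2 ⟨tendsto_pi_nhds.2 fun j => ?_,
      .of_forall fun ξ => Complex.exp_ne_zero _⟩)
      (le_map_of_right_inverse (mab := ex1) (mba := fun u => ![Complex.log (u 0), u 1])
        (mem_of_superset self_mem_nhdsWithin fun u h => funext fun j => ?_)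
        (tendsto_inf.2 ⟨tendsto_comap_iff.2 (t2 (c 0) self_mem_nhdsWithin),
          tendsto_comap_iff.2 (c 1)⟩))
    · fin_cases j
      · exact t1.comp (tendsto_comap_iff.2 (tendsto_iff_comap.2 inf_le_left))
      · exact tendsto_iff_comap.2 inf_le_right
    · fin_cases j
      exacts [Complex.exp_log h, rfl]
  have lg : ∀ (ξ : E2) k, ∀ᶠ v in 𝓝 ξ, ξ k + Complex.log (Complex.exp (v k) /
      Complex.exp (ξ k)) = v k := fun ξ k => by
    have a : ContinuousAt (fun v : E2 => (v k - ξ k).im) ξ := Continuous.continuousAt (by fun_prop)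
    filter_upwards [a.eventually (Ioo_mem_nhds (a := -Real.pi) (b := Real.pi)
      (by simpa using Real.pi_pos) (by simpa using Real.pi_pos))] with v h
    rw [← Complex.exp_sub, Complex.log_exp h.1 h.2.le, add_sub_cancel]
  have al : ∀ (ξ u : E2) k, u k = Complex.exp (ξ k) → AnalyticAt ℂ
      (fun u : E2 => ξ k + Complex.log (u k / Complex.exp (ξ k))) u := fun ξ u k h =>
    analyticAt_const.add ((an_co k u).div_const.clog (by
      rw [h, div_self (Complex.exp_ne_zero _)]
      exact Complex.one_mem_slitPlane))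
  have hb : (atBot : Filter ℝ).HasBasis (fun _ => True) fun R => Iio (-R) :=
    atBot_basis_Iio.to_hasBasis (fun a _ => ⟨-a, trivial, by simp⟩) fun a _ => ⟨-a, trivial, by simp⟩
  refine ⟨f1, f2, f3, fun ξ => .of_left (g := fun u k => ξ k + Complex.log (u k / Complex.exp (ξ k)))
    (AnalyticAt.pi fun k => (an_co k ξ).cexp) (AnalyticAt.pi fun k => al ξ _ k rfl)
    ((eventually_all.2 (lg ξ)).mono fun v h => funext h), fun ξ => .of_left
      (g := fun u => ![ξ 0 + Complex.log (u 0 / Complex.exp (ξ 0)), u 1])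
      (AnalyticAt.pi fun k => ?_) (AnalyticAt.pi fun k => ?_) ((lg ξ 0).mono fun v h =>
        funext fun k => ?_), ⟨NeBot.of_map (m := ex2) (f1 ▸ (thin_axes 0).neBot),
      ⟨fun s => ⟨fun h => ?_, fun ⟨R, _, h⟩ => mem_of_superset ?_ h⟩⟩⟩, fun k w =>
      ⟨NeBot.of_map (m := ex2) (f2 k w ▸ (thin_axes _).neBot), ?_⟩⟩
  · fin_cases k
    exacts [(an_co 0 ξ).cexp, an_co 1 ξ]
  · fin_cases k
    exacts [al ξ _ 0 rfl, an_co 1 _]
  · fin_cases k
    exacts [h, rfl]
  · obtain ⟨t, a, rfl⟩ := (mem_iInf_of_finite s).1 h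
    choose R _ b using fun k => (hb.comap _).mem_iff.1 (a k)
    exact ⟨max (R 0) (R 1), trivial, subset_iInter fun k ξ c => b k ((c k).trans_le
      (neg_le_neg (by fin_cases k; exacts [le_max_left _ _, le_max_right _ _])))⟩
  · exact eventually_all.2 fun k => mem_iInf_of_mem k ((hb.comap _).mem_of_mem (i := R) trivial)
  · exact ((hb.comap _).inf (nhds_basis_ball.comap _)).to_hasBasis
      (fun q h => ⟨q, h.2, fun ξ a => ⟨a.1, mem_ball_iff_norm.2 a.2⟩⟩)
      fun q h => ⟨q, ⟨trivial, h⟩, fun ξ a => ⟨a.1, mem_ball_iff_norm.1 a.2⟩⟩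

end Pool.Agent.Lib.MP_356dfe_ag.R
end
end

-- part Pool.Agent.Lib.MP_356dfe_ag.R.PSep
section

/-! Part Sep of the resolution of surface singularities. -/

set_option autoImplicit false

open Set Filter Topology Metric
open scoped ContDiff

noncomputable section

namespace Pool.Agent.Lib.MP_356dfe_ag.R

open S (E2)

namespace PSep

open Polynomial

theorem gen {A : Type} [CommRing A] [IsDomain A] [IsIntegrallyClosed A] [CharZero A]
    (P : A[X]) (hP : P.Monic) : ∃ (Q a b : A[X]) (D : A), Q.Monic ∧ D ≠ 0 ∧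
      a * Q + b * derivative Q = C D ∧ ∃ k : ℕ, Q ∣ P ∧ P ∣ Q ^ k := by
  classical
  let K := FractionRing A
  have hi : Function.Injective (algebraMap A K) := IsFractionRing.injective A K
  have : CharZero K := charZero_of_injective_algebraMap hi
  have hP' : (P.map (algebraMap A K)).Monic := hP.map _
  set g := UniqueFactorizationMonoid.radical (P.map (algebraMap A K)) with hg
  have h1 : g ∣ P.map (algebraMap A K) := UniqueFactorizationMonoid.radical_dvd_self
  have h2 : Squarefree g := UniqueFactorizationMonoid.squarefree_radical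
  obtain ⟨k, h3⟩ : ∃ k, P.map (algebraMap A K) ∣ g ^ k :=
    UniqueFactorizationMonoid.exists_dvd_radical_self_pow hP'.ne_zero
  obtain ⟨Q, hQ⟩ := IsIntegrallyClosed.eq_map_mul_C_of_dvd K hP h1
  have h4 : g.leadingCoeff ≠ 0 := leadingCoeff_ne_zero.2 h2.ne_zero
  have h5 : (Q.map (algebraMap A K)).Monic := by
    have h := congrArg leadingCoeff hQ
    rw [leadingCoeff_mul, leadingCoeff_C] at h
    exact mul_right_cancel₀ h4 (h.trans (one_mul _).symm)
  have h6 : Q.Monic := monic_of_injective hi h5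
  have h7 : Q.map (algebraMap A K) ∣ g := ⟨_, hQ.symm⟩
  have h8 : g ∣ Q.map (algebraMap A K) := by
    rw [← hQ]
    exact ((isUnit_C.2 h4.isUnit).mul_right_dvd).2 dvd_rfl
  obtain ⟨a, b, hab⟩ : (Q.map (algebraMap A K)).Separable :=
    PerfectField.separable_iff_squarefree.2 (h2.squarefree_of_dvd h7)
  obtain ⟨s, hs, ha⟩ := IsLocalization.integerNormalization_spec (nonZeroDivisors A) a
  obtain ⟨t, ht, hb⟩ := IsLocalization.integerNormalization_spec (nonZeroDivisors A) b
  refine ⟨Q, C t * IsLocalization.integerNormalization (nonZeroDivisors A) a,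
    C s * IsLocalization.integerNormalization (nonZeroDivisors A) b, s * t, h6,
    mul_ne_zero (nonZeroDivisors.ne_zero hs) (nonZeroDivisors.ne_zero ht), ?_, k,
    (hP.dvd_iff_fraction_map_dvd_fraction_map (K := K) h6).1 (h7.trans h1),
    ((h6.pow k).dvd_iff_fraction_map_dvd_fraction_map (K := K) hP).1 ?_⟩
  · apply map_injective _ hi
    simp only [Polynomial.map_add, Polynomial.map_mul, map_C, ha, hb, ← derivative_map, map_mul]
    rw [← algebraMap_smul K s a, ← algebraMap_smul K t b, smul_eq_C_mul, smul_eq_C_mul]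
    linear_combination C (algebraMap A K s) * C (algebraMap A K t) * hab
  · rw [Polynomial.map_pow]
    exact h3.trans (pow_dvd_pow_of_dvd h8 k)

end PSep

theorem sepx : Sep := by
  intro σ _ P hP
  exact PSep.gen P hP

end Pool.Agent.Lib.MP_356dfe_ag.R
end
end

-- part Pool.Agent.Lib.MP_356dfe_ag.R.PNoeth
section

/-! Part Noeth of the resolution of surface singularities. -/

set_option autoImplicit false

open Set Filter Topology Metric
open scoped ContDiff

noncomputable section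

namespace Pool.Agent.Lib.MP_356dfe_ag.R

open S (E2)

namespace PNoeth

open MvPolynomial

theorem surj {m n : ℕ} (I : Ideal (MvPolynomial (Fin m) ℂ))
    (g : MvPolynomial (Fin n) ℂ →ₐ[ℂ] MvPolynomial (Fin m) ℂ ⧸ I) (h1 : Function.Injective g)
    (h2 : g.IsIntegral) (p : Fin n → MvPolynomial (Fin m) ℂ)
    (hp : ∀ k, Ideal.Quotient.mk I (p k) = g (X k)) (b : Fin n → ℂ) :
    ∃ v : Fin m → ℂ, (∀ P ∈ I, eval v P = 0) ∧ (fun k => eval v (p k)) = b := by
  let := g.toRingHom.toAlgebra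
  have : Algebra.IsIntegral (MvPolynomial (Fin n) ℂ) (MvPolynomial (Fin m) ℂ ⧸ I) := ⟨h2⟩
  have hm : (vanishingIdeal ℂ {b} : Ideal (MvPolynomial (Fin n) ℂ)).IsMaximal :=
    isMaximal_iff_eq_vanishingIdeal_singleton.2 ⟨b, rfl⟩
  obtain ⟨Q, hQ, hc⟩ := Ideal.exists_ideal_over_maximal_of_isIntegral
    (S := MvPolynomial (Fin m) ℂ ⧸ I) (vanishingIdeal ℂ {b} : Ideal (MvPolynomial (Fin n) ℂ))
    (((RingHom.injective_iff_ker_eq_bot _).1 h1).trans_le bot_le)
  obtain ⟨v, hv⟩ := isMaximal_iff_eq_vanishingIdeal_singleton.1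
    (Ideal.comap_isMaximal_of_surjective (Ideal.Quotient.mk I) Ideal.Quotient.mk_surjective
      (K := Q))
  have key (P : MvPolynomial (Fin m) ℂ) (h : Ideal.Quotient.mk I P ∈ Q) : eval v P = 0 := by
    have h' : P ∈ vanishingIdeal ℂ {v} := hv ▸ Ideal.mem_comap.2 h
    rw [mem_vanishingIdeal_singleton_iff] at h'
    exact (congr($(coe_aeval_eq_eval v) P)).symm.trans h'
  refine ⟨v, fun P hP => key P (by rw [Ideal.Quotient.eq_zero_iff_mem.2 hP]; exact Q.zero_mem),
    funext fun k => ?_⟩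
  have h3 : (X k - C (b k) : MvPolynomial (Fin n) ℂ) ∈ vanishingIdeal ℂ {b} := by
    rw [mem_vanishingIdeal_singleton_iff]
    simp
  rw [← hc] at h3
  have h4 : g (X k - C (b k)) ∈ Q := h3
  have h5 : g (X k - C (b k)) = Ideal.Quotient.mk I (p k - C (b k)) := by
    rw [map_sub, map_sub, hp, ← algebraMap_eq, AlgHom.commutes]
    rfl
  have h6 := key _ (h5 ▸ h4)
  rwa [map_sub, eval_C, sub_eq_zero] at h6

theorem le_two {m n : ℕ} (π : (Fin m → ℂ) → Fin n → ℂ) (hπ : ∀ v, AnalyticAt ℂ π v)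
    {F : Set (Fin m → ℂ)} {s : ℕ → E2 → Fin m → ℂ} {O : ℕ → Set E2} (hF : F.Finite)
    (hs : ∀ j, ∀ u ∈ O j, AnalyticAt ℂ (s j) u) (h : ∀ b, ∃ v ∈ F ∪ ⋃ j, s j '' O j, π v = b) :
    n ≤ 2 := by
  have h1 : (univ : Set (Fin n → ℂ)) ⊆ π '' F ∪ ⋃ j, (π ∘ s j) '' O j := fun b _ => by
    obtain ⟨v, hv | hv, rfl⟩ := h b
    · exact .inl ⟨v, hv, rfl⟩
    · obtain ⟨j, u, hu, rfl⟩ := mem_iUnion.1 hv
      exact .inr (mem_iUnion.2 ⟨j, u, hu, rfl⟩)
  have h2 (j : ℕ) : dimH ((π ∘ s j) '' O j) ≤ dimH (univ : Set E2) :=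
    (dimH_image_le_of_locally_lipschitzOn fun u hu => by
      obtain ⟨K, t, ht, hK⟩ :=
        (((hπ _).comp (hs j u hu)).contDiffAt (n := 1)).exists_lipschitzOnWith
      exact ⟨K, t, mem_nhdsWithin_of_mem_nhds ht, hK⟩).trans (dimH_mono (subset_univ _))
  have h3 := dimH_mono h1
  rw [dimH_union, dimH_finite (hF.image π), dimH_iUnion] at h3
  have h4 := h3.trans (max_le zero_le (iSup_le h2))
  have h5 (r : ℕ) : Module.finrank ℝ (Fin r → ℂ) = r * 2 := by
    simp [Module.finrank_pi_fintype, Complex.finrank_real_complex]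
  rw [Real.dimH_univ_eq_finrank, Real.dimH_univ_eq_finrank, h5, h5, Nat.cast_le] at h4
  omega

end PNoeth

open MvPolynomial in
theorem noeth : Noeth := by
  intro m T F s O hF hs hc
  have hI (v : Fin m → ℂ) (hv : ∀ P ∈ T, eval v P = 0) : ∀ P ∈ Ideal.span T, eval v P = 0 :=
    fun P hP => (Ideal.span_le.2 hv : Ideal.span T ≤ RingHom.ker (eval v)) hP
  by_cases h : Ideal.span T = ⊤
  · refine ⟨0, fun i => ⟨1, Polynomial.monic_one, fun v hv => ?_⟩⟩
    simpa using hI v hv 1 (h ▸ Submodule.mem_top)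
  obtain ⟨n, -, g, h1, h2⟩ := exists_integral_inj_algHom_of_quotient _ h
  choose p hp using fun k : Fin n => Ideal.Quotient.mk_surjective (g (X k))
  have hn : n ≤ 2 := PNoeth.le_two (fun v k => eval v (p k))
    (fun v => analyticAt_pi_iff.2 fun k => AnalyticOnNhd.eval_mvPolynomial (p k) v (mem_univ _))
    hF hs fun b => by
      obtain ⟨v, hv, e⟩ := PNoeth.surj _ g h1 h2 p hp b
      exact ⟨v, hc v fun P hP => hv P (Ideal.subset_span hP), e⟩
  refine ⟨Function.extend (Fin.castLE hn) p 0, fun i => ?_⟩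
  obtain ⟨Q, hQ, e⟩ := h2 (Ideal.Quotient.mk _ (X i))
  refine ⟨Q.map (rename (Fin.castLE hn)).toRingHom, hQ.map _, fun v hv => ?_⟩
  let φ := Ideal.Quotient.lift (Ideal.span T) (eval v) (hI v hv)
  have e1 := congrArg φ e
  rw [Polynomial.hom_eval₂, map_zero, Ideal.Quotient.lift_mk, eval_X] at e1
  rw [Polynomial.eval₂_map, ← e1]
  congr 1
  refine MvPolynomial.ringHom_ext (fun c => ?_) fun k => ?_
  · change eval _ (rename _ (C c)) = φ (g (C c))
    rw [rename_C, eval_C, ← algebraMap_eq, AlgHom.commutes]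
    exact (eval_C c).symm
  · change eval _ (rename _ (X k)) = φ (g (X k))
    rw [rename_X, eval_X, (Fin.castLE_injective hn).extend_apply, ← hp]
    rfl

end Pool.Agent.Lib.MP_356dfe_ag.R
end
end

-- part Pool.Agent.Lib.MP_356dfe_ag.R.PLiftS
section

/-! Part LiftS of the resolution of surface singularities. -/

set_option autoImplicit false

open Set Filter Topology Metric
open scoped ContDiff

noncomputable section

namespace Pool.Agent.Lib.MP_356dfe_ag.R

open S (E2)

theorem liftS : LiftS := by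
  intro X E B _ _ _ _ p Y B' hc L κ h1 h2
  refine ⟨fun hL ξ hξ y hy e => ?_, fun hL lam lam' a a' b b' c c' ξ hξ e η hη => ?_⟩
  · have := hL.contractibleSpace ⟨ξ, hξ⟩
    have := hL.locallyPathConnectedSpace
    obtain ⟨F, ⟨f1, f2⟩, -⟩ := hc.existsUnique_continuousMap_lifts
      (⟨L.domRestrict κ, h1.domRestrict⟩ : C(L, B)) (a₀ := ⟨ξ, hξ⟩) (e₀ := ⟨y, hy⟩) e
      fun a => h2 a.2
    classical
    refine ⟨fun η => if h : η ∈ L then F ⟨η, h⟩ else y, ?_, fun η h => ?_, fun η h => ?_, ?_⟩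
    · rw [continuousOn_iff_continuous_domRestrict]
      exact (continuous_subtype_val.comp F.continuous).congr fun η => by
        simp only [Function.comp_apply, domRestrict_apply, dif_pos η.2]
    · simp only [dif_pos h]
      exact (F ⟨η, h⟩).2
    · simp only [dif_pos h]
      exact congrFun f2 ⟨η, h⟩
    · simp only [dif_pos hξ, f1]
  · have := isPreconnected_iff_preconnectedSpace.1 hL
    have d := hc.isCoveringMap_restrictPreimage.eq_of_comp_eq
      (g₁ := fun η : L => ⟨⟨lam η, b η.2⟩, mem_of_eq_of_mem (s := B') (c η η.2) (h2 η.2)⟩)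
      (g₂ := fun η : L => ⟨⟨lam' η, b' η.2⟩, mem_of_eq_of_mem (s := B') (c' η η.2) (h2 η.2)⟩)
      ((a.domRestrict.subtype_mk _).subtype_mk _) ((a'.domRestrict.subtype_mk _).subtype_mk _)
      (funext fun η => Subtype.ext ((c η η.2).trans (c' η η.2).symm)) ⟨ξ, hξ⟩
      (Subtype.ext (Subtype.ext e))
    exact congrArg (fun z => z.1.1) (congrFun d ⟨η, hη⟩)

end Pool.Agent.Lib.MP_356dfe_ag.R
end
end

-- part Pool.Agent.Lib.MP_356dfe_ag.R.PPuisM
section

/-! Part PuisM of the resolution of surface singularities. -/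

set_option autoImplicit false

open Set Filter Topology Metric
open scoped ContDiff

noncomputable section

namespace Pool.Agent.Lib.MP_356dfe_ag.R

open S (E2)

namespace PPuisM

open Polynomial Function

/-- evaluation of a coefficient -/
def ev (x : ℂ) : MvPolynomial Unit ℂ →+* ℂ := MvPolynomial.eval fun _ => x

/-- the polynomial as a function of two variables -/
def Fq (Q : Polynomial (MvPolynomial Unit ℂ)) (v : ℂ × ℂ) : ℂ := Q.eval₂ (ev v.1) v.2

theorem ev_cd (D : MvPolynomial Unit ℂ) : ContDiff ℂ ω fun x => ev x D := by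
  induction D using MvPolynomial.induction_on with
  | C a => simpa [ev] using contDiff_const
  | add p q hp hq => simpa only [map_add] using hp.add hq
  | mul_X p n hp => simpa [ev] using hp.mul contDiff_id

theorem Fq_cd (Q : Polynomial (MvPolynomial Unit ℂ)) : ContDiff ℂ ω (Fq Q) := by
  unfold Fq
  simp only [eval₂_eq_sum_range]
  exact ContDiff.sum fun i _ => ((ev_cd _).comp contDiff_fst).mul (contDiff_snd.pow i)

theorem inv {Q : Polynomial (MvPolynomial Unit ℂ)} {u : ℂ × ℂ} (h : Fq (derivative Q) u ≠ 0) :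
    (fderiv ℂ (Fq Q) u ∘L ContinuousLinearMap.inr ℂ ℂ ℂ).IsInvertible := by
  have h1 : HasFDerivAt (fun y => Fq Q (u.1, y))
      (fderiv ℂ (Fq Q) u ∘L ContinuousLinearMap.inr ℂ ℂ ℂ) u.2 :=
    HasFDerivAt.comp (g := Fq Q) u.2 ((Fq_cd Q).differentiable (by simp) u).hasFDerivAt
      (hasFDerivAt_prodMk_right u.1 u.2)
  have h2 : HasDerivAt (fun y => Fq Q (u.1, y)) (Fq (derivative Q) u) u.2 := by
    simpa only [Fq, derivative_map, eval_map] using (Q.map (ev u.1)).hasDerivAt u.2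
  rw [h1.unique h2.hasFDerivAt]
  exact ⟨ContinuousLinearEquiv.unitsEquivAut ℂ (Units.mk0 _ h), by ext; simp⟩

theorem bound {Q : Polynomial (MvPolynomial Unit ℂ)} (hQ : Q.Monic) :
    ∃ R : ℝ, ∀ v : ℂ × ℂ, ‖v.1‖ ≤ 1 → Fq Q v = 0 → ‖v.2‖ < R := by
  obtain ⟨C, hC⟩ := (isCompact_closedBall (0 : ℂ) 1).exists_bound_of_continuousOn
    (f := fun x => ∑ i ∈ Finset.range Q.natDegree, ‖ev x (Q.coeff i)‖)
    (continuous_finsetSum _ fun i _ => (ev_cd _).continuous.norm).continuousOn
  refine ⟨C + 1, fun v h1 h2 => ?_⟩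
  have hm := hQ.map (ev v.1)
  have h3 := IsRoot.norm_lt_cauchyBound hm.ne_zero (a := v.2) (by rw [IsRoot.def, eval_map]; exact h2)
  rw [cauchyBound, hm.leadingCoeff, nnnorm_one, div_one, hQ.natDegree_map] at h3
  have h4 : (Finset.range Q.natDegree).sup (fun i => ‖(Q.map (ev v.1)).coeff i‖₊) ≤
      ∑ i ∈ Finset.range Q.natDegree, ‖ev v.1 (Q.coeff i)‖₊ := Finset.sup_le fun i hi => by
    rw [coeff_map]
    exact Finset.single_le_sum (f := fun i => ‖ev v.1 (Q.coeff i)‖₊) (fun _ _ => zero_le) hi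
  have h5 := NNReal.coe_lt_coe.2 (h3.trans_le (add_le_add_left h4 1))
  have h6 := (le_abs_self _).trans (hC v.1 (mem_closedBall_zero_iff.2 h1))
  simp only [coe_nnnorm, NNReal.coe_add, NNReal.coe_sum, NNReal.coe_one] at h5
  linarith

theorem fin {Q : Polynomial (MvPolynomial Unit ℂ)} (hQ : Q.Monic) (x : ℂ) :
    {y | Fq Q (x, y) = 0}.Finite :=
  (Q.map (ev x)).roots.toFinset.finite_toSet.subset fun y hy => by
    simpa [mem_roots (hQ.map (ev x)).ne_zero, IsRoot.def, eval_map, Fq] using hy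

theorem ne0 {D : MvPolynomial Unit ℂ} (hD : D ≠ 0) : ∀ᶠ x in 𝓝[≠] (0 : ℂ), ev x D ≠ 0 := by
  have ha : AnalyticOnNhd ℂ (fun x => ev x D) univ := fun x _ => (ev_cd D).contDiffAt.analyticAt
  refine (ha 0 trivial).eventually_eq_zero_or_eventually_ne_zero.resolve_left fun h => hD ?_
  have := ha.eq_of_eventuallyEq analyticOnNhd_const h
  exact MvPolynomial.funext fun x => by simpa [ev] using congrFun this (x ())

/-- the compact box -/
def Bx (R : ℝ) : Set (ℂ × ℂ) := closedBall 0 1 ×ˢ closedBall 0 R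

theorem cov {Q : Polynomial (MvPolynomial Unit ℂ)} (hQ : Q.Monic) {R : ℝ}
    (hR : ∀ v : ℂ × ℂ, ‖v.1‖ ≤ 1 → Fq Q v = 0 → ‖v.2‖ < R) :
    IsCoveringMapOn ((Bx R).domRestrict fun v => (Fq Q v, v.1))
      {b | b.1 = 0 ∧ ‖b.2‖ < 1 ∧ ∀ y, Fq Q (b.2, y) = 0 → Fq (derivative Q) (b.2, y) ≠ 0} := by
  have : CompactSpace (Bx R) :=
    isCompact_iff_compactSpace.1 ((isCompact_closedBall _ _).prod (isCompact_closedBall _ _))
  have hc : Continuous fun v : ℂ × ℂ => (Fq Q v, v.1) := (Fq_cd Q).continuous.prodMk continuous_fst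
  refine IsClosedMap.isCoveringMapOn_of_isLocalHomeomorphOn
    (hc.comp continuous_subtype_val).isClosedMap (fun b hb => ?_) ?_
  · refine (((finite_singleton b.2).prod (fin hQ b.2)).preimage
      (Subtype.val_injective (p := (· ∈ Bx R))).injOn).subset fun v hv => ?_
    obtain rfl : (Fq Q v, v.1.1) = b := hv
    exact ⟨rfl, hb.1⟩
  · have h1 : IsLocalHomeomorphOn (fun v : ℂ × ℂ => (Fq Q v, v.1))
        {v | Fq (derivative Q) v ≠ 0} := fun v hv =>
      ⟨_, (((Fq_cd Q).contDiffAt.hasStrictFDerivAt (by simp)).implicitFunctionDataOfProdDomain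
        (inv hv)).pt_mem_toOpenPartialHomeomorph_source, rfl⟩
    have ho : IsOpen (ball (0 : ℂ) 1 ×ˢ ball (0 : ℂ) R) := isOpen_ball.prod isOpen_ball
    have h2 : IsLocalHomeomorphOn (Subtype.val : Bx R → ℂ × ℂ)
        (Subtype.val ⁻¹' (ball 0 1 ×ˢ ball 0 R)) := by
      refine (isLocalHomeomorphOn_iff_isOpenEmbedding_restrict _).2 fun v hv =>
        ⟨_, (ho.preimage continuous_subtype_val).mem_nhds hv,
          IsEmbedding.subtypeVal.comp IsEmbedding.subtypeVal, ?_⟩
      rwa [range_domRestrict, Subtype.image_preimage_coe, Bx,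
        inter_eq_right.2 (Set.prod_mono ball_subset_closedBall ball_subset_closedBall)]
    exact h1.comp (h2.mono fun v hv => ⟨mem_ball_zero_iff.2 hv.2.1,
      mem_ball_zero_iff.2 (hR _ hv.2.1.le hv.1)⟩) fun v hv => hv.2.2 _ hv.1

theorem hol {Q : Polynomial (MvPolynomial Unit ℂ)} {l : ℂ → ℂ × ℂ} {κ : ℂ → ℂ} {z : ℂ}
    (hl : ContinuousAt l z) (hκ : DifferentiableAt ℂ κ z)
    (h : ∀ᶠ w in 𝓝 z, (Fq Q (l w), (l w).1) = (0, κ w)) (hd : Fq (derivative Q) (l z) ≠ 0) :
    DifferentiableAt ℂ (fun w => (l w).2) z := by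
  have hc : ContDiffAt ℂ ω (Fq Q) (l z) := (Fq_cd Q).contDiffAt
  have h0 := h.self_of_nhds
  have h1 := (hc.contDiffAt_implicitFunction (by simp) (inv hd)).differentiableAt (by simp)
  rw [(Prod.mk.inj h0).2] at h1
  refine (h1.comp z hκ).congr_of_eventuallyEq ?_
  filter_upwards [h, hl.eventually (hc.eventually_apply_eq_iff_implicitFunction (by simp) (inv hd))]
    with w hw hw'
  rw [comp_apply, ← (Prod.mk.inj hw).2]
  exact (hw'.1 ((Prod.mk.inj hw).1.trans (Prod.mk.inj h0).1.symm)).symm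

theorem q_add (z : ℂ) (j : ℕ) : Periodic.qParam 1 (z + j) = Periodic.qParam 1 z := by
  simp only [Periodic.qParam, Complex.ofReal_one, div_one, mul_add, Complex.exp_add]
  rw [mul_comm _ (j : ℂ), Complex.exp_nat_mul_two_pi_mul_I, mul_one]

theorem q_pow {n : ℕ} (hn : 0 < n) (z : ℂ) : Periodic.qParam n z ^ n = Periodic.qParam 1 z := by
  have : (n : ℂ) ≠ 0 := Nat.cast_ne_zero.2 hn.ne'
  simp only [Periodic.qParam, ← Complex.exp_nat_mul, Complex.ofReal_natCast, Complex.ofReal_one]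
  congr 1
  field_simp

end PPuisM

open PPuisM Function Polynomial in
theorem puisM (hl : LiftS) : PuisM := by
  classical
  intro Q a b D hQ hD hab
  obtain ⟨R, hR⟩ := bound hQ
  obtain ⟨c, hc⟩ : ∃ c : ℝ, ∀ z : ℂ, c < z.im →
      ev (Periodic.qParam 1 z) D ≠ 0 ∧ ‖Periodic.qParam 1 z‖ < 1 := by
    have h := (Periodic.qParam_tendsto one_pos).eventually
      ((ne0 hD).and (mem_nhdsWithin_of_mem_nhds (ball_mem_nhds 0 one_pos)))
    obtain ⟨c, hc⟩ := eventually_atTop.1 (eventually_comap.1 h)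
    exact ⟨c, fun z hz => (hc _ hz.le z rfl).imp id mem_ball_zero_iff.1⟩
  have hd : ∀ z : ℂ, c < z.im → ∀ y, Fq Q (Periodic.qParam 1 z, y) = 0 →
      Fq (derivative Q) (Periodic.qParam 1 z, y) ≠ 0 := fun z hz y h1 h2 => (hc z hz).1 <| by
    have := congrArg (eval₂ (ev (Periodic.qParam 1 z)) y) hab
    rw [eval₂_add, eval₂_mul, eval₂_mul, eval₂_C] at this
    simp only [Fq] at h1 h2
    rw [← this, h1, h2, mul_zero, mul_zero, add_zero]
  set L : Set ℂ := {z | c < z.im} with hL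
  have Lc : Convex ℝ L := convex_halfSpace_im_gt c
  have Lo : IsOpen L := isOpen_lt continuous_const Complex.continuous_im
  have La : ∀ z ∈ L, ∀ j : ℕ, z + j ∈ L := fun z hz j => by simpa [hL] using hz
  obtain ⟨ex, un⟩ := hl _ _ _ _ _ _ (cov hQ hR) L (fun z => (0, Periodic.qParam 1 z))
    (by fun_prop) fun z hz => ⟨rfl, (hc z hz).2, hd z hz⟩
  replace ex := fun z hz y (hy : Fq Q (Periodic.qParam 1 z, y) = 0) =>
    ex Lc z hz (Periodic.qParam 1 z, y) ⟨mem_closedBall_zero_iff.2 (hc z hz).2.le,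
      mem_closedBall_zero_iff.2 (hR _ (hc z hz).2.le hy).le⟩ (by rw [hy])
  replace un := un Lc.isPreconnected
  set z₀ : ℂ := (c + 1 : ℝ) * Complex.I with hz₀
  have L0 : z₀ ∈ L := by simp [hL, hz₀]
  choose! l lc lm le l0 using ex z₀ L0
  have rt : ∀ {k : ℂ → ℂ × ℂ} {z : ℂ}, (Fq Q (k z), (k z).1) = (0, Periodic.qParam 1 z) →
      Fq Q (Periodic.qParam 1 z, (k z).2) = 0 ∧ k z = (Periodic.qParam 1 z, (k z).2) :=
    fun {k z} h => by
      rw [← (Prod.mk.inj h).2]
      exact ⟨(Prod.mk.inj h).1, rfl⟩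
  set f : ℂ → ℂ → ℂ := fun y z => if c < z.im then (l y z).2 else 0 with hf
  have per : ∀ y, Fq Q (Periodic.qParam 1 z₀, y) = 0 → ∃ m : ℕ, 0 < m ∧ Periodic (f y) m := by
    intro y hy
    obtain ⟨i, j, hij, e⟩ := (fin hQ (Periodic.qParam 1 z₀)).exists_lt_map_eq_of_forall_mem
      (f := fun j : ℕ => (l y (z₀ + j)).2) fun j => q_add z₀ j ▸ (rt (le y hy _ (La _ L0 j))).1
    obtain ⟨m, rfl⟩ := Nat.exists_eq_add_of_le hij.le
    have key := un (fun z => l y (z + m)) (l y)
      ((lc y hy).comp (by fun_prop) fun z hz => La z hz m) (lc y hy)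
      (fun z hz => lm y hy (La z hz m)) (lm y hy)
      (fun z hz => (le y hy _ (La z hz m)).trans (by rw [q_add])) (le y hy) _ (La _ L0 i) (by
        rw [add_assoc, ← Nat.cast_add, (rt (le y hy _ (La _ L0 _))).2, (rt (le y hy _ (La _ L0 i))).2,
          q_add, q_add]
        exact Prod.ext rfl e.symm)
    refine ⟨m, by omega, fun z => ?_⟩
    simp only [hf, Complex.add_im, Complex.natCast_im, add_zero]
    split_ifs with hz
    · exact congrArg Prod.snd (key hz)
    · rfl
  choose! m m0 mp using per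
  set T := (fin hQ (Periodic.qParam 1 z₀)).toFinset with hT
  have mT : ∀ {y}, y ∈ T ↔ Fq Q (Periodic.qParam 1 z₀, y) = 0 := Finite.mem_toFinset _
  set n := ∏ y ∈ T, m y with hn
  have n0 : 0 < n := Finset.prod_pos fun y hy => m0 y (mT.1 hy)
  have n0' : (0 : ℝ) < n := Nat.cast_pos.2 n0
  have pn : ∀ y ∈ T, Periodic (f y) ((n : ℝ) : ℂ) := fun y hy => by
    obtain ⟨k, hk⟩ := Finset.dvd_prod_of_mem m hy
    rw [hn, hk, Complex.ofReal_natCast, Nat.cast_mul, mul_comm]
    exact (mp y (mT.1 hy)).nat_mul k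
  have fd : ∀ y ∈ T, ∀ z ∈ L, DifferentiableAt ℂ (f y) z := fun y hy z hz => by
    have hy' := mT.1 hy
    refine (hol ((lc y hy').continuousAt (Lo.mem_nhds hz)) (Periodic.differentiable_qParam z)
      (mem_of_superset (Lo.mem_nhds hz) (le y hy')) ?_).congr_of_eventuallyEq ?_
    · rw [(rt (le y hy' z hz)).2]
      exact hd z hz _ (rt (le y hy' z hz)).1
    · filter_upwards [Lo.mem_nhds hz] with w hw using if_pos hw
  have up : ∀ t : ℂ, t ≠ 0 → ‖t‖ < Real.exp (-2 * Real.pi * c / n) →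
      ∃ z ∈ L, Periodic.qParam n z = t := fun t ht h => by
    have e := Periodic.qParam_right_inv n0'.ne' ht
    exact ⟨_, (Periodic.norm_qParam_lt_iff n0' c _).1 (e.symm ▸ h), e⟩
  refine ⟨n, Real.exp (-2 * Real.pi * c / n), T.image fun y => Periodic.cuspFunction n (f y), n0,
    Real.exp_pos _, fun φ hφ t ht => ?_, fun t y ht ht' hy => ?_⟩
  · obtain ⟨y, hy, rfl⟩ := Finset.mem_image.1 hφ
    refine DifferentiableOn.analyticAt (fun s hs => DifferentiableAt.differentiableWithinAt ?_)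
      (isOpen_ball.mem_nhds (mem_ball_zero_iff.2 ht))
    obtain rfl | hs0 := eq_or_ne s 0
    · have hL' : ∀ᶠ z in comap Complex.im atTop, z ∈ L :=
        (eventually_gt_atTop c).comap Complex.im
      refine Periodic.differentiableAt_cuspFunction_zero n0' (pn y hy) (hL'.mono (fd y hy))
        (Asymptotics.IsBigO.of_bound R (hL'.mono fun z hz => ?_))
      simpa [hf, if_pos (show c < z.im from hz)] using (lm y (mT.1 hy) hz).2
    · obtain ⟨z, hz, rfl⟩ := up s hs0 (mem_ball_zero_iff.1 hs)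
      exact Periodic.differentiableAt_cuspFunction n0'.ne' (pn y hy) (fd y hy z hz)
  · obtain ⟨z, hz, rfl⟩ := up t ht ht'
    rw [q_pow n0] at hy
    obtain ⟨k, kc, km, ke, k0⟩ := ex z hz y hy
    obtain ⟨r1, r2⟩ := rt (ke _ L0)
    have key := un k (l _) kc (lc _ r1) km (lm _ r1) ke (le _ r1) _ L0 (r2.trans (l0 _ r1).symm) hz
    refine ⟨_, Finset.mem_image_of_mem _ (mT.2 r1), ?_⟩
    rw [Periodic.eq_cuspFunction n0'.ne' (pn _ (mT.2 r1))]
    simp only [hf, if_pos (show c < z.im from hz), ← key, k0]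

end Pool.Agent.Lib.MP_356dfe_ag.R
end
end

-- part Pool.Agent.Lib.MP_356dfe_ag.R.PPuis
section

/-! Part Puis of the resolution of surface singularities. -/

set_option autoImplicit false

open Set Filter Topology Metric
open scoped ContDiff

noncomputable section

namespace Pool.Agent.Lib.MP_356dfe_ag.R

open S (E2)

namespace PPuis

theorem key {A ψ : ℂ → ℂ} (hA : AnalyticAt ℂ A 0) (h0 : ¬ ∀ᶠ t in 𝓝 0, A t = 0)
    (hψ : AnalyticAt ℂ ψ 0) : ∃ φ : ℂ → ℂ, φ 0 = 0 ∧ ∀ᶠ p in 𝓝 ((0, 0) : ℂ × ℂ),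
      AnalyticAt ℂ φ p.1 ∧ (p.1 ≠ 0 → A p.1 * p.2 = ψ p.1 → p.2 = φ p.1) := by
  obtain ⟨m, h, h1, h2, h3⟩ := hA.exists_eventuallyEq_pow_smul_nonzero_iff.2 h0
  have c : Tendsto Prod.fst (𝓝 ((0, 0) : ℂ × ℂ)) (𝓝 0) := continuous_fst.continuousAt
  have h4 := h1.continuousAt.eventually_ne h2
  simp only [sub_zero, smul_eq_mul] at h3
  by_cases k0 : ∀ᶠ t in 𝓝 0, ψ t = 0
  · refine ⟨0, rfl, ?_⟩
    filter_upwards [c.eventually h3, c.eventually h4, c.eventually k0] with p a b d
    refine ⟨analyticAt_const, fun e f => ?_⟩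
    rw [a, d] at f
    exact (mul_eq_zero.1 f).resolve_left (mul_ne_zero (pow_ne_zero _ e) b)
  obtain ⟨k, g, g1, g2, g3⟩ := hψ.exists_eventuallyEq_pow_smul_nonzero_iff.2 k0
  simp only [sub_zero, smul_eq_mul] at g3
  rcases le_or_gt k m with l | l
  · obtain ⟨d, rfl⟩ := Nat.exists_eq_add_of_le l
    have g4 : ContinuousAt (fun p : ℂ × ℂ => p.1 ^ d * h p.1 * p.2 - g p.1) (0, 0) :=
      (((continuousAt_fst.pow d).mul (h1.continuousAt.tendsto.comp c)).mul continuousAt_snd).sub
        (g1.continuousAt.tendsto.comp c)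
    refine ⟨0, rfl, ?_⟩
    filter_upwards [c.eventually h3, c.eventually g3, g4.eventually_ne (y := 0) (by simpa using g2)]
      with p a b d
    refine ⟨analyticAt_const, fun e f => (d (mul_left_cancel₀ (pow_ne_zero k e) ?_)).elim⟩
    rw [a, b] at f
    linear_combination f
  · obtain ⟨d, rfl⟩ := Nat.exists_eq_add_of_lt l
    have g4 : AnalyticAt ℂ (fun t => t ^ (d + 1) * g t / h t) 0 :=
      ((analyticAt_id.pow _).mul g1).div h1 h2
    refine ⟨fun t => t ^ (d + 1) * g t / h t, by simp, ?_⟩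
    filter_upwards [c.eventually h3, c.eventually g3, c.eventually h4,
      c.eventually g4.eventually_analyticAt] with p a b d e
    refine ⟨e, fun e f => (eq_div_iff d).2 (mul_left_cancel₀ (pow_ne_zero m e) ?_)⟩
    rw [a, b] at f
    linear_combination f

theorem an (a : MvPolynomial Unit ℂ) (n : ℕ) (t : ℂ) :
    AnalyticAt ℂ (fun t : ℂ => MvPolynomial.eval (fun _ => t ^ n) a) t :=
  AnalyticAt.aeval_mvPolynomial (f := fun (t : ℂ) (_ : Unit) => t ^ n)
    (fun _ => analyticAt_id.pow n) a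

theorem ne {a : MvPolynomial Unit ℂ} (ha : a ≠ 0) {n : ℕ} (hn : 0 < n) :
    ¬ ∀ᶠ t in 𝓝 (0 : ℂ), MvPolynomial.eval (fun _ => t ^ n) a = 0 := fun h => by
  have h1 := AnalyticOnNhd.eqOn_zero_of_preconnected_of_eventuallyEq_zero
    (fun t (_ : t ∈ univ) => an a n t) isPreconnected_univ (mem_univ 0) h
  refine ha (MvPolynomial.funext fun x => ?_)
  obtain ⟨t, ht⟩ := IsAlgClosed.exists_pow_nat_eq (x ()) hn
  rw [map_zero, show x = fun _ => t ^ n from funext fun _ => ht.symm]
  exact h1 (mem_univ t)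

/-- a polynomial in two variables as a polynomial in the second one -/
theorem poly {δ : MvPolynomial (Fin 2) ℂ} (h : δ ≠ 0) : ∃ P : Polynomial (MvPolynomial Unit ℂ),
    P ≠ 0 ∧ ∀ x y : ℂ, P.eval₂ (MvPolynomial.eval fun _ => x) y = MvPolynomial.eval ![x, y] δ := by
  have e : ∀ (x y : ℂ) (δ : MvPolynomial (Fin 2) ℂ), (MvPolynomial.aeval
      ![Polynomial.C (MvPolynomial.X ()), Polynomial.X] δ : Polynomial (MvPolynomial Unit ℂ)).eval₂
      (MvPolynomial.eval fun _ => x) y = MvPolynomial.eval ![x, y] δ := fun x y δ => by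
    induction δ using MvPolynomial.induction_on with
    | C a => simp
    | add p q hp hq => rw [map_add, map_add, Polynomial.eval₂_add, hp, hq]
    | mul_X p i hp =>
      rw [map_mul, map_mul, Polynomial.eval₂_mul, hp]
      fin_cases i <;> simp
  refine ⟨_, fun k => h (MvPolynomial.funext fun v => ?_), fun x y => e x y δ⟩
  rw [map_zero, show v = ![v 0, v 1] from funext fun i => by fin_cases i <;> rfl, ← e, k,
    Polynomial.eval₂_zero]

/-- reduction to monic polynomials -/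
theorem mon {R : Type} [CommRing R] [IsDomain R] {P : Polynomial R} (h : P ≠ 0) :
    ∃ (L : R) (P' : Polynomial R), L ≠ 0 ∧ P'.Monic ∧ ∀ (f : R →+* ℂ) (y : ℂ), P.eval₂ f y = 0 →
      P'.eval₂ f (f L * y) = 0 := by
  have h1 : P * Polynomial.X ≠ 0 := mul_ne_zero h Polynomial.X_ne_zero
  refine ⟨_, _, Polynomial.leadingCoeff_ne_zero.2 h1, Polynomial.monic_integralNormalization h1,
    fun f y e => ?_⟩
  rw [Polynomial.integralNormalization_eval₂_leadingCoeff_mul
    (by rw [Polynomial.natDegree_mul_X h]; omega), Polynomial.eval₂_mul, e, zero_mul, mul_zero]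

end PPuis

theorem puis (hs : Sep) (hm : PuisM) : Puis := by
  classical
  intro δ hδ
  obtain ⟨P, h0, hP⟩ := PPuis.poly hδ
  obtain ⟨L, P', hL, h1, h2⟩ := PPuis.mon h0
  obtain ⟨Q, a, b, D, q1, q2, q3, k, -, s, q4⟩ := hs Unit P' h1
  obtain ⟨n, ρ, Φ, hn, hρ, m1, m2⟩ := hm Q a b D q1 q2 q3
  choose φ f0 f1 using fun ψ : Φ => PPuis.key (PPuis.an L n 0) (PPuis.ne hL hn)
    (m1 ψ ψ.2 0 (by rwa [norm_zero]))
  obtain ⟨r, hr, h3⟩ := Metric.eventually_nhds_iff.1 (eventually_all.2 f1)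
  have h4 : ∀ {t y : ℂ}, ‖t‖ < min r ρ → ‖y‖ < min r ρ → dist (t, y) (0, 0) < r := fun c d => by
    rw [Prod.dist_eq, dist_zero_right, dist_zero_right]
    exact max_lt (c.trans_le (min_le_left _ _)) (d.trans_le (min_le_left _ _))
  refine ⟨n, min r ρ, Finset.univ.image φ, hn, lt_min hr hρ, fun f hf => ?_, fun t y c d e f => ?_⟩
  · obtain ⟨ψ, -, rfl⟩ := Finset.mem_image.1 hf
    exact ⟨f0 ψ, fun t c => (h3 (h4 c (y := 0) (by rw [norm_zero]; exact lt_min hr hρ)) ψ).1⟩
  · have h5 := congrArg (Polynomial.eval₂ (MvPolynomial.eval fun _ => t ^ n)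
      (MvPolynomial.eval (fun _ => t ^ n) L * y)) q4
    rw [Polynomial.eval₂_mul, Polynomial.eval₂_pow, h2 _ y ((hP _ y).trans f), zero_mul] at h5
    obtain ⟨ψ, g1, g2⟩ := m2 t _ c (d.trans_le (min_le_right _ _)) (eq_zero_of_pow_eq_zero h5)
    exact ⟨_, Finset.mem_image_of_mem φ (Finset.mem_univ ⟨ψ, g1⟩), (h3 (h4 d e) ⟨ψ, g1⟩).2 c g2⟩

end Pool.Agent.Lib.MP_356dfe_ag.R
end
end
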