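import Pool.Agent.Lib.MP_356dfe_ag.R.PGCh
import Pool.Agent.Lib.MP_356dfe_ag.R.PPuis
import Pool.Agent.Lib.MP_356dfe_ag.R.PRk




import Pool.Agent.Lib.MP_356dfe_ag.R.PKamR



import Pool.Agent.Lib.MP_356dfe_ag.R.PCh





import Pool.Agent.Lib.MP_356dfe_ag.R.PFoxR










import Pool.Agent.Lib.MP_356dfe_ag.R.PLoc







import Pool.Agent.Lib.MP_356dfe_ag.R.PKL







import Pool.Agent.Lib.MP_356dfe_ag.R.PLev2









/-! Resolution of surface singularities and the theorem for all surfaces. -/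

set_option autoImplicit false

open Set Filter Topology Metric

noncomputable section

namespace Pool.Agent.Lib.MP_356dfe_ag.R

open S

theorem locAt : LocPrj :=
  locPrj (covEx (puis sepx (puisM liftS)) famEx (bgEx (desc riem)) rk)
    (baseEx expF (chEx unEx fbEx) bbe (btEx expF) (genEx expF) cls (tupEx (desc riem)))
    (shEx expF liftS fsEx (tgEx expF liftS foxL (foxR conn)) (ggEx expF liftS foxL))
    (locEx expF hj (tc1 expF) (tc2 expF (tc1 expF)) (tc3 (tc1 expF)) (tc4 expF) (gch expF))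

/-- projective surfaces with isolated singularities have Kaehler resolutions -/
theorem resolve {N : ℕ} (I : Finset (MvPolynomial (Fin (N + 1)) ℂ))
    (hS : (Sing (Var I) 2).Finite) : ∃ (M : Type) (_ : TopologicalSpace M) (_ : T2Space M)
    (_ : CompactSpace M) (ℬ : OC M → Prop) (π : M → Var I),
      Res (IsChart (n := 2)) (Sing (Var I) 2) ℬ π ∧ Pos ℬ univ := by
  have := pn_t2 (N := N)
  have := var_compact (I := I)
  by_cases h : ∃ y, y ∉ Sing (Var I) 2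
  swap
  · exact ⟨Empty, inferInstance, inferInstance, inferInstance, fun _ => False, Empty.elim,
      ⟨⟨fun _ _ h => h.elim, fun z => z.elim, finite_empty⟩, continuous_of_discreteTopology,
        .of_isEmpty _, fun x hx => (h ⟨x, hx⟩).elim, fun _ z => z.elim, fun z => z.elim,
        fun _ h => h.elim⟩, univ, isOpen_univ, Subset.rfl, fun _ _ => 0, fun _ => 0,
      fun z => z.elim, fun z => z.elim, fun z => z.elim⟩
  have sp : Sp (IsChart (n := 2)) (Sing (Var I) 2) :=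
    ⟨fun e e' he he' z hz hz' => (he'.1 z hz').an he hz, fun x => not_not, hS⟩
  obtain ⟨W, 𝒟, gd, hl⟩ := gdEx _ _ _ sp fun x hx => locAt _ _ x (prjEx sepx noeth N I hS x hx)
  obtain ⟨y, hy⟩ := h
  obtain ⟨e, he, hy⟩ := (sp.ch y).1 hy
  obtain ⟨M, _, _, _, fl, ch, cp⟩ := cplEx _ _ W 𝒟 gd.cd ⟨_, gd.reg e he, _, e.map_source hy⟩
  obtain ⟨h1, h2⟩ := cplAn riem _ _ _ W 𝒟 sp gd.cd M fl ch cp
  obtain ⟨π, h3, h4⟩ := resEx _ _ _ W 𝒟 gd M fl ch cp h1 h2
  refine ⟨M, _, inferInstance, inferInstance, _, π, h3, lev3 kl fsl pos1 N _ M _ π h3 fun x hx => ?_⟩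
  obtain ⟨U, W', 𝒟', 𝔉, a1, a2, a3, a4, a5⟩ := hl x hx
  exact lev2 (kp kl fsl) pos1 (lev1 (kp kl fsl) pos1) _ _ _ 𝒟 𝒟' M fl ch π cp h2 h3 h4 x hx U W'
    𝔉 a1 a2 a3 a4 a5

theorem main {N N'' : ℕ} (I : Finset (MvPolynomial (Fin (N + 1)) ℂ))
    (hS : (Sing (Var I) 2).Finite) {X : Set (PN N'')} (ν : Var I → X) (hν : ∀ x, HolMap ν x)
    (hf : ∀ y, (ν ⁻¹' {y}).Finite) {Y G : Type} [TopologicalSpace Y] [Group G] [MulAction G Y]
    (p : Y → X) (hp : IsQuotientCoveringMap p G)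
    (hY : ∀ y, ∀ᶠ y' in 𝓝 y, y' ≠ y → ∃ f, Hol p f ∧ f y ≠ f y') :
    Concl (Var I) (Sing (Var I) 2) 0 := by
  obtain ⟨M, _, _, _, ℬ, π, h1, h2⟩ := resolve I hS
  exact finA rugS cbR (kamR (brg clc) preK) ret (top nn1 nn2) primS cone uc usc ulift
    (lift liftK liftV) up (fun _ _ _ _ _ A =>
      let ⟨_, _, _, _, h⟩ := emb (bas A) (bump alg clc (bas A))
      ⟨bas A, bump alg clc (bas A), good (bas A) (cvx (bas A)) S.gc h⟩)
    N N'' I M ℬ π hS h1 h2 X ν hν hf Y G p hp hY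

end Pool.Agent.Lib.MP_356dfe_ag.R
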