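import Pool.Agent.Lib.MP_356dfe_ag.R.PRk
import Pool.Agent.Lib.MP_7906d6_an.Holo

-- part Pool.Agent.Lib.MP_356dfe_ag.R.PRiem
section

/-! Part Riem of the resolution of surface singularities. -/

set_option autoImplicit false

open Set Filter Topology Metric
open scoped ContDiff

noncomputable section

namespace Pool.Agent.Lib.MP_356dfe_ag.R

open S (E2)

namespace PRiem

variable {E G : Type} [NormedAddCommGroup E] [NormedSpace ℂ E] [NormedAddCommGroup G]
  [NormedSpace ℂ G]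

theorem na_bound [FiniteDimensional ℂ E] {r : ℝ} (hr : 0 < r) (k : ℕ) :
    ∀ {G : Type} [NormedAddCommGroup G] [NormedSpace ℂ G] [CompleteSpace G] {f : E → G} {M : ℝ},
      DifferentiableOn ℂ f (ball 0 ((k + 1) * r)) →
      (∀ z ∈ ball (0 : E) ((k + 1) * r), ‖f z‖ ≤ M) →
      ‖iteratedFDeriv ℂ k f 0‖ ≤ M * (2 / r) ^ k := by
  induction k with
  | zero =>
    intro G _ _ _ f M _ h
    rw [norm_iteratedFDeriv_zero, pow_zero, mul_one]
    exact h 0 (mem_ball_self (by positivity))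
  | succ k ih =>
    intro G _ _ _ f M hf h
    have sub : ∀ z ∈ ball (0 : E) ((k + 1) * r),
        ball z r ⊆ ball 0 (((k + 1 : ℕ) + 1) * r) := fun z hz =>
      ball_subset_ball' (by
        rw [mem_ball] at hz
        push_cast
        linarith)
    rw [← norm_iteratedFDeriv_fderiv]
    refine (ih (M := 2 * M / r) ((MP_7906d6_an.differentiableOn_fderiv
      isOpen_ball hf).mono (ball_subset_ball (by push_cast; nlinarith)))
      fun z hz => MP_7906d6_an.cauchy_fderiv hr (hf.mono (sub z hz))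
        fun w hw => h w (sub z hz hw)).trans_eq ?_
    ring

theorem na_line [FiniteDimensional ℂ E] [CompleteSpace G] {U : Set E} (hU : IsOpen U) {f : E → G}
    (hf : DifferentiableOn ℂ f U) (h0 : (0 : E) ∈ U) (y : E) (k : ℕ) :
    iteratedDeriv k (fun t : ℂ => f (t • y)) 0 = iteratedFDeriv ℂ k f 0 fun _ => y := by
  let g : ℂ →L[ℂ] E := ContinuousLinearMap.toSpanSingleton ℂ y
  have o : IsOpen (g ⁻¹' U) := hU.preimage g.continuous
  have m : g 0 ∈ U := by rwa [map_zero]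
  have := g.iteratedFDerivWithin_comp_right
    (MP_7906d6_an.contDiffOn_of_differentiableOn hU k hf) hU.uniqueDiffOn
    o.uniqueDiffOn m (i := k) le_rfl
  rw [iteratedFDerivWithin_of_isOpen k o m, iteratedFDerivWithin_of_isOpen k hU m, map_zero] at this
  rw [iteratedDeriv_eq_iteratedFDeriv, show (fun t : ℂ => f (t • y)) = f ∘ g from rfl, this]
  simp [g]

theorem na_zero [FiniteDimensional ℂ E] [CompleteSpace G] {f : E → G} {R M : ℝ} (hR : 0 < R)
    (hf : DifferentiableOn ℂ f (ball 0 R)) (hM : ∀ z ∈ ball (0 : E) R, ‖f z‖ ≤ M) :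
    AnalyticAt ℂ f 0 := by
  have M0 : 0 ≤ M := (norm_nonneg _).trans (hM 0 (mem_ball_self hR))
  let p : FormalMultilinearSeries ℂ E G := fun n => (n.factorial : ℂ)⁻¹ • iteratedFDeriv ℂ n f 0
  obtain ⟨ρ, hρ⟩ : ∃ ρ : NNReal, (ρ : ℝ) = R / 6 := ⟨⟨R / 6, by positivity⟩, rfl⟩
  have ρ0 : 0 < ρ := by
    rw [← NNReal.coe_pos, hρ]
    positivity
  refine ⟨p, ρ, p.le_radius_of_bound (M * 3) fun n => ?_, by exact_mod_cast ρ0, fun {y} hy => ?_⟩
  · have n0 : (0 : ℝ) < n + 1 := by positivity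
    have e : ((n : ℝ) + 1) * (R / (n + 1)) = R := by field_simp
    have b := na_bound (E := E) (r := R / (n + 1)) (by positivity) n (f := f) (M := M)
      (by rwa [e]) (by rwa [e])
    have f0 : (0 : ℝ) < n.factorial := by exact_mod_cast n.factorial_pos
    have c := Real.pow_div_factorial_le_exp (n + 1 : ℝ) n0.le n
    rw [show ((n : ℝ) + 1) = ((n + 1 : ℕ) : ℝ) * 1 by simp, Real.exp_nat_mul] at c
    simp only [mul_one, Nat.cast_add, Nat.cast_one] at c
    have d : ‖p n‖ ≤ M * (2 / R) ^ n * Real.exp 1 ^ (n + 1) := by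
      rw [norm_smul, norm_inv, Complex.norm_natCast]
      refine (mul_le_mul_of_nonneg_left b (by positivity)).trans ?_
      refine le_trans (le_of_eq ?_) (mul_le_mul_of_nonneg_left c (by positivity))
      rw [show 2 / (R / ((n : ℝ) + 1)) = 2 / R * (n + 1) by field_simp, mul_pow]
      field_simp
    refine (mul_le_mul_of_nonneg_right d (by positivity)).trans ?_
    have e2 : M * (2 / R) ^ n * Real.exp 1 ^ (n + 1) * (ρ : ℝ) ^ n =
        M * 3 * (Real.exp 1 / 3) ^ (n + 1) := by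
      rw [hρ, mul_right_comm, mul_assoc M, ← mul_pow, show 2 / R * (R / 6) = 1 / 3 by
        field_simp; norm_num, div_pow, div_pow, pow_succ 3, one_pow]
      field_simp
    rw [e2]
    refine mul_le_of_le_one_right (by positivity) (pow_le_one₀ (by positivity) ?_)
    have := Real.exp_one_lt_d9
    linarith
  · rw [eball_coe, mem_ball_zero_iff, hρ] at hy
    have d : DifferentiableOn ℂ (fun t : ℂ => f (t • y)) (ball 0 2) :=
      hf.comp (by fun_prop) fun t ht => by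
        rw [mem_ball_zero_iff] at ht ⊢
        rw [norm_smul]
        nlinarith [norm_nonneg t, norm_nonneg y]
    have := Complex.hasSum_taylorSeries_on_ball d (z := 1) (by simp)
    simp only [sub_zero, one_pow, one_smul, na_line isOpen_ball hf (mem_ball_self hR)]
      at this
    simpa [p] using this

theorem osgood [FiniteDimensional ℂ E] [CompleteSpace G] {U : Set E} (hU : IsOpen U) {f : E → G}
    (hf : DifferentiableOn ℂ f U) : AnalyticOnNhd ℂ f U := by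
  intro c hc
  obtain ⟨R, hR, M, h1, h2⟩ := MP_7906d6_an.exists_ball_bound hU hf hc
  have m : ∀ z ∈ ball (0 : E) R, c + z ∈ ball c R := fun z hz => by simpa using hz
  have a := na_zero (f := fun z => f (c + z)) hR (hf.comp (by fun_prop) fun z hz => h1 (m z hz))
    fun z hz => h2 _ (m z hz)
  have b : AnalyticAt ℂ (fun z : E => z - c) c := by fun_prop
  simpa [Function.comp_def] using a.comp_of_eq b (sub_self c)

theorem int_diff {f : E2 → ℂ} {U : Set E2} (hU : IsOpen U) (hf : DifferentiableOn ℂ f U)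
    {γ : ℝ → E2} (hγ : Continuous γ) {p : E2} (h : ∀ᶠ q in 𝓝 p, ∀ t, q + γ t ∈ U) (a b : ℝ) :
    DifferentiableAt ℂ (fun q => ∫ t in a..b, f (q + γ t)) p := by
  have hf' := (MP_7906d6_an.differentiableOn_fderiv hU hf).continuousOn
  obtain ⟨r, hr, h1⟩ := nhds_basis_closedBall.eventually_iff.1 h
  obtain ⟨M, hM⟩ := ((isCompact_closedBall p r).prod
    (isCompact_uIcc (a := a) (b := b))).exists_bound_of_continuousOn
      (hf'.comp (f := fun z : E2 × ℝ => z.1 + γ z.2) (by fun_prop) fun z hz => h1 hz.1 _)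
  have c : ∀ {H : Type} [TopologicalSpace H] {k : E2 → H}, ContinuousOn k U → ∀ q,
      (∀ t, q + γ t ∈ U) → Continuous fun t => k (q + γ t) :=
    fun hk q hq => hk.comp_continuous (by fun_prop) hq
  refine (intervalIntegral.hasFDerivAt_integral_of_dominated_of_fderiv_le
    (μ := MeasureTheory.volume) (F := fun q t => f (q + γ t))
    (F' := fun q t => fderiv ℂ f (q + γ t)) (bound := fun _ => M)
    (closedBall_mem_nhds p hr) (h.mono fun q hq => (c hf.continuousOn q hq).aestronglyMeasurable)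
    ((c hf.continuousOn p h.self_of_nhds).intervalIntegrable _ _)
    (c hf' p h.self_of_nhds).aestronglyMeasurable
    (.of_forall fun t ht q hq => hM (q, t) ⟨hq, uIoc_subset_uIcc ht⟩) intervalIntegrable_const
    (.of_forall fun t _ q hq => ?_)).differentiableAt
  exact (hasFDerivAt_comp_add_right _).2 (hf.differentiableAt (hU.mem_nhds (h1 hq t))).hasFDerivAt

theorem fin_zero {g : E2 → ℂ} {q v : E2} {r : ℝ} {s : ℂ}
    (hg : ∀ t ∈ closedBall (0 : ℂ) r, AnalyticAt ℂ g (q + t • v)) (hs : s ∈ closedBall (0 : ℂ) r)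
    (h : g (q + s • v) ≠ 0) : (closedBall (0 : ℂ) r \ {t | g (q + t • v) ≠ 0}).Finite :=
  (isCompact_closedBall 0 r).finite_sdiff_of_mem_codiscreteWithin
    ((AnalyticOnNhd.eqOn_zero_or_eventually_ne_zero_of_preconnected (f := fun t => g (q + t • v))
      (fun t ht => (hg t ht).comp_of_eq (by fun_prop) rfl)
        (convex_closedBall 0 r).isPreconnected).resolve_left fun k => h (k hs))

end PRiem

theorem riem : Riem := by
  rintro f A p ⟨g, g1, g2, g3⟩ hf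
  obtain ⟨R, hR, h⟩ := Metric.eventually_nhds_iff_ball.1 (g1.eventually_analyticAt.and (g3.and hf))
  obtain ⟨u, u1, u2⟩ := ((not_eventually.1 g2).and_eventually (ball_mem_nhds p hR)).exists
  obtain ⟨v, rfl⟩ : ∃ v, u = p + v := ⟨u - p, by abel⟩
  have hU : IsOpen (ball p R ∩ g ⁻¹' {0}ᶜ) := ContinuousOn.isOpen_inter_preimage
    (fun z hz => (h z hz).1.continuousAt.continuousWithinAt) isOpen_ball isOpen_compl_singleton
  have hd : ∀ z ∈ ball p R, g z ≠ 0 → DifferentiableAt ℂ f z := fun z hz k =>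
    (h z hz).2.2.2 fun a => k ((h z hz).2.1 a)
  have m : ∀ t ∈ closedBall (0 : ℂ) 1, p + t • v ∈ ball p R := fun t ht => by
    rw [dist_self_add_left] at u2
    rw [add_mem_ball_iff_norm, norm_smul]
    exact (mul_le_of_le_one_left (norm_nonneg _) (mem_closedBall_zero_iff.1 ht)).trans_lt u2
  obtain ⟨r, ⟨r0, r1⟩, hr⟩ := (Ioc_infinite (zero_lt_one' ℝ)).exists_notMem_finite
    ((PRiem.fin_zero (s := 1) (fun t ht => (h _ (m t ht)).1) (by simp) (by simpa using u1)).image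
      norm)
  have c : Continuous fun z : E2 × ℂ => z.1 + z.2 • v := by fun_prop
  have e1 := (isCompact_closedBall (0 : ℂ) r).eventually_forall_of_forall_eventually (x₀ := p)
    (P := fun q t => q + t • v ∈ ball p R) fun t ht => c.continuousAt.eventually_mem
      (isOpen_ball.mem_nhds (m t (closedBall_subset_closedBall r1 ht)))
  have e2 := (isCompact_sphere (0 : ℂ) r).eventually_forall_of_forall_eventually (x₀ := p)
    (P := fun q t => q + t • v ∈ ball p R ∩ g ⁻¹' {0}ᶜ) fun t ht => by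
      have k := closedBall_subset_closedBall r1 (sphere_subset_closedBall ht)
      exact c.continuousAt.eventually_mem (hU.mem_nhds ⟨m t k, fun a =>
        hr ⟨t, ⟨k, fun b => b a⟩, mem_sphere_zero_iff_norm.1 ht⟩⟩)
  have e3 : f =ᶠ[𝓝 p] fun q => (2 * Real.pi)⁻¹ • ∫ θ in (0 : ℝ)..2 * Real.pi,
      f (q + circleMap 0 r θ • v) := by
    filter_upwards [e1, e2] with q a b
    have k := circleMap_mem_sphere 0 r0.le 0
    have := circleAverage_of_differentiable_on_off_countable (f := fun t => f (q + t • v))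
      (c := 0) (R := r) (PRiem.fin_zero (fun t ht => (h _ (a t ht)).1)
        (sphere_subset_closedBall k) (b _ k).2).countable
      (fun t ht => (ContinuousAt.comp (f := fun t : ℂ => q + t • v) (h _ (a t (by
        rwa [abs_of_pos r0] at ht))).2.2.1 (by fun_prop)).continuousWithinAt) fun t ht => by
          have k := ball_subset_closedBall ht.1
          rw [abs_of_pos r0] at k
          exact (hd _ (a t k) fun z => ht.2 ⟨k, fun y => y z⟩).comp t (by fun_prop)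
    rw [zero_smul, add_zero] at this
    exact this.symm
  obtain ⟨O, h1, h2, h3⟩ := _root_.eventually_nhds_iff.1 (e2.eventually_nhds.and e3.eventually_nhds)
  refine PRiem.osgood h2 (fun q hq => DifferentiableAt.differentiableWithinAt ?_) p h3
  exact ((PRiem.int_diff hU (fun z hz => (hd z hz.1 hz.2).differentiableWithinAt)
    (γ := fun θ => circleMap 0 r θ • v) (by fun_prop) ((h1 q hq).1.mono fun z hz θ =>
      hz _ (circleMap_mem_sphere 0 r0.le θ)) 0 (2 * Real.pi)).const_smul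
        (2 * Real.pi)⁻¹).congr_of_eventuallyEq (h1 q hq).2

end Pool.Agent.Lib.MP_356dfe_ag.R
end
end

-- part Pool.Agent.Lib.MP_356dfe_ag.R.PBT
section

/-! Part BT of the resolution of surface singularities. -/

set_option autoImplicit false

open Set Filter Topology Metric
open scoped ContDiff

noncomputable section

namespace Pool.Agent.Lib.MP_356dfe_ag.R

open S (E2)

namespace PBT

variable {n k ε : ℕ} {φ : ℂ → ℂ} {u v v' : E2}

theorem an2 {f g : E2 → ℂ} (hf : AnalyticAt ℂ f u) (hg : AnalyticAt ℂ g u) :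
    AnalyticAt ℂ (fun v => (![f v, g v] : E2)) u :=
  analyticAt_pi_iff.2 (Fin.forall_fin_two.2 ⟨hf, hg⟩)

theorem an_rr (u : E2) : AnalyticAt ℂ (rr n) u := an2 ((an_co 0 u).pow n) (an_co 1 u)

theorem lb_rr (hn : 0 < n) (h : u 0 ≠ 0) : LB (rr n) u := by
  refine ⟨an_rr u, ?_⟩
  have h1 : HasFDerivAt (rr n) (ContinuousLinearMap.pi
      ![(n • u 0 ^ (n - 1)) • ContinuousLinearMap.proj (R := ℂ) (φ := fun _ : Fin 2 => ℂ) 0,
        ContinuousLinearMap.proj (R := ℂ) (φ := fun _ : Fin 2 => ℂ) 1]) u :=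
    hasFDerivAt_pi.2 (Fin.forall_fin_two.2
      ⟨(hasFDerivAt_apply 0 u).pow n, hasFDerivAt_apply 1 u⟩)
  rw [h1.fderiv]
  intro a b e
  have e0 := congrFun e 0
  have e1 := congrFun e 1
  refine funext (Fin.forall_fin_two.2 ⟨?_, e1⟩)
  simpa [h, hn.ne'] using e0

theorem map_rr (hn : 0 < n) (u : E2) : map (rr n) (𝓝 u) = 𝓝 (rr n u) := by
  have : NeZero n := ⟨hn.ne'⟩
  have h : IsOpenMap (Pi.map ![fun z : ℂ => z ^ n, id] : E2 → E2) :=
    IsOpenMap.piMap (Fin.forall_fin_two.2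
      ⟨(Complex.isOpenQuotientMap_pow n).isOpenMap, IsOpenMap.id⟩) (by simp)
  have e : (Pi.map ![fun z : ℂ => z ^ n, id] : E2 → E2) = rr n :=
    funext fun _ => funext (Fin.forall_fin_two.2 ⟨rfl, rfl⟩)
  exact (e ▸ h).map_nhds_eq (an_rr u).continuousAt

theorem an_chi (h : AnalyticAt ℂ φ (u 0 * u 1 ^ ε)) : AnalyticAt ℂ (chi φ k ε 0) u := by
  have h1 : AnalyticAt ℂ (fun v : E2 => v 0 * v 1 ^ ε) u := (an_co 0 u).mul ((an_co 1 u).pow ε)
  exact an2 h1 ((AnalyticAt.comp (f := fun v : E2 => v 0 * v 1 ^ ε) h h1).add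
    ((h1.pow k).mul (analyticAt_const.add (an_co 1 u))))

theorem lb_chi (h : AnalyticAt ℂ φ (u 0 * u 1 ^ ε)) (h1 : (u 0 * u 1 ^ ε) ^ k ≠ 0)
    (h2 : u 1 ^ ε ≠ 0) : LB (chi φ k ε 0) u := by
  have key : ∀ v : E2, (v 0 * v 1 ^ ε) ^ k ≠ 0 → wf φ k (chi φ k ε 0 v) = v 1 := fun v hv => by
    change (φ (v 0 * v 1 ^ ε) + (v 0 * v 1 ^ ε) ^ k * (0 + v 1) - φ (v 0 * v 1 ^ ε)) /
      (v 0 * v 1 ^ ε) ^ k = v 1
    rw [add_sub_cancel_left, zero_add, mul_div_cancel_left₀ _ hv]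
  have h3 : AnalyticAt ℂ (wf φ k) (chi φ k ε 0 u) :=
    ((an_co 1 _).sub (AnalyticAt.comp (f := fun v : E2 => v 0) h (an_co 0 _))).div
      ((an_co 0 _).pow k) h1
  refine LB.of_left (g := fun v => ![v 0 / wf φ k v ^ ε, wf φ k v]) (an_chi h)
    (an2 ((an_co 0 _).div (h3.pow ε) (by rwa [key u h1])) h3) ?_
  filter_upwards [(by fun_prop : ContinuousAt (fun v : E2 => (v 0 * v 1 ^ ε) ^ k) u).eventually_ne
    h1, ((an_co 1 u).pow ε).continuousAt.eventually_ne h2] with v a b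
  rw [key v a]
  exact funext (Fin.forall_fin_two.2 ⟨mul_div_cancel_right₀ _ b, rfl⟩)

theorem rot {ζ : ℂ} (h : ζ ^ n = 1) (h0 : φ (ζ * (v 0 * v 1 ^ ε)) = φ (v 0 * v 1 ^ ε))
    (h1 : v' 0 = ζ ^ (1 + ε * k) * v 0) (h2 : ζ ^ k * v' 1 = v 1) :
    rr n (chi φ k ε 0 v') = rr n (chi φ k ε 0 v) := by
  have e : v' 0 * v' 1 ^ ε = ζ * (v 0 * v 1 ^ ε) := by
    rw [h1, ← h2]
    ring
  refine funext (Fin.forall_fin_two.2 ⟨?_, ?_⟩)
  · change (v' 0 * v' 1 ^ ε) ^ n = (v 0 * v 1 ^ ε) ^ n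
    rw [e, mul_pow, h, one_mul]
  · change φ (v' 0 * v' 1 ^ ε) + (v' 0 * v' 1 ^ ε) ^ k * (0 + v' 1) =
      φ (v 0 * v 1 ^ ε) + (v 0 * v 1 ^ ε) ^ k * (0 + v 1)
    rw [e, h0, mul_pow ζ]
    linear_combination (v 0 * v 1 ^ ε) ^ k * h2

theorem ex2_add (a b : E2) (j : Fin 2) : ex2 (a + b) j = ex2 a j * ex2 b j := Complex.exp_add _ _

theorem ex2_ne (a : E2) (j : Fin 2) : ex2 a j ≠ 0 := Complex.exp_ne_zero _

theorem ex2_bad (a : E2) : ex2 a ∉ bad 0 := fun h => h.elim (ex2_ne a 0) fun h => ex2_ne a 1 h.2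

end PBT

open PBT in
theorem btEx (he : ExpF) : BTEx := by
  classical
  intro n K ρ₀ Φ ρ g φ k ε δ hF hB hT hC
  have hn := hF.npos
  obtain ⟨φ0, φa⟩ := hF.an φ hT.1
  have rad : ∀ u : E2, ‖u‖ < δ → ‖u 0 * u 1 ^ ε‖ < ρ₀ := fun u hu =>
    hB.rad _ (((norm_le_pi_norm _ 0).trans_lt (hC.small u hu)).trans (by linarith [hB.pos]))
  have nx : ∀ w : ℂ, w.re < - -Real.log δ → ‖Complex.exp w‖ < δ := fun w hw => by
    rwa [Complex.norm_exp, ← Real.lt_log_iff_exp_lt hC.pos, ← neg_neg (Real.log δ)]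
  have ne : ∀ ξ ∈ LT (-Real.log δ), ‖ex2 ξ‖ < δ := fun ξ hξ =>
    (pi_norm_lt_iff hC.pos).2 fun j => nx _ (hξ j)
  have ns : ∀ (j : Fin 2) (w : ℂ), w.re < - -Real.log δ →
      ‖(Pi.single j (Complex.exp w) : E2)‖ < δ := fun j w hw => by
    rw [Pi.norm_single]
    exact nx w hw
  have mem : ∀ u : E2, ‖u‖ < δ → chi φ k ε 0 u = 0 →
      map (rr n ∘ chi φ k ε 0) (𝓝[axesᶜ] u) ∈ BB n K Φ ρ g := fun u hu e =>
    ⟨_, bad_zero ▸ hC.sp u hu,
      e ▸ (an_chi (φa _ (rad u hu))).continuousAt.tendsto.mono_left nhdsWithin_le_nhds, rfl⟩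
  have reg : ∀ u : E2, ‖u‖ < δ → (u 0 * u 1 ^ ε) ^ k ≠ 0 → u 1 ^ ε ≠ 0 →
      map (rr n ∘ chi φ k ε 0) (𝓝[axesᶜ] u) = 𝓝[Bs ρ g] rr n (chi φ k ε 0 u) := by
    intro u hu h1 h2
    have e : 𝓝[axesᶜ] u = 𝓝[(rr n ∘ chi φ k ε 0) ⁻¹' Bs ρ g] u := by
      refine nhdsWithin_eq_iff_eventuallyEq.2 (eventuallyEq_set.2 ?_)
      filter_upwards [(isOpen_lt continuous_norm continuous_const).mem_nhds hu] with v hv
      refine ⟨fun h => ⟨hC.small v hv, hC.maps v hv (bad_zero ▸ h)⟩, fun h a => h.2 ?_⟩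
      refine (hB.zero _ ((hC.small v hv).trans (by linarith [hB.pos]))).2
        ((mul_eq_zero.1 a).imp (fun a => mul_eq_zero_of_left a _) fun a => ⟨φ, hT.1, ?_⟩)
      change φ (v 0 * v 1 ^ ε) + (v 0 * v 1 ^ ε) ^ k * (0 + v 1) = φ (v 0 * v 1 ^ ε)
      rw [zero_add, mul_eq_zero_of_right _ a, add_zero]
    rw [e, nhdsWithin, Filter.map_inf_principal_preimage, ← map_map,
      (lb_chi (φa _ (rad u hu)) h1 h2).map_nhds, map_rr hn, nhdsWithin]
  have fa : ∀ j w, map (rr n ∘ chi φ k ε 0 ∘ ex2) (FA j w) =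
      map (rr n ∘ chi φ k ε 0) (𝓝[axesᶜ] (Pi.single j.rev (Complex.exp w))) := fun j w => by
    rw [← he.fa]
    rfl
  refine ⟨-Real.log δ, Finset.univ.filter fun j => (j = 0 → k ≠ 0) ∧ (j = 1 → ε ≠ 0), hn,
    fun ξ hξ => ⟨hC.small _ (ne ξ hξ), hC.maps _ (ne ξ hξ) (ex2_bad ξ)⟩, fun ξ hξ => ?_,
    fun m ξ => ?_, fun ξ hξ ξ' hξ' e => ?_, ?_, ?_, ?_, ?_⟩
  · have h0 := pow_ne_zero ε (ex2_ne ξ 1)
    have h1 := mul_ne_zero (ex2_ne ξ 0) h0
    exact LB.comp (lb_rr hn h1) (LB.comp (lb_chi (φa _ (rad _ (ne ξ hξ))) (pow_ne_zero k h1) h0)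
      (he.lb2 ξ))
  · refine congrArg (rr n ∘ chi φ k ε 0) (funext fun j => ?_)
    rw [ex2_add, ex2, ex2, tv, Nat.cast_one, div_one, mul_comm _ (m j : ℂ),
      Complex.exp_int_mul_two_pi_mul_I, mul_one]
  · obtain ⟨ζ, h1, h2, h3, h4, -⟩ := hC.fib _ _ (ne ξ hξ) (ne ξ' hξ') (ex2_bad ξ) (ex2_bad ξ') e
    have n0 : (n : ℂ) ≠ 0 := Nat.cast_ne_zero.2 hn.ne'
    have h5 : ∀ j, ∃ m : ℤ, ξ' j = ξ j + 2 * Real.pi * Complex.I * m / n := fun j => by
      have : ex2 ξ' j ^ n = ex2 ξ j ^ n := by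
        revert j
        refine Fin.forall_fin_two.2 ⟨?_, ?_⟩
        · rw [h3, mul_pow, pow_right_comm, h1, one_pow, one_mul]
        · rw [← h4, mul_pow, pow_right_comm, h1, one_pow, one_mul]
      simp only [ex2, ← Complex.exp_nat_mul] at this
      obtain ⟨m, hm⟩ := Complex.exp_eq_exp_iff_exists_int.1 this
      exact ⟨m, by field_simp; linear_combination hm⟩
    choose m hm using h5
    obtain rfl : ξ' = ξ + tv n m := funext hm
    refine ⟨m, rfl, fun η hη => rot h1 (h2 _ (rad _ (ne η hη))) ?_ ?_⟩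
    · rw [ex2_add] at h3 ⊢
      rw [mul_left_cancel₀ (ex2_ne ξ 0) (h3.trans (mul_comm _ _)), mul_comm]
    · rw [ex2_add, mul_left_comm] at h4 ⊢
      rw [mul_left_cancel₀ (ex2_ne ξ 1) (h4.trans (mul_one _).symm), mul_one]
  · have := mem 0 (by simpa using hC.pos)
      (funext (Fin.forall_fin_two.2 ⟨by simp [chi], by simp [chi, φ0]⟩))
    rwa [← he.ft] at this
  · rcases hT.2 with h | h | h
    · exact ⟨0, by simp [h.2.2]⟩
    · exact ⟨1, by simp [h.1]⟩
    · exact (h.2.1 rfl).elim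
  · intro j hj w hw
    rw [fa]
    refine mem _ (ns _ w hw) ?_
    have hj' := (Finset.mem_filter.1 hj).2
    fin_cases j
    · exact funext (Fin.forall_fin_two.2 ⟨by simp [chi], by simp [chi, φ0, hj'.1 rfl]⟩)
    · exact funext (Fin.forall_fin_two.2 ⟨by simp [chi, hj'.2 rfl], by simp [chi, φ0, hj'.2 rfl]⟩)
  · intro j hj w hw
    have e0 := Complex.exp_ne_zero w
    refine ⟨_, fun e => ?_, hC.small _ (ns j.rev w hw), (fa j w).trans (reg _ (ns _ w hw) ?_ ?_)⟩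
    all_goals fin_cases j
    · simpa [rr, chi, φ0, show k = 0 by simpa using hj] using congrFun e 1
    · simpa [rr, chi, show ε = 0 by simpa using hj] using congrFun e 0
    · simp [show k = 0 by simpa using hj]
    · simp [show ε = 0 by simpa using hj]
    · simp
    · simp [show ε = 0 by simpa using hj]

end Pool.Agent.Lib.MP_356dfe_ag.R
end
end

-- part Pool.Agent.Lib.MP_356dfe_ag.R.PBG
section

/-! Part BG of the resolution of surface singularities. -/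

set_option autoImplicit false

open Set Filter Topology Metric
open scoped ContDiff

noncomputable section

namespace Pool.Agent.Lib.MP_356dfe_ag.R

open S (E2)

namespace PBG

open PBT

variable {k : ℕ} {φ : ℂ → ℂ} {c : ℂ} {u : E2}

theorem chi_eq : chi φ k 0 c = fun u => ![u 0, φ (u 0) + u 0 ^ k * (c + u 1)] := by
  funext u
  simp only [chi, pow_zero, mul_one]

theorem an_chi (h : AnalyticAt ℂ φ (u 0)) : AnalyticAt ℂ (chi φ k 0 c) u := by
  rw [chi_eq]
  exact an2 (an_co 0 u) ((AnalyticAt.comp (f := fun v : E2 => v 0) h (an_co 0 u)).add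
    (((an_co 0 u).pow k).mul (analyticAt_const.add (an_co 1 u))))

theorem lb_chi (h : AnalyticAt ℂ φ (u 0)) (h1 : u 0 ≠ 0) : LB (chi φ k 0 c) u := by
  refine LB.of_left (g := fun v => ![v 0, wf φ k v - c]) (an_chi h) ?_ ?_
  · have key : ∀ v : E2, v 0 = u 0 → AnalyticAt ℂ (wf φ k) v := fun v e =>
      ((an_co 1 v).sub (AnalyticAt.comp (f := fun v : E2 => v 0) (e ▸ h) (an_co 0 v))).div
        ((an_co 0 v).pow k) (pow_ne_zero k (e ▸ h1))
    exact an2 (an_co 0 _) ((key _ (by rw [chi_eq]; rfl)).sub analyticAt_const)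
  · filter_upwards [(an_co 0 u).continuousAt.eventually_ne h1] with v a
    rw [chi_eq]
    refine funext (Fin.forall_fin_two.2 ⟨rfl, ?_⟩)
    change (φ (v 0) + v 0 ^ k * (c + v 1) - φ (v 0)) / v 0 ^ k - c = v 1
    rw [add_sub_cancel_left, mul_div_cancel_left₀ _ (pow_ne_zero k a), add_sub_cancel_left]

theorem ex1_add (n : ℕ) (m : ℤ) (a : E2) : ex1 (a + tv n ![m, 0]) =
    ![Complex.exp (2 * Real.pi * Complex.I * m / n) * Complex.exp (a 0), a 1] := by
  refine funext (Fin.forall_fin_two.2 ⟨?_, ?_⟩)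
  · exact (Complex.exp_add _ _).trans (mul_comm _ _)
  · simp [ex1, tv]

end PBG

open PBG in
theorem genEx (he : ExpF) : BGEx := by
  intro n K ρ₀ Φ ρ g φ k ε c δ hF hB hc hT hC
  have hn := hF.npos
  obtain ⟨φ0, φa⟩ := hF.an φ hT.1
  obtain ⟨rfl, -, hk, -⟩ := (hT.2.resolve_left fun h => hc h.2.1).resolve_left fun h => hc h.2.1
  have rad : ∀ u : E2, ‖u‖ < δ → ‖u 0‖ < ρ₀ := fun u hu => by
    have := hB.rad _ (((norm_le_pi_norm _ 0).trans_lt (hC.small u hu)).trans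
      (by linarith [hB.pos]))
    rwa [chi_eq] at this
  have e1 : Real.exp (- -Real.log δ) = δ := by rw [neg_neg, Real.exp_log hC.pos]
  have ne : ∀ ξ ∈ LG (-Real.log δ), ‖ex1 ξ‖ < δ := fun ξ hξ =>
    (pi_norm_lt_iff hC.pos).2 (Fin.forall_fin_two.2 ⟨(Complex.norm_exp _).trans_lt
      ((Real.exp_lt_exp.2 hξ.1).trans_eq e1), hξ.2.trans_eq e1⟩)
  have nb : ∀ ξ, ex1 ξ ∉ bad c := fun ξ h => h.elim (Complex.exp_ne_zero _) fun h => hc h.1
  refine ⟨-Real.log δ, hn, fun ξ hξ => ⟨hC.small _ (ne ξ hξ), hC.maps _ (ne ξ hξ) (nb ξ)⟩,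
    fun ξ hξ => ?_, fun m ξ => ?_, fun ξ hξ ξ' hξ' e => ?_, fun w hw => ?_⟩
  · have h0 : ex1 ξ 0 ≠ 0 := Complex.exp_ne_zero _
    refine LB.comp (PBT.lb_rr hn ?_) (LB.comp (lb_chi (φa _ (rad _ (ne ξ hξ))) h0) (he.lb1 ξ))
    rwa [chi_eq]
  · refine congrArg (rr n ∘ chi φ k 0 c) ?_
    rw [ex1_add, Nat.cast_one, div_one, mul_comm _ (m : ℂ), Complex.exp_int_mul_two_pi_mul_I,
      one_mul, ex1]
  · obtain ⟨ζ, h1, h2, h3, h4, h5⟩ := hC.fib _ _ (ne ξ hξ) (ne ξ' hξ') (nb ξ) (nb ξ') e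
    have n0 : (n : ℂ) ≠ 0 := Nat.cast_ne_zero.2 hn.ne'
    rw [zero_mul, add_zero, pow_one] at h3
    rw [h5 hc, one_mul] at h4
    have h6 : Complex.exp (n * ξ' 0) = Complex.exp (n * ξ 0) := by
      rw [Complex.exp_nat_mul, Complex.exp_nat_mul]
      exact (congrArg (· ^ n) h3).trans (by rw [mul_pow, h1, one_mul]; rfl)
    obtain ⟨m, hm⟩ := Complex.exp_eq_exp_iff_exists_int.1 h6
    obtain rfl : ξ' = ξ + tv n ![m, 0] := by
      refine funext (Fin.forall_fin_two.2 ⟨?_, ?_⟩)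
      · change ξ' 0 = ξ 0 + 2 * Real.pi * Complex.I * m / n
        field_simp
        linear_combination hm
      · exact h4.trans (by simp [ex1, tv])
    refine ⟨m, rfl, fun η hη => ?_⟩
    rw [ex1_add] at h3
    have h7 : Complex.exp (2 * Real.pi * Complex.I * m / n) = ζ :=
      mul_right_cancel₀ (Complex.exp_ne_zero _) h3
    rw [Function.comp_apply, Function.comp_apply, ex1_add, h7, chi_eq]
    refine funext (Fin.forall_fin_two.2 ⟨?_, ?_⟩)
    · change (ζ * Complex.exp (η 0)) ^ n = Complex.exp (η 0) ^ n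
      rw [mul_pow, h1, one_mul]
    · change φ (ζ * ex1 η 0) + (ζ * ex1 η 0) ^ k * (c + η 1) =
        φ (ex1 η 0) + ex1 η 0 ^ k * (c + η 1)
      rw [h2 _ (rad _ (ne η hη)), mul_pow, h5 hc, one_mul]
  · have hu : ‖(![0, w] : E2)‖ < δ := (pi_norm_lt_iff hC.pos).2
      (Fin.forall_fin_two.2 ⟨norm_zero.trans_lt hC.pos, hw.trans_eq e1⟩)
    have e : chi φ k 0 c ![0, w] = 0 :=
      funext (Fin.forall_fin_two.2 ⟨by simp [chi], by simp [chi, φ0, Nat.one_le_iff_ne_zero.1 hk]⟩)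
    refine ⟨_, hC.sp _ hu, e ▸ (an_chi (φa _ (rad _ hu))).continuousAt.tendsto.mono_left
      nhdsWithin_le_nhds, ?_⟩
    rw [bad_ne hc, ← he.fg]
    rfl

end Pool.Agent.Lib.MP_356dfe_ag.R
end
end

-- part Pool.Agent.Lib.MP_356dfe_ag.R.PTG
section

/-! Part TG of the resolution of surface singularities. -/

set_option autoImplicit false

open Set Filter Topology Metric
open scoped ContDiff

noncomputable section

namespace Pool.Agent.Lib.MP_356dfe_ag.R

open S (E2)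

namespace PTG

variable {n : ℕ} {R : ℝ} {m m' : Fin 2 → ℤ} {ξ : E2}

theorem tv_re (n : ℕ) (m : Fin 2 → ℤ) (k : Fin 2) : (tv n m k).re = 0 := by
  rw [show tv n m k = ((2 * Real.pi * m k / n : ℝ) : ℂ) * Complex.I by
    simp only [tv]; push_cast; ring, Complex.re_ofReal_mul, Complex.I_re, mul_zero]

theorem re_add (k : Fin 2) : ((ξ + tv n m) k).re = (ξ k).re := by
  rw [Pi.add_apply, Complex.add_re, tv_re, add_zero]

theorem add_mem_LT (h : ξ ∈ LT R) : ξ + tv n m ∈ LT R := fun k => re_add (ξ := ξ) k ▸ h k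

theorem tv_add : tv n (m + m') = tv n m + tv n m' := funext fun k => by
  simp only [tv, Pi.add_apply]; push_cast; ring

theorem tv_zero : tv n 0 = 0 := funext fun k => by simp [tv]

theorem tv_one (h : 0 < n) : tv n ((n : ℤ) • m) = tv 1 m := funext fun k => by
  have : (n : ℂ) ≠ 0 := Nat.cast_ne_zero.2 h.ne'
  simp only [tv, Pi.smul_apply, smul_eq_mul]; push_cast; field_simp

theorem tv_small (h : 0 < n) {k : Fin 2} (e : ‖tv n m k‖ < 2 * (Real.pi / n)) : tv n m k = 0 := by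
  have h0 : (0 : ℝ) < n := Nat.cast_pos.2 h
  have h1 := Real.pi_pos
  rw [show tv n m k = ((2 * (Real.pi / n) * m k : ℝ) : ℂ) * Complex.I by
    simp only [tv]; push_cast; ring, norm_mul, Complex.norm_I, mul_one, Complex.norm_real,
    Real.norm_eq_abs, abs_mul, abs_of_pos (by positivity), mul_lt_iff_lt_one_right (by positivity),
    ← Int.cast_abs, ← Int.cast_one, Int.cast_lt, Int.abs_lt_one_iff] at e
  simp [tv, e]

theorem cv_re (k : Fin 2) (a : ℝ) : Convex ℝ {ξ : E2 | (ξ k).re < a} :=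
  (convex_halfSpace_re_lt a).linear_preimage (LinearMap.proj (R := ℝ) (φ := fun _ => ℂ) k)

theorem cv_LT : Convex ℝ (LT R) := by
  rw [LT, ofPred_forall]
  exact convex_iInter fun k => cv_re k _

theorem op_LT : IsOpen (LT R) := by
  rw [LT, ofPred_forall]
  exact isOpen_iInter_of_finite fun k => isOpen_lt (by fun_prop) continuous_const

theorem cv_A (k : Fin 2) (w : ℂ) (a b : ℝ) :
    Convex ℝ {ξ : E2 | (ξ k).re < a ∧ ‖ξ k.rev - w‖ < b} := by
  simp only [← mem_ball_iff_norm]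
  exact (cv_re k a).inter ((convex_ball w b).linear_preimage
    (LinearMap.proj (R := ℝ) (φ := fun _ => ℂ) k.rev))

theorem op_A (k : Fin 2) (w : ℂ) (a b : ℝ) :
    IsOpen {ξ : E2 | (ξ k).re < a ∧ ‖ξ k.rev - w‖ < b} :=
  .and (isOpen_lt (by fun_prop) continuous_const) (isOpen_lt (by fun_prop) continuous_const)

theorem eq_rev : ∀ j k : Fin 2, j ≠ k → j = k.rev := by decide

end PTG

open PTG in
theorem tgEx (he : ExpF) (hl : LiftS) (h1 : FoxL) (h2 : FoxR) : TGEx := by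
  intro X _ _ 𝒜 x Y pr ρ g hc 𝔅 n κ R act hb lam ⟨l1, l2, l3⟩
  have uq : ∀ m, (∀ η ∈ LT R, κ (η + tv n m) = κ η) → ∀ ξ ∈ LT R, lam (ξ + tv n m) = lam ξ →
      ∀ η ∈ LT R, lam (η + tv n m) = lam η := fun m hm =>
    (hl X E2 E2 pr Y _ hc.cov (LT R) κ (fun ξ h => (hb.lb ξ h).1.continuousAt.continuousWithinAt)
      hb.maps).2 cv_LT.isPreconnected (fun η => lam (η + tv n m)) lam
      (l1.comp (by fun_prop) fun _ h => add_mem_LT h) l1 (fun _ h => l2 (add_mem_LT h)) l2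
      (fun η h => (l3 _ (add_mem_LT h)).trans (hm η h)) l3
  let Λ : AddSubgroup (Fin 2 → ℤ) :=
    { carrier := {m | ∀ η ∈ LT R, lam (η + tv n m) = lam η}
      zero_mem' := fun η _ => by rw [tv_zero, add_zero]
      add_mem' := fun {a b} ha hb η h => by
        rw [tv_add, ← add_assoc, hb _ (add_mem_LT h), ha η h]
      neg_mem' := fun {a} ha η h => by
        rw [← ha _ (add_mem_LT h), add_assoc, ← tv_add, neg_add_cancel, tv_zero, add_zero] }
  have mW : MapsTo lam (LT R) (Y ∩ pr ⁻¹' Bs ρ g) := fun ξ h =>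
    ⟨l2 h, by rw [mem_preimage, l3 ξ h]; exact hb.maps h⟩
  have px : pr x = 0 := (hc.prj.zero x hc.prj.xY).2 rfl
  have mp : ∀ F : Filter E2, LT R ∈ F → map pr (map lam F) = map κ F := fun F h =>
    map_map.trans (map_congr (mem_of_superset h l3))
  have hT : LT R ∈ FT := he.bt.2.mem_of_mem trivial
  have fT := h1 X pr Y _ hc.cov (LT R) κ lam op_LT (fun ξ h => ⟨hb.lb ξ h, hb.maps h⟩) ⟨l1, l2, l3⟩
    (fun ξ h ξ' h' e η hη => by
      obtain ⟨m, rfl, hm⟩ := hb.fib ξ h ξ' h' e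
      rw [add_sub_cancel_left]
      exact ⟨add_mem_LT hη, hm η hη⟩) FT he.bt.1 hT fun s hs => by
      obtain ⟨R', -, h⟩ := he.bt.2.mem_iff.1 hs
      refine ⟨LT R' ∩ LT R, inter_mem (he.bt.2.mem_of_mem trivial) hT, inter_subset_left.trans h,
        (cv_LT.inter cv_LT).isPreconnected, fun ξ a ξ' b e => ?_⟩
      obtain ⟨m, rfl, -⟩ := hb.fib ξ a.2 ξ' b e
      exact ⟨add_mem_LT a.1, b⟩
  have fA : ∀ k (w : ℂ), w.re < -R → LT R ∈ FA k w ∧
      Fox pr (Y ∩ pr ⁻¹' Bs ρ g) (map κ (FA k w)) (map lam (FA k w)) := fun k w hw => by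
    obtain ⟨ε, e0, e1, e2⟩ : ∃ ε : ℝ, 0 < ε ∧ ε ≤ -R - w.re ∧ ε ≤ Real.pi / n :=
      ⟨min _ _, lt_min (sub_pos.2 hw) (div_pos Real.pi_pos (Nat.cast_pos.2 hb.pos)),
        min_le_left _ _, min_le_right _ _⟩
    let L : Set E2 := {ξ | (ξ k).re < -R ∧ ‖ξ k.rev - w‖ < ε}
    have sub : L ⊆ LT R := fun ξ h j => by
      by_cases e : j = k
      · exact e ▸ h.1
      · have := (Complex.re_le_norm _).trans_lt h.2
        rw [Complex.sub_re, ← eq_rev j k e] at this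
        linarith
    have hL : L ∈ FA k w := (he.ba k w).2.mem_of_mem (i := (R, ε)) e0
    have fb : ∀ ξ ∈ L, ∀ ξ' ∈ L, κ ξ = κ ξ' → ∃ m, ξ' = ξ + tv n m ∧ tv n m k.rev = 0 ∧
        ∀ η ∈ LT R, κ (η + tv n m) = κ η := fun ξ h ξ' h' e => by
      obtain ⟨m, rfl, hm⟩ := hb.fib ξ (sub h) ξ' (sub h') e
      refine ⟨m, rfl, tv_small hb.pos ?_, hm⟩
      rw [show tv n m k.rev = ((ξ + tv n m) k.rev - w) - (ξ k.rev - w) by simp]
      linarith [norm_sub_le ((ξ + tv n m) k.rev - w) (ξ k.rev - w), h.2, h'.2]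
    refine ⟨mem_of_superset hL sub, (h1 X pr Y _ hc.cov L κ lam (op_A ..)
      (fun ξ h => ⟨hb.lb ξ (sub h), hb.maps (sub h)⟩)
      ⟨l1.mono sub, l2.mono_left sub, fun ξ h => l3 ξ (sub h)⟩ (fun ξ h ξ' h' e η hη => ?_) _
      (he.ba k w).1 hL fun s hs => ?_).1⟩
    · obtain ⟨m, rfl, h0, hm⟩ := fb ξ h ξ' h' e
      rw [add_sub_cancel_left]
      exact ⟨⟨re_add (ξ := η) k ▸ hη.1, by rw [Pi.add_apply, h0, add_zero]; exact hη.2⟩,
        hm η (sub hη)⟩
    · obtain ⟨q, hq, h⟩ := (he.ba k w).2.mem_iff.1 hs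
      refine ⟨_ ∩ L, inter_mem ((he.ba k w).2.mem_of_mem hq) hL, inter_subset_left.trans h,
        ((cv_A ..).inter (cv_A ..)).isPreconnected, fun ξ a ξ' b e => ?_⟩
      obtain ⟨m, rfl, h0, -⟩ := fb ξ a.2 ξ' b e
      exact ⟨⟨re_add (ξ := ξ) k ▸ a.1.1, by rw [Pi.add_apply, h0, add_zero]; exact a.1.2⟩, b⟩
  have ix : ∀ e : Fin 2 → ℤ, ∃ d : ℤ, 0 < d ∧ d • e ∈ Λ := fun e => by
    obtain ⟨ξ, h0⟩ := he.bt.1.nonempty_of_mem hT
    obtain ⟨i, j, hij, h⟩ := Set.Finite.exists_lt_map_eq_of_forall_mem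
      (f := fun j : ℕ => lam (ξ + tv 1 ((j : ℤ) • e))) (fun j => mem_inter
        (l2 (add_mem_LT h0)) ((l3 _ (add_mem_LT h0)).trans (hb.per _ _))) (hc.prj.fin (κ ξ))
    refine ⟨n * (j - i), mul_pos (Nat.cast_pos.2 hb.pos) (sub_pos.2 (Nat.cast_lt.2 hij)),
      uq _ (fun η _ => by rw [mul_smul, tv_one hb.pos, hb.per]) _ (add_mem_LT h0) (.trans ?_ h.symm)⟩
    rw [mul_smul, tv_one hb.pos, add_assoc, ← tv_add, ← add_smul, add_sub_cancel]
  refine ⟨⟨Λ, hb.pos, mW, fun ξ h => ?_, fun ξ h ξ' h' => ⟨fun e => ?_, ?_⟩, ?_,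
    ⟨_, hb.node, fT.1, mp _ hT⟩, hb.ane, fun k hk w hw =>
      ⟨_, hb.axA k hk w hw, (fA k w hw).2, mp _ (fA k w hw).1⟩, fun k hk w hw => ?_⟩, fT.2⟩
  · refine (hc.prj.lb _ (l2 h) (fun e => (mW h).2.2 ?_) (mW h).2.1 (mW h).2.2).lift
      (l1.continuousAt (op_LT.mem_nhds h)) ((hb.lb ξ h).congr
        (mem_of_superset (op_LT.mem_nhds h) fun η a => (l3 η a).symm))
    rw [e, px, hc.g0]
  · obtain ⟨m, rfl, hm⟩ := hb.fib ξ h ξ' h' (by rw [← l3 ξ h, e, l3 ξ' h'])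
    exact ⟨m, uq m hm ξ h e.symm, rfl⟩
  · rintro ⟨m, hm, rfl⟩
    exact (hm ξ h).symm
  · obtain ⟨a, a0, ha⟩ := ix (Pi.single 0 1)
    obtain ⟨b, b0, hb'⟩ := ix (Pi.single 1 1)
    refine ⟨a * b, mul_pos a0 b0, fun m => ?_⟩
    convert add_mem (zsmul_mem ha (b * m 0)) (zsmul_mem hb' (a * m 1)) using 1
    ext k
    fin_cases k <;> simp <;> ring
  · obtain ⟨b, b0, b1, b2⟩ := hb.axI k hk w hw
    obtain ⟨f1, f2⟩ := fA k w hw
    have := f2.1
    obtain ⟨𝒰, hU⟩ := Ultrafilter.exists_le (map lam (FA k w))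
    have hW : Y ∩ pr ⁻¹' Bs ρ g ∈ 𝒰 := hU (mem_map.2 (mem_of_superset f1 mW))
    obtain ⟨z, hz, hz'⟩ := hc.prj.cY.ultrafilter_le_nhds 𝒰
      (le_principal_iff.2 (mem_of_superset hW inter_subset_left))
    obtain rfl : pr z = b := tendsto_nhds_unique ((hc.prj.hol z hz).1.tendsto.mono_left hz')
      (((map_mono hU).trans ((mp _ f1).trans b2).le).trans nhdsWithin_le_nhds)
    have zx : z ≠ x := fun e => b0 (e ▸ px)
    exact ⟨z, ⟨hz, mem_ball_zero_iff.2 b1⟩, zx, ((b2 ▸ f2).eqd (h2 X 𝒜 x Y pr ρ g hc z hz zx b1)).eq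
      hU (le_inf hz' (le_principal_iff.2 hW))⟩

end Pool.Agent.Lib.MP_356dfe_ag.R
end
end

-- part Pool.Agent.Lib.MP_356dfe_ag.R.PGG
section

/-! Part GG of the resolution of surface singularities. -/

set_option autoImplicit false

open Set Filter Topology Metric
open scoped ContDiff

noncomputable section

namespace Pool.Agent.Lib.MP_356dfe_ag.R

open S (E2)

open PTG in
theorem ggEx (he : ExpF) (hl : LiftS) (h1 : FoxL) : GGEx := by
  intro X _ _ 𝒜 x Y pr ρ g hc 𝔅 n κ R hb lam ⟨l1, l2, l3⟩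
  have eL : LG R = {ξ : E2 | (ξ 0).re < -R ∧ ‖ξ (Fin.rev 0) - 0‖ < Real.exp (-R)} := by
    ext
    simp [LG]
  have cL : Convex ℝ (LG R) := eL ▸ cv_A ..
  have oL : IsOpen (LG R) := eL ▸ op_A ..
  have t1 : ∀ (n : ℕ) (m : ℤ) (ξ : E2), (ξ + tv n ![m, 0]) 1 = ξ 1 := fun n m ξ => by simp [tv]
  have ad : ∀ (n : ℕ) (m : ℤ), ∀ ξ ∈ LG R, ξ + tv n ![m, 0] ∈ LG R := fun n m ξ h =>
    ⟨re_add (ξ := ξ) 0 ▸ h.1, t1 n m ξ ▸ h.2⟩
  have ta : ∀ (n : ℕ) (a b : ℤ), tv n ![a + b, 0] = tv n ![a, 0] + tv n ![b, 0] := fun n a b => by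
    rw [← tv_add]
    congr 1
    ext k
    fin_cases k <;> simp
  have t0 : tv n ![0, 0] = 0 := by
    ext k
    fin_cases k <;> simp [tv]
  have tn : ∀ a : ℤ, tv n ![n * a, 0] = tv 1 ![a, 0] := fun a => by
    rw [← tv_one hb.pos]
    congr 1
    ext k
    fin_cases k <;> simp
  have uq : ∀ m : ℤ, (∀ η ∈ LG R, κ (η + tv n ![m, 0]) = κ η) → ∀ ξ ∈ LG R,
      lam (ξ + tv n ![m, 0]) = lam ξ → ∀ η ∈ LG R, lam (η + tv n ![m, 0]) = lam η := fun m hm =>
    (hl X E2 E2 pr Y _ hc.cov (LG R) κ (fun ξ h => (hb.lb ξ h).1.continuousAt.continuousWithinAt)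
      hb.maps).2 cL.isPreconnected (fun η => lam (η + tv n ![m, 0])) lam
      (l1.comp (by fun_prop) (ad n m)) l1 (fun _ h => l2 (ad n m _ h)) l2
      (fun η h => (l3 _ (ad n m _ h)).trans (hm η h)) l3
  let Λ : AddSubgroup ℤ :=
    { carrier := {m | ∀ η ∈ LG R, lam (η + tv n ![m, 0]) = lam η}
      zero_mem' := fun η _ => by rw [t0, add_zero]
      add_mem' := fun {a b} ha hb η h => by rw [ta, ← add_assoc, hb _ (ad _ _ _ h), ha η h]
      neg_mem' := fun {a} ha η h => by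
        rw [← ha _ (ad _ _ _ h), add_assoc, ← ta, neg_add_cancel, t0, add_zero] }
  have mW : MapsTo lam (LG R) (Y ∩ pr ⁻¹' Bs ρ g) := fun ξ h =>
    ⟨l2 h, by rw [mem_preimage, l3 ξ h]; exact hb.maps h⟩
  have px : pr x = 0 := (hc.prj.zero x hc.prj.xY).2 rfl
  have hL : ∀ w : ℂ, ‖w‖ < Real.exp (-R) → LG R ∈ FA 0 w := fun w hw => mem_of_superset
    ((he.ba 0 w).2.mem_of_mem (i := (R, Real.exp (-R) - ‖w‖)) (sub_pos.2 hw)) fun ξ h =>
      ⟨h.1, by linarith [norm_sub_norm_le (ξ 1) w, show ‖ξ 1 - w‖ < _ from h.2]⟩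
  have fA := fun (w : ℂ) (hw : ‖w‖ < Real.exp (-R)) => h1 X pr Y _ hc.cov (LG R) κ lam oL
    (fun ξ h => ⟨hb.lb ξ h, hb.maps h⟩) ⟨l1, l2, l3⟩ (fun ξ h ξ' h' e η hη => by
      obtain ⟨m, rfl, hm⟩ := hb.fib ξ h ξ' h' e
      rw [add_sub_cancel_left]
      exact ⟨ad _ _ _ hη, hm η hη⟩) (FA 0 w) (he.ba 0 w).1 (hL w hw) fun s hs => by
      obtain ⟨q, hq, h⟩ := (he.ba 0 w).2.mem_iff.1 hs
      refine ⟨_ ∩ LG R, inter_mem ((he.ba 0 w).2.mem_of_mem hq) (hL w hw),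
        inter_subset_left.trans h, ((cv_A ..).inter cL).isPreconnected, fun ξ a ξ' b e => ?_⟩
      obtain ⟨m, rfl, -⟩ := hb.fib ξ a.2 ξ' b e
      exact ⟨⟨re_add (ξ := ξ) 0 ▸ a.1.1, (congrArg (‖· - w‖) (t1 n m ξ)).trans_lt a.1.2⟩, b⟩
  have h0 : ‖(0 : ℂ)‖ < Real.exp (-R) := norm_zero.trans_lt (Real.exp_pos _)
  obtain ⟨d, d0, d1⟩ : ∃ d : ℤ, d ≠ 0 ∧ d ∈ Λ := by
    obtain ⟨ξ, h0⟩ := (he.ba 0 0).1.nonempty_of_mem (hL 0 h0)
    obtain ⟨i, j, hij, h⟩ := Set.Finite.exists_lt_map_eq_of_forall_mem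
      (f := fun j : ℕ => lam (ξ + tv 1 ![j, 0])) (fun j => mem_inter
        (l2 (ad _ _ _ h0)) ((l3 _ (ad _ _ _ h0)).trans (hb.per _ _))) (hc.prj.fin (κ ξ))
    refine ⟨n * (j - i), (mul_pos (Nat.cast_pos.2 hb.pos) (sub_pos.2 (Nat.cast_lt.2 hij))).ne',
      uq _ (fun η _ => by rw [tn, hb.per]) _ (ad _ _ _ h0) (.trans ?_ h.symm)⟩
    rw [tn, add_assoc, ← ta, add_sub_cancel]
  obtain ⟨a, ha⟩ := Int.subgroup_cyclic Λ
  have hm : ∀ m, m ∈ Λ ↔ (a.natAbs : ℤ) ∣ m := fun m => by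
    rw [ha, Int.natAbs_dvd, ← AddSubgroup.zmultiples_eq_closure, Int.mem_zmultiples_iff]
  refine ⟨⟨a.natAbs, ⟨hb.pos, Nat.pos_of_ne_zero fun e => d0 (by simpa [e] using (hm d).1 d1)⟩, mW,
    fun ξ h => ?_, fun ξ h ξ' h' => ⟨fun e => ?_, ?_⟩, fun w hw => ⟨_, hb.axA w hw, (fA w hw).1,
      map_map.trans (map_congr (mem_of_superset (hL w hw) l3))⟩⟩, (fA 0 h0).2⟩
  · refine (hc.prj.lb _ (l2 h) (fun e => (mW h).2.2 ?_) (mW h).2.1 (mW h).2.2).lift
      (l1.continuousAt (oL.mem_nhds h)) ((hb.lb ξ h).congr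
        (mem_of_superset (oL.mem_nhds h) fun η a => (l3 η a).symm))
    rw [e, px, hc.g0]
  · obtain ⟨m, rfl, e'⟩ := hb.fib ξ h ξ' h' (by rw [← l3 ξ h, e, l3 ξ' h'])
    obtain ⟨c, rfl⟩ := (hm m).1 (uq m e' ξ h e.symm)
    exact ⟨c, rfl⟩
  · rintro ⟨m, rfl⟩
    exact ((hm _).2 (dvd_mul_right _ m) ξ h).symm

end Pool.Agent.Lib.MP_356dfe_ag.R
end
end

-- part Pool.Agent.Lib.MP_356dfe_ag.R.PTC2
section

/-! Part TC2 of the resolution of surface singularities. -/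

set_option autoImplicit false

open Set Filter Topology Metric
open scoped ContDiff

noncomputable section

namespace Pool.Agent.Lib.MP_356dfe_ag.R

open S (E2)

namespace PTC2

/-- the linear part of a toric chart -/
def lin (n : ℕ) (v w : Fin 2 → ℤ) (ζ : E2) : E2 := fun k => (v k * ζ 0 + w k * ζ 1) / n

/-- the logarithm of a toric chart -/
def xi (n : ℕ) (v w : Fin 2 → ℤ) (u : E2) : E2 := lin n v w fun k => Complex.log (u k)

variable {n : ℕ} {v w : Fin 2 → ℤ} {Λ : AddSubgroup (Fin 2 → ℤ)} {R : ℝ} {u : E2}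

theorem tv_re (n : ℕ) (m : Fin 2 → ℤ) (k : Fin 2) : (tv n m k).re = 0 := by
  have : tv n m k = ((2 * Real.pi * m k / n : ℝ) : ℂ) * Complex.I := by
    simp only [tv]
    push_cast
    ring
  rw [this, Complex.re_ofReal_mul, Complex.I_re, mul_zero]

theorem cast_toNat {a : ℤ} (h : 0 ≤ a) : ((a.toNat : ℕ) : ℝ) = a := by
  exact_mod_cast congrArg (Int.cast : ℤ → ℝ) (Int.toNat_of_nonneg h)

theorem mon_ne (hu : u ∉ axes) (a : Fin 2 → ℕ) : mon a u ≠ 0 :=
  mul_ne_zero (pow_ne_zero _ (left_ne_zero_of_mul hu)) (pow_ne_zero _ (right_ne_zero_of_mul hu))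

theorem xi_re (hb : Bz Λ v w) (hu : u ∉ axes) (k : Fin 2) :
    (xi n v w u k).re = Real.log ‖mon ![(v k).toNat, (w k).toNat] u‖ / n := by
  have h0 : ‖u 0‖ ≠ 0 := norm_ne_zero_iff.2 (left_ne_zero_of_mul hu)
  have h1 : ‖u 1‖ ≠ 0 := norm_ne_zero_iff.2 (right_ne_zero_of_mul hu)
  simp only [xi, lin, mon, Matrix.cons_val_zero, Matrix.cons_val_one, norm_mul, norm_pow]
  rw [Real.log_mul (pow_ne_zero _ h0) (pow_ne_zero _ h1), Real.log_pow, Real.log_pow,
    cast_toNat (hb.nn k).1, cast_toNat (hb.nn k).2, Complex.div_natCast_re]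
  simp [Complex.log_re]

theorem lt_of {a : ℝ} (hn : 0 < n) (h0 : 0 < a) (h : a < Real.exp (-(n * R))) :
    Real.log a / n < -R := by
  rw [div_lt_iff₀ (Nat.cast_pos.2 hn)]
  linarith [(Real.log_lt_iff_lt_exp h0).2 h]

theorem xi_mem {X : Type} {lam : E2 → X} (hn : 0 < n) (hb : Bz Λ v w)
    (hu : u ∈ (tc n lam R v w).P \ axes) : xi n v w u ∈ LT R := fun k => by
  rw [xi_re hb hu.2]
  exact lt_of hn (norm_pos_iff.2 (mon_ne hu.2 _)) (hu.1 k)

theorem xi_ex2 (hb : Bz Λ v w) (ζ : E2) : ∃ m ∈ Λ, xi n v w (ex2 ζ) = lin n v w ζ + tv n m := by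
  choose a ha using fun k => Complex.exp_eq_exp_iff_exists_int.1
    (Complex.exp_log (Complex.exp_ne_zero (ζ k)))
  refine ⟨_, (hb.mem _).2 ⟨a 0, a 1, rfl⟩, funext fun k => ?_⟩
  simp only [xi, lin, ex2, tv, ha, Pi.add_apply, Pi.smul_apply, smul_eq_mul]
  push_cast
  ring

theorem tend {T : E2 → E2} {m k : Fin 2} {p q r : ℝ} (hp : 0 < p)
    (h1 : ∀ ζ, T ζ k = p * ζ m + q * ζ m.rev) (h2 : ∀ ζ, T ζ k.rev = r * ζ m.rev) (η : ℂ) :
    Tendsto T (FA m η) (FA k (r * η)) := by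
  have a1 : Tendsto (fun ζ : E2 => (ζ m).re) (FA m η) atBot := tendsto_iff_comap.2 inf_le_left
  have a2 : Tendsto (fun ζ : E2 => ζ m.rev) (FA m η) (𝓝 η) := tendsto_iff_comap.2 inf_le_right
  refine tendsto_inf.2 ⟨tendsto_comap_iff.2 ?_, tendsto_comap_iff.2 ?_⟩
  · refine ((a1.const_mul_atBot hp).atBot_add
      (((Complex.continuous_re.tendsto η).comp a2).const_mul q)).congr fun ζ => ?_
    simp [h1]
  · exact (a2.const_mul (r : ℂ)).congr fun ζ => (h2 ζ).symm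

theorem fin_or (k j : Fin 2) : j = k ∨ j = k.rev := by
  revert k j
  decide

theorem rev_ne (k : Fin 2) : k.rev ≠ k := by
  revert k
  decide

theorem map_eq {T : E2 → E2} {m k : Fin 2} {p q r : ℝ} (hp : 0 < p) (hr : r ≠ 0)
    (h1 : ∀ ζ, T ζ k = p * ζ m + q * ζ m.rev) (h2 : ∀ ζ, T ζ k.rev = r * ζ m.rev) (η : ℂ) :
    map T (FA m η) = FA k (r * η) := by
  have hp' : (p : ℂ) ≠ 0 := Complex.ofReal_ne_zero.2 hp.ne'
  have hr' : (r : ℂ) ≠ 0 := Complex.ofReal_ne_zero.2 hr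
  let J : E2 → E2 := fun ξ j => if j = m then ((p⁻¹ : ℝ) : ℂ) * ξ k +
    ((-(q / (p * r)) : ℝ) : ℂ) * ξ k.rev else ((r⁻¹ : ℝ) : ℂ) * ξ k.rev
  have b1 (ξ : E2) : J ξ m = ((p⁻¹ : ℝ) : ℂ) * ξ k + ((-(q / (p * r)) : ℝ) : ℂ) * ξ k.rev :=
    if_pos rfl
  have b2 (ξ : E2) : J ξ m.rev = ((r⁻¹ : ℝ) : ℂ) * ξ k.rev := if_neg (rev_ne m)
  have b3 := tend (inv_pos.2 hp) b1 b2 (r * η)
  rw [Complex.ofReal_inv, inv_mul_cancel_left₀ hr'] at b3
  refine le_antisymm (tend hp h1 h2 η) (le_map_of_right_inverse (.of_forall fun ξ => ?_) b3)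
  refine funext fun j => ?_
  rcases fin_or k j with rfl | rfl
  · rw [Function.comp_apply, h1, b1, b2, id]
    push_cast
    field_simp
    ring
  · rw [Function.comp_apply, h2, b2, id, Complex.ofReal_inv, mul_inv_cancel_left₀ hr']

theorem nn' (hb : Bz Λ v w) (m k : Fin 2) : 0 ≤ ![v, w] m k := by
  fin_cases m
  exacts [(hb.nn k).1, (hb.nn k).2]

theorem ne' (hb : Bz Λ v w) {m k : Fin 2} (h : ![v, w] m k.rev = 0) :
    ![v, w] m k ≠ 0 ∧ ![v, w] m.rev k.rev ≠ 0 := by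
  have := hb.pos.ne'
  unfold dz at this
  fin_cases m <;> fin_cases k <;> constructor <;> intro h' <;> simp_all [Fin.rev]

theorem lin_eq (m j : Fin 2) (ζ : E2) : lin n v w ζ j =
    ((![v, w] m j / n : ℝ) : ℂ) * ζ m + ((![v, w] m.rev j / n : ℝ) : ℂ) * ζ m.rev := by
  fin_cases m <;> simp [lin, Fin.rev] <;> ring

theorem mon_eq (m j : Fin 2) (u : E2) : mon ![(v j).toNat, (w j).toNat] u =
    u m ^ (![v, w] m j).toNat * u m.rev ^ (![v, w] m.rev j).toNat := by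
  fin_cases m <;> simp [mon, Fin.rev, mul_comm]

end PTC2

open PTC2 in
theorem tc2 (he : ExpF) (h1 : TC1) : TC2 := by
  intro X _ 𝒜 x U W 𝔉 n lam R Λ act h v w hb u hu
  have ok := (h1 X 𝒜 x U W 𝔉 n lam R Λ act h v w hb).1
  have hn : (0 : ℝ) < n := Nat.cast_pos.2 h.pos
  have hF : (tc n lam R v w).F u = map lam (map (xi n v w) (𝓝[axesᶜ] u)) := rfl
  have ev : ∀ᶠ u' in 𝓝[axesᶜ] u, u' ∈ (tc n lam R v w).P \ axes := ok.ev hu
  have c (k : Fin 2) : Tendsto (fun u' => ‖mon ![(v k).toNat, (w k).toNat] u'‖) (𝓝[axesᶜ] u)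
      (𝓝 ‖mon ![(v k).toNat, (w k).toNat] u‖) :=
    (an_mon _ u).continuousAt.norm.tendsto.mono_left nhdsWithin_le_nhds
  have p2 (hk : ¬ ∀ k, mon ![(v k).toNat, (w k).toNat] u = 0) :
      Disjoint ((tc n lam R v w).F u) (map lam FT) := by
    obtain ⟨k, hk⟩ := not_forall.1 hk
    set a := Real.log ‖mon ![(v k).toNat, (w k).toNat] u‖ / n
    have c1 := (((c k).log (norm_ne_zero_iff.2 hk)).div_const (n : ℝ)).eventually
      (lt_mem_nhds (sub_one_lt a))
    refine Filter.disjoint_iff.2 ⟨_, image_mem_map (ev.and c1), _,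
      image_mem_map (he.bt.2.mem_of_mem (i := max R (1 - a)) trivial), disjoint_left.2 ?_⟩
    rintro _ ⟨u', ⟨a1, a2⟩, rfl⟩ ⟨ξ, a3, a4⟩
    obtain ⟨m, -, rfl⟩ := (h.fib _ (xi_mem h.pos hb a1) ξ
      fun j => (a3 j).trans_le (neg_le_neg (le_max_left _ _))).1 a4.symm
    have a5 := (a3 k).trans_le (neg_le_neg (le_max_right _ _))
    rw [Pi.add_apply, Complex.add_re, tv_re, xi_re hb a1.2] at a5
    linarith
  refine ⟨⟨fun hle => by_contra fun hk => (ok.neBot hu).ne (le_bot_iff.1 (p2 hk le_rfl hle)),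
    fun hk => ?_⟩, p2, fun m k hm hm' h0 => ?_⟩
  · rw [hF]
    refine map_mono (tendsto_iInf.2 fun k => tendsto_comap_iff.2 ?_)
    have c1 : Tendsto (fun u' => ‖mon ![(v k).toNat, (w k).toNat] u'‖) (𝓝[axesᶜ] u) (𝓝[>] 0) :=
      tendsto_nhdsWithin_iff.2 ⟨by simpa only [hk k, norm_zero] using c k,
        ev.mono fun u' a => norm_pos_iff.2 (mon_ne a.2 _)⟩
    exact ((Real.tendsto_log_nhdsGT_zero.comp c1).atBot_div_const hn).congr'
      (ev.mono fun u' a => (xi_re hb a.2 k).symm)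
  · obtain ⟨n1, n2⟩ := ne' hb h0
    have q1 : (0 : ℝ) < ![v, w] m k := Int.cast_pos.2 ((nn' hb m k).lt_of_ne' n1)
    have q2 : (0 : ℝ) < ![v, w] m.rev k.rev := Int.cast_pos.2 ((nn' hb _ _).lt_of_ne' n2)
    have e1 : map ex2 (FA m (Complex.log (u m.rev))) = 𝓝[axesᶜ] u := by
      rw [he.fa, Complex.exp_log hm']
      congr 1
      refine funext fun j => ?_
      rcases fin_or m j with rfl | rfl
      · rw [Pi.single_eq_of_ne (rev_ne j).symm, hm]
      · rw [Pi.single_eq_same]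
    have e2 := map_eq (T := lin n v w) (k := k) (div_pos q1 hn) (div_pos q2 hn).ne' (lin_eq m k)
      (fun ζ => by rw [lin_eq m, h0]; simp) (Complex.log (u m.rev))
    refine ⟨((![v, w] m.rev k.rev / n : ℝ) : ℂ) * Complex.log (u m.rev), ?_, ?_⟩
    rotate_left
    · rw [hF, ← e1, ← e2, map_map, map_map, map_map]
      rw [← e1] at ev
      refine map_congr ((eventually_map.1 ev).mono fun ζ a => ?_)
      obtain ⟨l, hl, e3⟩ := xi_ex2 (n := n) hb ζ
      have a1 := xi_mem h.pos hb a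
      refine ((h.fib _ (fun j => ?_) _ a1).2 ⟨l, hl, e3⟩).symm
      have a2 := a1 j
      rwa [e3, Pi.add_apply, Complex.add_re, tv_re, add_zero] at a2
    · have a1 := hu k.rev
      rw [mon_eq m, h0, Int.toNat_zero, pow_zero, one_mul, norm_pow] at a1
      have a2 := lt_of h.pos (pow_pos (norm_pos_iff.2 hm') _) a1
      rw [Real.log_pow, cast_toNat (nn' hb _ _)] at a2
      rw [Complex.re_ofReal_mul, Complex.log_re, div_mul_eq_mul_div]
      exact a2

end Pool.Agent.Lib.MP_356dfe_ag.R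
end
end

-- part Pool.Agent.Lib.MP_356dfe_ag.R.PGCh
section

/-! Part GCh of the resolution of surface singularities. -/

set_option autoImplicit false

open Set Filter Topology Metric
open scoped ContDiff

noncomputable section

namespace Pool.Agent.Lib.MP_356dfe_ag.R

open S (E2)

theorem gch (he : ExpF) : GC := by
  intro X _ 𝒜 W 𝔉 n lam R p G
  obtain ⟨hn, hp⟩ := G.pos
  have n0 : (n : ℂ) ≠ 0 := Nat.cast_ne_zero.2 hn.ne'
  have p0 : (p : ℂ) ≠ 0 := Nat.cast_ne_zero.2 hp.ne'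
  let L : E2 → E2 := fun η => ![p * η 0 / n, η 1]
  have mem : ∀ η, ex1 η ∈ (gc n lam R p).P → L η ∈ LG R := fun η h => ⟨by
    have a : ‖Complex.exp (η 0)‖ ^ p < _ := h.1
    rw [Complex.norm_exp, ← Real.exp_nat_mul, Real.exp_lt_exp] at a
    have b : (L η 0).re = p * (η 0).re / n := by simp [L, Complex.div_natCast_re]
    rw [b, div_lt_iff₀ (Nat.cast_pos.2 hn)]
    linarith, h.2⟩
  have el : ∀ u : E2, u 0 ≠ 0 → ex1 ![Complex.log (u 0), u 1] = u := fun u h => funext fun k => by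
    fin_cases k
    exacts [Complex.exp_log h, rfl]
  have mem' : ∀ u ∈ (gc n lam R p).P \ (gc n lam R p).A, L ![Complex.log (u 0), u 1] ∈ LG R :=
    fun u h => mem _ (by rw [el u h.2]; exact h.1)
  have key : ∀ η, ex1 η ∈ (gc n lam R p).P → lam (L η) = (gc n lam R p).c (ex1 η) := fun η h => by
    obtain ⟨a, b⟩ := Complex.exp_eq_exp_iff_exists_int.1
      (Complex.exp_log (Complex.exp_ne_zero (η 0)))
    refine (G.fib _ (mem η h) _ (mem' _ ⟨h, Complex.exp_ne_zero _⟩)).2 ⟨a, funext fun k => ?_⟩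
    fin_cases k
    · simp [L, ex1, tv, b]
      ring
    · simp [L, ex1, tv]
  have oP : IsOpen (gc n lam R p).P :=
    .and (isOpen_lt (by fun_prop) continuous_const) (isOpen_lt (by fun_prop) continuous_const)
  have oA : IsOpen ((gc n lam R p).P \ (gc n lam R p).A) :=
    oP.sdiff (isClosed_eq (f := fun u : E2 => u 0) (by fun_prop) continuous_const)
  have lb : ∀ η, LB L η := fun η => by
    refine LB.of_left (g := fun ξ => ![n * ξ 0 / p, ξ 1]) (AnalyticAt.pi fun k => ?_)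
      (AnalyticAt.pi fun k => ?_) (.of_forall fun v => funext fun k => ?_) <;> fin_cases k
    · exact (analyticAt_const.mul (an_co 0 η)).div_const
    · exact an_co 1 η
    · exact (analyticAt_const.mul (an_co 0 _)).div_const
    · exact an_co 1 _
    · simp [L]
      field_simp
    · rfl
  have ok : (gc n lam R p).Ok 𝒜 W := by
    refine ⟨oP, oA, fun u _ => thin_axis 0 u, fun u h => G.maps (mem' u h),
      fun u h u' h' e => ?_, fun u h => ?_⟩
    · obtain ⟨m, a⟩ := (G.fib _ (mem' u h) _ (mem' u' h')).1 e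
      have b : Complex.log (u' 0) = Complex.log (u 0) + m * (2 * Real.pi * Complex.I) := by
        have c := congrFun a 0
        simp [L, tv] at c
        field_simp at c
        linear_combination c
      ext k
      fin_cases k
      · exact ((Complex.exp_log h'.2).symm.trans ((congrArg _ b).trans
          ((Complex.exp_periodic.int_mul _ _).trans (Complex.exp_log h.2)))).symm
      · simpa [L, tv] using (congrFun a 1).symm
    · obtain ⟨g, g1, g2, g3⟩ := (he.lb1 ![Complex.log (u 0), u 1]).inv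
      have g4 := g2.self_of_nhds
      rw [el u h.2] at g1 g3 g4
      refine (LBI.comp (c := lam) (T := L ∘ g) (G.lb _ (by
        rw [Function.comp_apply, g4]; exact mem' u h)) ((lb _).comp g1)).congr ?_
      filter_upwards [g3, oP.mem_nhds h.1] with v a b
      exact (key _ (a.symm ▸ b)).trans (congrArg _ a)
  refine ⟨ok, ?_, fun u h h0 => ?_⟩
  · rintro _ ⟨u, h, rfl⟩
    exact ⟨_, mem' u h, rfl⟩
  have e1 : map ex1 (FA 0 (u 1)) = 𝓝[(gc n lam R p).Aᶜ] u := by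
    rw [he.fg]
    congr 1
    ext k
    fin_cases k
    exacts [h0.symm, rfl]
  have e2 := PTC2.map_eq (T := L) (m := 0) (k := 0) (p := p / n) (q := 0) (r := 1)
    (div_pos (Nat.cast_pos.2 hp) (Nat.cast_pos.2 hn)) one_ne_zero
    (fun ζ => by simp [L]; ring) (fun ζ => by simp [L]) (u 1)
  rw [Complex.ofReal_one, one_mul] at e2
  have ev := ok.ev h
  rw [Pc.F, ← e1] at *
  conv_rhs => rw [← e2]
  rw [map_map, map_map]
  exact map_congr ((eventually_map.1 ev).mono fun ζ a => (key ζ a.1).symm)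

end Pool.Agent.Lib.MP_356dfe_ag.R
end
end
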